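import Pool.Agent.Helper230.ELinear

/-! From a parallel grammar to a clean system; the certificate of a violation. -/

namespace Pool.Agent.Helper230.E

section eol
variable {Q : Type} (pr : Q → List Q → Prop) (tm : Q → Prop)

/-- terminal words derived in exactly `τ` steps -/
def Yd (τ : ℕ) (u w : List Q) : Prop := It pr τ u w ∧ ∀ x ∈ w, tm x

def Bs (τ : ℕ) : Set Q := {X | ∃ w, Yd pr tm τ [X] w}
def Ns (τ : ℕ) : Set Q := {X | ∃ w, Yd pr tm τ [X] w ∧ w ≠ []}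

variable {pr tm}

theorem Yd.iff_sub {τ : ℕ} {u w : List Q} :
    Yd pr tm τ u w ↔ Sub (fun a w => Yd pr tm τ [a] w) u w := by
  constructor
  · rintro ⟨h1, h2⟩
    rw [It.iff_sub] at h1
    exact h1.mono' (fun a _ w1 _ hm h => ⟨h, fun x hx => h2 x (hm x hx)⟩)
  · intro h
    refine ⟨It.iff_sub.2 (h.mono (fun a _ w h => h.1)), ?_⟩
    exact h.forall_mem (fun a _ w h => h.2)

theorem Yd.append_iff {τ : ℕ} {u v w : List Q} :
    Yd pr tm τ (u ++ v) w ↔ ∃ w1 w2, w = w1 ++ w2 ∧ Yd pr tm τ u w1 ∧ Yd pr tm τ v w2 := by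
  rw [Yd.iff_sub, Sub.append_iff]
  simp only [← Yd.iff_sub]

theorem Yd.add_iff {σ τ : ℕ} {u w : List Q} :
    Yd pr tm (σ + τ) u w ↔ ∃ v, It pr σ u v ∧ Yd pr tm τ v w := by
  unfold Yd
  rw [It.add_iff]
  constructor
  · rintro ⟨⟨v, h1, h2⟩, h3⟩
    exact ⟨v, h1, h2, h3⟩
  · rintro ⟨v, h1, h2, h3⟩
    exact ⟨⟨v, h1, h2⟩, h3⟩

theorem Yd.mem_Bs {τ : ℕ} {u w : List Q} (h : Yd pr tm τ u w) : ∀ X ∈ u, X ∈ Bs pr tm τ := by
  intro X hX
  obtain ⟨a, b, rfl⟩ := List.append_of_mem hX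
  have e : a ++ X :: b = a ++ ([X] ++ b) := rfl
  rw [e, Yd.append_iff] at h
  obtain ⟨_, w2, -, -, h⟩ := h
  rw [Yd.append_iff] at h
  obtain ⟨w3, _, -, h, -⟩ := h
  exact ⟨w3, h⟩

theorem Yd.exists {τ : ℕ} {u : List Q} (h : ∀ X ∈ u, X ∈ Bs pr tm τ) : ∃ w, Yd pr tm τ u w := by
  obtain ⟨w, hw⟩ := Sub.exists (f := fun a w => Yd pr tm τ [a] w) (u := u) h
  exact ⟨w, Yd.iff_sub.2 hw⟩

theorem Bs_add {σ τ : ℕ} {X : Q} :
    X ∈ Bs pr tm (σ + τ) ↔ ∃ v, It pr σ [X] v ∧ ∀ Z ∈ v, Z ∈ Bs pr tm τ := by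
  constructor
  · rintro ⟨w, h⟩
    obtain ⟨v, h1, h2⟩ := Yd.add_iff.1 h
    exact ⟨v, h1, h2.mem_Bs⟩
  · rintro ⟨v, h1, h2⟩
    obtain ⟨w, hw⟩ := Yd.exists h2
    exact ⟨w, Yd.add_iff.2 ⟨v, h1, hw⟩⟩

theorem Ns_add {σ τ : ℕ} {X : Q} :
    X ∈ Ns pr tm (σ + τ) ↔ ∃ v, It pr σ [X] v ∧ (∀ Z ∈ v, Z ∈ Bs pr tm τ) ∧
      ∃ Z ∈ v, Z ∈ Ns pr tm τ := by
  constructor
  · rintro ⟨w, h, hne⟩
    obtain ⟨v, h1, h2⟩ := Yd.add_iff.1 h
    refine ⟨v, h1, h2.mem_Bs, ?_⟩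
    by_contra hc
    push Not at hc
    apply hne
    rw [Yd.iff_sub] at h2
    have h3 : w.length ≤ v.length * 0 := by
      refine h2.length_le ?_
      intro Z hZ w1 hw1
      by_contra h4
      exact hc Z hZ ⟨w1, hw1, by rintro rfl; simp at h4⟩
    exact List.eq_nil_of_length_eq_zero (by omega)
  · rintro ⟨v, h1, h2, Z, hZ, w1, hw1, hne⟩
    obtain ⟨a, b, rfl⟩ := List.append_of_mem hZ
    obtain ⟨wa, ha⟩ := Yd.exists (pr := pr) (tm := tm) (τ := τ) (u := a)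
      (fun X hX => h2 X (by simp [hX]))
    obtain ⟨wb, hb⟩ := Yd.exists (pr := pr) (tm := tm) (τ := τ) (u := b)
      (fun X hX => h2 X (by simp [hX]))
    refine ⟨wa ++ (w1 ++ wb), Yd.add_iff.2 ⟨_, h1, ?_⟩, ?_⟩
    · have e : a ++ Z :: b = a ++ ([Z] ++ b) := rfl
      rw [e, Yd.append_iff]
      exact ⟨wa, _, rfl, ha, Yd.append_iff.2 ⟨w1, wb, rfl, hw1, hb⟩⟩
    · intro h
      rw [List.append_eq_nil_iff, List.append_eq_nil_iff] at h
      exact hne h.2.1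

theorem Ns_sub_Bs {τ : ℕ} {X : Q} (h : X ∈ Ns pr tm τ) : X ∈ Bs pr tm τ := by
  obtain ⟨w, h, -⟩ := h
  exact ⟨w, h⟩

theorem profile_add {a b : ℕ} (hB : Bs pr tm a = Bs pr tm b) (hN : Ns pr tm a = Ns pr tm b)
    (c : ℕ) : Bs pr tm (c + a) = Bs pr tm (c + b) ∧ Ns pr tm (c + a) = Ns pr tm (c + b) := by
  constructor
  · ext X
    rw [Bs_add, Bs_add, hB]
  · ext X
    rw [Ns_add, Ns_add, hB, hN]

theorem profile_mul {t π : ℕ} (hB : Bs pr tm (π + t) = Bs pr tm t)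
    (hN : Ns pr tm (π + t) = Ns pr tm t) (k : ℕ) :
    Bs pr tm (k * π + t) = Bs pr tm t ∧ Ns pr tm (k * π + t) = Ns pr tm t := by
  induction k with
  | zero => rw [Nat.zero_mul, Nat.zero_add]; exact ⟨rfl, rfl⟩
  | succ k ih =>
    have e : (k + 1) * π + t = k * π + (π + t) := by ring
    have h := profile_add hB hN (k * π)
    rw [e, h.1, h.2]
    exact ih

theorem exists_period [Finite Q] (pr : Q → List Q → Prop) (tm : Q → Prop) :
    ∃ t π, 1 ≤ π ∧ Bs pr tm (π + t) = Bs pr tm t ∧ Ns pr tm (π + t) = Ns pr tm t := by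
  obtain ⟨a, b, hab, he⟩ := Finite.exists_ne_map_eq_of_infinite
    (fun τ : ℕ => (Bs pr tm τ, Ns pr tm τ))
  wlog hlt : a < b generalizing a b
  · exact this b a hab.symm he.symm (by omega)
  obtain ⟨d, rfl⟩ := Nat.exists_eq_add_of_lt hlt
  simp only [Prod.mk.injEq] at he
  refine ⟨a, d + 1, by omega, ?_, ?_⟩
  · rw [show d + 1 + a = a + d + 1 by omega]; exact he.1.symm
  · rw [show d + 1 + a = a + d + 1 by omega]; exact he.2.symm

open Classical in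
/-- the letters lying in `N` -/
noncomputable def fl (N : Set Q) (u : List Q) : List N :=
  u.filterMap (fun X => if h : X ∈ N then some ⟨X, h⟩ else none)

variable {N : Set Q}

theorem fl_nil : fl N [] = [] := rfl

theorem fl_append (u v : List Q) : fl N (u ++ v) = fl N u ++ fl N v := by
  simp [fl]

theorem fl_cons_mem {X : Q} (h : X ∈ N) (u : List Q) : fl N (X :: u) = ⟨X, h⟩ :: fl N u := by
  simp [fl, h]

theorem fl_cons_not_mem {X : Q} (h : X ∉ N) (u : List Q) : fl N (X :: u) = fl N u := by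
  simp [fl, h]

theorem fl_eq_nil {u : List Q} : fl N u = [] ↔ ∀ X ∈ u, X ∉ N := by
  induction u with
  | nil => simp [fl_nil]
  | cons X u ih =>
    by_cases h : X ∈ N
    · rw [fl_cons_mem h]
      simp [h]
    · rw [fl_cons_not_mem h, ih]
      simp [h]

theorem fl_split {u : List Q} {a b : List N} {Z : N} (h : fl N u = a ++ Z :: b) :
    ∃ u1 u2, u = u1 ++ Z.1 :: u2 ∧ fl N u1 = a ∧ fl N u2 = b := by
  induction u generalizing a with
  | nil => rw [fl_nil] at h; simp at h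
  | cons X u ih =>
    by_cases hX : X ∈ N
    · rw [fl_cons_mem hX] at h
      cases a with
      | nil =>
        simp only [List.nil_append, List.cons.injEq] at h
        obtain ⟨rfl, rfl⟩ := h
        exact ⟨[], u, rfl, fl_nil, rfl⟩
      | cons Y a =>
        simp only [List.cons_append, List.cons.injEq] at h
        obtain ⟨rfl, h⟩ := h
        obtain ⟨u1, u2, rfl, h1, h2⟩ := ih h
        exact ⟨X :: u1, u2, rfl, by rw [fl_cons_mem hX, h1], h2⟩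
    · rw [fl_cons_not_mem hX] at h
      obtain ⟨u1, u2, rfl, h1, h2⟩ := ih h
      exact ⟨X :: u1, u2, rfl, by rw [fl_cons_not_mem hX, h1], h2⟩

end eol

section clean
variable {Q : Type} (pr : Q → List Q → Prop) (tm : Q → Prop) (t π : ℕ)

/-- one macro step of the clean system -/
def HC (X : Ns pr tm t) (ξ : List (Ns pr tm t)) : Prop :=
  ∃ w, It pr π [X.1] w ∧ (∀ Z ∈ w, Z ∈ Bs pr tm t) ∧ ξ = fl _ w

def ωC (X : Ns pr tm t) (w : List Q) : Prop := Yd pr tm t [X.1] w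

variable {pr tm t π}

theorem clean_of [Finite Q] (hpr : ∀ X, {α | pr X α}.Finite)
    (hN : Ns pr tm (π + t) = Ns pr tm t) : Clean (HC pr tm t π) (ωC pr tm t) := by
  refine ⟨?_, ?_, ?_, ?_⟩
  · intro X
    refine ((It.finite hpr π (u := [X.1])).image (fl (Ns pr tm t))).subset ?_
    rintro ξ ⟨w, h1, -, rfl⟩
    exact ⟨w, h1, rfl⟩
  · intro X
    exact (It.finite hpr t).subset (fun w h => h.1)
  · intro X
    have h : X.1 ∈ Ns pr tm (π + t) := by rw [hN]; exact X.2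
    obtain ⟨v, h1, h2, Z, hZ, hZN⟩ := Ns_add.1 h
    exact ⟨fl _ v, ⟨v, h1, h2, rfl⟩, fun h => fl_eq_nil.1 h Z hZ hZN⟩
  · intro X
    exact X.2

theorem sub_HC (hB : Bs pr tm (π + t) = Bs pr tm t) (hN : Ns pr tm (π + t) = Ns pr tm t)
    {u : List Q} (hu : ∀ X ∈ u, X ∈ Bs pr tm t) (ζ : List (Ns pr tm t)) :
    Sub (HC pr tm t π) (fl _ u) ζ ↔
      ∃ v, It pr π u v ∧ (∀ Z ∈ v, Z ∈ Bs pr tm t) ∧ fl _ v = ζ := by
  induction u generalizing ζ with
  | nil =>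
    rw [fl_nil, Sub.nil_iff]
    constructor
    · rintro rfl
      exact ⟨[], It.nil π, by simp, fl_nil⟩
    · rintro ⟨v, h1, -, rfl⟩
      rw [It.nil_iff] at h1
      subst h1
      exact fl_nil
  | cons X u ih =>
    have hu' : ∀ X ∈ u, X ∈ Bs pr tm t := fun Y hY => hu Y (List.mem_cons_of_mem _ hY)
    have hXB := hu X List.mem_cons_self
    by_cases hX : X ∈ Ns pr tm t
    · rw [fl_cons_mem hX, Sub.cons_iff]
      constructor
      · rintro ⟨w1, w2, rfl, ⟨v1, h1, h2, rfl⟩, h3⟩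
        obtain ⟨v2, h4, h5, rfl⟩ := (ih hu' _).1 h3
        refine ⟨v1 ++ v2, It.append (u := [X]) h1 h4, ?_, fl_append _ _⟩
        intro Z hZ
        rcases List.mem_append.1 hZ with hZ | hZ
        · exact h2 Z hZ
        · exact h5 Z hZ
      · rintro ⟨v, h1, h2, rfl⟩
        obtain ⟨v1, v2, rfl, h3, h4⟩ := It.split (u := [X]) (v := u) h1
        refine ⟨fl _ v1, fl _ v2, fl_append _ _, ⟨v1, h3, fun Z hZ => h2 Z (by simp [hZ]), rfl⟩,
          (ih hu' _).2 ⟨v2, h4, fun Z hZ => h2 Z (by simp [hZ]), rfl⟩⟩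
    · have hdead : ∀ v1, It pr π [X] v1 → (∀ Z ∈ v1, Z ∈ Bs pr tm t) →
          fl (Ns pr tm t) v1 = [] := by
        intro v1 h1 h2
        rw [fl_eq_nil]
        intro Z hZ hZN
        apply hX
        rw [← hN]
        exact Ns_add.2 ⟨v1, h1, h2, Z, hZ, hZN⟩
      rw [fl_cons_not_mem hX, ih hu']
      constructor
      · rintro ⟨v2, h4, h5, rfl⟩
        rw [← hB] at hXB
        obtain ⟨v1, h1, h2⟩ := Bs_add.1 hXB
        refine ⟨v1 ++ v2, It.append (u := [X]) h1 h4, ?_, ?_⟩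
        · intro Z hZ
          rcases List.mem_append.1 hZ with hZ | hZ
          · exact h2 Z hZ
          · exact h5 Z hZ
        · rw [fl_append, hdead v1 h1 h2]
          rfl
      · rintro ⟨v, h1, h2, rfl⟩
        obtain ⟨v1, v2, rfl, h3, h4⟩ := It.split (u := [X]) (v := u) h1
        refine ⟨v2, h4, fun Z hZ => h2 Z (by simp [hZ]), ?_⟩
        rw [fl_append, hdead v1 h3 (fun Z hZ => h2 Z (by simp [hZ]))]
        rfl

theorem it_HC (hB : Bs pr tm (π + t) = Bs pr tm t) (hN : Ns pr tm (π + t) = Ns pr tm t)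
    (k : ℕ) {u : List Q} (hu : ∀ X ∈ u, X ∈ Bs pr tm t) (ζ : List (Ns pr tm t)) :
    It (HC pr tm t π) k (fl _ u) ζ ↔
      ∃ v, It pr (k * π) u v ∧ (∀ Z ∈ v, Z ∈ Bs pr tm t) ∧ fl _ v = ζ := by
  induction k generalizing u with
  | zero =>
    rw [Nat.zero_mul, It]
    constructor
    · rintro rfl; exact ⟨u, rfl, hu, rfl⟩
    · rintro ⟨v, h1, -, rfl⟩
      rw [It] at h1
      subst h1
      rfl
  | succ k ih =>
    rw [show (k + 1) * π = π + k * π by ring]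
    constructor
    · rintro ⟨x, h1, h2⟩
      obtain ⟨v, h3, h4, rfl⟩ := (sub_HC hB hN hu x).1 h1
      obtain ⟨v', h5, h6, h7⟩ := (ih h4).1 h2
      exact ⟨v', It.add_iff.2 ⟨v, h3, h5⟩, h6, h7⟩
    · rintro ⟨v', h1, h2, h3⟩
      obtain ⟨v, h4, h5⟩ := It.add_iff.1 h1
      have hv : ∀ X ∈ v, X ∈ Bs pr tm t := by
        intro X hX
        obtain ⟨a, b, rfl⟩ := List.append_of_mem hX
        obtain ⟨_, w2, rfl, -, h6⟩ := It.split h5
        obtain ⟨w3, w4, rfl, h7, -⟩ := It.split (u := [X]) (v := b) h6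
        have h8 : X ∈ Bs pr tm (k * π + t) := Bs_add.2 ⟨w3, h7, fun Z hZ => h2 Z (by simp [hZ])⟩
        rwa [(profile_mul hB hN k).1] at h8
      exact ⟨fl _ v, (sub_HC hB hN hu _).2 ⟨v, h4, hv, rfl⟩, (ih hv).2 ⟨v', h5, h2, h3⟩⟩

theorem fin_HC (hB : Bs pr tm (π + t) = Bs pr tm t) (hN : Ns pr tm (π + t) = Ns pr tm t)
    (k : ℕ) {u : List Q} (hu : ∀ X ∈ u, X ∈ Bs pr tm t) (w : List Q) :
    Fin (HC pr tm t π) (ωC pr tm t) k (fl _ u) w ↔ Yd pr tm (k * π + t) u w := by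
  have base : ∀ u : List Q, (∀ X ∈ u, X ∈ Bs pr tm t) → ∀ w,
      Sub (ωC pr tm t) (fl _ u) w ↔ Yd pr tm t u w := by
    intro u hu w
    rw [Yd.iff_sub]
    induction u generalizing w with
    | nil => rw [fl_nil, Sub.nil_iff, Sub.nil_iff]
    | cons X u ih =>
      have hu' : ∀ X ∈ u, X ∈ Bs pr tm t := fun Y hY => hu Y (List.mem_cons_of_mem _ hY)
      by_cases hX : X ∈ Ns pr tm t
      · rw [fl_cons_mem hX, Sub.cons_iff, Sub.cons_iff]
        constructor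
        · rintro ⟨w1, w2, rfl, h1, h2⟩
          exact ⟨w1, w2, rfl, h1, (ih hu' _).1 h2⟩
        · rintro ⟨w1, w2, rfl, h1, h2⟩
          exact ⟨w1, w2, rfl, h1, (ih hu' _).2 h2⟩
      · rw [fl_cons_not_mem hX, ih hu', Sub.cons_iff]
        have hdead : ∀ w1, Yd pr tm t [X] w1 → w1 = [] := by
          intro w1 h1
          by_contra hc
          exact hX ⟨w1, h1, hc⟩
        constructor
        · intro h
          obtain ⟨w1, h1⟩ := hu X List.mem_cons_self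
          have := hdead w1 h1
          subst this
          exact ⟨[], w, rfl, h1, h⟩
        · rintro ⟨w1, w2, rfl, h1, h2⟩
          rw [hdead w1 h1]
          exact h2
  constructor
  · rintro ⟨ζ, h1, h2⟩
    obtain ⟨v, h3, h4, rfl⟩ := (it_HC hB hN k hu ζ).1 h1
    exact Yd.add_iff.2 ⟨v, h3, (base v h4 w).1 h2⟩
  · intro h
    obtain ⟨v, h1, h2⟩ := Yd.add_iff.1 h
    have hv := h2.mem_Bs
    exact ⟨fl _ v, (it_HC hB hN k hu _).2 ⟨v, h1, hv, rfl⟩, (base v hv w).2 h2⟩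

end clean

section cert
variable {Q : Type} (pr : Q → List Q → Prop) (tm : Q → Prop)

/-- markers: `0, 1, 2` are spine markers, `3, 4, 5` are counted markers -/
abbrev Mk := _root_.Fin 6

/-- words with marker contents -/
abbrev MW (Q : Type) := List (Q × List Mk)

def conts {Q : Type} (w : MW Q) : List Mk := w.flatMap Prod.snd

def MOK (τ : ℕ) (sym : Mk → Option Q) (w : MW Q) : Prop :=
  ∀ p ∈ w, p.1 ∈ Bs pr tm τ ∧ (p.2 = [] ∨ ∃ m, p.2 = [m] ∧ p.1 ∈ Ns pr tm τ ∧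
    ∀ Z, sym m = some Z → p.1 = Z)

/-- erasing the spine markers -/
def era (l : List Mk) : List Mk := l.filter (fun m => 3 ≤ m.val)

structure Cert (S : Q) where
  l : ℕ
  P : ℕ
  τ : ℕ
  hP : 1 ≤ P
  hτ : 1 ≤ τ
  hB : Bs pr tm (P + τ) = Bs pr tm τ
  hN : Ns pr tm (P + τ) = Ns pr tm τ
  sym : Mk → Option Q
  κ : Mk → List Mk
  κ0 : List Mk
  κ0_ne : κ0 ≠ []
  κ_len : ∀ m, (κ m).length ≤ 6
  κ0_len : κ0.length ≤ 6
  κ_ne : ∀ m, κ m ≠ []
  κ_a : ∀ m, sym m = none → κ m = [m]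
  init : ∃ w : MW Q, It pr l [S] (w.map Prod.fst) ∧ MOK pr tm τ sym w ∧ conts w = κ0
  loop : ∀ m Z, sym m = some Z →
    ∃ w : MW Q, It pr P [Z] (w.map Prod.fst) ∧ MOK pr tm τ sym w ∧ conts w = κ m
  count : ∀ j, era ((fun x : List Mk => x.flatMap κ)^[j] κ0) =
    List.replicate j 3 ++ List.replicate j 4 ++ List.replicate j 5

end cert

end Pool.Agent.Helper230.E
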