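import Pool.Agent.Helper230.GFGen
import Pool.Agent.Helper230.EClean

/-! A swapping argument for context-free languages. -/

namespace Pool.Agent.Helper230.E

section swap
variable {Q : Type} {R : Set (Q × List (Q ⊕ ℕ))} {f : ℕ → List Mk} {F m K : ℕ}

theorem find_node (hF : ∀ x, (f x).length ≤ F) (hm : ∀ r ∈ R, r.2.length ≤ m)
    {n : ℕ} {β : List (Q ⊕ ℕ)} {w : List ℕ} (h : DerN (ExR R) n β w) :
    (w.flatMap f).length ≤ β.length * (K + F) ∨
    ∃ q l y r, w = l ++ y ++ r ∧ K ≤ (y.flatMap f).length ∧
      (y.flatMap f).length ≤ m * (K + F) ∧ Der (ExR R) [Sum.inl q] y ∧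
      ∀ y', Der (ExR R) [Sum.inl q] y' → Der (ExR R) β (l ++ y' ++ r) := by
  induction h with
  | nil n => left; simp
  | @ter n u w a hd ih =>
    rcases ih with h | ⟨q, l, y, r, rfl, h1, h2, h3, h4⟩
    · left
      simp only [List.flatMap_cons, List.length_append, List.length_cons]
      have := hF a
      rw [Nat.add_mul]
      omega
    · right
      refine ⟨q, a :: l, y, r, by simp, h1, h2, h3, ?_⟩
      intro y' hy'
      have := Der.ter a (h4 y' hy')
      simpa using this
  | @nt n q x u w1 w2 hx hd1 hd2 ih1 ih2 =>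
    rcases ih1 with h | ⟨q', l, y, r, rfl, h1, h2, h3, h4⟩
    · by_cases hK : K ≤ (w1.flatMap f).length
      · right
        refine ⟨q, [], w1, w2, by simp, hK, ?_, Der.single hx ⟨n, hd1⟩, ?_⟩
        · exact h.trans (Nat.mul_le_mul_right _ (hm _ hx))
        · intro y' hy'
          have := hy'.append (v := u) ⟨_, hd2⟩
          simpa using this
      · rcases ih2 with h' | ⟨q', l, y, r, rfl, h1, h2, h3, h4⟩
        · left
          simp only [List.flatMap_append, List.length_append, List.length_cons]
          rw [Nat.add_mul]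
          omega
        · right
          refine ⟨q', w1 ++ l, y, r, by simp, h1, h2, h3, ?_⟩
          intro y' hy'
          have := Der.nt hx ⟨_, hd1⟩ (h4 y' hy')
          simpa using this
    · right
      refine ⟨q', l, y, r ++ w2, by simp, h1, h2, h3, ?_⟩
      intro y' hy'
      have := Der.nt hx (h4 y' hy') ⟨_, hd2⟩
      simpa using this

def abc (i : ℕ) : List Mk := List.replicate i 3 ++ List.replicate i 4 ++ List.replicate i 5

theorem abc_length (i : ℕ) : (abc i).length = 3 * i := by
  simp [abc]; omega

theorem abc_count3 (i : ℕ) : (abc i).count 3 = i := by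
  simp [abc, List.count_replicate]

theorem abc_count5 (i : ℕ) : (abc i).count 5 = i := by
  simp [abc, List.count_replicate]

theorem abc_factor {n : ℕ} {a b c : List Mk} (h : a ++ b ++ c = abc n) (hb : b.length < n) :
    b.count 3 = 0 ∨ b.count 5 = 0 := by
  unfold abc at h
  by_cases ha : n ≤ a.length
  · left
    have h1 : List.replicate n (3 : Mk) <+: a ++ (b ++ c) := by
      rw [← List.append_assoc, h, List.append_assoc]
      exact List.prefix_append _ _
    obtain ⟨t, rfl⟩ := List.prefix_of_prefix_length_le h1 (List.prefix_append a (b ++ c))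
      (by simpa using ha)
    simp only [List.append_assoc, List.append_cancel_left_eq] at h
    rw [List.count_eq_zero]
    intro hmem
    have : (3 : Mk) ∈ List.replicate n (4 : Mk) ++ List.replicate n 5 := by
      rw [← h]; simp [hmem]
    simp only [List.mem_append, List.mem_replicate] at this
    rcases this with ⟨-, h⟩ | ⟨-, h⟩ <;> exact absurd h (by decide)
  · right
    have h1 : a ++ b <+: (List.replicate n (3 : Mk) ++ List.replicate n 4) ++
        List.replicate n 5 := by
      rw [← h]
      exact List.prefix_append _ _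
    have h2 := List.prefix_of_prefix_length_le h1 (List.prefix_append _ (List.replicate n 5))
      (by simp; omega)
    rw [List.count_eq_zero]
    intro hmem
    have := h2.subset (List.mem_append_right a hmem)
    simp only [List.mem_append, List.mem_replicate] at this
    rcases this with ⟨-, h⟩ | ⟨-, h⟩ <;> exact absurd h (by decide)

theorem not_cf [Finite Q] (hR : R.Finite) (s : Q) (good : ℕ → Prop)
    (hF : ∀ x, (f x).length ≤ F)
    (h1 : ∀ u, u ≠ [] → Der (ExR R) [Sum.inl s] u → (∀ x ∈ u, good x) → ∃ i, u.flatMap f = abc i)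
    (h2 : ∀ i, ∃ u, Der (ExR R) [Sum.inl s] u ∧ (∀ x ∈ u, good x) ∧ u.flatMap f = abc (i + 1)) :
    False := by
  obtain ⟨m, hm⟩ := (hR.image (fun r => r.2.length)).bddAbove
  have hm' : ∀ r ∈ R, r.2.length ≤ m := fun r hr => hm ⟨r, hr, rfl⟩
  have key : ∀ K : ℕ, ∃ (p : Q × Bool) (n : ℕ) (l y r : List ℕ), 1 ≤ n ∧
      (l ++ y ++ r).flatMap f = abc n ∧ (∀ x ∈ l ++ y ++ r, good x) ∧
      K ≤ (y.flatMap f).length ∧ (y.flatMap f).length ≤ m * (K + F) ∧
      Der (ExR R) [Sum.inl p.1] y ∧
      (∀ y', Der (ExR R) [Sum.inl p.1] y' → Der (ExR R) [Sum.inl s] (l ++ y' ++ r)) ∧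
      (p.2 = true → (y.flatMap f).count 3 = 0) ∧ (p.2 = false → (y.flatMap f).count 5 = 0) := by
    intro K
    obtain ⟨u, ⟨n, hu⟩, hg, hfu⟩ := h2 ((m + 1) * (K + F))
    rcases find_node (K := K) hF hm' hu with h | ⟨q, l, y, r, rfl, h3, h4, h5, h6⟩
    · exfalso
      rw [hfu, abc_length] at h
      simp only [List.length_cons, List.length_nil] at h
      have : K + F ≤ (m + 1) * (K + F) := Nat.le_mul_of_pos_left _ (Nat.succ_pos m)
      omega
    · have h7 : (y.flatMap f).length < (m + 1) * (K + F) + 1 := by
        rw [Nat.add_mul]; omega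
      rw [List.flatMap_append, List.flatMap_append] at hfu
      rcases abc_factor hfu h7 with h8 | h8
      · exact ⟨(q, true), _, l, y, r, Nat.le_add_left _ _, by simpa using hfu, hg, h3, h4, h5, h6,
          fun _ => h8, fun h => by simp at h⟩
      · exact ⟨(q, false), _, l, y, r, Nat.le_add_left _ _, by simpa using hfu, hg, h3, h4, h5, h6,
          fun h => by simp at h, fun _ => h8⟩
  choose p n l y r hn hfw hg hK hB hy hctx ht hf using key
  obtain ⟨p0, hp0⟩ := Finite.exists_infinite_fiber p
  have hinf : Set.Infinite (p ⁻¹' {p0}) := Set.infinite_coe_iff.1 hp0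
  obtain ⟨K1, hK1⟩ := hinf.nonempty
  obtain ⟨K2, hK2, hlt⟩ := hinf.exists_gt (m * (K1 + F))
  have e1 : p K1 = p0 := hK1
  have e2 : p K2 = p0 := hK2
  have hder : Der (ExR R) [Sum.inl s] (l K1 ++ y K2 ++ r K1) := by
    apply hctx K1
    rw [e1, ← e2]
    exact hy K2
  have hgood : ∀ x ∈ l K1 ++ y K2 ++ r K1, good x := by
    intro x hx
    simp only [List.mem_append] at hx
    rcases hx with (hx | hx) | hx
    · exact hg K1 x (by simp [hx])
    · exact hg K2 x (by simp [hx])
    · exact hg K1 x (by simp [hx])
  have hlen1 := congrArg List.length (hfw K1)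
  rw [abc_length] at hlen1
  simp only [List.flatMap_append, List.length_append] at hlen1
  have hne : l K1 ++ y K2 ++ r K1 ≠ [] := by
    intro h
    simp only [List.append_eq_nil_iff] at h
    have := hK K2
    rw [h.1.2] at this
    simp at this
    omega
  obtain ⟨i, hi⟩ := h1 _ hne hder hgood
  have hlen2 := congrArg List.length hi
  rw [abc_length] at hlen2
  simp only [List.flatMap_append, List.length_append] at hlen2
  have hcase : i = n K1 := by
    cases hb : p0.2 with
    | true =>
      have c1 := ht K1 (by rw [e1]; exact hb)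
      have c2 := ht K2 (by rw [e2]; exact hb)
      have c3 := congrArg (List.count 3) (hfw K1)
      have c4 := congrArg (List.count 3) hi
      rw [abc_count3] at c3 c4
      simp only [List.flatMap_append, List.count_append] at c3 c4
      omega
    | false =>
      have c1 := hf K1 (by rw [e1]; exact hb)
      have c2 := hf K2 (by rw [e2]; exact hb)
      have c3 := congrArg (List.count 5) (hfw K1)
      have c4 := congrArg (List.count 5) hi
      rw [abc_count5] at c3 c4
      simp only [List.flatMap_append, List.count_append] at c3 c4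
      omega
  subst hcase
  have := hK K2
  have := hB K1
  omega

end swap

end Pool.Agent.Helper230.E
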