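import Pool.Agent.Helper230.CReg
import Pool.Agent.Helper230.ESwap

/-! A context-free language is linear or its grammar has two parallel two-sided pumps. -/

namespace Pool.Agent.Helper230.E

section hd
variable {Q : Type} (R : Set (Q × List (Q ⊕ ℕ)))

inductive HD : List (Q ⊕ ℕ) → List (Q ⊕ ℕ) → Prop
  | nil : HD [] []
  | keep (x : Q ⊕ ℕ) {β γ : List (Q ⊕ ℕ)} : HD β γ → HD (x :: β) (x :: γ)
  | expand {q : Q} {α β γ1 γ2 : List (Q ⊕ ℕ)} : (q, α) ∈ R → HD α γ1 → HD β γ2 →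
      HD (Sum.inl q :: β) (γ1 ++ γ2)

variable {R}

theorem HD.refl (β : List (Q ⊕ ℕ)) : HD R β β := by
  induction β with
  | nil => exact HD.nil
  | cons x β ih => exact HD.keep x ih

theorem HD.append {β1 β2 γ1 γ2 : List (Q ⊕ ℕ)} (h1 : HD R β1 γ1) (h2 : HD R β2 γ2) :
    HD R (β1 ++ β2) (γ1 ++ γ2) := by
  induction h1 with
  | nil => exact h2
  | keep x _ ih => exact HD.keep x ih
  | expand h3 h4 _ _ ih =>
    rw [List.append_assoc]
    exact HD.expand h3 h4 ih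

theorem HD.split {β1 β2 γ : List (Q ⊕ ℕ)} (h : HD R (β1 ++ β2) γ) :
    ∃ γ1 γ2, γ = γ1 ++ γ2 ∧ HD R β1 γ1 ∧ HD R β2 γ2 := by
  induction β1 generalizing γ with
  | nil => exact ⟨[], γ, rfl, HD.nil, h⟩
  | cons x β1 ih =>
    rw [List.cons_append] at h
    cases h with
    | keep x h =>
      obtain ⟨γ1, γ2, rfl, h1, h2⟩ := ih h
      exact ⟨x :: γ1, γ2, rfl, HD.keep x h1, h2⟩
    | expand h3 h4 h5 =>
      obtain ⟨γ1, γ2, rfl, h1, h2⟩ := ih h5
      exact ⟨_, γ2, (List.append_assoc _ _ _).symm, HD.expand h3 h4 h1, h2⟩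

theorem HD.trans {β γ δ : List (Q ⊕ ℕ)} (h1 : HD R β γ) (h2 : HD R γ δ) : HD R β δ := by
  induction h1 generalizing δ with
  | nil => exact h2
  | keep x _ ih =>
    obtain ⟨δ1, δ2, rfl, h3, h4⟩ := HD.split (β1 := [x]) h2
    exact HD.append (β1 := [x]) h3 (ih h4)
  | expand h3 _ _ ih1 ih2 =>
    obtain ⟨δ1, δ2, rfl, h4, h5⟩ := h2.split
    exact HD.expand h3 (ih1 h4) (ih2 h5)

theorem HD.of_derN {n : ℕ} {β : List (Q ⊕ ℕ)} {w : List ℕ} (h : DerN (ExR R) n β w) :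
    HD R β (w.map Sum.inr) := by
  induction h with
  | nil n => exact HD.nil
  | ter a _ ih => exact HD.keep _ ih
  | nt hx _ _ ih1 ih2 =>
    rw [List.map_append]
    exact HD.expand hx ih1 ih2

theorem HD.of_der {β : List (Q ⊕ ℕ)} {w : List ℕ} (h : Der (ExR R) β w) :
    HD R β (w.map Sum.inr) := by
  obtain ⟨n, h⟩ := h
  exact HD.of_derN h

theorem HD.to_der {β γ : List (Q ⊕ ℕ)} (h : HD R β γ) : ∀ w, Der (ExR R) γ w →
    Der (ExR R) β w := by
  induction h with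
  | nil => exact fun w h => h
  | keep x _ ih =>
    intro w hw
    obtain ⟨w1, w2, rfl, h1, h2⟩ := Der.split (u := [x]) hw
    exact Der.append (u := [x]) h1 (ih w2 h2)
  | expand h3 _ _ ih1 ih2 =>
    intro w hw
    obtain ⟨w1, w2, rfl, h1, h2⟩ := hw.split
    exact Der.nt h3 (ih1 w1 h1) (ih2 w2 h2)

theorem HD.ctx_der {β : List (Q ⊕ ℕ)} {Z : Q} {u v w : List ℕ}
    (h : HD R β (u.map Sum.inr ++ Sum.inl Z :: v.map Sum.inr)) (hw : Der (ExR R) [Sum.inl Z] w) :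
    Der (ExR R) β (u ++ (w ++ v)) :=
  h.to_der _ ((Der.of_ters u).append (Der.append (u := [Sum.inl Z]) hw (Der.of_ters v)))

variable (R) in
def RelC (X Z : Q) (fl fr : Bool) : Prop :=
  ∃ u v : List ℕ, HD R [Sum.inl X] (u.map Sum.inr ++ Sum.inl Z :: v.map Sum.inr) ∧
    (fl = true → u ≠ []) ∧ (fr = true → v ≠ [])

theorem RelC.refl (X : Q) : RelC R X X false false := ⟨[], [], HD.refl _, by simp, by simp⟩

theorem RelC.mono {X Z : Q} {fl fr fl' fr' : Bool} (h : RelC R X Z fl fr)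
    (hl : fl' = true → fl = true) (hr : fr' = true → fr = true) : RelC R X Z fl' fr' := by
  obtain ⟨u, v, h1, h2, h3⟩ := h
  exact ⟨u, v, h1, fun h => h2 (hl h), fun h => h3 (hr h)⟩

theorem RelC.comp {X Y Z : Q} {a b c d : Bool} (h1 : RelC R X Y a b) (h2 : RelC R Y Z c d) :
    RelC R X Z (a || c) (b || d) := by
  obtain ⟨u, v, h3, h4, h5⟩ := h1
  obtain ⟨u', v', h6, h7, h8⟩ := h2
  refine ⟨u ++ u', v' ++ v, ?_, ?_, ?_⟩
  · have h9 := h3.trans ((HD.refl (u.map Sum.inr)).append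
      (HD.append (β1 := [Sum.inl Y]) h6 (HD.refl (v.map Sum.inr))))
    simpa using h9
  · intro h h'
    rw [List.append_eq_nil_iff] at h'
    rw [Bool.or_eq_true] at h
    rcases h with h | h
    · exact h4 h h'.1
    · exact h7 h h'.2
  · intro h h'
    rw [List.append_eq_nil_iff] at h'
    rw [Bool.or_eq_true] at h
    rcases h with h | h
    · exact h5 h h'.2
    · exact h8 h h'.1

theorem RelC.comp' {X Y Z : Q} {a b c d e f : Bool} (he : (a || c) = e) (hf : (b || d) = f)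
    (h1 : RelC R X Y a b) (h2 : RelC R Y Z c d) : RelC R X Z e f := by
  subst he hf
  exact h1.comp h2

theorem HD.rule {X Y : Q} {γ δ : List (Q ⊕ ℕ)} {u v : List ℕ}
    (h : (X, γ ++ Sum.inl Y :: δ) ∈ R) (hu : Der (ExR R) γ u) (hv : Der (ExR R) δ v) :
    HD R [Sum.inl X] (u.map Sum.inr ++ Sum.inl Y :: v.map Sum.inr) := by
  have h1 := HD.expand h ((HD.of_der hu).append (HD.keep (Sum.inl Y) (HD.of_der hv))) HD.nil
  simpa using h1

/-- the words derived from a form -/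
def DW (R : Set (Q × List (Q ⊕ ℕ))) (β : List (Q ⊕ ℕ)) : Set (List ℕ) := {w | Der (ExR R) β w}

theorem DW_nil : DW R [] = {[]} := by
  ext w
  constructor
  · rintro ⟨n, h⟩
    cases h
    rfl
  · rintro rfl
    exact Der.nil

theorem DW_append (β γ : List (Q ⊕ ℕ)) :
    DW R (β ++ γ) = {w | ∃ a ∈ DW R β, ∃ b ∈ DW R γ, w = a ++ b} := by
  ext w
  constructor
  · intro h
    obtain ⟨a, b, rfl, h1, h2⟩ := Der.split h
    exact ⟨a, h1, b, h2, rfl⟩
  · rintro ⟨a, h1, b, h2, rfl⟩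
    exact Der.append h1 h2

theorem DW_ter (a : ℕ) : DW R [Sum.inr a] = {[a]} := by
  ext w
  constructor
  · rintro ⟨n, h⟩
    cases h with
    | ter a h =>
      cases h
      rfl
  · rintro rfl
    exact Der.of_ters [a]

theorem Reg.word (β : List (Q ⊕ ℕ)) (h : ∀ Z, Sum.inl Z ∈ β → Reg (DW R [Sum.inl Z])) :
    Reg (DW R β) := by
  induction β with
  | nil =>
    rw [DW_nil]
    exact Reg.finite (Set.finite_singleton _)
  | cons x β ih =>
    have e : x :: β = [x] ++ β := rfl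
    rw [e, DW_append]
    refine Reg.mul ?_ (ih (fun Z hZ => h Z (List.mem_cons_of_mem _ hZ)))
    rcases x with q | a
    · exact h q List.mem_cons_self
    · rw [DW_ter]
      exact Reg.finite (Set.finite_singleton _)

end hd

section comp
variable {Q : Type} {R : Set (Q × List (Q ⊕ ℕ))}

/-- edges inside a set of nonterminals -/
abbrev CI (R : Set (Q × List (Q ⊕ ℕ))) (C : Set Q) : Type :=
  {i : C × List (Q ⊕ ℕ) × C × List (Q ⊕ ℕ) //
    (i.1.1, i.2.1 ++ Sum.inl i.2.2.1.1 :: i.2.2.2) ∈ R ∧ (DW R i.2.1).Nonempty ∧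
      (DW R i.2.2.2).Nonempty}

theorem finite_CI (hR : R.Finite) (C : Set Q) : Finite (CI R C) := by
  obtain ⟨m, hm⟩ := (hR.image (fun r => r.2.length)).bddAbove
  have hf : Finite R := hR
  let f : CI R C → R × _root_.Fin (m + 1) := fun i =>
    (⟨_, i.2.1⟩, ⟨i.1.2.1.length, by
      have := hm ⟨_, i.2.1, rfl⟩
      simp only [List.length_append, List.length_cons] at this
      omega⟩)
  apply Finite.of_injective f
  rintro ⟨⟨⟨a, ha⟩, b, ⟨c, hc⟩, d⟩, h⟩ ⟨⟨⟨a', ha'⟩, b', ⟨c', hc'⟩, d'⟩, h'⟩ he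
  simp only [f, Prod.mk.injEq, Subtype.mk.injEq, Fin.mk.injEq] at he
  obtain ⟨⟨rfl, h1⟩, h2⟩ := he
  obtain ⟨rfl, h3⟩ := List.append_inj h1 h2
  simp only [List.cons.injEq, Sum.inl.injEq] at h3
  obtain ⟨rfl, rfl⟩ := h3
  rfl

def cEx (R : Set (Q × List (Q ⊕ ℕ))) (C : Set Q) (v : C) : Set (List ℕ) :=
  ⋃ α ∈ {α | (v.1, α) ∈ R ∧ ∀ Z ∈ C, Sum.inl Z ∉ α}, DW R α

theorem comp_eq (C : Set Q) (v : C) :
    DW R [Sum.inl v.1] = {w | GRun (fun i : CI R C => i.1.1) (fun i => i.1.2.2.1)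
      (fun i => DW R i.1.2.1) (fun i => DW R i.1.2.2.2) (cEx R C) v w} := by
  ext w
  constructor
  · rintro ⟨n, h⟩
    induction n using Nat.strong_induction_on generalizing v w with
    | _ n ih =>
      generalize hb : [Sum.inl v.1] = β at h
      cases h with
      | nil => simp at hb
      | ter a h => simp at hb
      | @nt m q x u w1 w2 hx h1 h2 =>
        simp only [List.cons.injEq, Sum.inl.injEq] at hb
        obtain ⟨rfl, rfl⟩ := hb
        cases h2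
        rw [List.append_nil]
        by_cases hex : ∃ Z ∈ C, Sum.inl Z ∈ x
        · obtain ⟨Z, hZ, hZx⟩ := hex
          obtain ⟨γ, δ, rfl⟩ := List.append_of_mem hZx
          obtain ⟨a, b, rfl, h3, h4⟩ := h1.split
          obtain ⟨y, c, rfl, h5, h6⟩ := h4.cons_split
          have h7 := ih m (by omega) ⟨Z, hZ⟩ y h5
          have h8 := GRun.step (src := fun i : CI R C => i.1.1) (dst := fun i => i.1.2.2.1)
            (A := fun i => DW R i.1.2.1) (C := fun i => DW R i.1.2.2.2) (Ex := cEx R C)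
            ⟨(v, γ, ⟨Z, hZ⟩, δ), hx, ⟨a, _, h3⟩, ⟨c, _, h6⟩⟩ (a := a) (w := y) (c := c)
            ⟨_, h3⟩ ⟨_, h6⟩ h7
          simpa using h8
        · push Not at hex
          apply GRun.fin
          exact Set.mem_biUnion (x := x) ⟨hx, hex⟩ ⟨_, h1⟩
  · intro h
    induction h with
    | fin h =>
      unfold cEx at h
      simp only [Set.mem_iUnion] at h
      obtain ⟨α, ⟨h1, -⟩, h2⟩ := h
      exact Der.single h1 h2
    | @step i a w c ha hc _ ih =>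
      have h1 : Der (ExR R) (i.1.2.1 ++ Sum.inl i.1.2.2.1.1 :: i.1.2.2.2) (a ++ (w ++ c)) :=
        Der.append ha (Der.append (u := [Sum.inl _]) ih hc)
      have h2 := Der.single i.2.1 h1
      rw [List.append_assoc]
      exact h2

variable (R) in
def Big (X : Q) : Prop := ∃ Z, RelC R X Z false false ∧ RelC R Z Z true true ∧
  ∃ w, Der (ExR R) [Sum.inl Z] w

variable (R) in
noncomputable def crank (X : Q) : ℕ := Set.ncard {Z | RelC R X Z false false}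

theorem Big.up {X Y : Q} (h : RelC R X Y false false) (hY : Big R Y) : Big R X := by
  obtain ⟨Z, h1, h2, h3⟩ := hY
  exact ⟨Z, RelC.comp' rfl rfl h h1, h2, h3⟩

theorem crank_lt [Finite Q] {X Y : Q} (h : RelC R X Y false false)
    (h' : ¬ RelC R Y X false false) : crank R Y < crank R X := by
  apply Set.ncard_lt_ncard _ (Set.toFinite _)
  refine ⟨fun Z hZ => RelC.comp' rfl rfl h hZ, fun hc => h' (hc (RelC.refl X))⟩

theorem reach_of_mem {Y Z : Q} {α : List (Q ⊕ ℕ)} {w : List ℕ} (h : (Y, α) ∈ R)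
    (hw : Der (ExR R) α w) (hZ : Sum.inl Z ∈ α) : RelC R Y Z false false := by
  obtain ⟨γ, δ, rfl⟩ := List.append_of_mem hZ
  obtain ⟨a, b, rfl, h1, h2⟩ := hw.split
  obtain ⟨c, d, rfl, h3, h4⟩ := Der.split (u := [Sum.inl Z]) h2
  exact ⟨a, d, HD.rule h h1 h4, by simp, by simp⟩

theorem regD [Finite Q] (hR : R.Finite) (n : ℕ) :
    ∀ X, crank R X ≤ n → ¬ Big R X → Reg (DW R [Sum.inl X]) := by
  induction n with
  | zero =>
    intro X hX
    exfalso
    have : 0 < crank R X := by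
      rw [crank, Set.ncard_pos (Set.toFinite _)]
      exact ⟨X, RelC.refl X⟩
    omega
  | succ n ih =>
    intro X hX hbig
    by_cases hne : ∃ w ∈ DW R [Sum.inl X], w ≠ []
    swap
    · push Not at hne
      exact Reg.finite ((Set.finite_singleton []).subset (fun w hw => hne w hw))
    obtain ⟨w0, hw0, hw0ne⟩ := hne
    let C : Set Q := {Y | RelC R X Y false false ∧ RelC R Y X false false}
    have hXC : X ∈ C := ⟨RelC.refl X, RelC.refl X⟩
    have hfI : Finite (CI R C) := finite_CI hR C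
    have hYne : ∀ Y ∈ C, ∃ w, Der (ExR R) [Sum.inl Y] w ∧ w ≠ [] := by
      rintro Y ⟨-, u, v, h1, -, -⟩
      refine ⟨_, h1.ctx_der hw0, ?_⟩
      simp [hw0ne]
    have hlow : ∀ Z, RelC R X Z false false → Z ∉ C → Reg (DW R [Sum.inl Z]) := by
      intro Z h1 h2
      have h3 : ¬ RelC R Z X false false := fun h => h2 ⟨h1, h⟩
      exact ih Z (by have := crank_lt h1 h3; omega) (fun h => hbig (h.up h1))
    have hCC : ∀ Y ∈ C, ∀ Z ∈ C, RelC R Y Z false false := fun Y hY Z hZ => RelC.comp' rfl rfl hY.2 hZ.1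
    have htwo : ∀ Y ∈ C, ¬ (RelC R Y Y true false ∧ RelC R Y Y false true) := by
      rintro Y hY ⟨h1, h2⟩
      obtain ⟨w, hw, -⟩ := hYne Y hY
      exact hbig ⟨Y, hY.1, RelC.comp' rfl rfl h1 h2, w, hw⟩
    -- two occurrences
    have hocc : ∀ Y ∈ C, ∀ Y1 ∈ C, ∀ Y2 ∈ C, ∀ a b c : List (Q ⊕ ℕ),
        (Y, a ++ Sum.inl Y1 :: (b ++ Sum.inl Y2 :: c)) ∈ R → (DW R a).Nonempty →
        (DW R b).Nonempty → (DW R c).Nonempty → False := by
      rintro Y hY Y1 hY1 Y2 hY2 a b c hr ⟨wa, ha⟩ ⟨wb, hb⟩ ⟨wc, hc⟩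
      obtain ⟨w1, hw1, hw1ne⟩ := hYne Y1 hY1
      obtain ⟨w2, hw2, hw2ne⟩ := hYne Y2 hY2
      have r1 : RelC R Y Y1 false true := by
        refine ⟨wa, wb ++ (w2 ++ wc), HD.rule hr ha (Der.append hb (Der.append (u := [Sum.inl Y2])
          hw2 hc)), by simp, ?_⟩
        simp [hw2ne]
      have r2 : RelC R Y Y2 true false := by
        have hr' : (Y, (a ++ Sum.inl Y1 :: b) ++ Sum.inl Y2 :: c) ∈ R := by simpa using hr
        refine ⟨wa ++ (w1 ++ wb), wc, HD.rule hr' (Der.append ha (Der.append (u := [Sum.inl Y1])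
          hw1 hb)) hc, ?_, by simp⟩
        simp [hw1ne]
      exact htwo Y hY ⟨RelC.comp' rfl rfl r2 (hCC Y2 hY2 Y hY),
        RelC.comp' rfl rfl r1 (hCC Y1 hY1 Y hY)⟩
    have hsplit : ∀ (β : List (Q ⊕ ℕ)) (Z : Q), (DW R β).Nonempty → Sum.inl Z ∈ β →
        ∃ a b, β = a ++ Sum.inl Z :: b ∧ (DW R a).Nonempty ∧ (DW R b).Nonempty := by
      rintro β Z ⟨w, hw⟩ hZ
      obtain ⟨a, b, rfl⟩ := List.append_of_mem hZ
      obtain ⟨x, y, rfl, h1, h2⟩ := Der.split hw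
      obtain ⟨c, d, rfl, h3, h4⟩ := Der.split (u := [Sum.inl Z]) h2
      exact ⟨a, b, rfl, ⟨x, h1⟩, ⟨d, h4⟩⟩
    have hA : ∀ i : CI R C, Reg (DW R i.1.2.1) := by
      rintro ⟨⟨⟨Y, hY⟩, γ, ⟨Y', hY'⟩, δ⟩, hr, h1, h2⟩
      dsimp only at hr h1 h2 ⊢
      apply Reg.word
      intro Z hZ
      obtain ⟨a, b, rfl, ha, hb⟩ := hsplit γ Z h1 hZ
      apply hlow
      · obtain ⟨wγ, h1⟩ := h1
        obtain ⟨wδ, h2⟩ := h2
        obtain ⟨w', hw', -⟩ := hYne Y' hY'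
        exact RelC.comp' rfl rfl hY.1 (reach_of_mem hr (Der.append h1
          (Der.append (u := [Sum.inl Y']) hw' h2)) (by simp))
      · intro hZC
        exact hocc Y hY Z hZC Y' hY' a b δ (by simpa using hr) ha hb h2
    have hD : ∀ i : CI R C, Reg (DW R i.1.2.2.2) := by
      rintro ⟨⟨⟨Y, hY⟩, γ, ⟨Y', hY'⟩, δ⟩, hr, h1, h2⟩
      dsimp only at hr h1 h2 ⊢
      apply Reg.word
      intro Z hZ
      obtain ⟨a, b, rfl, ha, hb⟩ := hsplit δ Z h2 hZ
      apply hlow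
      · obtain ⟨wγ, h1⟩ := h1
        obtain ⟨wδ, h2⟩ := h2
        obtain ⟨w', hw', -⟩ := hYne Y' hY'
        exact RelC.comp' rfl rfl hY.1 (reach_of_mem hr (Der.append h1
          (Der.append (u := [Sum.inl Y']) hw' h2)) (by simp))
      · intro hZC
        exact hocc Y hY Y' hY' Z hZC γ a b hr h1 ha hb
    have hE : ∀ v : C, Reg (cEx R C v) := by
      rintro ⟨Y, hY⟩
      apply Reg.biUnion
      · refine (hR.image Prod.snd).subset ?_
        rintro α ⟨h1, -⟩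
        exact ⟨_, h1, rfl⟩
      · rintro α ⟨h1, h2⟩
        by_cases hp : (DW R α).Nonempty
        · obtain ⟨w, hw⟩ := hp
          apply Reg.word
          intro Z hZ
          exact hlow Z (RelC.comp' rfl rfl hY.1 (reach_of_mem h1 hw hZ)) (fun hZC => h2 Z hZC hZ)
        · rw [Set.not_nonempty_iff_eq_empty] at hp
          rw [hp]
          exact Reg.finite Set.finite_empty
    rw [comp_eq C ⟨X, hXC⟩]
    by_cases hcase : ∀ i : CI R C, ∀ w ∈ DW R i.1.2.2.2, w = []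
    · exact Reg.left hA hcase hE _
    · push Not at hcase
      obtain ⟨⟨⟨⟨Y, hY⟩, γ, ⟨Y', hY'⟩, δ⟩, hr, ⟨wγ, h1⟩, h2⟩, w, hw, hwne⟩ := hcase
      dsimp only at hr h1 h2 hw
      have r1 : RelC R Y Y' false true := ⟨wγ, w, HD.rule hr h1 hw, by simp, fun _ => hwne⟩
      refine Reg.right ?_ hD hE _
      rintro ⟨⟨⟨Y1, hY1⟩, γ1, ⟨Y1', hY1'⟩, δ1⟩, hr1, h3, ⟨wδ, h4⟩⟩ u hu
      dsimp only at hr1 h3 h4 hu
      by_contra hune
      have r2 : RelC R Y1 Y1' true false := ⟨u, wδ, HD.rule hr1 hu h4, fun _ => hune, by simp⟩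
      apply htwo Y hY
      refine ⟨RelC.comp' rfl rfl (RelC.comp (hCC Y hY Y1 hY1) r2) (hCC Y1' hY1' Y hY),
        RelC.comp' rfl rfl r1 (hCC Y' hY' Y hY)⟩

/-- two parallel two-sided pumps -/
def DP (R : Set (Q × List (Q ⊕ ℕ))) (S : Q) : Prop :=
  ∃ (Z1 Z2 : Q) (x y z : List ℕ), HD R [Sum.inl S] (x.map Sum.inr ++ Sum.inl Z1 ::
    (y.map Sum.inr ++ Sum.inl Z2 :: z.map Sum.inr)) ∧
    RelC R Z1 Z1 true true ∧ (∃ w, Der (ExR R) [Sum.inl Z1] w) ∧
    RelC R Z2 Z2 true true ∧ (∃ w, Der (ExR R) [Sum.inl Z2] w)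

theorem cf_dichotomy [Finite Q] (hR : R.Finite) (S : Q) :
    Lin (DW R [Sum.inl S]) ∨ DP R S := by
  by_cases hDP : DP R S
  · exact Or.inr hDP
  left
  have hnb : ∀ Z, ¬ Big R Z → Reg (DW R [Sum.inl Z]) := fun Z hZ => regD hR _ Z (le_refl _) hZ
  by_cases hS : Big R S
  swap
  · exact (hnb S hS).lin
  let C : Set Q := {Y | RelC R S Y false false ∧ Big R Y}
  have hfI : Finite (CI R C) := finite_CI hR C
  have hSC : S ∈ C := ⟨RelC.refl S, hS⟩
  -- two big symbols in one rule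
  have hocc : ∀ Y ∈ C, ∀ Y1 Y2 : Q, Big R Y1 → Big R Y2 → ∀ a b c : List (Q ⊕ ℕ),
      (Y, a ++ Sum.inl Y1 :: (b ++ Sum.inl Y2 :: c)) ∈ R → (DW R a).Nonempty →
      (DW R b).Nonempty → (DW R c).Nonempty → False := by
    rintro Y ⟨⟨u0, v0, h0, -, -⟩, -⟩ Y1 Y2 ⟨Z1, ⟨u1, v1, h1, -, -⟩, h1', h1''⟩
      ⟨Z2, ⟨u2, v2, h2, -, -⟩, h2', h2''⟩ a b c hr ⟨wa, ha⟩ ⟨wb, hb⟩ ⟨wc, hc⟩
    apply hDP
    refine ⟨Z1, Z2, u0 ++ (wa ++ u1), v1 ++ (wb ++ u2), v2 ++ (wc ++ v0), ?_, h1', h1'', h2', h2''⟩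
    have h3 : HD R [Sum.inl Y] (wa.map Sum.inr ++ Sum.inl Y1 ::
        (wb.map Sum.inr ++ Sum.inl Y2 :: wc.map Sum.inr)) := by
      have h4 := HD.expand hr ((HD.of_der ha).append (HD.keep (Sum.inl Y1)
        ((HD.of_der hb).append (HD.keep (Sum.inl Y2) (HD.of_der hc))))) HD.nil
      simpa using h4
    have h5 : HD R [Sum.inl Y] (wa.map Sum.inr ++ ((u1.map Sum.inr ++ Sum.inl Z1 :: v1.map Sum.inr)
        ++ (wb.map Sum.inr ++ ((u2.map Sum.inr ++ Sum.inl Z2 :: v2.map Sum.inr) ++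
        wc.map Sum.inr)))) :=
      h3.trans ((HD.refl _).append (HD.append (β1 := [Sum.inl Y1]) h1 ((HD.refl _).append
        (HD.append (β1 := [Sum.inl Y2]) h2 (HD.refl _)))))
    have h6 := h0.trans ((HD.refl (u0.map Sum.inr)).append (HD.append (β1 := [Sum.inl Y]) h5
      (HD.refl (v0.map Sum.inr))))
    simpa using h6
  have hsplit : ∀ (β : List (Q ⊕ ℕ)) (Z : Q), (DW R β).Nonempty → Sum.inl Z ∈ β →
      ∃ a b, β = a ++ Sum.inl Z :: b ∧ (DW R a).Nonempty ∧ (DW R b).Nonempty := by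
    rintro β Z ⟨w, hw⟩ hZ
    obtain ⟨a, b, rfl⟩ := List.append_of_mem hZ
    obtain ⟨x, y, rfl, h1, h2⟩ := Der.split hw
    obtain ⟨c, d, rfl, h3, h4⟩ := Der.split (u := [Sum.inl Z]) h2
    exact ⟨a, b, rfl, ⟨x, h1⟩, ⟨d, h4⟩⟩
  have h1 : Lin {w | GRun (fun i : CI R C => i.1.1) (fun i => i.1.2.2.1)
      (fun i => DW R i.1.2.1) (fun i => DW R i.1.2.2.2) (cEx R C) ⟨S, hSC⟩ w} := by
    refine Lin.sys ?_ ?_ ?_ _
    · rintro ⟨⟨⟨Y, hY⟩, γ, ⟨Y', hY'⟩, δ⟩, hr, h1, h2⟩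
      dsimp only at hr h1 h2 ⊢
      apply Reg.word
      intro Z hZ
      apply hnb
      intro hZB
      obtain ⟨a, b, rfl, ha, hb⟩ := hsplit γ Z h1 hZ
      exact hocc Y hY Z Y' hZB hY'.2 a b δ (by simpa using hr) ha hb h2
    · rintro ⟨⟨⟨Y, hY⟩, γ, ⟨Y', hY'⟩, δ⟩, hr, h1, h2⟩
      dsimp only at hr h1 h2 ⊢
      apply Reg.word
      intro Z hZ
      apply hnb
      intro hZB
      obtain ⟨a, b, rfl, ha, hb⟩ := hsplit δ Z h2 hZ
      exact hocc Y hY Y' Z hY'.2 hZB γ a b hr h1 ha hb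
    · rintro ⟨Y, hY⟩
      apply Reg.lin
      apply Reg.biUnion
      · refine (hR.image Prod.snd).subset ?_
        rintro α ⟨h1, -⟩
        exact ⟨_, h1, rfl⟩
      · rintro α ⟨h1, h2⟩
        by_cases hp : (DW R α).Nonempty
        · obtain ⟨w, hw⟩ := hp
          apply Reg.word
          intro Z hZ
          apply hnb
          intro hZB
          exact h2 Z ⟨RelC.comp' rfl rfl hY.1 (reach_of_mem h1 hw hZ), hZB⟩ hZ
        · rw [Set.not_nonempty_iff_eq_empty] at hp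
          rw [hp]
          exact Reg.finite Set.finite_empty
  rw [← comp_eq C ⟨S, hSC⟩] at h1
  exact h1

end comp

end Pool.Agent.Helper230.E
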