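import Pool.Agent.Helper230.CBase

/-! Grammars for two parallel two-sided pumps with marked letters. -/

namespace Pool.Agent.Helper230.E

section der
variable {Q : Type} {R : Set (Q × List (Q ⊕ ℕ))}

theorem Der.cons_iff' {x : Q ⊕ ℕ} {β : List (Q ⊕ ℕ)} {w : List ℕ} :
    Der (ExR R) (x :: β) w ↔ ∃ w1 w2, w = w1 ++ w2 ∧ Der (ExR R) [x] w1 ∧ Der (ExR R) β w2 := by
  constructor
  · intro h
    exact Der.split (u := [x]) h
  · rintro ⟨w1, w2, rfl, h1, h2⟩
    exact Der.append (u := [x]) h1 h2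

theorem Der.nil_iff' {w : List ℕ} : Der (ExR R) [] w ↔ w = [] := by
  have := DW_nil (R := R)
  constructor
  · intro h
    have h2 : w ∈ DW R [] := h
    rw [this] at h2
    exact h2
  · rintro rfl
    exact Der.nil

theorem Der.ter_iff' {c : ℕ} {w : List ℕ} : Der (ExR R) [Sum.inr c] w ↔ w = [c] := by
  have := DW_ter (R := R) c
  constructor
  · intro h
    have h2 : w ∈ DW R [Sum.inr c] := h
    rw [this] at h2
    exact h2
  · rintro rfl
    exact Der.of_ters [c]

theorem Der.inl_iff' {q : Q} {w : List ℕ} :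
    Der (ExR R) [Sum.inl q] w ↔ ∃ β, (q, β) ∈ R ∧ Der (ExR R) β w := by
  constructor
  · rintro ⟨n, h⟩
    generalize hb : [Sum.inl q] = β at h
    cases h with
    | nil => simp at hb
    | ter a h => simp at hb
    | @nt m q x u w1 w2 hx h1 h2 =>
      simp only [List.cons.injEq, Sum.inl.injEq] at hb
      obtain ⟨rfl, rfl⟩ := hb
      cases h2
      rw [List.append_nil]
      exact ⟨x, hx, m, h1⟩
  · rintro ⟨β, h1, h2⟩
    exact Der.single h1 h2

theorem HD.inv {Z : Q} {γ : List (Q ⊕ ℕ)} (h : HD R [Sum.inl Z] γ) :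
    γ = [Sum.inl Z] ∨ ∃ α, (Z, α) ∈ R ∧ HD R α γ := by
  generalize hb : [Sum.inl Z] = β at h
  cases h with
  | nil => simp at hb
  | keep x h =>
    simp only [List.cons.injEq] at hb
    obtain ⟨rfl, rfl⟩ := hb
    cases h
    exact Or.inl rfl
  | @expand q α β γ1 γ2 hx h1 h2 =>
    simp only [List.cons.injEq, Sum.inl.injEq] at hb
    obtain ⟨rfl, rfl⟩ := hb
    cases h2
    rw [List.append_nil]
    exact Or.inr ⟨α, hx, h1⟩

theorem HD.letters {D : Finset ℕ} (hRD : ∀ r ∈ R, ∀ x, Sum.inr x ∈ r.2 → x ∈ D)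
    {β γ : List (Q ⊕ ℕ)} (h : HD R β γ) : (∀ x, Sum.inr x ∈ β → x ∈ D) →
    ∀ x, Sum.inr x ∈ γ → x ∈ D := by
  induction h with
  | nil => intro _ x hx; simp at hx
  | keep y _ ih =>
    intro hu x hx
    rcases List.mem_cons.1 hx with rfl | hx
    · exact hu x List.mem_cons_self
    · exact ih (fun y hy => hu y (List.mem_cons_of_mem _ hy)) x hx
  | expand hx _ _ ih1 ih2 =>
    intro hu x h
    rcases List.mem_append.1 h with h | h
    · exact ih1 (hRD _ hx) x h
    · exact ih2 (fun y hy => hu y (List.mem_cons_of_mem _ hy)) x h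

end der

section hedge
variable {Q : Type}

inductive Hg (Q : Type) : Type
  | nil : Hg Q
  | ter (c : ℕ) (rest : Hg Q) : Hg Q
  | ext (p : Bool) (rest : Hg Q) : Hg Q
  | node (X : Q) (sub rest : Hg Q) : Hg Q

abbrev NS (Q : Type) := Option Bool ⊕ (Q × Hg Q)

def oc (c : ℕ) : ℕ := (Nat.unpair c).1

namespace Hg

def roots : Hg Q → List (NS Q ⊕ ℕ)
  | nil => []
  | ter c r => Sum.inr c :: roots r
  | ext p r => Sum.inl (Sum.inl (some p)) :: roots r
  | node X s r => Sum.inl (Sum.inr (X, s)) :: roots r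

def org (Zp : Bool → Q) : Hg Q → List (Q ⊕ ℕ)
  | nil => []
  | ter c r => Sum.inr (oc c) :: org Zp r
  | ext p r => Sum.inl (Zp p) :: org Zp r
  | node X _ r => Sum.inl X :: org Zp r

def fr : Hg Q → List (Bool ⊕ ℕ)
  | nil => []
  | ter c r => Sum.inr c :: fr r
  | ext p r => Sum.inl p :: fr r
  | node _ s r => fr s ++ fr r

def ok (R : Set (Q × List (Q ⊕ ℕ))) (Zp : Bool → Q) : Hg Q → Prop
  | nil => True
  | ter _ r => ok R Zp r
  | ext _ r => ok R Zp r
  | node X s r => (X, org Zp s) ∈ R ∧ ok R Zp s ∧ ok R Zp r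

def nodes : Hg Q → Set (Q × Hg Q)
  | nil => ∅
  | ter _ r => nodes r
  | ext _ r => nodes r
  | node X s r => {(X, s)} ∪ (nodes s ∪ nodes r)

theorem finite_nodes (h : Hg Q) : (nodes h).Finite := by
  induction h with
  | nil => exact Set.finite_empty
  | ter c r ih => exact ih
  | ext p r ih => exact ih
  | node X s r ih1 ih2 => exact (Set.finite_singleton _).union (ih1.union ih2)

theorem nodes_sub (h : Hg Q) : ∀ p ∈ nodes h, nodes p.2 ⊆ nodes h := by
  induction h with
  | nil => intro p hp; exact absurd hp (by simp [nodes])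
  | ter c r ih => exact ih
  | ext p r ih => exact ih
  | node X s r ih1 ih2 =>
    rintro p (hp | hp | hp)
    · rw [Set.mem_singleton_iff] at hp
      subst hp
      exact fun x hx => Or.inr (Or.inl hx)
    · exact fun x hx => Or.inr (Or.inl (ih1 p hp hx))
    · exact fun x hx => Or.inr (Or.inr (ih2 p hp hx))

theorem nodes_ok {R : Set (Q × List (Q ⊕ ℕ))} {Zp : Bool → Q} (h : Hg Q) (hok : ok R Zp h) :
    ∀ p ∈ nodes h, (p.1, org Zp p.2) ∈ R := by
  induction h with
  | nil => intro p hp; exact absurd hp (by simp [nodes])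
  | ter c r ih => exact ih hok
  | ext p r ih => exact ih hok
  | node X s r ih1 ih2 =>
    obtain ⟨h1, h2, h3⟩ := hok
    rintro p (hp | hp | hp)
    · rw [Set.mem_singleton_iff] at hp
      subst hp
      exact h1
    · exact ih1 h2 p hp
    · exact ih2 h3 p hp

theorem roots_letters (h : Hg Q) (c : ℕ) (hc : Sum.inr c ∈ roots h) : Sum.inr c ∈ fr h := by
  induction h with
  | nil => simp [roots] at hc
  | ter c' r ih =>
    simp only [roots, fr, List.mem_cons] at hc ⊢
    rcases hc with hc | hc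
    · left
      simpa using hc
    · exact Or.inr (ih hc)
  | ext p r ih =>
    simp only [roots, fr, List.mem_cons] at hc ⊢
    rcases hc with hc | hc
    · simp at hc
    · exact Or.inr (ih hc)
  | node X s r ih1 ih2 =>
    simp only [roots, fr, List.mem_cons, List.mem_append] at hc ⊢
    rcases hc with hc | hc
    · simp at hc
    · exact Or.inr (ih2 hc)

theorem nodes_letters (h : Hg Q) : ∀ p ∈ nodes h, ∀ x ∈ fr p.2, x ∈ fr h := by
  induction h with
  | nil => intro p hp; exact absurd hp (by simp [nodes])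
  | ter c r ih => exact fun p hp x hx => List.mem_cons_of_mem _ (ih p hp x hx)
  | ext p r ih => exact fun p hp x hx => List.mem_cons_of_mem _ (ih p hp x hx)
  | node X s r ih1 ih2 =>
    rintro p (hp | hp | hp) x hx
    · rw [Set.mem_singleton_iff] at hp
      subst hp
      exact List.mem_append_left _ hx
    · exact List.mem_append_left _ (ih1 p hp x hx)
    · exact List.mem_append_right _ (ih2 p hp x hx)

theorem roots_nodes (h : Hg Q) (p : Q × Hg Q) (hp : Sum.inl (Sum.inr p) ∈ roots h) :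
    p ∈ nodes h := by
  induction h with
  | nil => simp [roots] at hp
  | ter c' r ih =>
    simp only [roots, List.mem_cons] at hp
    rcases hp with hp | hp
    · simp at hp
    · exact ih hp
  | ext p r ih =>
    simp only [roots, List.mem_cons] at hp
    rcases hp with hp | hp
    · simp at hp
    · exact ih hp
  | node X s r ih1 ih2 =>
    simp only [roots, List.mem_cons] at hp
    rcases hp with hp | hp
    · left
      simpa using hp
    · exact Or.inr (Or.inr (ih2 hp))

theorem roots_type (h : Hg Q) (Zp : Bool → Q) (ν : Q → ℕ) (τ : ℕ → ℕ) (ν' : NS Q → ℕ)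
    (h1 : ∀ p, ν' (Sum.inl (some p)) = ν (Zp p)) (h2 : ∀ p, ν' (Sum.inr p) = ν p.1) :
    (roots h).map (Sum.elim ν' (fun c => τ (oc c))) = (org Zp h).map (Sum.elim ν τ) := by
  induction h with
  | nil => rfl
  | ter c r ih => simp [roots, org, ih]
  | ext p r ih => simp [roots, org, ih, h1]
  | node X s r ih1 ih2 => simp [roots, org, ih2, h2]

theorem exists_hg {R : Set (Q × List (Q ⊕ ℕ))} (Zp : Bool → Q) {β γ : List (Q ⊕ ℕ)}
    (h : HD R β γ) : ∀ γ' : List (Bool ⊕ ℕ), γ'.map (Sum.map Zp oc) = γ →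
    ∃ h : Hg Q, org Zp h = β ∧ fr h = γ' ∧ ok R Zp h := by
  induction h with
  | nil =>
    intro γ' h
    rw [List.map_eq_nil_iff] at h
    subst h
    exact ⟨nil, rfl, rfl, trivial⟩
  | keep x _ ih =>
    intro γ' h
    obtain ⟨g, γ'', rfl, rfl, h2⟩ := List.map_eq_cons_iff.1 h
    obtain ⟨h3, h4, h5, h6⟩ := ih γ'' h2
    rcases g with p | c
    · exact ⟨ext p h3, by simp [org, h4], by simp [fr, h5], h6⟩
    · exact ⟨ter c h3, by simp [org, h4], by simp [fr, h5], h6⟩
  | @expand q α β γ1 γ2 hx _ _ ih1 ih2 =>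
    intro γ' h
    obtain ⟨γ1', γ2', rfl, h1, h2⟩ := List.map_eq_append_iff.1 h
    obtain ⟨h3, h4, h5, h6⟩ := ih1 γ1' h1
    obtain ⟨h7, h8, h9, h10⟩ := ih2 γ2' h2
    refine ⟨node q h3 h7, by simp [org, h8], by simp [fr, h5, h9], ?_, h6, h10⟩
    rw [h4]
    exact hx

end Hg

/-- filling of a frontier -/
def flf (K : Bool → Set (List ℕ)) (g : Bool ⊕ ℕ) (w : List ℕ) : Prop :=
  Sum.elim (fun p => w ∈ K p) (fun c => w = [c]) g

theorem Hg.fill {R : Set (NS Q × List (NS Q ⊕ ℕ))} {NN : Set (Q × Hg Q)}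
    (hR : ∀ p ∈ NN, ∀ β, (Sum.inr p, β) ∈ R ↔ β = Hg.roots p.2) (h : Hg Q) :
    Hg.nodes h ⊆ NN → ∀ w, Der (ExR R) (Hg.roots h) w ↔
      Sub (flf (fun p => DW R [Sum.inl (Sum.inl (some p))])) (Hg.fr h) w := by
  induction h with
  | nil => intro _ w; simp only [Hg.roots, Hg.fr]; rw [Der.nil_iff', Sub.nil_iff]
  | ter c r ih =>
    intro hs w
    simp only [Hg.roots, Hg.fr]
    rw [Der.cons_iff', Sub.cons_iff]
    simp only [Der.ter_iff', ih hs]
    rfl
  | ext p r ih =>
    intro hs w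
    simp only [Hg.roots, Hg.fr]
    rw [Der.cons_iff', Sub.cons_iff]
    simp only [ih hs]
    rfl
  | node X s r ih1 ih2 =>
    intro hs w
    simp only [Hg.roots, Hg.fr]
    rw [Der.cons_iff', Sub.append_iff]
    have h1 : ∀ w, Der (ExR R) [Sum.inl (Sum.inr (X, s))] w ↔ Der (ExR R) (Hg.roots s) w := by
      intro w
      rw [Der.inl_iff']
      constructor
      · rintro ⟨β, h2, h3⟩
        rw [(hR (X, s) (hs (Or.inl rfl)) β).1 h2] at h3
        exact h3
      · intro h
        exact ⟨_, (hR (X, s) (hs (Or.inl rfl)) _).2 rfl, h⟩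
    simp only [h1, ih1 (fun x hx => hs (Or.inr (Or.inl hx))),
      ih2 (fun x hx => hs (Or.inr (Or.inr hx)))]

theorem Sub.flf_ter {K : Bool → Set (List ℕ)} {c w : List ℕ} :
    Sub (flf K) (c.map Sum.inr) w ↔ w = c := by
  induction c generalizing w with
  | nil => rw [List.map_nil, Sub.nil_iff]
  | cons a c ih =>
    rw [List.map_cons, Sub.cons_iff]
    constructor
    · rintro ⟨w1, w2, rfl, h1, h2⟩
      have h1' : w1 = [a] := h1
      rw [h1', ih.1 h2]
      rfl
    · rintro rfl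
      exact ⟨[a], c, rfl, rfl, ih.2 rfl⟩

end hedge

section marks

def ec (c : ℕ) : List ℕ := if (Nat.unpair c).2 = 0 then [] else [(Nat.unpair c).2]

def mk0 (w : List ℕ) : List ℕ := w.map (fun c => Nat.pair c 0)

def mkw (k : ℕ) : List ℕ → List ℕ
  | [] => []
  | c :: w => Nat.pair c k :: mk0 w

theorem mk0_oc (w : List ℕ) : (mk0 w).map oc = w := by
  simp [mk0, oc, Function.comp_def]

theorem mk0_ec (w : List ℕ) : (mk0 w).flatMap ec = [] := by
  rw [List.flatMap_eq_nil_iff]
  intro x hx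
  unfold mk0 at hx
  rw [List.mem_map] at hx
  obtain ⟨c, -, rfl⟩ := hx
  simp [ec]

theorem mkw_oc (k : ℕ) (w : List ℕ) : (mkw k w).map oc = w := by
  cases w with
  | nil => rfl
  | cons c w =>
    simp only [mkw, List.map_cons, mk0_oc]
    simp [oc]

theorem mkw_ec {k : ℕ} (hk : k ≠ 0) {w : List ℕ} (hw : w ≠ []) : (mkw k w).flatMap ec = [k] := by
  cases w with
  | nil => exact absurd rfl hw
  | cons c w =>
    simp only [mkw, List.flatMap_cons, mk0_ec]
    simp [ec, hk]

def rp (n : ℕ) (u : List ℕ) : List ℕ := (List.replicate n u).flatten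

theorem rp_zero (u : List ℕ) : rp 0 u = [] := rfl

theorem rp_succ (n : ℕ) (u : List ℕ) : rp (n + 1) u = u ++ rp n u := rfl

theorem rp_succ' (n : ℕ) (u : List ℕ) : rp (n + 1) u = rp n u ++ u := by
  induction n with
  | zero => simp [rp]
  | succ n ih => rw [rp_succ, ih, ← List.append_assoc, ← rp_succ, ih]

def pm (u a v : List ℕ) (n : ℕ) : List ℕ := rp n u ++ (a ++ rp n v)

theorem pm_succ (u a v : List ℕ) (n : ℕ) : pm u a v (n + 1) = u ++ (pm u a v n ++ v) := by
  unfold pm
  rw [rp_succ, rp_succ']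
  simp

def w0 (x u a v y r b t z : List ℕ) (n m : ℕ) : List ℕ :=
  x ++ (pm u a v n ++ (y ++ (pm r b t m ++ z)))

end marks

theorem Gen.of_DP {G : GDat} {τ : ℕ → ℕ} {Q : Type} [Finite Q] {ν : Q → ℕ} {s : Q}
    {R : Set (Q × List (Q ⊕ ℕ))} {D : Finset ℕ} (hs : ν s = G.S) (hN : ∀ q, ν q ∈ G.N)
    (hD : ∀ x ∈ D, τ x ∈ G.T) (hR : ∀ r ∈ R, (ν r.1, r.2.map (Sum.elim ν τ)) ∈ G.P)
    (hRD : ∀ r ∈ R, ∀ x, Sum.inr x ∈ r.2 → x ∈ D) (h : DP R s) :
    ∃ x u a v y r b t z : List ℕ, x.flatMap ec = [] ∧ u.flatMap ec = [1] ∧ a.flatMap ec = [2] ∧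
      v.flatMap ec = [3] ∧ y.flatMap ec = [] ∧ r.flatMap ec = [4] ∧ b.flatMap ec = [5] ∧
      t.flatMap ec = [6] ∧ z.flatMap ec = [] ∧
      Gen G (fun c => τ (oc c)) {w | ∃ n m, w = w0 x u a v y r b t z n m} := by
  classical
  obtain ⟨Z1, Z2, x, y, z, h0, ⟨u, v, h1, hu, hv⟩, ⟨a', ha'⟩, ⟨r, t, h2, hr, ht⟩, ⟨b', hb'⟩⟩ := h
  have hu := hu rfl
  have hv := hv rfl
  have hr := hr rfl
  have ht := ht rfl
  -- nonempty exits
  obtain ⟨a, ha, hane⟩ : ∃ a, Der (ExR R) [Sum.inl Z1] a ∧ a ≠ [] :=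
    ⟨_, h1.ctx_der ha', by simp [hu]⟩
  obtain ⟨b, hb, hbne⟩ : ∃ b, Der (ExR R) [Sum.inl Z2] b ∧ b ≠ [] :=
    ⟨_, h2.ctx_der hb', by simp [hr]⟩
  have h1a := HD.of_der ha
  have h2b := HD.of_der hb
  obtain ⟨α0, hα0, k0⟩ : ∃ α, (s, α) ∈ R ∧ HD R α _ := h0.inv.resolve_left (by
    intro h
    have := congrArg List.length h
    simp only [List.length_append, List.length_cons, List.length_nil] at this
    omega)
  obtain ⟨α1, hα1, k1⟩ : ∃ α, (Z1, α) ∈ R ∧ HD R α _ := h1.inv.resolve_left (by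
    intro h
    have := congrArg List.length h
    simp only [List.length_append, List.length_cons, List.length_nil, List.length_map] at this
    have h3 := List.length_pos_iff.2 hu
    omega)
  obtain ⟨α2, hα2, k2⟩ : ∃ α, (Z2, α) ∈ R ∧ HD R α _ := h2.inv.resolve_left (by
    intro h
    have := congrArg List.length h
    simp only [List.length_append, List.length_cons, List.length_nil, List.length_map] at this
    have h3 := List.length_pos_iff.2 hr
    omega)
  obtain ⟨α3, hα3, k3⟩ : ∃ α, (Z1, α) ∈ R ∧ HD R α _ := h1a.inv.resolve_left (by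
    intro h
    cases a with
    | nil => simp at h
    | cons c a => simp at h)
  obtain ⟨α4, hα4, k4⟩ : ∃ α, (Z2, α) ∈ R ∧ HD R α _ := h2b.inv.resolve_left (by
    intro h
    cases b with
    | nil => simp at h
    | cons c b => simp at h)
  -- letters
  have hl : ∀ {Z : Q} {α γ : List (Q ⊕ ℕ)}, (Z, α) ∈ R → HD R α γ → ∀ c, Sum.inr c ∈ γ → c ∈ D :=
    fun hα k c hc => HD.letters hRD k (fun x hx => hRD _ hα x hx) c hc
  let Zp : Bool → Q := fun p => if p then Z2 else Z1
  have mapo : ∀ w w' : List ℕ, w'.map oc = w →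
      (w'.map (Sum.inr : ℕ → Bool ⊕ ℕ)).map (Sum.map Zp oc) = w.map Sum.inr := by
    intro w w' h
    rw [← h]
    simp [Function.comp_def]
  obtain ⟨H0, o0, f0, ok0⟩ := Hg.exists_hg Zp k0 ((mk0 x).map Sum.inr ++ Sum.inl false ::
    ((mk0 y).map Sum.inr ++ Sum.inl true :: (mk0 z).map Sum.inr)) (by
      rw [List.map_append, List.map_cons, List.map_append, List.map_cons, mapo _ _ (mk0_oc x),
        mapo _ _ (mk0_oc y), mapo _ _ (mk0_oc z)]
      rfl)
  obtain ⟨H1, o1, f1, ok1⟩ := Hg.exists_hg Zp k1 ((mkw 1 u).map Sum.inr ++ Sum.inl false ::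
    (mkw 3 v).map Sum.inr) (by
      rw [List.map_append, List.map_cons, mapo _ _ (mkw_oc 1 u), mapo _ _ (mkw_oc 3 v)]
      rfl)
  obtain ⟨H2, o2, f2, ok2⟩ := Hg.exists_hg Zp k2 ((mkw 4 r).map Sum.inr ++ Sum.inl true ::
    (mkw 6 t).map Sum.inr) (by
      rw [List.map_append, List.map_cons, mapo _ _ (mkw_oc 4 r), mapo _ _ (mkw_oc 6 t)]
      rfl)
  obtain ⟨H3, o3, f3, ok3⟩ := Hg.exists_hg Zp k3 ((mkw 2 a).map Sum.inr) (mapo _ _ (mkw_oc 2 a))
  obtain ⟨H4, o4, f4, ok4⟩ := Hg.exists_hg Zp k4 ((mkw 5 b).map Sum.inr) (mapo _ _ (mkw_oc 5 b))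
  let NN : Set (Q × Hg Q) := Hg.nodes H0 ∪ Hg.nodes H1 ∪ Hg.nodes H2 ∪ Hg.nodes H3 ∪ Hg.nodes H4
  have hNNfin : NN.Finite := ((((Hg.finite_nodes H0).union (Hg.finite_nodes H1)).union
    (Hg.finite_nodes H2)).union (Hg.finite_nodes H3)).union (Hg.finite_nodes H4)
  have hNNsub : ∀ p ∈ NN, Hg.nodes p.2 ⊆ NN := by
    rintro p ((((hp | hp) | hp) | hp) | hp) x hx
    · exact Or.inl (Or.inl (Or.inl (Or.inl (Hg.nodes_sub _ p hp hx))))
    · exact Or.inl (Or.inl (Or.inl (Or.inr (Hg.nodes_sub _ p hp hx))))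
    · exact Or.inl (Or.inl (Or.inr (Hg.nodes_sub _ p hp hx)))
    · exact Or.inl (Or.inr (Hg.nodes_sub _ p hp hx))
    · exact Or.inr (Hg.nodes_sub _ p hp hx)
  have s0 : Hg.nodes H0 ⊆ NN := fun x hx => Or.inl (Or.inl (Or.inl (Or.inl hx)))
  have s1 : Hg.nodes H1 ⊆ NN := fun x hx => Or.inl (Or.inl (Or.inl (Or.inr hx)))
  have s2 : Hg.nodes H2 ⊆ NN := fun x hx => Or.inl (Or.inl (Or.inr hx))
  have s3 : Hg.nodes H3 ⊆ NN := fun x hx => Or.inl (Or.inr hx)
  have s4 : Hg.nodes H4 ⊆ NN := fun x hx => Or.inr hx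
  -- the new grammar
  let R0 : Set (NS Q × List (NS Q ⊕ ℕ)) :=
    {(Sum.inl none, Hg.roots H0), (Sum.inl (some false), Hg.roots H1),
      (Sum.inl (some true), Hg.roots H2), (Sum.inl (some false), Hg.roots H3),
      (Sum.inl (some true), Hg.roots H4)} ∪ (fun p => (Sum.inr p, Hg.roots p.2)) '' NN
  have hR0 : ∀ p ∈ NN, ∀ β, (Sum.inr p, β) ∈ R0 ↔ β = Hg.roots p.2 := by
    intro p hp β
    constructor
    · rintro (h | ⟨p', hp', he⟩)
      · simp at h
      · simp only [Prod.mk.injEq, Sum.inr.injEq] at he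
        obtain ⟨rfl, rfl⟩ := he
        rfl
    · rintro rfl
      exact Or.inr ⟨p, hp, rfl⟩
  let Cs : Set (NS Q) := Set.range Sum.inl ∪ Sum.inr '' NN
  have hCsfin : Cs.Finite := (Set.finite_range _).union (hNNfin.image _)
  have hCs : ∀ q γ, (q, γ) ∈ R0 → ∀ q', Sum.inl q' ∈ γ → q' ∈ Cs := by
    have hH : ∀ H : Hg Q, Hg.nodes H ⊆ NN → ∀ q', Sum.inl q' ∈ Hg.roots H → q' ∈ Cs := by
      intro H hH q' hq'
      rcases q' with o | p
      · exact Or.inl ⟨o, rfl⟩
      · exact Or.inr ⟨p, hH (Hg.roots_nodes H p hq'), rfl⟩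
    rintro q γ (h | ⟨p, hp, he⟩) q' hq'
    · simp only [Set.mem_insert_iff, Prod.mk.injEq, Set.mem_singleton_iff] at h
      rcases h with ⟨-, rfl⟩ | ⟨-, rfl⟩ | ⟨-, rfl⟩ | ⟨-, rfl⟩ | ⟨-, rfl⟩
      · exact hH _ s0 _ hq'
      · exact hH _ s1 _ hq'
      · exact hH _ s2 _ hq'
      · exact hH _ s3 _ hq'
      · exact hH _ s4 _ hq'
    · simp only [Prod.mk.injEq] at he
      obtain ⟨-, rfl⟩ := he
      exact hH _ (hNNsub p hp) _ hq'
  let ν' : NS Q → ℕ := Sum.elim (fun o => o.elim G.S (fun p => ν (Zp p))) (fun p => ν p.1)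
  let Q' := {n : NS Q // n ∈ Cs}
  have hQ' : Finite Q' := hCsfin
  let R' : Set (Q' × List (Q' ⊕ ℕ)) := {r | (r.1.1, r.2.map (Sum.map Subtype.val id)) ∈ R0}
  let s' : Q' := ⟨Sum.inl none, Or.inl ⟨none, rfl⟩⟩
  let X := mk0 x
  let U := mkw 1 u
  let A := mkw 2 a
  let V := mkw 3 v
  let Y := mk0 y
  let RR := mkw 4 r
  let BB := mkw 5 b
  let T := mkw 6 t
  let ZZ := mk0 z
  let D' : Finset ℕ := (X ++ U ++ A ++ V ++ Y ++ RR ++ BB ++ T ++ ZZ).toFinset
  have hDer : ∀ w, Der (ExR R') [Sum.inl s'] w ↔ Der (ExR R0) [Sum.inl (Sum.inl none)] w := by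
    intro w
    constructor
    · rintro ⟨n, hn⟩
      exact ⟨n, DerN_map (R2 := R0) Subtype.val (fun q β h => h) hn⟩
    · rintro ⟨n, hn⟩
      refine ⟨n, DerN_map_inv (R1 := R') Subtype.val ?_ hn [Sum.inl s'] rfl⟩
      rintro q γ hγ
      have h3 := hCs _ _ hγ
      have h4 : ∃ β : List (Q' ⊕ ℕ), γ = β.map (Sum.map Subtype.val id) := by
        clear hγ
        induction γ with
        | nil => exact ⟨[], rfl⟩
        | cons g γ ih =>
          obtain ⟨β, hβ⟩ := ih (fun q' hq' => h3 q' (List.mem_cons_of_mem _ hq'))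
          rcases g with p | c
          · refine ⟨Sum.inl ⟨p, h3 p List.mem_cons_self⟩ :: β, ?_⟩
            rw [List.map_cons, ← hβ]
            rfl
          · refine ⟨Sum.inr c :: β, ?_⟩
            rw [List.map_cons, ← hβ]
            rfl
      obtain ⟨β, rfl⟩ := h4
      exact ⟨β, hγ, rfl⟩
  -- languages
  have hK1 : ∀ w, Der (ExR R0) [Sum.inl (Sum.inl (some false))] w ↔ ∃ n, w = pm U A V n := by
    have hstep : ∀ w, Der (ExR R0) [Sum.inl (Sum.inl (some false))] w ↔
        w = A ∨ ∃ w', Der (ExR R0) [Sum.inl (Sum.inl (some false))] w' ∧ w = U ++ (w' ++ V) := by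
      intro w
      rw [Der.inl_iff']
      constructor
      · rintro ⟨β, (h | ⟨p, hp, he⟩), h4⟩
        · simp only [Set.mem_insert_iff, Prod.mk.injEq, Set.mem_singleton_iff, Sum.inl.injEq,
            Option.some.injEq, reduceCtorEq, false_and, true_and, false_or, or_false,
            Bool.false_eq_true] at h
          rcases h with rfl | rfl
          · rw [Hg.fill hR0 H1 s1, f1, Sub.append_iff] at h4
            obtain ⟨w1, w2, rfl, h5, h6⟩ := h4
            rw [Sub.cons_iff] at h6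
            obtain ⟨w3, w4, rfl, h7, h8⟩ := h6
            rw [Sub.flf_ter] at h5 h8
            right
            exact ⟨w3, h7, by rw [h5, h8]⟩
          · rw [Hg.fill hR0 H3 s3, f3, Sub.flf_ter] at h4
            exact Or.inl h4
        · simp at he
      · rintro (rfl | ⟨w', h4, rfl⟩)
        · refine ⟨Hg.roots H3, Or.inl (by simp), ?_⟩
          rw [Hg.fill hR0 H3 s3, f3, Sub.flf_ter]
        · refine ⟨Hg.roots H1, Or.inl (by simp), ?_⟩
          rw [Hg.fill hR0 H1 s1, f1, Sub.append_iff]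
          refine ⟨U, w' ++ V, rfl, Sub.flf_ter.2 rfl, ?_⟩
          exact Sub.cons h4 (Sub.flf_ter.2 rfl)
    intro w
    constructor
    · intro h
      induction hlen : w.length using Nat.strong_induction_on generalizing w with
      | _ k ih =>
        subst hlen
        rcases (hstep w).1 h with rfl | ⟨w', h4, rfl⟩
        · exact ⟨0, by simp [pm, rp_zero]⟩
        · have hUne : 0 < U.length := by
            have := congrArg List.length (mkw_oc 1 u)
            rw [List.length_map] at this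
            have h3 := List.length_pos_iff.2 hu
            change 0 < (mkw 1 u).length
            omega
          obtain ⟨n, rfl⟩ := ih w'.length (by simp only [List.length_append]; omega) w' h4 rfl
          exact ⟨n + 1, (pm_succ U A V n).symm⟩
    · rintro ⟨n, rfl⟩
      induction n with
      | zero =>
        rw [hstep]
        left
        simp [pm, rp_zero]
      | succ n ih =>
        rw [hstep]
        right
        exact ⟨_, ih, pm_succ U A V n⟩
  have hK2 : ∀ w, Der (ExR R0) [Sum.inl (Sum.inl (some true))] w ↔ ∃ n, w = pm RR BB T n := by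
    have hstep : ∀ w, Der (ExR R0) [Sum.inl (Sum.inl (some true))] w ↔
        w = BB ∨ ∃ w', Der (ExR R0) [Sum.inl (Sum.inl (some true))] w' ∧
          w = RR ++ (w' ++ T) := by
      intro w
      rw [Der.inl_iff']
      constructor
      · rintro ⟨β, (h | ⟨p, hp, he⟩), h4⟩
        · simp only [Set.mem_insert_iff, Prod.mk.injEq, Set.mem_singleton_iff, Sum.inl.injEq,
            Option.some.injEq, reduceCtorEq, false_and, true_and, false_or, or_false,
            Bool.true_eq_false] at h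
          rcases h with rfl | rfl
          · rw [Hg.fill hR0 H2 s2, f2, Sub.append_iff] at h4
            obtain ⟨w1, w2, rfl, h5, h6⟩ := h4
            rw [Sub.cons_iff] at h6
            obtain ⟨w3, w4, rfl, h7, h8⟩ := h6
            rw [Sub.flf_ter] at h5 h8
            right
            exact ⟨w3, h7, by rw [h5, h8]⟩
          · rw [Hg.fill hR0 H4 s4, f4, Sub.flf_ter] at h4
            exact Or.inl h4
        · simp at he
      · rintro (rfl | ⟨w', h4, rfl⟩)
        · refine ⟨Hg.roots H4, Or.inl (by simp), ?_⟩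
          rw [Hg.fill hR0 H4 s4, f4, Sub.flf_ter]
        · refine ⟨Hg.roots H2, Or.inl (by simp), ?_⟩
          rw [Hg.fill hR0 H2 s2, f2, Sub.append_iff]
          refine ⟨RR, w' ++ T, rfl, Sub.flf_ter.2 rfl, ?_⟩
          exact Sub.cons h4 (Sub.flf_ter.2 rfl)
    intro w
    constructor
    · intro h
      induction hlen : w.length using Nat.strong_induction_on generalizing w with
      | _ k ih =>
        subst hlen
        rcases (hstep w).1 h with rfl | ⟨w', h4, rfl⟩
        · exact ⟨0, by simp [pm, rp_zero]⟩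
        · have hUne : 0 < RR.length := by
            have := congrArg List.length (mkw_oc 4 r)
            rw [List.length_map] at this
            have h3 := List.length_pos_iff.2 hr
            change 0 < (mkw 4 r).length
            omega
          obtain ⟨n, rfl⟩ := ih w'.length (by simp only [List.length_append]; omega) w' h4 rfl
          exact ⟨n + 1, (pm_succ RR BB T n).symm⟩
    · rintro ⟨n, rfl⟩
      induction n with
      | zero =>
        rw [hstep]
        left
        simp [pm, rp_zero]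
      | succ n ih =>
        rw [hstep]
        right
        exact ⟨_, ih, pm_succ RR BB T n⟩
  refine ⟨X, U, A, V, Y, RR, BB, T, ZZ, mk0_ec x, mkw_ec (by simp) hu, mkw_ec (by simp) hane,
    mkw_ec (by simp) hv, mk0_ec y, mkw_ec (by simp) hr, mkw_ec (by simp) hbne,
    mkw_ec (by simp) ht, mk0_ec z, Q', hQ', fun q => ν' q.1, s', R', D', rfl, ?_, ?_, ?_, ?_, ?_⟩
  · rintro ⟨q, hq⟩
    rcases q with (_ | p) | p
    · exact G.hS
    · exact hN _
    · exact hN _
  · -- letters are typed by terminals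
    intro c hc
    apply hD
    have hmem : ∀ (w w' : List ℕ), w'.map oc = w → c ∈ w' → oc c ∈ w := by
      intro w w' h hc
      rw [← h]
      exact List.mem_map_of_mem hc
    simp only [D', List.mem_toFinset, List.mem_append] at hc
    rcases hc with (((((((hc | hc) | hc) | hc) | hc) | hc) | hc) | hc) | hc
    · exact hl hα0 k0 _ (by simp [hmem _ _ (mk0_oc x) hc])
    · exact hl hα1 k1 _ (by simp [hmem _ _ (mkw_oc 1 u) hc])
    · exact hl hα3 k3 _ (by simp [hmem _ _ (mkw_oc 2 a) hc])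
    · exact hl hα1 k1 _ (by simp [hmem _ _ (mkw_oc 3 v) hc])
    · exact hl hα0 k0 _ (by simp [hmem _ _ (mk0_oc y) hc])
    · exact hl hα2 k2 _ (by simp [hmem _ _ (mkw_oc 4 r) hc])
    · exact hl hα4 k4 _ (by simp [hmem _ _ (mkw_oc 5 b) hc])
    · exact hl hα2 k2 _ (by simp [hmem _ _ (mkw_oc 6 t) hc])
    · exact hl hα0 k0 _ (by simp [hmem _ _ (mk0_oc z) hc])
  · rintro ⟨⟨q, hq⟩, β⟩ hr'
    have h5 : (q, β.map (Sum.map Subtype.val id)) ∈ R0 := hr'
    have h6 : β.map (Sum.elim (fun q : Q' => ν' q.1) (fun c => τ (oc c))) =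
        (β.map (Sum.map Subtype.val id)).map (Sum.elim ν' (fun c => τ (oc c))) := by
      rw [List.map_map]
      apply List.map_congr_left
      rintro (p | c) -
      · rfl
      · rfl
    dsimp only
    rw [h6]
    have ht : ∀ H : Hg Q, (Hg.roots H).map (Sum.elim ν' (fun c => τ (oc c))) =
        (Hg.org Zp H).map (Sum.elim ν τ) := fun H => Hg.roots_type H Zp ν τ ν'
      (fun p => rfl) (fun p => rfl)
    generalize β.map (Sum.map Subtype.val id) = γ at h5
    rcases h5 with h | ⟨p, hp, he⟩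
    · simp only [Set.mem_insert_iff, Prod.mk.injEq, Set.mem_singleton_iff] at h
      rcases h with ⟨rfl, rfl⟩ | ⟨rfl, rfl⟩ | ⟨rfl, rfl⟩ | ⟨rfl, rfl⟩ | ⟨rfl, rfl⟩
      · rw [ht, o0]
        have := hR _ hα0
        rw [hs] at this
        exact this
      · rw [ht, o1]
        exact hR _ hα1
      · rw [ht, o2]
        exact hR _ hα2
      · rw [ht, o3]
        exact hR _ hα3
      · rw [ht, o4]
        exact hR _ hα4
    · simp only [Prod.mk.injEq] at he
      obtain ⟨rfl, rfl⟩ := he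
      rw [ht]
      have hok : (p.1, Hg.org Zp p.2) ∈ R := by
        rcases hp with (((hp | hp) | hp) | hp) | hp
        · exact Hg.nodes_ok _ ok0 p hp
        · exact Hg.nodes_ok _ ok1 p hp
        · exact Hg.nodes_ok _ ok2 p hp
        · exact Hg.nodes_ok _ ok3 p hp
        · exact Hg.nodes_ok _ ok4 p hp
      exact hR _ hok
  · rintro ⟨⟨q, hq⟩, β⟩ hr' c hc
    have h5 : (q, β.map (Sum.map Subtype.val id)) ∈ R0 := hr'
    have hc' : Sum.inr c ∈ β.map (Sum.map (Subtype.val : Q' → NS Q) id) :=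
      List.mem_map.2 ⟨_, hc, rfl⟩
    have g0 : ∀ c, Sum.inr c ∈ Hg.fr H0 → c ∈ D' := by
      intro c hc
      rw [f0] at hc
      simp only [D', List.mem_toFinset]
      simp only [List.mem_append, List.mem_cons, List.mem_map, Sum.inr.injEq, reduceCtorEq,
        exists_eq_right, false_or] at hc ⊢
      rcases hc with hc | hc | hc
      · exact Or.inl (Or.inl (Or.inl (Or.inl (Or.inl (Or.inl (Or.inl (Or.inl hc)))))))
      · exact Or.inl (Or.inl (Or.inl (Or.inl (Or.inr hc))))
      · exact Or.inr hc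
    have g1 : ∀ c, Sum.inr c ∈ Hg.fr H1 → c ∈ D' := by
      intro c hc
      rw [f1] at hc
      simp only [D', List.mem_toFinset]
      simp only [List.mem_append, List.mem_cons, List.mem_map, Sum.inr.injEq, reduceCtorEq,
        exists_eq_right, false_or] at hc ⊢
      rcases hc with hc | hc
      · exact Or.inl (Or.inl (Or.inl (Or.inl (Or.inl (Or.inl (Or.inl (Or.inr hc)))))))
      · exact Or.inl (Or.inl (Or.inl (Or.inl (Or.inl (Or.inr hc)))))
    have g2 : ∀ c, Sum.inr c ∈ Hg.fr H2 → c ∈ D' := by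
      intro c hc
      rw [f2] at hc
      simp only [D', List.mem_toFinset]
      simp only [List.mem_append, List.mem_cons, List.mem_map, Sum.inr.injEq, reduceCtorEq,
        exists_eq_right, false_or] at hc ⊢
      rcases hc with hc | hc
      · exact Or.inl (Or.inl (Or.inl (Or.inr hc)))
      · exact Or.inl (Or.inr hc)
    have g3 : ∀ c, Sum.inr c ∈ Hg.fr H3 → c ∈ D' := by
      intro c hc
      rw [f3] at hc
      simp only [D', List.mem_toFinset]
      simp only [List.mem_append, List.mem_map, Sum.inr.injEq, exists_eq_right] at hc ⊢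
      exact Or.inl (Or.inl (Or.inl (Or.inl (Or.inl (Or.inl (Or.inr hc))))))
    have g4 : ∀ c, Sum.inr c ∈ Hg.fr H4 → c ∈ D' := by
      intro c hc
      rw [f4] at hc
      simp only [D', List.mem_toFinset]
      simp only [List.mem_append, List.mem_map, Sum.inr.injEq, exists_eq_right] at hc ⊢
      exact Or.inl (Or.inl (Or.inr hc))
    generalize β.map (Sum.map (Subtype.val : Q' → NS Q) id) = γ at h5 hc'
    rcases h5 with h | ⟨p, hp, he⟩
    · simp only [Set.mem_insert_iff, Prod.mk.injEq, Set.mem_singleton_iff] at h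
      rcases h with ⟨rfl, rfl⟩ | ⟨rfl, rfl⟩ | ⟨rfl, rfl⟩ | ⟨rfl, rfl⟩ | ⟨rfl, rfl⟩
      · exact g0 c (Hg.roots_letters _ _ hc')
      · exact g1 c (Hg.roots_letters _ _ hc')
      · exact g2 c (Hg.roots_letters _ _ hc')
      · exact g3 c (Hg.roots_letters _ _ hc')
      · exact g4 c (Hg.roots_letters _ _ hc')
    · simp only [Prod.mk.injEq] at he
      obtain ⟨rfl, rfl⟩ := he
      have hc2 := Hg.roots_letters _ _ hc'
      rcases hp with (((hp | hp) | hp) | hp) | hp
      · exact g0 c (Hg.nodes_letters _ p hp _ hc2)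
      · exact g1 c (Hg.nodes_letters _ p hp _ hc2)
      · exact g2 c (Hg.nodes_letters _ p hp _ hc2)
      · exact g3 c (Hg.nodes_letters _ p hp _ hc2)
      · exact g4 c (Hg.nodes_letters _ p hp _ hc2)
  · ext w
    simp only [Set.mem_ofPred_eq]
    rw [hDer, Der.inl_iff']
    have hroot : ∀ w, Der (ExR R0) (Hg.roots H0) w ↔ ∃ n m, w = w0 X U A V Y RR BB T ZZ n m := by
      intro w
      rw [Hg.fill hR0 H0 s0, f0, Sub.append_iff]
      constructor
      · rintro ⟨w1, w2, rfl, h5, h6⟩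
        rw [Sub.cons_iff] at h6
        obtain ⟨w3, w4, rfl, h7, h8⟩ := h6
        rw [Sub.append_iff] at h8
        obtain ⟨w5, w6, rfl, h9, h10⟩ := h8
        rw [Sub.cons_iff] at h10
        obtain ⟨w7, w8, rfl, h11, h12⟩ := h10
        rw [Sub.flf_ter] at h5 h9 h12
        obtain ⟨n, rfl⟩ := (hK1 _).1 h7
        obtain ⟨m, rfl⟩ := (hK2 _).1 h11
        exact ⟨n, m, by rw [h5, h9, h12]; rfl⟩
      · rintro ⟨n, m, rfl⟩
        refine ⟨X, _, rfl, Sub.flf_ter.2 rfl, ?_⟩
        refine Sub.cons ((hK1 _).2 ⟨n, rfl⟩) ?_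
        rw [Sub.append_iff]
        refine ⟨Y, _, rfl, Sub.flf_ter.2 rfl, ?_⟩
        exact Sub.cons ((hK2 _).2 ⟨m, rfl⟩) (Sub.flf_ter.2 rfl)
    constructor
    · intro h
      exact ⟨Hg.roots H0, Or.inl (by simp), (hroot w).2 h⟩
    · rintro ⟨β, (h | ⟨p, hp, he⟩), h4⟩
      · simp only [Set.mem_insert_iff, Prod.mk.injEq, Set.mem_singleton_iff, Sum.inl.injEq,
          reduceCtorEq, false_and, true_and, or_false] at h
        subst h
        exact (hroot w).1 h4
      · simp at he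

end Pool.Agent.Helper230.E
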