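import Pool.Agent.Helper230.ECert

/-! The refinement of a parallel grammar attached to a certificate. -/

namespace Pool.Agent.Helper230.E

section refine
variable {Q : Type} {pr : Q → List Q → Prop} {tm : Q → Prop} {S : Q} (C : Cert pr tm S)

def Cert.T1 : ℕ := C.l + C.P + C.τ

def Cert.Dst (t : ℕ) : ℕ :=
  if t ≤ C.l then C.l - t else if t ≤ C.l + C.P then C.l + C.P - t else C.l + C.P + C.τ - t

def Cert.ok1 (t : ℕ) (p : Q × List Mk) : Prop :=
  if t ≤ C.l + C.P then (p.1 ∈ Bs pr tm C.τ ∧ (p.2 = [] ∨ ∃ m, p.2 = [m] ∧ p.1 ∈ Ns pr tm C.τ ∧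
    ∀ Z, C.sym m = some Z → p.1 = Z)) else tm p.1 ∧ (p.2 = [] ∨ ∃ m, p.2 = [m])

def Cert.Val (X : Q) (t : ℕ) (c : List Mk) : Prop :=
  t ≤ C.T1 ∧ c.length ≤ 6 ∧ ∃ w : MW Q, It pr (C.Dst t) [X] (w.map Prod.fst) ∧
    (∀ p ∈ w, C.ok1 t p) ∧ conts w = c

def Cert.VV (q : Q × Option (ℕ × List Mk)) : Prop := ∀ t c, q.2 = some (t, c) → C.Val q.1 t c

abbrev Cert.Sy := {q : Q × Option (ℕ × List Mk) // C.VV q}

variable {C}

def cont (a : C.Sy) : List Mk := (a.1.2.map Prod.snd).getD []

def cts (w : List C.Sy) : List Mk := w.flatMap cont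

def sty (a : C.Sy) : Q := a.1.1

variable (C)

def Cert.tr (t : ℕ) (c : List Mk) (t' : ℕ) (c' : List Mk) : Prop :=
  (t ≠ C.l ∧ t ≠ C.l + C.P ∧ t < C.T1 ∧ t' = t + 1 ∧ c' = c) ∨
  ((t = C.l ∨ t = C.l + C.P) ∧ t' = C.l + 1 ∧ c' = c.flatMap C.κ) ∨
  (t = C.l + C.P ∧ t' = C.l + C.P + 1 ∧ c' = c)

def Cert.prR (q : C.Sy) (α : List C.Sy) : Prop :=
  pr q.1.1 (α.map sty) ∧
  (((∀ a ∈ α, a.1.2 = none) ∧ ∀ t c, q.1.2 = some (t, c) → t = C.T1) ∨
   ∃ t c t' c', q.1.2 = some (t, c) ∧ C.tr t c t' c' ∧ (∀ a ∈ α, ∃ ca, a.1.2 = some (t', ca)) ∧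
     cts α = c')

variable {C}

theorem Cert.finite_Sy [Finite Q] : Finite C.Sy := by
  have h1 : Set.Finite ((Set.univ : Set Q) ×ˢ
      (({none} : Set (Option (ℕ × List Mk))) ∪ some '' (Set.Iic C.T1 ×ˢ {c | c.length ≤ 6}))) := by
    refine Set.Finite.prod Set.finite_univ (Set.Finite.union (Set.finite_singleton _)
      (Set.Finite.image _ (Set.Finite.prod (Set.finite_Iic _) (List.finite_length_le Mk 6))))
  refine Set.Finite.to_subtype (h1.subset ?_)
  rintro ⟨X, o⟩ h
  refine ⟨Set.mem_univ _, ?_⟩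
  cases o with
  | none => exact Or.inl rfl
  | some p =>
    obtain ⟨t, c⟩ := p
    obtain ⟨h1, h2, -⟩ := h t c rfl
    exact Or.inr ⟨(t, c), ⟨h1, h2⟩, rfl⟩

theorem Cert.finite_prR [Finite Q] (hpr : ∀ X, {α | pr X α}.Finite) (q : C.Sy) :
    {α | C.prR q α}.Finite := by
  have hf : Finite C.Sy := Cert.finite_Sy
  obtain ⟨b, hb⟩ := ((hpr q.1.1).image List.length).bddAbove
  refine (List.finite_length_le C.Sy b).subset ?_
  rintro α ⟨h1, -⟩
  have := hb ⟨_, h1, rfl⟩
  simpa using this

theorem Cert.seg {t' : ℕ} (ht' : t' ≤ C.T1) (α : List Q) (w : MW Q)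
    (h : It pr (C.Dst t') α (w.map Prod.fst)) (hok : ∀ p ∈ w, C.ok1 t' p)
    (hlen : (conts w).length ≤ 6) :
    ∃ β : List C.Sy, β.map sty = α ∧ (∀ a ∈ β, ∃ ca, a.1.2 = some (t', ca)) ∧
      cts β = conts w := by
  induction α generalizing w with
  | nil =>
    rw [It.nil_iff, List.map_eq_nil_iff] at h
    subst h
    exact ⟨[], rfl, by simp, rfl⟩
  | cons X α ih =>
    obtain ⟨w1, w2, he, h1, h2⟩ := It.split (u := [X]) (v := α) h
    obtain ⟨v1, v2, rfl, rfl, rfl⟩ := List.map_eq_append_iff.1 he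
    have hc : conts (v1 ++ v2) = conts v1 ++ conts v2 := by simp [conts]
    rw [hc, List.length_append] at hlen
    obtain ⟨β, h3, h4, h5⟩ := ih v2 h2 (fun p hp => hok p (by simp [hp])) (by omega)
    have hV : C.VV (X, some (t', conts v1)) := by
      intro t c htc
      simp only [Option.some.injEq, Prod.mk.injEq] at htc
      obtain ⟨rfl, rfl⟩ := htc
      exact ⟨ht', by omega, v1, h1, fun p hp => hok p (by simp [hp]), rfl⟩
    refine ⟨⟨_, hV⟩ :: β, ?_, ?_, ?_⟩
    · simp [h3, sty]
    · intro a ha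
      rcases List.mem_cons.1 ha with rfl | ha
      · exact ⟨_, rfl⟩
      · exact h4 a ha
    · rw [hc, ← h5]
      simp [cts, cont]

theorem flat_nil (a : List Q) :
    (a.map (fun x => (x, ([] : List Mk)))).flatMap Prod.snd = [] := by
  rw [List.flatMap_eq_nil_iff]
  intro p hp
  rw [List.mem_map] at hp
  obtain ⟨x, -, rfl⟩ := hp
  rfl

theorem lift_one {τ : ℕ} {X : Q} {c : List Mk} (h1 : X ∈ Bs pr tm τ)
    (h2 : c = [] ∨ ∃ m, c = [m] ∧ X ∈ Ns pr tm τ) :
    ∃ w : MW Q, It pr τ [X] (w.map Prod.fst) ∧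
      (∀ p ∈ w, tm p.1 ∧ (p.2 = [] ∨ ∃ m, p.2 = [m])) ∧ conts w = c := by
  rcases h2 with rfl | ⟨m, rfl, h2⟩
  · obtain ⟨u, hu1, hu2⟩ := h1
    refine ⟨u.map (fun x => (x, [])), ?_, ?_, ?_⟩
    · simpa [Function.comp_def] using hu1
    · intro p hp
      rw [List.mem_map] at hp
      obtain ⟨x, hx, rfl⟩ := hp
      exact ⟨hu2 x hx, Or.inl rfl⟩
    · simp [conts]
  · obtain ⟨u, ⟨hu1, hu2⟩, hne⟩ := h2
    cases u with
    | nil => exact absurd rfl hne
    | cons y u =>
      refine ⟨(y, [m]) :: u.map (fun x => (x, [])), ?_, ?_, ?_⟩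
      · simpa [Function.comp_def] using hu1
      · intro p hp
        rcases List.mem_cons.1 hp with rfl | hp
        · exact ⟨hu2 y List.mem_cons_self, Or.inr ⟨m, rfl⟩⟩
        · rw [List.mem_map] at hp
          obtain ⟨x, hx, rfl⟩ := hp
          exact ⟨hu2 x (List.mem_cons_of_mem _ hx), Or.inl rfl⟩
      · simp [conts]

theorem Cert.val_zero {X : Q} {t : ℕ} {c : List Mk} (h : C.Val X t c) (hD : C.Dst t = 0) :
    C.ok1 t (X, c) := by
  obtain ⟨-, -, w, h1, h2, rfl⟩ := h
  rw [hD, It, List.map_eq_singleton_iff] at h1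
  obtain ⟨p, rfl, rfl⟩ := h1
  have := h2 p (by simp)
  have e : conts [p] = p.2 := by simp [conts]
  rw [e]
  exact this

theorem Cert.tot (q : C.Sy) {t t' : ℕ} {c c' : List Mk} (hq : q.1.2 = some (t, c))
    (htr : C.tr t c t' c') :
    ∃ α, C.prR q α ∧ (∀ a ∈ α, ∃ ca, a.1.2 = some (t', ca)) ∧ cts α = c' := by
  have hP := C.hP
  have hτ := C.hτ
  have hV := q.2 t c hq
  suffices h : t' ≤ C.T1 ∧ c'.length ≤ 6 ∧ ∃ w : MW Q, It pr (C.Dst t' + 1) [q.1.1] (w.map Prod.fst) ∧
      (∀ p ∈ w, C.ok1 t' p) ∧ conts w = c' by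
    obtain ⟨h1, h2, w, h3, h4, h5⟩ := h
    obtain ⟨α, h6, h7⟩ := It.single_succ.1 h3
    obtain ⟨β, h8, h9, h10⟩ := Cert.seg h1 α w h7 h4 (by rw [h5]; exact h2)
    refine ⟨β, ⟨by rw [h8]; exact h6, Or.inr ⟨t, c, t', c', hq, htr, h9, by rw [h10, h5]⟩⟩, h9,
      by rw [h10, h5]⟩
  rcases htr with ⟨h1, h2, h3, rfl, rfl⟩ | ⟨h1, rfl, rfl⟩ | ⟨rfl, rfl, rfl⟩
  · obtain ⟨h4, h5, w, h6, h7, h8⟩ := hV
    refine ⟨by omega, h5, w, ?_, ?_, h8⟩
    · have e : C.Dst (t + 1) + 1 = C.Dst t := by
        unfold Cert.Dst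
        unfold Cert.T1 at h3
        split_ifs <;> omega
      rw [e]; exact h6
    · intro p hp
      have := h7 p hp
      unfold Cert.ok1 at this ⊢
      by_cases hc : t ≤ C.l + C.P
      · rw [if_pos hc] at this
        rw [if_pos (by omega)]
        exact this
      · rw [if_neg hc] at this
        rw [if_neg (by omega)]
        exact this
  · have hD : C.Dst t = 0 := by
      unfold Cert.Dst
      rcases h1 with rfl | rfl
      · simp
      · split_ifs <;> omega
    have h2 := Cert.val_zero hV hD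
    unfold Cert.ok1 at h2
    rw [if_pos (by rcases h1 with rfl | rfl <;> omega)] at h2
    dsimp only at h2
    have hD' : C.Dst (C.l + 1) + 1 = C.P := by
      unfold Cert.Dst
      split_ifs <;> omega
    have hok : ∀ w : MW Q, MOK pr tm C.τ C.sym w → ∀ p ∈ w, C.ok1 (C.l + 1) p := by
      intro w hw p hp
      unfold Cert.ok1
      rw [if_pos (by omega)]
      exact hw p hp
    rw [hD']
    refine ⟨by unfold Cert.T1; omega, ?_, ?_⟩
    · rcases h2.2 with rfl | ⟨m, rfl, -⟩
      · simp
      · simpa using C.κ_len m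
    · rcases h2 with ⟨hB, rfl | ⟨m, rfl, hN, hs⟩⟩
      · rw [← C.hB] at hB
        obtain ⟨v, h3, h4⟩ := Bs_add.1 hB
        refine ⟨v.map (fun x => (x, [])), by simpa [Function.comp_def] using h3,
          hok _ ?_, by simp [conts]⟩
        intro p hp
        rw [List.mem_map] at hp
        obtain ⟨x, hx, rfl⟩ := hp
        exact ⟨h4 x hx, Or.inl rfl⟩
      · cases hsm : C.sym m with
        | none =>
          rw [← C.hN] at hN
          obtain ⟨v, h3, h4, Z, hZ, hZN⟩ := Ns_add.1 hN
          obtain ⟨a, b, rfl⟩ := List.append_of_mem hZ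
          refine ⟨a.map (fun x => (x, [])) ++ (Z, [m]) :: b.map (fun x => (x, [])),
            by simpa [Function.comp_def] using h3, hok _ ?_, ?_⟩
          · intro p hp
            rcases List.mem_append.1 hp with hp | hp
            · rw [List.mem_map] at hp
              obtain ⟨x, hx, rfl⟩ := hp
              exact ⟨h4 x (by simp [hx]), Or.inl rfl⟩
            · rcases List.mem_cons.1 hp with rfl | hp
              · exact ⟨h4 Z (by simp), Or.inr ⟨m, rfl, hZN, fun Z' hZ' => by
                  rw [hsm] at hZ'; simp at hZ'⟩⟩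
              · rw [List.mem_map] at hp
                obtain ⟨x, hx, rfl⟩ := hp
                exact ⟨h4 x (by simp [hx]), Or.inl rfl⟩
          · unfold conts
            rw [List.flatMap_append, flat_nil, List.flatMap_cons, flat_nil]
            simp [C.κ_a m hsm]
        | some Z =>
          have h3 := hs Z hsm
          obtain ⟨w, h4, h5, h6⟩ := C.loop m Z hsm
          refine ⟨w, by rw [h3]; exact h4, hok w h5, by simpa using h6⟩
  · have hD : C.Dst (C.l + C.P) = 0 := by
      unfold Cert.Dst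
      split_ifs <;> omega
    have h2 := Cert.val_zero hV hD
    unfold Cert.ok1 at h2
    rw [if_pos (le_refl _)] at h2
    dsimp only at h2
    have hD' : C.Dst (C.l + C.P + 1) + 1 = C.τ := by
      unfold Cert.Dst
      split_ifs <;> omega
    rw [hD']
    refine ⟨by unfold Cert.T1; omega, hV.2.1, ?_⟩
    obtain ⟨w, h3, h4, h5⟩ := lift_one (tm := tm) h2.1
      (h2.2.imp id (fun ⟨m, h, h', _⟩ => ⟨m, h, h'⟩))
    refine ⟨w, h3, ?_, h5⟩
    intro p hp
    unfold Cert.ok1
    rw [if_neg (by omega)]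
    exact h4 p hp

theorem Cert.total (htot : ∀ X, ∃ α, pr X α) (q : C.Sy) : ∃ α, C.prR q α := by
  have htrap : (∀ t c, q.1.2 = some (t, c) → t = C.T1) → ∃ α, C.prR q α := by
    intro h
    obtain ⟨α, hα⟩ := htot q.1.1
    have hV : ∀ X : Q, C.VV (X, none) := by
      intro X t c h
      simp at h
    refine ⟨α.map (fun X => ⟨(X, none), hV X⟩), ?_, Or.inl ⟨?_, h⟩⟩
    · simpa [Function.comp_def, sty] using hα
    · intro a ha
      rw [List.mem_map] at ha
      obtain ⟨X, -, rfl⟩ := ha
      rfl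
  have hP := C.hP
  have hτ := C.hτ
  rcases ho : q.1.2 with _ | ⟨t, c⟩
  · exact htrap (fun t c h => by rw [ho] at h; simp at h)
  · have hle := (q.2 t c ho).1
    by_cases h1 : t = C.T1
    · refine htrap (fun t' c' h => ?_)
      rw [ho] at h
      simp only [Option.some.injEq, Prod.mk.injEq] at h
      rw [← h.1]; exact h1
    · by_cases h2 : t = C.l ∨ t = C.l + C.P
      · obtain ⟨α, h, -⟩ := Cert.tot q ho (t' := C.l + 1) (c' := c.flatMap C.κ)
          (Or.inr (Or.inl ⟨h2, rfl, rfl⟩))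
        exact ⟨α, h⟩
      · push Not at h2
        obtain ⟨α, h, -⟩ := Cert.tot q ho (t' := t + 1) (c' := c)
          (Or.inl ⟨h2.1, h2.2, by omega, rfl, rfl⟩)
        exact ⟨α, h⟩

variable (C) in
def Cert.good (x : C.Sy) : Prop := ∃ c, x.1.2 = some (C.T1, c)

theorem cts_append (u v : List C.Sy) : cts (u ++ v) = cts u ++ cts v := by simp [cts]

theorem cont_some {q : C.Sy} {t : ℕ} {c : List Mk} (h : q.1.2 = some (t, c)) : cont q = c := by
  simp [cont, h]

theorem cont_none {q : C.Sy} (h : q.1.2 = none) : cont q = [] := by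
  simp [cont, h]

theorem cts_sub {f : C.Sy → List C.Sy → Prop} {g : C.Sy → List Mk} {α u : List C.Sy}
    (h : Sub f α u) (hf : ∀ a ∈ α, ∀ w, f a w → cts w = g a) : cts u = α.flatMap g := by
  induction h with
  | nil => rfl
  | cons h1 _ ih =>
    rw [cts_append, hf _ List.mem_cons_self _ h1,
      ih (fun a ha => hf a (List.mem_cons_of_mem _ ha))]
    rfl

theorem Cert.tr_lt {t t' : ℕ} {c c' : List Mk} (h : C.tr t c t' c') : t < C.T1 := by
  have hP := C.hP
  have hτ := C.hτ
  unfold Cert.tr at h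
  unfold Cert.T1 at h ⊢
  omega

/-- nonempty good yields are synchronised -/
theorem Cert.sync {ρ : ℕ} : ∀ {q : C.Sy} {u : List C.Sy}, It C.prR ρ [q] u → u ≠ [] →
    (∀ x ∈ u, C.good x) → ∃ t c k, q.1.2 = some (t, c) ∧ ρ + t = C.T1 + k * C.P ∧
      (C.l + C.P < t → k = 0) := by
  have hP := C.hP
  have hτ := C.hτ
  induction ρ with
  | zero =>
    intro q u h _ hg
    rw [It] at h
    subst h
    obtain ⟨c, hc⟩ := hg q (by simp)
    exact ⟨C.T1, c, 0, hc, by simp, fun _ => rfl⟩
  | succ ρ ih =>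
    intro q u h hne hg
    obtain ⟨α, h1, h2⟩ := It.single_succ.1 h
    cases u with
    | nil => exact absurd rfl hne
    | cons x u =>
      rw [It.iff_sub] at h2
      obtain ⟨u1, a, u2, p1, p2, s1, s2, rfl, h3, rfl, h4, h5, h6⟩ := Sub.locate (p := []) h2
      obtain ⟨rfl, rfl⟩ := List.append_eq_nil_iff.1 h3.symm
      obtain ⟨ta, ca, k, h7, h8, h9⟩ := ih h5 (by simp) (by
        intro y hy
        apply hg
        simp only [List.nil_append] at hy
        rcases List.mem_cons.1 hy with rfl | hy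
        · simp
        · simp [hy])
      obtain ⟨-, h1 | ⟨t, c, t', c', h10, h11, h12, h13⟩⟩ := h1
      · have := h1.1 a (by simp)
        rw [h7] at this
        simp at this
      · obtain ⟨ca', h14⟩ := h12 a (by simp)
        rw [h7] at h14
        simp only [Option.some.injEq, Prod.mk.injEq] at h14
        obtain ⟨rfl, rfl⟩ := h14
        rcases h11 with ⟨h15, h16, h17, rfl, rfl⟩ | ⟨h15 | h15, rfl, rfl⟩ | ⟨rfl, rfl, rfl⟩
        · exact ⟨t, _, k, h10, by omega, fun h => h9 (by omega)⟩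
        · exact ⟨t, _, k, h10, by omega, fun h => by omega⟩
        · refine ⟨t, _, k + 1, h10, ?_, fun h => by omega⟩
          rw [Nat.add_mul]
          omega
        · have := h9 (by omega)
          exact ⟨_, _, k, h10, by omega, fun _ => this⟩

theorem Cert.empty_step {α β : List C.Sy} (h : Sub C.prR α β) (hc : cts α = []) : cts β = [] := by
  rw [cts_sub (g := fun _ => []) h]
  · simp
  · intro a ha w hw
    have hca : cont a = [] := by
      unfold cts at hc
      rw [List.flatMap_eq_nil_iff] at hc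
      exact hc a ha
    obtain ⟨-, h1 | ⟨t, c, t', c', h10, h11, h12, h13⟩⟩ := hw
    · unfold cts
      rw [List.flatMap_eq_nil_iff]
      exact fun x hx => cont_none (h1.1 x hx)
    · rw [h13]
      rw [cont_some h10] at hca
      subst hca
      rcases h11 with ⟨h15, h16, h17, rfl, rfl⟩ | ⟨h15 | h15, rfl, rfl⟩ | ⟨rfl, rfl, rfl⟩ <;> rfl

theorem Cert.empty {ρ : ℕ} {α β : List C.Sy} (h : It C.prR ρ α β) (hc : cts α = []) :
    cts β = [] := by
  induction ρ generalizing α with
  | zero => rw [It] at h; subst h; exact hc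
  | succ ρ ih =>
    obtain ⟨v, h1, h2⟩ := h
    exact ih h2 (Cert.empty_step h1 hc)

theorem Cert.tail {ρ : ℕ} : ∀ {q : C.Sy} {u : List C.Sy} {t : ℕ} {c : List Mk},
    It C.prR ρ [q] u → q.1.2 = some (t, c) → C.l + C.P < t → ρ + t = C.T1 → cts u = c := by
  have hP := C.hP
  induction ρ with
  | zero =>
    intro q u t c h hq _ _
    rw [It] at h
    subst h
    simp [cts, cont_some hq]
  | succ ρ ih =>
    intro q u t c h hq ht he
    obtain ⟨α, h1, h2⟩ := It.single_succ.1 h
    obtain ⟨-, h1 | ⟨t1, c1, t', c', h10, h11, h12, h13⟩⟩ := h1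
    · have := h1.2 t c hq
      omega
    · rw [hq] at h10
      simp only [Option.some.injEq, Prod.mk.injEq] at h10
      obtain ⟨rfl, rfl⟩ := h10
      rcases h11 with ⟨h15, h16, h17, rfl, rfl⟩ | ⟨h15 | h15, rfl, rfl⟩ | ⟨rfl, rfl, rfl⟩
      · rw [It.iff_sub] at h2
        rw [cts_sub (g := cont) h2]
        · exact h13
        · intro a ha w hw
          obtain ⟨ca, hca⟩ := h12 a ha
          rw [ih hw hca (by omega) (by omega), cont_some hca]
      all_goals omega

theorem Cert.late {ρ : ℕ} : ∀ {q : C.Sy} {u : List C.Sy} {t : ℕ} {c : List Mk},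
    It C.prR ρ [q] u → q.1.2 = some (t, c) → c ≠ [] → ρ + t < C.T1 → ∃ x ∈ u, ¬ C.good x := by
  have hP := C.hP
  induction ρ with
  | zero =>
    intro q u t c h hq _ hlt
    rw [It] at h
    subst h
    refine ⟨q, by simp, ?_⟩
    rintro ⟨c', hc'⟩
    rw [hq] at hc'
    simp only [Option.some.injEq, Prod.mk.injEq] at hc'
    omega
  | succ ρ ih =>
    intro q u t c h hq hc hlt
    obtain ⟨α, h1, h2⟩ := It.single_succ.1 h
    obtain ⟨-, h1 | ⟨t1, c1, t', c', h10, h11, h12, h13⟩⟩ := h1
    · have := h1.2 t c hq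
      omega
    · rw [hq] at h10
      simp only [Option.some.injEq, Prod.mk.injEq] at h10
      obtain ⟨rfl, rfl⟩ := h10
      have hc' : c' ≠ [] := by
        rcases h11 with ⟨h15, h16, h17, rfl, rfl⟩ | ⟨h15, rfl, rfl⟩ | ⟨rfl, rfl, rfl⟩
        · exact hc
        · intro h
          rw [List.flatMap_eq_nil_iff] at h
          cases c with
          | nil => exact hc rfl
          | cons m c => exact C.κ_ne m (h m (by simp))
        · exact hc
      have ht' : ρ + t' < C.T1 := by
        rcases h11 with ⟨h15, h16, h17, rfl, rfl⟩ | ⟨h15 | h15, rfl, rfl⟩ | ⟨rfl, rfl, rfl⟩ <;>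
          omega
      have : ∃ a ∈ α, cont a ≠ [] := by
        by_contra hcon
        push Not at hcon
        apply hc'
        rw [← h13]
        unfold cts
        rw [List.flatMap_eq_nil_iff]
        exact hcon
      obtain ⟨a, ha, hca⟩ := this
      obtain ⟨ca, hca'⟩ := h12 a ha
      rw [cont_some hca'] at hca
      obtain ⟨x, y, rfl⟩ := List.append_of_mem ha
      obtain ⟨w1, w2, rfl, -, h3⟩ := It.split h2
      obtain ⟨w3, w4, rfl, h4, -⟩ := It.split (u := [a]) (v := y) h3
      obtain ⟨z, hz, hzg⟩ := ih h4 hca' hca ht'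
      exact ⟨z, by simp [hz], hzg⟩

theorem Cert.late_word {ρ t : ℕ} {α u : List C.Sy} (h : It C.prR ρ α u)
    (h12 : ∀ a ∈ α, ∃ ca, a.1.2 = some (t, ca)) (hc : cts α ≠ []) (hlt : ρ + t < C.T1) :
    ∃ x ∈ u, ¬ C.good x := by
  have : ∃ a ∈ α, cont a ≠ [] := by
    by_contra hcon
    push Not at hcon
    apply hc
    unfold cts
    rw [List.flatMap_eq_nil_iff]
    exact hcon
  obtain ⟨a, ha, hca⟩ := this
  obtain ⟨ca, hca'⟩ := h12 a ha
  rw [cont_some hca'] at hca
  obtain ⟨x, y, rfl⟩ := List.append_of_mem ha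
  obtain ⟨w1, w2, rfl, -, h3⟩ := It.split h
  obtain ⟨w3, w4, rfl, h4, -⟩ := It.split (u := [a]) (v := y) h3
  obtain ⟨z, hz, hzg⟩ := Cert.late h4 hca' hca hlt
  exact ⟨z, by simp [hz], hzg⟩

theorem Cert.proj {ρ : ℕ} {α β : List C.Sy} (h : It C.prR ρ α β) :
    It pr ρ (α.map sty) (β.map sty) := by
  induction ρ generalizing α with
  | zero => rw [It] at h ⊢; rw [h]
  | succ ρ ih =>
    obtain ⟨v, h1, h2⟩ := h
    refine ⟨v.map sty, ?_, ih h2⟩
    clear h2
    induction h1 with
    | nil => exact Sub.nil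
    | cons h3 _ ih =>
      rw [List.map_cons, List.map_append]
      exact Sub.cons h3.1 ih

theorem Cert.good_tm {x : C.Sy} (h : C.good x) : tm (sty x) := by
  have hP := C.hP
  have hτ := C.hτ
  obtain ⟨c, hc⟩ := h
  have hV := x.2 _ _ hc
  have hD : C.Dst C.T1 = 0 := by
    unfold Cert.Dst Cert.T1
    split_ifs <;> omega
  have h1 := Cert.val_zero hV hD
  unfold Cert.ok1 at h1
  rw [if_neg (by unfold Cert.T1; omega)] at h1
  exact h1.1

theorem Cert.good_yd {ρ : ℕ} {α β : List C.Sy} (h : It C.prR ρ α β) (hg : ∀ x ∈ β, C.good x) :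
    Yd pr tm ρ (α.map sty) (β.map sty) := by
  refine ⟨Cert.proj h, ?_⟩
  intro x hx
  rw [List.mem_map] at hx
  obtain ⟨y, hy, rfl⟩ := hx
  exact Cert.good_tm (hg y hy)

def Imp (pr : Q → List Q → Prop) (tm : Q → Prop) (ρ : ℕ) (v w : List Q) : Prop :=
  ∃ l y r, w = l ++ r ∧ y ≠ [] ∧ Yd pr tm ρ v (l ++ y ++ r)

theorem Cert.comb {ρ j : ℕ} {α u : List C.Sy} (h : Sub (fun a w => It C.prR ρ [a] w) α u)
    (hg : ∀ x ∈ u, C.good x)
    (hf : ∀ a ∈ α, ∀ w, It C.prR ρ [a] w → (∀ x ∈ w, C.good x) →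
      Imp pr tm ρ [sty a] (w.map sty) ∨
      cts w = (fun x : List Mk => x.flatMap C.κ)^[j] (cont a)) :
    Imp pr tm ρ (α.map sty) (u.map sty) ∨
      cts u = (fun x : List Mk => x.flatMap C.κ)^[j] (cts α) := by
  induction h with
  | nil =>
    right
    have : ∀ j, (fun x : List Mk => x.flatMap C.κ)^[j] [] = [] := by
      intro j
      induction j with
      | zero => rfl
      | succ j ih => rw [Function.iterate_succ_apply]; exact ih
    show [] = (fun x : List Mk => x.flatMap C.κ)^[j] []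
    rw [this]
  | @cons a α w1 w2 h1 h2 ih =>
    have hg1 : ∀ x ∈ w1, C.good x := fun x hx => hg x (by simp [hx])
    have hg2 : ∀ x ∈ w2, C.good x := fun x hx => hg x (by simp [hx])
    have hy1 : Yd pr tm ρ [sty a] (w1.map sty) := Cert.good_yd (α := [a]) h1 hg1
    have hy2 : Yd pr tm ρ (α.map sty) (w2.map sty) := Cert.good_yd (It.iff_sub.2 h2) hg2
    rcases hf a List.mem_cons_self w1 h1 hg1 with ⟨l, y, r, h3, h4, h5⟩ | h3
    · left
      refine ⟨l, y, r ++ w2.map sty, ?_, h4, ?_⟩
      · rw [List.map_append, h3, List.append_assoc]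
      · have := Yd.append_iff.2 ⟨_, _, rfl, h5, hy2⟩
        simpa using this
    · rcases ih hg2 (fun b hb => hf b (List.mem_cons_of_mem _ hb)) with ⟨l, y, r, h4, h5, h6⟩ | h4
      · left
        refine ⟨w1.map sty ++ l, y, r, ?_, h5, ?_⟩
        · rw [List.map_append, h4, List.append_assoc]
        · have := Yd.append_iff.2 ⟨_, _, rfl, hy1, h6⟩
          simpa using this
      · right
        have e : cts (a :: α) = cont a ++ cts α := rfl
        rw [cts_append, h3, h4, e, theta_append]

theorem Cert.main {ρ : ℕ} : ∀ {q : C.Sy} {u : List C.Sy} {t k : ℕ} {c : List Mk},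
    It C.prR ρ [q] u → (∀ x ∈ u, C.good x) → q.1.2 = some (t, c) → t ≤ C.l + C.P →
    ρ + t = C.T1 + k * C.P → Imp pr tm ρ [sty q] (u.map sty) ∨
      cts u = (fun x : List Mk => x.flatMap C.κ)^[k + (if t ≤ C.l then 1 else 0)] c := by
  have hP := C.hP
  have hτ := C.hτ
  have hnil : ∀ j, (fun x : List Mk => x.flatMap C.κ)^[j] [] = [] := by
    intro j
    induction j with
    | zero => rfl
    | succ j ih => rw [Function.iterate_succ_apply]; exact ih
  induction ρ with
  | zero =>
    intro q u t k c _ _ _ h1 h2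
    exfalso
    have : C.T1 = C.l + C.P + C.τ := rfl
    generalize k * C.P = z at h2
    omega
  | succ ρ ih =>
    intro q u t k c h hg hq ht he
    obtain ⟨α, h1, h2⟩ := It.single_succ.1 h
    have hT1 : C.T1 = C.l + C.P + C.τ := rfl
    obtain ⟨hpr, h1 | ⟨t1, c1, t', c', h10, h11, h12, h13⟩⟩ := h1
    · have := h1.2 t c hq
      omega
    rw [hq] at h10
    simp only [Option.some.injEq, Prod.mk.injEq] at h10
    obtain ⟨rfl, rfl⟩ := h10
    rw [It.iff_sub] at h2
    -- lifting an impropriety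
    have himp : Imp pr tm ρ (α.map sty) (u.map sty) → Imp pr tm (ρ + 1) [sty q] (u.map sty) := by
      rintro ⟨l, y, r, h3, h4, h5, h6⟩
      exact ⟨l, y, r, h3, h4, It.single_succ.2 ⟨_, hpr, h5⟩, h6⟩
    have hstep : ∀ k', t' ≤ C.l + C.P → ρ + t' = C.T1 + k' * C.P →
        Imp pr tm (ρ + 1) [sty q] (u.map sty) ∨
        cts u = (fun x : List Mk => x.flatMap C.κ)^[k' + (if t' ≤ C.l then 1 else 0)] c' := by
      intro k' h3 h4
      have h5 := Cert.comb (j := k' + (if t' ≤ C.l then 1 else 0)) h2 hg (by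
        intro a ha w hw hgw
        obtain ⟨ca, hca⟩ := h12 a ha
        have := ih hw hgw hca h3 h4
        rw [cont_some hca]
        exact this)
      rw [h13] at h5
      exact h5.imp himp id
    rcases h11 with ⟨h15, h16, h17, rfl, rfl⟩ | ⟨h15 | h15, rfl, rfl⟩ | ⟨rfl, rfl, rfl⟩
    · have h3 := hstep k (by omega) (by omega)
      have e : (if t + 1 ≤ C.l then 1 else 0) = (if t ≤ C.l then 1 else 0) := by
        split_ifs <;> omega
      rwa [e] at h3
    · have h3 := hstep k (by omega) (by omega)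
      rw [if_neg (by omega), Nat.add_zero] at h3
      rw [if_pos (by omega), Function.iterate_succ_apply]
      exact h3
    · rw [if_neg (by omega), Nat.add_zero]
      cases k with
      | zero =>
        rw [Nat.zero_mul] at he
        by_cases hc : c = []
        · right
          subst hc
          have h3 : cts α = [] := by rw [h13]; rfl
          rw [hnil]
          exact Cert.empty (It.iff_sub.2 h2) h3
        · exfalso
          have hc' : cts α ≠ [] := by
            rw [h13]
            intro h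
            rw [List.flatMap_eq_nil_iff] at h
            cases c with
            | nil => exact hc rfl
            | cons m c => exact C.κ_ne m (h m (by simp))
          obtain ⟨x, hx, hxg⟩ := Cert.late_word (It.iff_sub.2 h2) h12 hc' (by omega)
          exact hxg (hg x hx)
      | succ k =>
        have h3 := hstep k (by omega) (by rw [Nat.add_mul] at he; omega)
        rw [if_neg (by omega), Nat.add_zero] at h3
        rw [Function.iterate_succ_apply]
        exact h3
    · rw [if_neg (by omega), Nat.add_zero]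
      cases k with
      | zero =>
        right
        rw [cts_sub (g := cont) h2]
        · exact h13
        · intro a ha w hw
          obtain ⟨ca, hca⟩ := h12 a ha
          rw [Cert.tail hw hca (by omega) (by omega), cont_some hca]
      | succ k =>
        have hu : u = [] := by
          by_contra hne
          cases u with
          | nil => exact hne rfl
          | cons x u =>
            obtain ⟨u1, a, u2, p1, p2, s1, s2, rfl, h3, rfl, h4, h5, h6⟩ := Sub.locate (p := []) h2
            obtain ⟨rfl, rfl⟩ := List.append_eq_nil_iff.1 h3.symm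
            obtain ⟨ta, ca, k', h7, h8, h9⟩ := Cert.sync h5 (by simp) (by
              intro y hy
              apply hg
              simp only [List.nil_append] at hy
              rcases List.mem_cons.1 hy with rfl | hy
              · simp
              · simp [hy])
            obtain ⟨ca', h14⟩ := h12 a (by simp)
            rw [h7] at h14
            simp only [Option.some.injEq, Prod.mk.injEq] at h14
            obtain ⟨rfl, rfl⟩ := h14
            have := h9 (by omega)
            subst this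
            rw [Nat.add_mul] at he
            omega
        subst hu
        by_cases hc : c' = []
        · right
          subst hc
          rw [hnil]
          rfl
        · left
          have hV := q.2 _ _ hq
          have hD : C.Dst (C.l + C.P) = 0 := by
            unfold Cert.Dst
            split_ifs <;> omega
          have h3 := Cert.val_zero hV hD
          unfold Cert.ok1 at h3
          rw [if_pos (le_refl _)] at h3
          dsimp only at h3
          rcases h3.2 with h4 | ⟨m, h4, h5, -⟩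
          · exact absurd h4 hc
          · have e : ρ + 1 = (k + 1) * C.P + C.τ := by omega
            rw [← (profile_mul C.hB C.hN (k + 1)).2, ← e] at h5
            obtain ⟨y, hy, hne⟩ := h5
            refine ⟨[], y, [], rfl, hne, ?_⟩
            rw [List.nil_append, List.append_nil]
            exact hy

/-- synchronised derivations exist -/
theorem Cert.exists_run {ρ : ℕ} : ∀ {t k : ℕ} {v : List C.Sy},
    (∀ a ∈ v, ∃ ca, a.1.2 = some (t, ca)) → t ≤ C.T1 → ρ + t = C.T1 + k * C.P →
    (C.l + C.P < t → k = 0) → ∃ u, It C.prR ρ v u ∧ (∀ x ∈ u, C.good x) ∧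
      cts u = (fun x : List Mk => x.flatMap C.κ)^[k + (if t ≤ C.l then 1 else 0)] (cts v) := by
  have hP := C.hP
  have hτ := C.hτ
  have hT1 : C.T1 = C.l + C.P + C.τ := rfl
  -- one synchronous step
  have step : ∀ (t t' : ℕ) (g : List Mk → List Mk) (_ : g [] = [])
      (_ : ∀ x y, g (x ++ y) = g x ++ g y) (_ : ∀ c, C.tr t c t' (g c)) (v : List C.Sy),
      (∀ a ∈ v, ∃ ca, a.1.2 = some (t, ca)) → ∃ w, Sub C.prR v w ∧
        (∀ a ∈ w, ∃ ca, a.1.2 = some (t', ca)) ∧ cts w = g (cts v) := by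
    intro t t' g g0 gadd htr v
    induction v with
    | nil => exact fun _ => ⟨[], Sub.nil, by simp, g0.symm⟩
    | cons a v ih =>
      intro h
      obtain ⟨ca, hca⟩ := h a List.mem_cons_self
      obtain ⟨w1, h1, h2, h3⟩ := Cert.tot a hca (htr ca)
      obtain ⟨w2, h4, h5, h6⟩ := ih (fun b hb => h b (List.mem_cons_of_mem _ hb))
      refine ⟨w1 ++ w2, Sub.cons h1 h4, ?_, ?_⟩
      · intro b hb
        rcases List.mem_append.1 hb with hb | hb
        · exact h2 b hb
        · exact h5 b hb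
      · have e : cts (a :: v) = cont a ++ cts v := rfl
        rw [cts_append, h3, h6, e, gadd, cont_some hca]
  induction ρ with
  | zero =>
    intro t k v hv ht he hk
    have ht' : t = C.T1 ∧ k = 0 := by
      rcases Nat.eq_zero_or_pos k with h | h
      · subst h
        rw [Nat.zero_mul] at he
        omega
      · have := Nat.mul_pos h hP
        omega
    obtain ⟨rfl, rfl⟩ := ht'
    refine ⟨v, rfl, fun x hx => hv x hx, ?_⟩
    rw [if_neg (by omega)]
    rfl
  | succ ρ ih =>
    intro t k v hv ht he hk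
    by_cases h1 : t = C.l ∨ (t = C.l + C.P ∧ k ≠ 0)
    · obtain ⟨w, h2, h3, h4⟩ := step t (C.l + 1) (fun x => x.flatMap C.κ) rfl
        (fun x y => List.flatMap_append) (fun c => Or.inr (Or.inl ⟨by omega, rfl, rfl⟩)) v hv
      rcases h1 with h1 | ⟨h1, hk0⟩
      · obtain ⟨u, h5, h6, h7⟩ := ih h3 (t := C.l + 1) (k := k) (by omega) (by omega)
          (fun h => by omega)
        refine ⟨u, ⟨w, h2, h5⟩, h6, ?_⟩
        rw [h7, h4, if_neg (by omega), if_pos (by omega), Nat.add_zero, Function.iterate_succ_apply]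
      · obtain ⟨k, rfl⟩ := Nat.exists_eq_succ_of_ne_zero hk0
        obtain ⟨u, h5, h6, h7⟩ := ih h3 (t := C.l + 1) (k := k) (by omega)
          (by rw [Nat.succ_eq_add_one, Nat.add_mul] at he; omega) (fun h => by omega)
        refine ⟨u, ⟨w, h2, h5⟩, h6, ?_⟩
        rw [h7, h4, if_neg (by omega), if_neg (by omega), Nat.add_zero, Nat.add_zero,
          Function.iterate_succ_apply]
    · push Not at h1
      have hlt : t < C.T1 := by
        rcases Nat.lt_or_ge t C.T1 with h | h
        · exact h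
        · exfalso
          have : t = C.T1 := by omega
          have hk0 := hk (by omega)
          subst hk0
          rw [Nat.zero_mul] at he
          omega
      obtain ⟨w, h2, h3, h4⟩ := step t (t + 1) id rfl (fun x y => rfl) (fun c => by
        by_cases h : t = C.l + C.P
        · subst h
          exact Or.inr (Or.inr ⟨rfl, rfl, rfl⟩)
        · exact Or.inl ⟨h1.1, h, hlt, rfl, rfl⟩) v hv
      obtain ⟨u, h5, h6, h7⟩ := ih h3 (t := t + 1) (k := k) (by omega) (by omega) (by
        intro h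
        by_cases h8 : t = C.l + C.P
        · exact h1.2 h8
        · exact hk (by omega))
      refine ⟨u, ⟨w, h2, h5⟩, h6, ?_⟩
      have e : (if t + 1 ≤ C.l then 1 else 0) = (if t ≤ C.l then 1 else 0) := by
        have := h1.1
        split_ifs <;> omega
      rw [h7, h4, e]
      rfl

end refine

/-- contiguous deletions are impossible -/
def CDF {Q : Type} (L : Set (List Q)) : Prop :=
  ∀ l y r, l ++ y ++ r ∈ L → l ++ r ∈ L → l ++ r ≠ [] → y = []

theorem refine_main {Q : Type} [Finite Q] {pr : Q → List Q → Prop} {tm : Q → Prop} {S : Q}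
    (C : Cert pr tm S) (hpr : ∀ X, {α | pr X α}.Finite) (htot : ∀ X, ∃ α, pr X α)
    (hcdf : CDF {w | ∃ τ, Yd pr tm τ [S] w}) :
    ∃ (Q' : Type) (_ : Finite Q') (st : Q' → Q) (pr' : Q' → List Q' → Prop) (S' : Q'),
      st S' = S ∧ (∀ q, {α | pr' q α}.Finite) ∧ (∀ q, ∃ α, pr' q α) ∧
      (∀ q α, pr' q α → pr (st q) (α.map st)) ∧
      ∃ (good : Q' → Prop) (f : Q' → List Mk),
        (∀ u, u ≠ [] → (∃ τ, Yd pr' (fun q => tm (st q)) τ [S'] u) → (∀ x ∈ u, good x) →
          ∃ i, u.flatMap f = List.replicate i 3 ++ List.replicate i 4 ++ List.replicate i 5) ∧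
        (∀ i, ∃ u, (∃ τ, Yd pr' (fun q => tm (st q)) τ [S'] u) ∧ (∀ x ∈ u, good x) ∧
          u.flatMap f = List.replicate (i + 1) 3 ++ List.replicate (i + 1) 4 ++
            List.replicate (i + 1) 5) := by
  have hV0 : C.VV (S, some (0, C.κ0)) := by
    intro t c h
    simp only [Option.some.injEq, Prod.mk.injEq] at h
    obtain ⟨rfl, rfl⟩ := h
    obtain ⟨w, h1, h2, h3⟩ := C.init
    refine ⟨Nat.zero_le _, C.κ0_len, w, ?_, ?_, h3⟩
    · unfold Cert.Dst
      rw [if_pos (Nat.zero_le _), Nat.sub_zero]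
      exact h1
    · intro p hp
      unfold Cert.ok1
      rw [if_pos (Nat.zero_le _)]
      exact h2 p hp
  have hfm : ∀ u : List C.Sy, u.flatMap (fun x => era (cont x)) = era (cts u) := by
    intro u
    induction u with
    | nil => rfl
    | cons a u ih =>
      have e : cts (a :: u) = cont a ++ cts u := rfl
      rw [List.flatMap_cons, ih, e, era_append]
  refine ⟨C.Sy, Cert.finite_Sy, sty, C.prR, ⟨_, hV0⟩, rfl, Cert.finite_prR hpr, Cert.total htot,
    fun q α h => h.1, C.good, fun x => era (cont x), ?_, ?_⟩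
  · rintro u hne ⟨τ, hu, -⟩ hg
    obtain ⟨t, c, k, h1, h2, -⟩ := Cert.sync hu hne hg
    simp only [Option.some.injEq, Prod.mk.injEq] at h1
    obtain ⟨rfl, rfl⟩ := h1
    rcases Cert.main hu hg rfl (Nat.zero_le _) h2 with ⟨l, y, r, h3, h4, h5⟩ | h3
    · exfalso
      refine h4 (hcdf l y r ⟨τ, h5⟩ ?_ ?_)
      · rw [← h3]
        exact ⟨τ, Cert.good_yd hu hg⟩
      · rw [← h3]
        simpa using hne
    · refine ⟨k + 1, ?_⟩
      rw [hfm, h3, if_pos (Nat.zero_le _)]
      exact C.count (k + 1)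
  · intro i
    obtain ⟨u, h1, h2, h3⟩ := Cert.exists_run (C := C) (t := 0) (k := i) (v := [⟨_, hV0⟩])
      (ρ := C.T1 + i * C.P) (by simp) (Nat.zero_le _) (by simp) (fun _ => by omega)
    refine ⟨u, ⟨_, h1, ?_⟩, h2, ?_⟩
    · intro x hx
      exact Cert.good_tm (h2 x hx)
    · rw [hfm, h3, if_pos (Nat.zero_le _)]
      have : cts [(⟨(S, some (0, C.κ0)), hV0⟩ : C.Sy)] = C.κ0 := by
        simp [cts, cont]
      rw [this]
      exact C.count (i + 1)

end Pool.Agent.Helper230.E
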