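import Pool.Agent.Helper230.CHedge
import Pool.Agent.Helper230.ERefine

/-! The double pump language: contiguous deletions are impossible, and it is not linear. -/

namespace Pool.Agent.Helper230.E

def Pw (n m : ℕ) : List ℕ :=
  List.replicate n 1 ++ ([2] ++ (List.replicate n 3 ++ (List.replicate m 4 ++ ([5] ++
    List.replicate m 6))))

theorem rp_ec {u : List ℕ} {c : ℕ} (h : u.flatMap ec = [c]) (n : ℕ) :
    (rp n u).flatMap ec = List.replicate n c := by
  induction n with
  | zero => rfl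
  | succ n ih => rw [rp_succ, List.flatMap_append, h, ih, List.replicate_succ]; rfl

theorem between {A Y C L1 L2 : List ℕ} {s p q : ℕ} (h : A ++ (Y ++ C) = L1 ++ (s :: L2))
    (hp : p ∉ s :: L2) (hq : q ∉ L1) (hpY : p ∈ Y) (hqY : q ∈ Y) : s ∈ Y := by
  rcases List.append_eq_append_iff.1 h with ⟨B, h1, h2⟩ | ⟨B, h1, h2⟩
  · rcases List.append_eq_append_iff.1 h2 with ⟨D, h3, h4⟩ | ⟨D, h3, h4⟩
    · exfalso
      apply hq
      rw [h1, h3]
      simp [hqY]
    · cases D with
      | nil =>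
        exfalso
        apply hq
        rw [h1]
        rw [List.append_nil] at h3
        rw [h3] at hqY
        simp [hqY]
      | cons d D =>
        simp only [List.cons_append, List.cons.injEq] at h4
        rw [h3, h4.1]
        simp
  · exfalso
    apply hp
    rw [h2]
    simp [hpY]

theorem Pw_cdf {A Y C : List ℕ} {n m n' m' : ℕ} (h1 : A ++ (Y ++ C) = Pw n m)
    (h2 : A ++ C = Pw n' m') : n = n' ∧ m = m' := by
  have c : ∀ k, List.count k A + (List.count k Y + List.count k C) = List.count k (Pw n m) := by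
    intro k
    have := congrArg (List.count k) h1
    simpa only [List.count_append] using this
  have d : ∀ k, List.count k A + List.count k C = List.count k (Pw n' m') := by
    intro k
    have := congrArg (List.count k) h2
    simpa only [List.count_append] using this
  have e1 : ∀ n m, List.count 1 (Pw n m) = n := by intro n m; simp [Pw, List.count_replicate]
  have e2 : ∀ n m, List.count 2 (Pw n m) = 1 := by intro n m; simp [Pw, List.count_replicate]
  have e3 : ∀ n m, List.count 3 (Pw n m) = n := by intro n m; simp [Pw, List.count_replicate]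
  have e4 : ∀ n m, List.count 4 (Pw n m) = m := by intro n m; simp [Pw, List.count_replicate]
  have e5 : ∀ n m, List.count 5 (Pw n m) = 1 := by intro n m; simp [Pw, List.count_replicate]
  have e6 : ∀ n m, List.count 6 (Pw n m) = m := by intro n m; simp [Pw, List.count_replicate]
  have c1 := c 1
  have c2 := c 2
  have c3 := c 3
  have c4 := c 4
  have c5 := c 5
  have c6 := c 6
  have d1 := d 1
  have d2 := d 2
  have d3 := d 3
  have d4 := d 4
  have d5 := d 5
  have d6 := d 6
  rw [e1] at c1 d1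
  rw [e2] at c2 d2
  rw [e3] at c3 d3
  rw [e4] at c4 d4
  rw [e5] at c5 d5
  rw [e6] at c6 d6
  have y2 : (2 : ℕ) ∉ Y := by rw [← List.count_eq_zero]; omega
  have y5 : (5 : ℕ) ∉ Y := by rw [← List.count_eq_zero]; omega
  constructor
  · by_contra hne
    have p1 : (1 : ℕ) ∈ Y := by rw [← List.count_pos_iff]; omega
    have p3 : (3 : ℕ) ∈ Y := by rw [← List.count_pos_iff]; omega
    refine y2 (between (L1 := List.replicate n 1) (L2 := List.replicate n 3 ++
      (List.replicate m 4 ++ ([5] ++ List.replicate m 6))) h1 ?_ ?_ p1 p3)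
    · simp [List.mem_replicate]
    · simp [List.mem_replicate]
  · by_contra hne
    have p4 : (4 : ℕ) ∈ Y := by rw [← List.count_pos_iff]; omega
    have p6 : (6 : ℕ) ∈ Y := by rw [← List.count_pos_iff]; omega
    refine y5 (between (L1 := List.replicate n 1 ++ ([2] ++ (List.replicate n 3 ++
      List.replicate m 4))) (L2 := List.replicate m 6) (by rw [h1]; simp [Pw]) ?_ ?_ p4 p6)
    · simp [List.mem_replicate]
    · simp [List.mem_replicate]

section lin
variable {B : Type} {B' : Type}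

theorem LRun.map {Q : Type} {Δ : Set (Q × List B × List B × Q)} {Φ : Q → List B → Prop}
    (f : B → List B') {q : Q} {w : List B} (h : LRun Δ Φ q w) :
    LRun ((fun x : Q × List B × List B × Q => (x.1, x.2.1.flatMap f, x.2.2.1.flatMap f, x.2.2.2)) '' Δ)
      (fun q w => ∃ w', Φ q w' ∧ w = w'.flatMap f) q (w.flatMap f) := by
  induction h with
  | fin h => exact LRun.fin ⟨_, h, rfl⟩
  | step h _ ih =>
    rw [List.flatMap_append, List.flatMap_append]
    exact LRun.step ⟨_, h, rfl⟩ ih

theorem LRun.map_inv {Q : Type} {Δ : Set (Q × List B × List B × Q)} {Φ : Q → List B → Prop}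
    (f : B → List B') {q : Q} {w : List B'}
    (h : LRun ((fun x : Q × List B × List B × Q =>
      (x.1, x.2.1.flatMap f, x.2.2.1.flatMap f, x.2.2.2)) '' Δ)
      (fun q w => ∃ w', Φ q w' ∧ w = w'.flatMap f) q w) :
    ∃ w', LRun Δ Φ q w' ∧ w = w'.flatMap f := by
  induction h with
  | fin h =>
    obtain ⟨w', h1, h2⟩ := h
    exact ⟨w', LRun.fin h1, h2⟩
  | step h _ ih =>
    obtain ⟨⟨a, b, c, d⟩, h1, h2⟩ := h
    simp only [Prod.mk.injEq] at h2
    obtain ⟨rfl, rfl, rfl, rfl⟩ := h2
    obtain ⟨w', h3, rfl⟩ := ih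
    exact ⟨b ++ w' ++ c, LRun.step h1 h3, by simp⟩

theorem Lin.map {L : Set (List B)} (h : Lin L) (f : B → List B') :
    Lin {w | ∃ w' ∈ L, w = w'.flatMap f} := by
  obtain ⟨Q, hQ, Δ, Φ, s, h1, h2, rfl⟩ := h
  refine ⟨Q, hQ, (fun x : Q × List B × List B × Q =>
    (x.1, x.2.1.flatMap f, x.2.2.1.flatMap f, x.2.2.2)) '' Δ,
    fun q w => ∃ w', Φ q w' ∧ w = w'.flatMap f, s, h1.image _, fun q => ?_, ?_⟩
  · refine ((h2 q).image (fun w => w.flatMap f)).subset ?_
    rintro w ⟨w', h3, rfl⟩
    exact ⟨w', h3, rfl⟩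
  · ext w
    constructor
    · rintro ⟨w', h3, rfl⟩
      exact LRun.map f h3
    · intro h
      obtain ⟨w', h3, h4⟩ := LRun.map_inv f h
      exact ⟨w', h3, h4⟩

def Ww (α N β : ℕ) : List ℕ :=
  List.replicate α 1 ++ ([2] ++ (List.replicate N 3 ++ (List.replicate N 4 ++ ([5] ++
    List.replicate β 6))))

theorem Ww_split {α N β : ℕ} {u w v : List ℕ} (h : u ++ w ++ v = Ww α N β) (hu : u.length ≤ α)
    (hv : v.length ≤ β) : u = List.replicate u.length 1 ∧ v = List.replicate v.length 6 ∧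
      w = Ww (α - u.length) N (β - v.length) := by
  have e : Ww α N β = List.replicate u.length 1 ++ (Ww (α - u.length) N (β - v.length) ++
      List.replicate v.length 6) := by
    unfold Ww
    have h1 : List.replicate α 1 = List.replicate u.length 1 ++
        List.replicate (α - u.length) 1 := by
      rw [← List.replicate_add]; congr 1; omega
    have h2 : List.replicate β 6 = List.replicate (β - v.length) 6 ++
        List.replicate v.length 6 := by
      rw [← List.replicate_add]; congr 1; omega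
    rw [h1, h2]
    simp only [List.append_assoc]
  rw [e, List.append_assoc] at h
  obtain ⟨h1, h2⟩ := List.append_inj h (by simp)
  obtain ⟨h3, h4⟩ := List.append_inj' h2 (by simp)
  exact ⟨h1, h4, h3⟩

theorem stage {Q : Type} {Δ : Set (Q × List ℕ × List ℕ × Q)} {Φ : Q → List ℕ → Prop} {M M0 N : ℕ}
    (hM : ∀ x ∈ Δ, x.2.1.length ≤ M ∧ x.2.2.1.length ≤ M) (hM0 : ∀ q w, Φ q w → w.length ≤ M0)
    (hN : M0 < 2 * N + 2) {q : Q} {w : List ℕ} (h : LRun Δ Φ q w) : ∀ α β, w = Ww α N β →
    ∃ q' α' β' i j, α = i + α' ∧ β = j + β' ∧ LRun Δ Φ q' (Ww α' N β') ∧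
      (∀ y, LRun Δ Φ q' y → LRun Δ Φ q (List.replicate i 1 ++ y ++ List.replicate j 6)) ∧
      (α' < M ∨ β' < M) := by
  induction h with
  | fin h =>
    intro α β hw
    exfalso
    have := hM0 _ _ h
    rw [hw] at this
    simp [Ww] at this
    omega
  | @step q q' u v w hx hr ih =>
    intro α β hw
    obtain ⟨h1, h2⟩ := hM _ hx
    dsimp only at h1 h2
    by_cases hu : u.length ≤ α
    · by_cases hv : v.length ≤ β
      · obtain ⟨h3, h4, h5⟩ := Ww_split hw hu hv
        obtain ⟨q'', α', β', i, j, h6, h7, h8, h9, h10⟩ := ih _ _ h5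
        refine ⟨q'', α', β', u.length + i, v.length + j, by omega, by omega, h8, ?_, h10⟩
        intro y hy
        have h11 := LRun.step hx (h9 y hy)
        rw [List.replicate_add, List.replicate_add, ← h3, ← h4]
        have e : List.replicate i 1 ++ y ++ List.replicate j 6 ++ v =
            List.replicate i 1 ++ y ++ (v ++ List.replicate j 6) := by
          rw [List.append_assoc (List.replicate i 1 ++ y)]
          congr 1
          rw [h4, ← List.replicate_add, ← List.replicate_add, Nat.add_comm]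
        have e2 : u ++ List.replicate i 1 ++ y ++ (v ++ List.replicate j 6) =
            u ++ (List.replicate i 1 ++ y ++ List.replicate j 6) ++ v := by
          rw [List.append_assoc u (List.replicate i 1 ++ y ++ List.replicate j 6) v, e]
          simp
        rw [e2]
        exact h11
      · refine ⟨q, α, β, 0, 0, by omega, by omega, ?_, ?_, Or.inr (by omega)⟩
        · rw [← hw]; exact LRun.step hx hr
        · intro y hy; simpa using hy
    · refine ⟨q, α, β, 0, 0, by omega, by omega, ?_, ?_, Or.inl (by omega)⟩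
      · rw [← hw]; exact LRun.step hx hr
      · intro y hy; simpa using hy

theorem not_lin_Pw {K : Set (List ℕ)} (h1 : ∀ w ∈ K, w ≠ [] → ∃ n m, w = Pw n m)
    (h2 : ∀ n m, Pw n m ∈ K) : ¬ Lin K := by
  rintro ⟨Q, hQ, Δ, Φ, s, hΔ, hΦ, rfl⟩
  obtain ⟨M1, hM1⟩ := (hΔ.image (fun x => x.2.1.length)).bddAbove
  obtain ⟨M2, hM2⟩ := (hΔ.image (fun x => x.2.2.1.length)).bddAbove
  have hΦ' : (⋃ q, {w | Φ q w}).Finite := Set.finite_iUnion hΦ
  obtain ⟨M0, hM0⟩ := (hΦ'.image List.length).bddAbove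
  let M := max M1 M2
  have hM : ∀ x ∈ Δ, x.2.1.length ≤ M ∧ x.2.2.1.length ≤ M := fun x hx =>
    ⟨(hM1 ⟨x, hx, rfl⟩).trans (le_max_left _ _), (hM2 ⟨x, hx, rfl⟩).trans (le_max_right _ _)⟩
  have hM0' : ∀ q w, Φ q w → w.length ≤ M0 := fun q w h =>
    hM0 ⟨w, Set.mem_iUnion.2 ⟨q, h⟩, rfl⟩
  have key : ∀ k : ℕ, ∃ (p : Q × Bool) (α β i j : ℕ), M0 + k = i + α ∧ M0 + k = j + β ∧
      LRun Δ Φ p.1 (Ww α (M0 + k) β) ∧
      (∀ y, LRun Δ Φ p.1 y → LRun Δ Φ s (List.replicate i 1 ++ y ++ List.replicate j 6)) ∧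
      (p.2 = true → α < M) ∧ (p.2 = false → β < M) := by
    intro k
    have h3 : LRun Δ Φ s (Pw (M0 + k) (M0 + k)) := h2 _ _
    obtain ⟨q', α, β, i, j, h4, h5, h6, h7, h8⟩ := stage hM hM0' (N := M0 + k) (by omega) h3
      (M0 + k) (M0 + k) rfl
    rcases h8 with h8 | h8
    · exact ⟨(q', true), α, β, i, j, h4, h5, h6, h7, fun _ => h8, by simp⟩
    · exact ⟨(q', false), α, β, i, j, h4, h5, h6, h7, by simp, fun _ => h8⟩
  choose p α β i j hi hj hr hc ht hf using key
  obtain ⟨p0, hp0⟩ := Finite.exists_infinite_fiber p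
  have hinf : Set.Infinite (p ⁻¹' {p0}) := Set.infinite_coe_iff.1 hp0
  obtain ⟨k1, hk1⟩ := hinf.nonempty
  obtain ⟨k2, hk2, hlt⟩ := hinf.exists_gt (k1 + M)
  have e1 : p k1 = p0 := hk1
  have e2 : p k2 = p0 := hk2
  have h3 : LRun Δ Φ s (List.replicate (i k1) 1 ++ Ww (α k2) (M0 + k2) (β k2) ++
      List.replicate (j k1) 6) := by
    apply hc k1
    rw [e1, ← e2]
    exact hr k2
  obtain ⟨n, m, h4⟩ := h1 _ h3 (by simp [Ww])
  have c1 := congrArg (List.count 1) h4
  have c3 := congrArg (List.count 3) h4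
  have c4 := congrArg (List.count 4) h4
  have c6 := congrArg (List.count 6) h4
  simp [Ww, Pw, List.count_replicate] at c1 c3 c4 c6
  have g1 := hi k1
  have g2 := hi k2
  have g3 := hj k1
  have g4 := hj k2
  cases hb : p0.2 with
  | true =>
    have := ht k2 (by rw [e2]; exact hb)
    omega
  | false =>
    have := hf k2 (by rw [e2]; exact hb)
    omega

end lin

section l0
variable {x u a v y r b t z : List ℕ} (hx : x.flatMap ec = []) (hu : u.flatMap ec = [1])
  (ha : a.flatMap ec = [2]) (hv : v.flatMap ec = [3]) (hy : y.flatMap ec = [])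
  (hr : r.flatMap ec = [4]) (hb : b.flatMap ec = [5]) (ht : t.flatMap ec = [6])
  (hz : z.flatMap ec = [])
include hx hu ha hv hy hr hb ht hz

theorem w0_ec (n m : ℕ) : (w0 x u a v y r b t z n m).flatMap ec = Pw n m := by
  unfold w0 pm Pw
  simp only [List.flatMap_append, rp_ec hu, rp_ec hv, rp_ec hr, rp_ec ht, hx, ha, hy, hb, hz,
    List.nil_append, List.append_nil, List.append_assoc]

theorem w0_ne (n m : ℕ) : w0 x u a v y r b t z n m ≠ [] := by
  intro h
  have h1 := w0_ec hx hu ha hv hy hr hb ht hz n m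
  rw [h] at h1
  simp [Pw] at h1

theorem L0_cdf {L : Set (List ℕ)} (hL : ∀ w, w ≠ [] → (w ∈ L ↔ ∃ n m, w = w0 x u a v y r b t z n m)) :
    CDF L := by
  intro l y' r' h1 h2 hne
  have hne' : l ++ y' ++ r' ≠ [] := by
    intro h
    apply hne
    simp only [List.append_eq_nil_iff] at h ⊢
    exact ⟨h.1.1, h.2⟩
  obtain ⟨n, m, h3⟩ := (hL _ hne').1 h1
  obtain ⟨n', m', h4⟩ := (hL _ hne).1 h2
  have h5 := congrArg (fun w => w.flatMap ec) h3
  have h6 := congrArg (fun w => w.flatMap ec) h4
  simp only [w0_ec hx hu ha hv hy hr hb ht hz, List.flatMap_append, List.append_assoc] at h5 h6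
  obtain ⟨rfl, rfl⟩ := Pw_cdf h5 h6
  rw [← h4] at h3
  have h7 := congrArg List.length h3
  simp only [List.length_append] at h7
  exact List.eq_nil_of_length_eq_zero (by omega)

theorem L0_not_lin {L : Set (List ℕ)}
    (hL : ∀ w, w ≠ [] → (w ∈ L ↔ ∃ n m, w = w0 x u a v y r b t z n m)) : ¬ Lin L := by
  intro h
  refine not_lin_Pw (K := {w | ∃ w' ∈ L, w = w'.flatMap ec}) ?_ ?_ (h.map ec)
  · rintro _ ⟨w', h1, rfl⟩ hne
    have hne' : w' ≠ [] := by rintro rfl; exact hne rfl
    obtain ⟨n, m, rfl⟩ := (hL w' hne').1 h1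
    exact ⟨n, m, w0_ec hx hu ha hv hy hr hb ht hz n m⟩
  · intro n m
    exact ⟨_, (hL _ (w0_ne hx hu ha hv hy hr hb ht hz n m)).2 ⟨n, m, rfl⟩,
      (w0_ec hx hu ha hv hy hr hb ht hz n m).symm⟩

end l0

end Pool.Agent.Helper230.E
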