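import Pool.Agent.Helper230.ELin

/-! Systems of paths with regular labels; linear systems with regular contexts. -/

namespace Pool.Agent.Helper230.E

section sys
variable {B : Type}

inductive SPath {V : Type} (lab : V → V → Set (ℕ × List B)) : V → ℕ → List B → V → Prop
  | nil (v : V) : SPath lab v 0 [] v
  | cons {v v' v'' : V} {t k : ℕ} {u w : List B} : (t, u) ∈ lab v v' → SPath lab v' k w v'' →
      SPath lab v (t + k) (u ++ w) v''

theorem TReg.sys {V : Type} [Finite V] (lab : V → V → Set (ℕ × List B))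
    (h : ∀ v v', TReg (lab v v')) (v v' : V) :
    TReg {p : ℕ × List B | SPath lab v p.1 p.2 v'} := by
  choose Qp hQp Δp sp Fp hf ht hT using fun p : V × V => h p.1 p.2
  let St := V ⊕ (Σ p : V × V, Qp p)
  let D1 : Set (St × ℕ × List B × St) :=
    Set.range (fun p : V × V => (Sum.inl p.1, 0, [], Sum.inr ⟨p, sp p⟩))
  let D2 : Set (St × ℕ × List B × St) := ⋃ p : V × V,
    (fun x : Qp p × ℕ × List B × Qp p => ((Sum.inr ⟨p, x.1⟩ : St), x.2.1, x.2.2.1,
      (Sum.inr ⟨p, x.2.2.2⟩ : St))) '' (Δp p)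
  let D3 : Set (St × ℕ × List B × St) := ⋃ p : V × V,
    (fun f : Qp p => ((Sum.inr ⟨p, f⟩ : St), 0, [], Sum.inl p.2)) '' (Fp p)
  have hfin : (D1 ∪ D2 ∪ D3).Finite := by
    refine ((Set.finite_range _).union (Set.finite_iUnion (fun p => (hf p).image _))).union ?_
    exact Set.finite_iUnion (fun p => (Set.toFinite (Fp p)).image _)
  have ht' : ∀ x ∈ D1 ∪ D2 ∪ D3, x.2.1 ≤ 1 := by
    rintro x ((⟨p, rfl⟩ | hx) | hx)
    · simp
    · obtain ⟨_, ⟨p, rfl⟩, y, hy, rfl⟩ := hx
      exact ht p y hy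
    · obtain ⟨_, ⟨p, rfl⟩, y, hy, rfl⟩ := hx
      simp
  have h1 := TReg.path hfin ht' (Sum.inl v) (Sum.inl v')
  convert h1 using 1
  ext ⟨k, w⟩
  simp only [Set.mem_ofPred_eq]
  clear h1
  constructor
  · intro h
    induction h with
    | nil v => exact TPath.nil _
    | @cons v v' v'' t k u w hl _ ih =>
      have hl' : (t, u) ∈ {p : ℕ × List B | ∃ f ∈ Fp (v, v'), TPath (Δp (v, v')) (sp (v, v')) p.1 p.2 f} := by
        rw [← hT (v, v')]; exact hl
      obtain ⟨f, hf', hp⟩ := hl'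
      dsimp only at hp
      have h2 := TPath.map (Δ' := D1 ∪ D2 ∪ D3)
        (fun q : Qp (v, v') => (Sum.inr ⟨(v, v'), q⟩ : St))
        (fun q t u q' h => Or.inl (Or.inr (Set.mem_iUnion.2 ⟨(v, v'), ⟨_, h, rfl⟩⟩))) hp
      have h3 := TPath.cons (Δ := D1 ∪ D2 ∪ D3) (q := Sum.inl v) (t := 0) (u := [])
        (Or.inl (Or.inl ⟨(v, v'), rfl⟩)) h2
      have h4 : TPath (D1 ∪ D2 ∪ D3) (Sum.inr ⟨(v, v'), f⟩ : St) (0 + k) ([] ++ w) (Sum.inl v'') :=
        TPath.cons (Or.inr (Set.mem_iUnion.2 ⟨(v, v'), ⟨f, hf', rfl⟩⟩)) (ih)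
      have h5 := h3.trans h4
      simpa using h5
  · intro h
    have key : ∀ (x y : St) k w, TPath (D1 ∪ D2 ∪ D3) x k w y → ∀ v', y = Sum.inl v' →
        (∀ v, x = Sum.inl v → SPath lab v k w v') ∧
        (∀ p q, x = Sum.inr ⟨p, q⟩ → ∃ k1 w1 k2 w2, ∃ f ∈ Fp p, TPath (Δp p) q k1 w1 f ∧
          k = k1 + k2 ∧ w = w1 ++ w2 ∧ SPath lab p.2 k2 w2 v') := by
      intro x y k w h
      induction h with
      | nil x =>
        intro v' hy
        subst hy
        refine ⟨fun v hv => ?_, fun p q hq => by simp at hq⟩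
        rw [Sum.inl.injEq] at hv
        subst hv
        exact SPath.nil _
      | @cons x x' y t k u w hx _ ih =>
        intro v' hy
        obtain ⟨ih1, ih2⟩ := ih v' hy
        constructor
        · intro v hv
          subst hv
          rcases hx with (⟨p, hx⟩ | hx) | hx
          · simp only [Prod.mk.injEq] at hx
            obtain ⟨hx1, rfl, rfl, rfl⟩ := hx
            obtain rfl := Sum.inl.inj hx1
            obtain ⟨k1, w1, k2, w2, f, hf', h3, rfl, rfl, h4⟩ := ih2 p _ rfl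
            have h5 : (k1, w1) ∈ lab p.1 p.2 := by
              rw [hT p]
              exact ⟨f, hf', h3⟩
            have h6 := SPath.cons h5 h4
            simpa using h6
          · obtain ⟨_, ⟨p, rfl⟩, z, hz, he⟩ := hx
            simp at he
          · obtain ⟨_, ⟨p, rfl⟩, z, hz, he⟩ := hx
            simp at he
        · intro p q hq
          subst hq
          rcases hx with (⟨p', hx⟩ | hx) | hx
          · simp at hx
          · obtain ⟨_, ⟨p', rfl⟩, ⟨a, b, c, d⟩, hz, he⟩ := hx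
            simp only [Prod.mk.injEq] at he
            obtain ⟨h2, rfl, rfl, rfl⟩ := he
            have h3 : (⟨p', a⟩ : Σ p : V × V, Qp p) = ⟨p, q⟩ := Sum.inr.inj h2
            cases h3
            obtain ⟨k1, w1, k2, w2, f, hf', h3, rfl, rfl, h4⟩ := ih2 p d rfl
            exact ⟨b + k1, c ++ w1, k2, w2, f, hf', TPath.cons hz h3, by omega, by simp, h4⟩
          · obtain ⟨_, ⟨p', rfl⟩, f, hz, he⟩ := hx
            simp only [Prod.mk.injEq] at he
            obtain ⟨h2, rfl, rfl, rfl⟩ := he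
            have h3 : (⟨p', f⟩ : Σ p : V × V, Qp p) = ⟨p, q⟩ := Sum.inr.inj h2
            cases h3
            exact ⟨0, [], k, w, q, hz, TPath.nil q, by omega, rfl, ih1 _ rfl⟩
    exact (key _ _ _ _ h v' rfl).1 v rfl

theorem TPath.rev {Q : Type} {Δ : Set (Q × ℕ × List B × Q)} {q q' : Q} {k : ℕ} {w : List B}
    (h : TPath Δ q k w q') : TPath ((fun x : Q × ℕ × List B × Q =>
      (x.2.2.2, x.2.1, x.2.2.1.reverse, x.1)) '' Δ) q' k w.reverse q := by
  induction h with
  | nil q => exact TPath.nil q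
  | cons h _ ih =>
    rw [Nat.add_comm, List.reverse_append]
    exact ih.trans (TPath.single ⟨_, h, rfl⟩)

theorem TReg.rev {T : Set (ℕ × List B)} (h : TReg T) :
    TReg {p : ℕ × List B | (p.1, p.2.reverse) ∈ T} := by
  obtain ⟨Q, hQ, Δ, s, F, hf, ht, rfl⟩ := h
  let Δ' : Set (Q × ℕ × List B × Q) := (fun x : Q × ℕ × List B × Q =>
      (x.2.2.2, x.2.1, x.2.2.1.reverse, x.1)) '' Δ
  have hΔ' : Δ'.Finite := hf.image _
  have ht' : ∀ x ∈ Δ', x.2.1 ≤ 1 := by
    rintro _ ⟨x, hx, rfl⟩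
    exact ht x hx
  have h1 := TReg.biUnion (Set.toFinite F) (fun f => {p : ℕ × List B | TPath Δ' f p.1 p.2 s})
    (fun f _ => TReg.path hΔ' ht' f s)
  convert h1 using 1
  ext ⟨k, w⟩
  simp only [Set.mem_ofPred_eq, Set.mem_iUnion, exists_prop]
  constructor
  · rintro ⟨f, hf', h⟩
    have := h.rev
    rw [List.reverse_reverse] at this
    exact ⟨f, hf', this⟩
  · rintro ⟨f, hf', h⟩
    refine ⟨f, hf', ?_⟩
    have h2 := h.rev
    have e : (fun x : Q × ℕ × List B × Q => (x.2.2.2, x.2.1, x.2.2.1.reverse, x.1)) '' Δ' = Δ := by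
      ext ⟨a, b, c, d⟩
      constructor
      · rintro ⟨_, ⟨⟨a', b', c', d'⟩, hx, rfl⟩, he⟩
        simp only [List.reverse_reverse, Prod.mk.injEq] at he
        obtain ⟨rfl, rfl, rfl, rfl⟩ := he
        exact hx
      · intro hx
        exact ⟨_, ⟨_, hx, rfl⟩, by simp⟩
    rw [e] at h2
    exact h2

/-- regular languages -/
def Reg (W : Set (List B)) : Prop := TReg {p : ℕ × List B | p.1 = 0 ∧ p.2 ∈ W}

theorem Reg.finite {W : Set (List B)} (h : W.Finite) : Reg W := TReg.atom h (Nat.zero_le 1)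

theorem Reg.biUnion {ι : Type} {s : Set ι} (hs : s.Finite) (W : ι → Set (List B))
    (h : ∀ i ∈ s, Reg (W i)) : Reg (⋃ i ∈ s, W i) := by
  have h1 := TReg.biUnion hs (fun i => {p : ℕ × List B | p.1 = 0 ∧ p.2 ∈ W i}) h
  unfold Reg
  convert h1 using 1
  ext ⟨k, w⟩
  simp only [Set.mem_ofPred_eq, Set.mem_iUnion, exists_prop]
  constructor
  · rintro ⟨h2, i, h3, h4⟩
    exact ⟨i, h3, h2, h4⟩
  · rintro ⟨i, h3, h2, h4⟩
    exact ⟨h2, i, h3, h4⟩

theorem Reg.mul {W1 W2 : Set (List B)} (h1 : Reg W1) (h2 : Reg W2) :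
    Reg {w | ∃ a ∈ W1, ∃ b ∈ W2, w = a ++ b} := by
  have h := TReg.mul h1 h2
  unfold Reg
  convert h using 1
  ext ⟨k, w⟩
  simp only [Set.mem_ofPred_eq, Prod.mk.injEq, Prod.exists]
  constructor
  · rintro ⟨rfl, a, ha, b, hb, rfl⟩
    exact ⟨0, a, ⟨rfl, ha⟩, 0, b, ⟨rfl, hb⟩, rfl, rfl⟩
  · rintro ⟨_, a, ⟨rfl, ha⟩, _, b, ⟨rfl, hb⟩, rfl, rfl⟩
    exact ⟨rfl, a, ha, b, hb, rfl⟩

theorem Reg.rev {W : Set (List B)} (h : Reg W) : Reg {w | w.reverse ∈ W} := TReg.rev h

theorem Reg.lin {W : Set (List B)} (h : Reg W) : Lin W := by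
  have h1 := Lin.pair h (T2 := {p : ℕ × List B | p.1 = 0 ∧ p.2 ∈ ({[]} : Set (List B))})
    (TReg.atom (Set.finite_singleton _) (Nat.zero_le 1)) (M := {[]}) (Set.finite_singleton _)
  convert h1 using 1
  ext w
  simp only [Set.mem_ofPred_eq]
  constructor
  · intro hw
    exact ⟨0, w, [], ⟨rfl, hw⟩, ⟨rfl, rfl⟩, [], rfl, by simp⟩
  · rintro ⟨k, w1, w2, ⟨-, h2⟩, ⟨-, h3⟩, m, h4, rfl⟩
    have h3' : w2 = [] := h3
    have h4' : m = [] := h4
    subst h3' h4'
    simpa using h2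

/-- runs of a linear system with set-valued contexts -/
inductive GRun {V I : Type} (src dst : I → V) (A C : I → Set (List B)) (Ex : V → Set (List B)) :
    V → List B → Prop
  | fin {v : V} {w : List B} : w ∈ Ex v → GRun src dst A C Ex v w
  | step (i : I) {a w c : List B} : a ∈ A i → c ∈ C i → GRun src dst A C Ex (dst i) w →
      GRun src dst A C Ex (src i) (a ++ w ++ c)

section
variable {V I : Type} {src dst : I → V} {A C : I → Set (List B)} {Ex : V → Set (List B)}

theorem GRun.rev {v : V} {w : List B} (h : GRun src dst A C Ex v w) :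
    GRun src dst (fun i => {x | x.reverse ∈ C i}) (fun i => {x | x.reverse ∈ A i})
      (fun v => {x | x.reverse ∈ Ex v}) v w.reverse := by
  induction h with
  | fin h => exact GRun.fin (by simpa using h)
  | @step i a w c ha hc _ ih =>
    have e : (a ++ w ++ c).reverse = c.reverse ++ w.reverse ++ a.reverse := by simp
    rw [e]
    exact GRun.step i (by simpa using hc) (by simpa using ha) ih

theorem Reg.left [Finite V] [Finite I] (hA : ∀ i, Reg (A i)) (hC : ∀ i, ∀ w ∈ C i, w = [])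
    (hE : ∀ v, Reg (Ex v)) (v : V) : Reg {w | GRun src dst A C Ex v w} := by
  classical
  let lab : V → V → Set (ℕ × List B) := fun v v' =>
    ⋃ i ∈ {i | src i = v ∧ dst i = v' ∧ (C i).Nonempty}, {p : ℕ × List B | p.1 = 0 ∧ p.2 ∈ A i}
  have hlab : ∀ v v', TReg (lab v v') := fun v v' =>
    TReg.biUnion (Set.toFinite _) _ (fun i _ => hA i)
  have h1 := TReg.iUnion (fun v' : V => {p : ℕ × List B | ∃ a ∈ {p : ℕ × List B |
      SPath lab v p.1 p.2 v'}, ∃ b ∈ {p : ℕ × List B | p.1 = 0 ∧ p.2 ∈ Ex v'},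
      p = (a.1 + b.1, a.2 ++ b.2)}) (fun v' => TReg.mul (TReg.sys lab hlab v v') (hE v'))
  unfold Reg
  convert h1 using 1
  ext ⟨k, w⟩
  simp only [Set.mem_ofPred_eq, Set.mem_iUnion, Prod.mk.injEq, Prod.exists]
  constructor
  · rintro ⟨rfl, h⟩
    clear h1
    induction h with
    | @fin v w h => exact ⟨v, 0, [], SPath.nil v, 0, w, ⟨rfl, h⟩, rfl, rfl⟩
    | @step i a w c ha hc _ ih =>
      obtain ⟨v', k1, w1, h2, k2, w2, ⟨h3, h4⟩, h5, rfl⟩ := ih
      have hc' := hC i c hc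
      subst hc'
      refine ⟨v', 0 + k1, a ++ w1, SPath.cons ?_ h2, k2, w2, ⟨h3, h4⟩, by omega, by simp⟩
      refine Set.mem_biUnion (x := i) ⟨rfl, rfl, ⟨_, hc⟩⟩ ⟨rfl, ha⟩
  · rintro ⟨v', k1, w1, h2, k2, w2, ⟨h3, h4⟩, h5, rfl⟩
    have key : ∀ (v v' : V) k w, SPath lab v k w v' → k = 0 ∧ ∀ x, GRun src dst A C Ex v' x →
        GRun src dst A C Ex v (w ++ x) := by
      intro v v' k w h
      induction h with
      | nil v => exact ⟨rfl, fun x h => h⟩
      | @cons v v' v'' t k u w hl _ ih =>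
        simp only [lab, Set.mem_iUnion] at hl
        obtain ⟨i, ⟨rfl, rfl, c, hc⟩, h6, h7⟩ := hl
        dsimp only at h6 h7
        refine ⟨by omega, fun x hx => ?_⟩
        have hc' := hC i c hc
        subst hc'
        have := GRun.step i h7 hc (ih.2 x hx)
        simpa using this
    obtain ⟨h6, h7⟩ := key _ _ _ _ h2
    exact ⟨by omega, h7 _ (GRun.fin h4)⟩

theorem Reg.right [Finite V] [Finite I] (hA : ∀ i, ∀ w ∈ A i, w = []) (hC : ∀ i, Reg (C i))
    (hE : ∀ v, Reg (Ex v)) (v : V) : Reg {w | GRun src dst A C Ex v w} := by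
  have h1 := Reg.left (src := src) (dst := dst) (A := fun i => {x | x.reverse ∈ C i})
    (C := fun i => {x | x.reverse ∈ A i}) (Ex := fun v => {x | x.reverse ∈ Ex v})
    (fun i => (hC i).rev) (fun i w hw => by simpa using hA i _ hw) (fun v => (hE v).rev) v
  have h2 := h1.rev
  convert h2 using 1
  ext w
  simp only [Set.mem_ofPred_eq]
  constructor
  · exact fun h => h.rev
  · intro h
    have := h.rev
    simpa using this

theorem Lin.sys [Finite V] [Finite I] (hA : ∀ i, Reg (A i)) (hC : ∀ i, Reg (C i))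
    (hE : ∀ v, Lin (Ex v)) (v : V) : Lin {w | GRun src dst A C Ex v w} := by
  classical
  choose Q1 hQ1 Δ1 s1 F1 hf1 ht1 hT1 using hA
  choose Q2 hQ2 Δ2 s2 F2 hf2 ht2 hT2 using hC
  let St := V ⊕ (Σ i : I, Q1 i × Q2 i)
  let D1 : Set (St × List B × List B × St) := ⋃ i : I, (fun f : Q2 i =>
    ((Sum.inl (src i) : St), [], [], (Sum.inr ⟨i, s1 i, f⟩ : St))) '' (F2 i)
  let D2 : Set (St × List B × List B × St) := ⋃ i : I,
    (fun x : (Q1 i × ℕ × List B × Q1 i) × Q2 i => ((Sum.inr ⟨i, x.1.1, x.2⟩ : St), x.1.2.2.1, [],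
      (Sum.inr ⟨i, x.1.2.2.2, x.2⟩ : St))) '' ({x | x ∈ Δ1 i ∧ x.2.1 = 0} ×ˢ Set.univ)
  let D3 : Set (St × List B × List B × St) := ⋃ i : I,
    (fun x : (Q2 i × ℕ × List B × Q2 i) × Q1 i => ((Sum.inr ⟨i, x.2, x.1.2.2.2⟩ : St), [],
      x.1.2.2.1, (Sum.inr ⟨i, x.2, x.1.1⟩ : St))) '' ({x | x ∈ Δ2 i ∧ x.2.1 = 0} ×ˢ Set.univ)
  let D4 : Set (St × List B × List B × St) := ⋃ i : I, (fun f : Q1 i =>
    ((Sum.inr ⟨i, f, s2 i⟩ : St), [], [], (Sum.inl (dst i) : St))) '' (F1 i)
  let D := D1 ∪ D2 ∪ D3 ∪ D4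
  have hfin : D.Finite := by
    refine (((Set.finite_iUnion (fun i => ?_)).union (Set.finite_iUnion (fun i => ?_))).union
      (Set.finite_iUnion (fun i => ?_))).union (Set.finite_iUnion (fun i => ?_))
    · exact (Set.toFinite _).image _
    · exact (((hf1 i).subset (fun x hx => hx.1)).prod Set.finite_univ).image _
    · exact (((hf2 i).subset (fun x hx => hx.1)).prod Set.finite_univ).image _
    · exact (Set.toFinite _).image _
  let Ex' : St → Set (List B) := fun x => x.elim Ex (fun _ => ∅)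
  have h1 := Lin.exits D hfin Ex' (by
    rintro (v | p)
    · exact hE v
    · exact Lin.finite Set.finite_empty) (Sum.inl v)
  convert h1 using 1
  ext w
  simp only [Set.mem_ofPred_eq]
  clear h1
  constructor
  · intro h
    induction h with
    | fin h => exact LRun.fin h
    | @step i a w c ha hc _ ih =>
      have ha' : (0, a) ∈ {p : ℕ × List B | ∃ f ∈ F1 i, TPath (Δ1 i) (s1 i) p.1 p.2 f} := by
        rw [← hT1 i]; exact ⟨rfl, ha⟩
      have hc' : (0, c) ∈ {p : ℕ × List B | ∃ f ∈ F2 i, TPath (Δ2 i) (s2 i) p.1 p.2 f} := by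
        rw [← hT2 i]; exact ⟨rfl, hc⟩
      obtain ⟨f1, hf1', hp1⟩ := ha'
      obtain ⟨f2, hf2', hp2⟩ := hc'
      dsimp only at hp1 hp2
      have k1 : ∀ (q f : Q1 i) k a, TPath (Δ1 i) q k a f → k = 0 → ∀ q2 x,
          LRun D (fun q w => w ∈ Ex' q) (Sum.inr ⟨i, f, q2⟩) x →
          LRun D (fun q w => w ∈ Ex' q) (Sum.inr ⟨i, q, q2⟩) (a ++ x) := by
        intro q f k a h
        induction h with
        | nil q => intro _ q2 x hx; exact hx
        | @cons q q' q'' t k u w hx _ ih =>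
          intro hk q2 x hr
          have ht0 : t = 0 := by omega
          subst ht0
          have h3 := ih (by omega) q2 x hr
          have h4 := LRun.step (Δ := D) (q := (Sum.inr ⟨i, q, q2⟩ : St)) (u := u) (v := [])
            (Or.inl (Or.inl (Or.inr (Set.mem_iUnion.2 ⟨i, ⟨((q, 0, u, q'), q2),
              ⟨⟨hx, rfl⟩, Set.mem_univ _⟩, rfl⟩⟩)))) h3
          simpa using h4
      have k2 : ∀ (q f : Q2 i) k a, TPath (Δ2 i) q k a f → k = 0 → ∀ q1 x,
          LRun D (fun q w => w ∈ Ex' q) (Sum.inr ⟨i, q1, q⟩) x →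
          LRun D (fun q w => w ∈ Ex' q) (Sum.inr ⟨i, q1, f⟩) (x ++ a) := by
        intro q f k a h
        induction h with
        | nil q => intro _ q1 x hx; simpa using hx
        | @cons q q' q'' t k u w hx _ ih =>
          intro hk q1 x hr
          have ht0 : t = 0 := by omega
          subst ht0
          have h4 := LRun.step (Δ := D) (q := (Sum.inr ⟨i, q1, q'⟩ : St)) (u := []) (v := u)
            (Or.inl (Or.inr (Set.mem_iUnion.2 ⟨i, ⟨((q, 0, u, q'), q1),
              ⟨⟨hx, rfl⟩, Set.mem_univ _⟩, rfl⟩⟩))) hr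
          have h3 := ih (by omega) q1 _ h4
          simpa using h3
      have h5 : LRun D (fun q w => w ∈ Ex' q) (Sum.inr ⟨i, f1, s2 i⟩) ([] ++ w ++ []) :=
        LRun.step (Or.inr (Set.mem_iUnion.2 ⟨i, ⟨f1, hf1', rfl⟩⟩)) ih
      have h6 := k2 _ _ _ _ hp2 rfl _ _ h5
      have h7 := k1 _ _ _ _ hp1 rfl _ _ h6
      have h8 := LRun.step (Δ := D) (q := (Sum.inl (src i) : St)) (u := []) (v := [])
        (Or.inl (Or.inl (Or.inl (Set.mem_iUnion.2 ⟨i, ⟨f2, hf2', rfl⟩⟩)))) h7
      simpa using h8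
  · intro h
    have key : ∀ (x : St) w, LRun D (fun q w => w ∈ Ex' q) x w →
        (∀ v, x = Sum.inl v → GRun src dst A C Ex v w) ∧
        (∀ i q1 q2, x = Sum.inr ⟨i, q1, q2⟩ → ∃ a y c, w = a ++ y ++ c ∧
          (∃ f ∈ F1 i, TPath (Δ1 i) q1 0 a f) ∧ TPath (Δ2 i) (s2 i) 0 c q2 ∧
          GRun src dst A C Ex (dst i) y) := by
      intro x w h
      induction h with
      | @fin x w h =>
        constructor
        · intro v hv
          subst hv
          exact GRun.fin h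
        · intro i q1 q2 hx
          subst hx
          exact absurd h (by simp [Ex'])
      | @step x x' u v w hx _ ih =>
        obtain ⟨ih1, ih2⟩ := ih
        constructor
        · intro v0 hv
          subst hv
          rcases hx with ((hx | hx) | hx) | hx
          · obtain ⟨_, ⟨i, rfl⟩, f, hf, he⟩ := hx
            simp only [Prod.mk.injEq] at he
            obtain ⟨he1, rfl, rfl, rfl⟩ := he
            obtain rfl := Sum.inl.inj he1
            obtain ⟨a, y, c, rfl, ⟨f1, hf1', h2⟩, h3, h4⟩ := ih2 i _ _ rfl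
            have ha : a ∈ A i := by
              have : (0, a) ∈ {p : ℕ × List B | p.1 = 0 ∧ p.2 ∈ A i} := by
                rw [hT1 i]; exact ⟨f1, hf1', h2⟩
              exact this.2
            have hc : c ∈ C i := by
              have : (0, c) ∈ {p : ℕ × List B | p.1 = 0 ∧ p.2 ∈ C i} := by
                rw [hT2 i]; exact ⟨f, hf, h3⟩
              exact this.2
            simpa using GRun.step i ha hc h4
          · obtain ⟨_, ⟨i, rfl⟩, f, hf, he⟩ := hx
            simp at he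
          · obtain ⟨_, ⟨i, rfl⟩, f, hf, he⟩ := hx
            simp at he
          · obtain ⟨_, ⟨i, rfl⟩, f, hf, he⟩ := hx
            simp at he
        · intro i q1 q2 hq
          subst hq
          rcases hx with ((hx | hx) | hx) | hx
          · obtain ⟨_, ⟨i', rfl⟩, f, hf, he⟩ := hx
            simp at he
          · obtain ⟨_, ⟨i', rfl⟩, ⟨⟨a', b', c', d'⟩, e'⟩, ⟨⟨hy, h0⟩, -⟩, he⟩ := hx
            simp only [Prod.mk.injEq] at he
            obtain ⟨h2, rfl, rfl, rfl⟩ := he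
            have h3 : (⟨i', a', e'⟩ : Σ i : I, Q1 i × Q2 i) = ⟨i, q1, q2⟩ := Sum.inr.inj h2
            cases h3
            dsimp only at h0
            subst h0
            obtain ⟨a, y, c, rfl, ⟨f1, hf1', h4⟩, h5, h6⟩ := ih2 i _ _ rfl
            refine ⟨c' ++ a, y, c, by simp, ⟨f1, hf1', ?_⟩, h5, h6⟩
            have := TPath.cons hy h4
            simpa using this
          · obtain ⟨_, ⟨i', rfl⟩, ⟨⟨a', b', c', d'⟩, e'⟩, ⟨⟨hy, h0⟩, -⟩, he⟩ := hx
            simp only [Prod.mk.injEq] at he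
            obtain ⟨h2, rfl, rfl, rfl⟩ := he
            have h3 : (⟨i', e', d'⟩ : Σ i : I, Q1 i × Q2 i) = ⟨i, q1, q2⟩ := Sum.inr.inj h2
            cases h3
            dsimp only at h0
            subst h0
            obtain ⟨a, y, c, rfl, h4, h5, h6⟩ := ih2 i _ _ rfl
            refine ⟨a, y, c ++ c', by simp, h4, ?_, h6⟩
            have := h5.trans (TPath.single hy)
            simpa using this
          · obtain ⟨_, ⟨i', rfl⟩, f, hf, he⟩ := hx
            simp only [Prod.mk.injEq] at he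
            obtain ⟨h2, rfl, rfl, rfl⟩ := he
            have h3 : (⟨i', f, s2 i'⟩ : Σ i : I, Q1 i × Q2 i) = ⟨i, q1, q2⟩ := Sum.inr.inj h2
            cases h3
            exact ⟨[], w, [], by simp, ⟨q1, hf, TPath.nil q1⟩, TPath.nil _, ih1 _ rfl⟩
    exact (key _ _ h).1 v rfl

end

end sys

end Pool.Agent.Helper230.E
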