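import Pool.Agent.Helper230.DecM

namespace Pool.Agent.Helper230.Dec

def ChkB (c : ℕ × List ℕ × List ℕ) (s : ℕ) (d : Cert) : Prop :=
  Chk c d ∧ d.2.2.1.length ≤ s ∧
  (∀ i < d.2.2.1.length, ∀ t ∈ TT d.2.2.2.1.1 i, t.1 < d.2.2.1.length ∧ t.2 < d.2.2.1.length) ∧
  (∀ i < d.2.2.1.length, ∀ t ∈ TT d.2.2.2.1.2 i, t.1 < d.2.2.1.length ∧ t.2 < d.2.2.1.length)

def IsDecB (c : ℕ × List ℕ × List ℕ) (s : ℕ) : Prop :=
    ∃ S : Set (Language ℕ), S.Finite ∧ S.ncard ≤ s ∧ K0 c ∈ S ∧
      ∀ K ∈ S,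
        (∃ P : Set (Language ℕ × Language ℕ), P.Finite ∧
          (∀ p ∈ P, p.1 ∈ S ∧ p.2 ∈ S) ∧
          ∀ u v : List ℕ, u ++ v ∈ K ↔ ∃ p ∈ P, u ∈ p.1 ∧ v ∈ p.2) ∧
        (∃ P : Set (Language ℕ × Language ℕ), P.Finite ∧
          (∀ p ∈ P, p.1 ∈ S ∧ p.2 ∈ S) ∧
          ∀ u v : List ℕ, (∃ w ∈ K, Sh w u v) ↔ ∃ p ∈ P, u ∈ p.1 ∧ v ∈ p.2)

/-- bound for the code of a list with entries of code at most `X` and length at most `Y` -/
def bd (X : ℕ) (Y : ℕ) : ℕ := Nat.rec 0 (fun _ b => Nat.succ (Nat.pair X b)) Y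

theorem bd_succ (X Y : ℕ) : bd X (Y + 1) = Nat.succ (Nat.pair X (bd X Y)) := rfl

theorem pair_mono {a b c d : ℕ} (h1 : a ≤ b) (h2 : c ≤ d) : Nat.pair a c ≤ Nat.pair b d := by
  rcases Nat.lt_or_eq_of_le h1 with h1 | rfl
  · rcases Nat.lt_or_eq_of_le h2 with h2 | rfl
    · exact ((Nat.pair_lt_pair_left _ h1).trans (Nat.pair_lt_pair_right _ h2)).le
    · exact (Nat.pair_lt_pair_left _ h1).le
  · rcases Nat.lt_or_eq_of_le h2 with h2 | rfl
    · exact (Nat.pair_lt_pair_right _ h2).le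
    · exact le_rfl

theorem bd_le {α : Type} [Encodable α] (X : ℕ) : ∀ (Y : ℕ) (l : List α),
    (∀ a ∈ l, Encodable.encode a ≤ X) → l.length ≤ Y → Encodable.encode l ≤ bd X Y := by
  intro Y
  induction Y with
  | zero =>
    intro l _ h
    have : l = [] := List.length_eq_zero_iff.1 (by omega)
    subst this
    simp
  | succ Y ih =>
    intro l hl h
    cases l with
    | nil => simp
    | cons a l =>
      rw [bd_succ, Encodable.encode_list_cons]
      exact Nat.succ_le_succ (pair_mono (hl a (by simp))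
        (ih l (fun b hb => hl b (by simp [hb])) (by simpa using h)))

theorem prim_bd : Primrec₂ bd := by
  have hh : Primrec₂ fun (x : ℕ × ℕ) (p : ℕ × ℕ) => Nat.succ (Nat.pair x.1 p.2) :=
    Primrec.succ.comp (Primrec₂.natPair.comp (Primrec.fst.comp Primrec.fst)
      (Primrec.snd.comp Primrec.snd))
  exact Primrec.nat_rec' Primrec.snd (Primrec.const 0) hh

theorem le_encode : ∀ (l : List ℕ) (x : ℕ), x ∈ l → x ≤ Encodable.encode l := by
  intro l
  induction l with
  | nil => intro x hx; simp at hx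
  | cons a l ih =>
    intro x hx
    rw [Encodable.encode_list_cons]
    rcases List.mem_cons.1 hx with rfl | h
    · exact (Nat.left_le_pair _ _).trans (Nat.le_succ _)
    · exact ((ih x h).trans (Nat.right_le_pair _ _)).trans (Nat.le_succ _)

theorem encode_fin {α : Type} [Encodable α] {st : Set α} (h : st.Finite) (A : Finset α)
    (hA : ∀ x ∈ st, x ∈ A) (X Y : ℕ) (hX : ∀ x ∈ A, Encodable.encode x ≤ X) (hY : A.card ≤ Y) :
    Encodable.encode h.toFinset.toList ≤ bd X Y := by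
  refine bd_le X Y _ ?_ ?_
  · intro a ha
    rw [Finset.mem_toList, Set.Finite.mem_toFinset] at ha
    exact hX a (hA a ha)
  · rw [Finset.length_toList]
    refine (Finset.card_le_card ?_).trans hY
    intro x hx
    rw [Set.Finite.mem_toFinset] at hx
    exact hA x hx

/-- explicit bound for the code of a normalised certificate -/
def Bd (c : ℕ × List ℕ × List ℕ) (s : ℕ) : ℕ :=
  Nat.pair (Nat.pair (2 ^ s) (2 ^ s))
    (Nat.pair (Nat.pair (bd (bd (2 ^ s) c.1) (2 ^ s)) (bd (bd (2 ^ s) c.1) (2 ^ s)))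
      (Nat.pair (bd (bd (2 ^ s) (2 ^ s)) s)
        (Nat.pair (Nat.pair (bd (bd (Nat.pair s s) (s * s)) s) (bd (bd (Nat.pair s s) (s * s)) s))
          (Nat.pair (bd (bd (Nat.pair (2 ^ s) (Nat.pair (2 ^ s) (2 ^ s)))
              (2 ^ s * (2 ^ s * 2 ^ s))) s)
            (bd (Nat.pair (2 ^ s) (Encodable.encode c.2.1)) (2 ^ s * (c.2.1.length + 1)))))))

theorem exists_numB {α β : Type*} [Finite β] (ty : α → β) :
    ∃ (n : ℕ) (num : α → ℕ), n ≤ Nat.card β ∧ (∀ a, num a < n) ∧ (∀ q < n, ∃ a, num a = q) ∧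
      ∀ a b, num a = num b ↔ ty a = ty b := by
  obtain ⟨n, ⟨e⟩⟩ := Finite.exists_equiv_fin (Set.range ty)
  refine ⟨n, fun a => (e ⟨ty a, Set.mem_range_self a⟩).val, ?_, fun a => (e _).isLt, ?_, ?_⟩
  · have h1 : Nat.card (Set.range ty) = n := by rw [Nat.card_congr e]; simp
    rw [← h1]
    exact Nat.card_le_card_of_injective Subtype.val Subtype.val_injective
  · intro q hq
    obtain ⟨b, hb⟩ := (e.symm ⟨q, hq⟩).2
    refine ⟨b, ?_⟩
    have : (⟨ty b, Set.mem_range_self b⟩ : Set.range ty) = e.symm ⟨q, hq⟩ := Subtype.ext hb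
    show (e ⟨ty b, Set.mem_range_self b⟩).val = q
    rw [this]; simp
  · intro a b
    constructor
    · intro h
      have := e.injective (Fin.ext h)
      exact congrArg Subtype.val this
    · intro h
      have : (⟨ty a, Set.mem_range_self a⟩ : Set.range ty) = ⟨ty b, Set.mem_range_self b⟩ :=
        Subtype.ext h
      show (e ⟨ty a, Set.mem_range_self a⟩).val = (e ⟨ty b, Set.mem_range_self b⟩).val
      rw [this]

theorem exists_goodB (k m : ℕ) (L : ℕ → Set (List ℕ))
    (Pt Ps : ℕ → Set (ℕ × ℕ))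
    (hPt : ∀ i < m, ∀ p ∈ Pt i, p.1 < m ∧ p.2 < m)
    (hPs : ∀ i < m, ∀ p ∈ Ps i, p.1 < m ∧ p.2 < m)
    (ht : ∀ i < m, ∀ u v : List ℕ, Al k u → Al k v →
      (u ++ v ∈ L i ↔ ∃ p ∈ Pt i, u ∈ L p.1 ∧ v ∈ L p.2))
    (hs : ∀ i < m, ∀ u v : List ℕ, Al k u → Al k v →
      ((∃ w, Sh w u v ∧ w ∈ L i) ↔ ∃ p ∈ Ps i, u ∈ L p.1 ∧ v ∈ L p.2))
    (T P : ℕ → List (ℕ × ℕ)) (hT : ∀ i < m, ∀ p, p ∈ T i ↔ p ∈ Pt i)
    (hP : ∀ i < m, ∀ p, p ∈ P i ↔ p ∈ Ps i) :
    ∃ (n : ℕ) (num : List ℕ → ℕ) (ρ lam : ℕ → ℕ → ℕ) (F : ℕ → ℕ → Prop)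
      (E : ℕ → ℕ → ℕ → ℕ → Prop),
      n ≤ 2 ^ m ∧ (∀ w, Al k w → num w < n) ∧
      (∀ w a, Al k w → a < k → ρ (num w) a = num (w ++ [a])) ∧
      (∀ i w, Al k w → i < m → (F i (num w) ↔ w ∈ L i)) ∧
      (∀ i p, F i p → p < n ∧ i < m) ∧
      (∀ i p x y, E i p x y → i < m ∧ p < n ∧ x < n ∧ y < n) ∧
      (∀ q a, ¬ (q < n ∧ a < k) → ρ q a = 0 ∧ lam q a = 0) ∧
      Good k n (num []) m ρ lam F T P E := by
  classical
  obtain ⟨n, num0, hcard, h1, h2, h3⟩ := exists_numB (α := {w : List ℕ // Al k w})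
    (fun w => fun i : Fin m => w.1 ∈ L i)
  have h3' : ∀ a b : {w : List ℕ // Al k w}, num0 a = num0 b ↔
      ∀ i < m, (a.1 ∈ L i ↔ b.1 ∈ L i) := by
    intro a b
    rw [h3]
    constructor
    · intro h i hi
      exact iff_of_eq (congrFun h ⟨i, hi⟩)
    · intro h
      funext i
      exact propext (h i.1 i.2)
  let num : List ℕ → ℕ := fun w => if h : Al k w then num0 ⟨w, h⟩ else 0
  have hnum : ∀ w (h : Al k w), num w = num0 ⟨w, h⟩ := fun w h => by simp only [num, dif_pos h]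
  have num_lt : ∀ w, Al k w → num w < n := fun w h => by rw [hnum w h]; exact h1 _
  have num_surj : ∀ q < n, ∃ w, Al k w ∧ num w = q := by
    intro q hq
    obtain ⟨a, ha⟩ := h2 q hq
    exact ⟨a.1, a.2, by rw [hnum _ a.2]; exact ha⟩
  have num_eq : ∀ u v, Al k u → Al k v → (num u = num v ↔ ∀ i < m, (u ∈ L i ↔ v ∈ L i)) := by
    intro u v hu hv
    rw [hnum u hu, hnum v hv, h3']
  have cong : ∀ u u' v v', Al k u → Al k u' → Al k v → Al k v' → num u = num u' →
      num v = num v' → num (u ++ v) = num (u' ++ v') := by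
    intro u u' v v' hu hu' hv hv' e1 e2
    rw [num_eq _ _ (hu.app hv) (hu'.app hv')]
    intro i hi
    rw [ht i hi u v hu hv, ht i hi u' v' hu' hv']
    rw [num_eq _ _ hu hu'] at e1
    rw [num_eq _ _ hv hv'] at e2
    constructor
    · rintro ⟨p, hp, a, b⟩
      have := hPt i hi p hp
      exact ⟨p, hp, (e1 _ this.1).1 a, (e2 _ this.2).1 b⟩
    · rintro ⟨p, hp, a, b⟩
      have := hPt i hi p hp
      exact ⟨p, hp, (e1 _ this.1).2 a, (e2 _ this.2).2 b⟩
  have hrep : ∀ q, ∃ w, q < n → Al k w ∧ num w = q := by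
    intro q
    by_cases hq : q < n
    · obtain ⟨w, hw⟩ := num_surj q hq
      exact ⟨w, fun _ => hw⟩
    · exact ⟨[], fun h => absurd h hq⟩
  choose rep hrep using hrep
  let ρ : ℕ → ℕ → ℕ := fun q a => if q < n ∧ a < k then num (rep q ++ [a]) else 0
  let lam : ℕ → ℕ → ℕ := fun q a => if q < n ∧ a < k then num ([a] ++ rep q) else 0
  have hρ : ∀ w a, Al k w → a < k → ρ (num w) a = num (w ++ [a]) := by
    intro w a hw ha
    have := hrep (num w) (num_lt w hw)
    simp only [ρ]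
    rw [if_pos ⟨num_lt w hw, ha⟩]
    exact cong _ _ _ _ this.1 hw (al_single ha) (al_single ha) this.2 rfl
  have hlam : ∀ w a, Al k w → a < k → lam (num w) a = num (a :: w) := by
    intro w a hw ha
    have := hrep (num w) (num_lt w hw)
    simp only [lam]
    rw [if_pos ⟨num_lt w hw, ha⟩]
    exact cong [a] [a] _ _ (al_single ha) (al_single ha) this.1 hw rfl this.2
  let F : ℕ → ℕ → Prop := fun i q => i < m ∧ ∃ w, Al k w ∧ num w = q ∧ w ∈ L i
  have hF : ∀ i w, Al k w → i < m → (F i (num w) ↔ w ∈ L i) := by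
    intro i w hw hi
    constructor
    · rintro ⟨_, w', hw', e, h⟩
      exact ((num_eq w' w hw' hw).1 e i hi).1 h
    · intro h
      exact ⟨hi, w, hw, rfl, h⟩
  let E : ℕ → ℕ → ℕ → ℕ → Prop := fun i p x y => i < m ∧ ∃ w1 u v, Al k w1 ∧ Al k u ∧ Al k v ∧
    num w1 = p ∧ num u = x ∧ num v = y ∧ ∃ w, Sh w u v ∧ w1 ++ w ∈ L i
  have hE : ∀ i w1 u v, i < m → Al k w1 → Al k u → Al k v →
      (E i (num w1) (num u) (num v) ↔ ∃ w, Sh w u v ∧ w1 ++ w ∈ L i) := by
    have key : ∀ i w1 u v, i < m → Al k w1 → Al k u → Al k v →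
      ((∃ w, Sh w u v ∧ w1 ++ w ∈ L i) ↔
        ∃ p ∈ Pt i, w1 ∈ L p.1 ∧ ∃ r ∈ Ps p.2, u ∈ L r.1 ∧ v ∈ L r.2) := by
      intro i w1 u v hi hw1 hu hv
      have hal : ∀ w, Sh w u v → Al k w := by
        intro w hw a ha
        rcases (hw.mem a).1 ha with h | h
        · exact hu a h
        · exact hv a h
      constructor
      · rintro ⟨w, hw, h⟩
        rw [ht i hi w1 w hw1 (hal w hw)] at h
        obtain ⟨p, hp, a, b⟩ := h
        exact ⟨p, hp, a, (hs _ (hPt i hi p hp).2 u v hu hv).1 ⟨w, hw, b⟩⟩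
      · rintro ⟨p, hp, a, b⟩
        obtain ⟨w, hw, h⟩ := (hs _ (hPt i hi p hp).2 u v hu hv).2 b
        exact ⟨w, hw, (ht i hi w1 w hw1 (hal w hw)).2 ⟨p, hp, a, h⟩⟩
    intro i w1 u v hi hw1 hu hv
    constructor
    · rintro ⟨_, w1', u', v', a1, a2, a3, e1, e2, e3, h⟩
      rw [key i _ _ _ hi a1 a2 a3] at h
      rw [key i _ _ _ hi hw1 hu hv]
      rw [num_eq _ _ a1 hw1] at e1
      rw [num_eq _ _ a2 hu] at e2
      rw [num_eq _ _ a3 hv] at e3
      obtain ⟨p, hp, b1, r, hr, b2, b3⟩ := h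
      have q1 := hPt i hi p hp
      have q2 := hPs _ q1.2 r hr
      exact ⟨p, hp, (e1 _ q1.1).1 b1, r, hr, (e2 _ q2.1).1 b2, (e3 _ q2.2).1 b3⟩
    · intro h
      exact ⟨hi, w1, u, v, hw1, hu, hv, rfl, rfl, rfl, h⟩
  have hDT : ∀ i < m, ∀ u v, Al k u → Al k v → (DD F T i (num u) (num v) ↔ u ++ v ∈ L i) := by
    intro i hi u v hu hv
    rw [ht i hi u v hu hv]
    constructor
    · rintro ⟨t, htt, a, b⟩
      have := (hT i hi t).1 htt
      have h5 := hPt i hi t this
      exact ⟨t, this, (hF _ _ hu h5.1).1 a, (hF _ _ hv h5.2).1 b⟩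
    · rintro ⟨t, htt, a, b⟩
      have h5 := hPt i hi t htt
      exact ⟨t, (hT i hi t).2 htt, (hF _ _ hu h5.1).2 a, (hF _ _ hv h5.2).2 b⟩
  have hDP : ∀ i < m, ∀ u v, Al k u → Al k v →
      (DD F P i (num u) (num v) ↔ ∃ w, Sh w u v ∧ w ∈ L i) := by
    intro i hi u v hu hv
    rw [hs i hi u v hu hv]
    constructor
    · rintro ⟨t, htt, a, b⟩
      have := (hP i hi t).1 htt
      have h5 := hPs i hi t this
      exact ⟨t, this, (hF _ _ hu h5.1).1 a, (hF _ _ hv h5.2).1 b⟩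
    · rintro ⟨t, htt, a, b⟩
      have h5 := hPs i hi t htt
      exact ⟨t, (hP i hi t).2 htt, (hF _ _ hu h5.1).2 a, (hF _ _ hv h5.2).2 b⟩
  have hcard' : n ≤ 2 ^ m := by
    refine hcard.trans (le_of_eq ?_)
    simp [Nat.card_eq_fintype_card]
  refine ⟨n, num, ρ, lam, F, E, hcard', num_lt, hρ, hF, ?_, ?_, ?_, ?_⟩
  · rintro i p ⟨hi, w, hw, rfl, _⟩
    exact ⟨num_lt w hw, hi⟩
  · rintro i p x y ⟨hi, w1, u, v, a1, a2, a3, rfl, rfl, rfl, _⟩
    exact ⟨hi, num_lt _ a1, num_lt _ a2, num_lt _ a3⟩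
  · intro q a h
    simp only [ρ, lam]
    rw [if_neg h, if_neg h]
    exact ⟨rfl, rfl⟩
  · refine ⟨num_lt _ al_nil, ?_, ?_, ?_, ?_, ?_, ?_, ?_, ?_, ?_, ?_⟩
    · intro q hq a ha
      obtain ⟨w, hw, rfl⟩ := num_surj q hq
      rw [hρ w a hw ha, hlam w a hw ha]
      exact ⟨num_lt _ (hw.app (al_single ha)), num_lt _ (hw.cons ha)⟩
    · intro a ha
      rw [hρ [] a al_nil ha, hlam [] a al_nil ha]
      rfl
    · intro q hq a ha b hb
      obtain ⟨w, hw, rfl⟩ := num_surj q hq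
      rw [hρ w b hw hb, hlam w a hw ha, hρ _ b (hw.cons ha) hb, hlam _ a (hw.app (al_single hb)) ha]
      rfl
    · intro i hi p hp
      obtain ⟨w, hw, rfl⟩ := num_surj p hp
      rw [hDT i hi w [] hw al_nil, hF i w hw hi]; simp
    · intro i hi p hp q hq a ha
      obtain ⟨w, hw, rfl⟩ := num_surj p hp
      obtain ⟨v, hv, rfl⟩ := num_surj q hq
      rw [hρ w a hw ha, hlam v a hv ha, hDT i hi _ _ (hw.app (al_single ha)) hv,
        hDT i hi _ _ hw (hv.cons ha)]
      simp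
    · intro i hi p hp
      obtain ⟨w, hw, rfl⟩ := num_surj p hp
      rw [hE i _ _ _ hi hw al_nil al_nil, hF i w hw hi]
      constructor
      · rintro ⟨w', h, h'⟩
        rw [sh_nn] at h; subst h; simpa using h'
      · intro h
        exact ⟨[], sh_nn.2 rfl, by simpa using h⟩
    · intro i hi p hp x hx a ha
      obtain ⟨w, hw, rfl⟩ := num_surj p hp
      obtain ⟨u, hu, rfl⟩ := num_surj x hx
      rw [hρ w a hw ha, hlam u a hu ha, hE i _ _ _ hi hw (hu.cons ha) al_nil,
        hE i _ _ _ hi (hw.app (al_single ha)) hu al_nil]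
      constructor
      · rintro ⟨w', h, h'⟩
        rw [sh_cn] at h
        obtain ⟨w'', rfl, h⟩ := h
        exact ⟨w'', h, by simpa using h'⟩
      · rintro ⟨w', h, h'⟩
        exact ⟨a :: w', sh_cn.2 ⟨w', rfl, h⟩, by simpa using h'⟩
    · intro i hi p hp x hx a ha
      obtain ⟨w, hw, rfl⟩ := num_surj p hp
      obtain ⟨u, hu, rfl⟩ := num_surj x hx
      rw [hρ w a hw ha, hlam u a hu ha, hE i _ _ _ hi hw al_nil (hu.cons ha),
        hE i _ _ _ hi (hw.app (al_single ha)) al_nil hu]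
      constructor
      · rintro ⟨w', h, h'⟩
        rw [sh_nc] at h
        obtain ⟨w'', rfl, h⟩ := h
        exact ⟨w'', h, by simpa using h'⟩
      · rintro ⟨w', h, h'⟩
        exact ⟨a :: w', sh_nc.2 ⟨w', rfl, h⟩, by simpa using h'⟩
    · intro i hi p hp x hx y hy a ha b hb
      obtain ⟨w, hw, rfl⟩ := num_surj p hp
      obtain ⟨u, hu, rfl⟩ := num_surj x hx
      obtain ⟨v, hv, rfl⟩ := num_surj y hy
      rw [hρ w a hw ha, hρ w b hw hb, hlam u a hu ha, hlam v b hv hb,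
        hE i _ _ _ hi hw (hu.cons ha) (hv.cons hb),
        hE i _ _ _ hi (hw.app (al_single ha)) hu (hv.cons hb),
        hE i _ _ _ hi (hw.app (al_single hb)) (hu.cons ha) hv]
      constructor
      · rintro ⟨w', h, h'⟩
        rw [sh_cc] at h
        rcases h with ⟨w'', rfl, h⟩ | ⟨w'', rfl, h⟩
        · exact Or.inl ⟨w'', h, by simpa using h'⟩
        · exact Or.inr ⟨w'', h, by simpa using h'⟩
      · rintro (⟨w', h, h'⟩ | ⟨w', h, h'⟩)
        · exact ⟨a :: w', sh_cc.2 (Or.inl ⟨w', rfl, h⟩), by simpa using h'⟩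
        · exact ⟨b :: w', sh_cc.2 (Or.inr ⟨w', rfl, h⟩), by simpa using h'⟩
    · intro i hi x hx y hy
      obtain ⟨u, hu, rfl⟩ := num_surj x hx
      obtain ⟨v, hv, rfl⟩ := num_surj y hy
      rw [hE i [] u v hi al_nil hu hv, hDP i hi u v hu hv]
      simp

theorem dec_of_chkB (c : ℕ × List ℕ × List ℕ) (s : ℕ) (d : Cert) (h : ChkB c s d) : IsDecB c s := by
  obtain ⟨⟨G, hm, hB0, hB1, hB2⟩, hms, hTb, hPb⟩ := h
  obtain ⟨⟨n, z⟩, ⟨R, Λ⟩, F, ⟨T, P⟩, E, B⟩ := d
  obtain ⟨k, tbl, acc⟩ := c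
  dsimp only at G hm hB0 hB1 hB2 hms hTb hPb
  let lang : ℕ → Language ℕ := fun i => {w : List ℕ | Al k w ∧ FF F i (w.foldl (rh R) z)}
  have hlang : ∀ i w, w ∈ lang i ↔ Al k w ∧ FF F i (w.foldl (rh R) z) := fun i w => Iff.rfl
  refine ⟨lang '' Set.Iio F.length, (Set.finite_Iio _).image _, ?_, ?_, ?_⟩
  · refine (Set.ncard_image_le (Set.finite_Iio _)).trans ?_
    rw [Set.ncard_eq_toFinset_card']
    simpa using hms
  · refine ⟨0, hm, ?_⟩
    ext w
    rw [hlang]
    have key : ∀ w : List ℕ, Al k w → (w.foldl (rh R) z,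
        w.foldl (fun q a => tbl.getD (q * k + a) 0) 0) ∈ B := by
      intro w
      induction w using List.reverseRecOn with
      | nil => intro _; exact hB0
      | append_singleton w b ih =>
        intro hw
        have h1 := ih (fun a ha => hw a (by simp [ha]))
        have h2 := hB1 _ h1 b (hw b (by simp))
        rw [List.foldl_append, List.foldl_append]
        exact h2
    constructor
    · rintro ⟨h1, h2⟩
      exact ⟨h1, (hB2 _ (key w h1)).1 h2⟩
    · rintro ⟨h1, h2⟩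
      exact ⟨h1, (hB2 _ (key w h1)).2 h2⟩
  · rintro _ ⟨i, hi, rfl⟩
    replace hi : i < F.length := hi
    · constructor
      · refine ⟨(fun t : ℕ × ℕ => (lang t.1, lang t.2)) '' {t | t ∈ TT T i},
          (List.finite_toSet _).image _, ?_, ?_⟩
        · rintro _ ⟨t, ht, rfl⟩
          exact ⟨⟨_, (hTb i hi t ht).1, rfl⟩, ⟨_, (hTb i hi t ht).2, rfl⟩⟩
        · intro u v
          rw [hlang]
          constructor
          · rintro ⟨h1, h2⟩
            have hu : Al k u := fun a ha => h1 a (by simp [ha])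
            have hv : Al k v := fun a ha => h1 a (by simp [ha])
            obtain ⟨t, ht, h3, h4⟩ := (tau_ok G hi v u hv hu).2 h2
            exact ⟨_, ⟨t, ht, rfl⟩, ⟨hu, h3⟩, ⟨hv, h4⟩⟩
          · rintro ⟨_, ⟨t, ht, rfl⟩, ⟨hu, h3⟩, ⟨hv, h4⟩⟩
            exact ⟨hu.app hv, (tau_ok G hi v u hv hu).1 ⟨t, ht, h3, h4⟩⟩
      · refine ⟨(fun t : ℕ × ℕ => (lang t.1, lang t.2)) '' {t | t ∈ TT P i},
          (List.finite_toSet _).image _, ?_, ?_⟩
        · rintro _ ⟨t, ht, rfl⟩
          exact ⟨⟨_, (hPb i hi t ht).1, rfl⟩, ⟨_, (hPb i hi t ht).2, rfl⟩⟩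
        · intro u v
          constructor
          · rintro ⟨w, hw, hs⟩
            rw [hlang] at hw
            have hu : Al k u := fun a ha => hw.1 a ((hs.mem a).2 (Or.inl ha))
            have hv : Al k v := fun a ha => hw.1 a ((hs.mem a).2 (Or.inr ha))
            have h1 := (sig_ok G hi u v z G.hz hu hv).1 ⟨w, hs, hw.2⟩
            rw [G.e4 i hi _ (run_lt G G.hz hu) _ (run_lt G G.hz hv)] at h1
            obtain ⟨t, ht, h3, h4⟩ := h1
            exact ⟨_, ⟨t, ht, rfl⟩, ⟨hu, h3⟩, ⟨hv, h4⟩⟩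
          · rintro ⟨_, ⟨t, ht, rfl⟩, ⟨hu, h3⟩, ⟨hv, h4⟩⟩
            have h1 := (G.e4 i hi _ (run_lt G G.hz hu) _ (run_lt G G.hz hv)).2 ⟨t, ht, h3, h4⟩
            obtain ⟨w, hs, hw⟩ := (sig_ok G hi u v z G.hz hu hv).2 h1
            refine ⟨w, ⟨?_, hw⟩, hs⟩
            intro a ha
            rcases (hs.mem a).1 ha with h | h
            · exact hu a h
            · exact hv a h

theorem chk_of_decB (c : ℕ × List ℕ × List ℕ) (s : ℕ) (h : IsDecB c s) :
    ∃ d, Encodable.encode d ≤ Bd c s ∧ ChkB c s d := by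
  classical
  obtain ⟨S, hfin, hcs, hK0, hS⟩ := h
  obtain ⟨k, tbl, acc⟩ := c
  let SL : List (Language ℕ) := K0 (k, tbl, acc) :: (hfin.toFinset.erase (K0 (k, tbl, acc))).toList
  let m := SL.length
  have hm0 : 0 < m := by simp [m, SL]
  have hms : m ≤ s := by
    have h1 : (hfin.toFinset.erase (K0 (k, tbl, acc))).card + 1 = hfin.toFinset.card :=
      Finset.card_erase_add_one (by rw [Set.Finite.mem_toFinset]; exact hK0)
    have h2 : S.ncard = hfin.toFinset.card := Set.ncard_eq_toFinset_card S hfin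
    simp only [m, SL, List.length_cons, Finset.length_toList]
    omega
  let Lg : ℕ → Language ℕ := fun i => SL.getD i 0
  have hSL : ∀ K ∈ SL, K ∈ S := by
    intro K hK
    rcases List.mem_cons.1 hK with rfl | h
    · exact hK0
    · rw [Finset.mem_toList, Finset.mem_erase, Set.Finite.mem_toFinset] at h; exact h.2
  have hmem : ∀ i < m, Lg i ∈ S := by
    intro i hi
    apply hSL
    simp only [Lg]
    rw [List.getD_eq_getElem _ _ hi]
    exact List.getElem_mem _
  have hsurj : ∀ K ∈ S, ∃ i < m, Lg i = K := by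
    intro K hK
    have h1 : K ∈ SL := by
      by_cases e : K = K0 (k, tbl, acc)
      · rw [e]; exact List.mem_cons_self
      · refine List.mem_cons_of_mem _ ?_
        rw [Finset.mem_toList, Finset.mem_erase, Set.Finite.mem_toFinset]; exact ⟨e, hK⟩
    obtain ⟨i, hi, h2⟩ := List.getElem_of_mem h1
    refine ⟨i, hi, ?_⟩
    simp only [Lg]
    rw [List.getD_eq_getElem _ _ hi, h2]
  have hS' : ∀ i, ∃ P Q : Set (Language ℕ × Language ℕ), i < m →
      ((∀ p ∈ P, p.1 ∈ S ∧ p.2 ∈ S) ∧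
          ∀ u v : List ℕ, u ++ v ∈ Lg i ↔ ∃ p ∈ P, u ∈ p.1 ∧ v ∈ p.2) ∧
      ((∀ p ∈ Q, p.1 ∈ S ∧ p.2 ∈ S) ∧
          ∀ u v : List ℕ, (∃ w ∈ Lg i, Sh w u v) ↔ ∃ p ∈ Q, u ∈ p.1 ∧ v ∈ p.2) := by
    intro i
    by_cases hi : i < m
    · obtain ⟨⟨P, _, h1, h2⟩, ⟨Q, _, h3, h4⟩⟩ := hS _ (hmem i hi)
      exact ⟨P, Q, fun _ => ⟨⟨h1, h2⟩, ⟨h3, h4⟩⟩⟩
    · exact ⟨∅, ∅, fun h => absurd h hi⟩
  choose PS QS hPQ using hS'
  let Pt : ℕ → Set (ℕ × ℕ) := fun i => {p | p.1 < m ∧ p.2 < m ∧ (Lg p.1, Lg p.2) ∈ PS i}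
  let Ps : ℕ → Set (ℕ × ℕ) := fun i => {p | p.1 < m ∧ p.2 < m ∧ (Lg p.1, Lg p.2) ∈ QS i}
  have hPtf : ∀ i, (Pt i).Finite := fun i =>
    ((Set.finite_Iio m).prod (Set.finite_Iio m)).subset (fun p hp => ⟨hp.1, hp.2.1⟩)
  have hPsf : ∀ i, (Ps i).Finite := fun i =>
    ((Set.finite_Iio m).prod (Set.finite_Iio m)).subset (fun p hp => ⟨hp.1, hp.2.1⟩)
  let T : LP := (List.range m).map fun i => (hPtf i).toFinset.toList
  let P : LP := (List.range m).map fun i => (hPsf i).toFinset.toList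
  have hT : ∀ i < m, ∀ p, p ∈ TT T i ↔ p ∈ Pt i := by
    intro i hi p
    simp only [TT, T]
    rw [getD_map_range, if_pos hi, Finset.mem_toList, Set.Finite.mem_toFinset]
  have hP : ∀ i < m, ∀ p, p ∈ TT P i ↔ p ∈ Ps i := by
    intro i hi p
    simp only [TT, P]
    rw [getD_map_range, if_pos hi, Finset.mem_toList, Set.Finite.mem_toFinset]
  obtain ⟨n, num, ρ, lam, F, E, hn2, num_lt, hρ, hF, hFb, hEb, hout, G⟩ :=
    exists_goodB k m (fun i => {w | w ∈ Lg i}) Pt Ps
      (fun i _ p hp => ⟨hp.1, hp.2.1⟩) (fun i _ p hp => ⟨hp.1, hp.2.1⟩)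
      (by
        intro i hi u v _ _
        have h1 := (hPQ i hi).1
        constructor
        · intro h
          obtain ⟨p, hp, a, b⟩ := (h1.2 u v).1 h
          obtain ⟨j, hj, e1⟩ := hsurj _ (h1.1 p hp).1
          obtain ⟨l, hl, e2⟩ := hsurj _ (h1.1 p hp).2
          refine ⟨(j, l), ⟨hj, hl, ?_⟩, ?_, ?_⟩
          · show (Lg j, Lg l) ∈ PS i
            rw [e1, e2]; exact hp
          · show u ∈ Lg j
            rw [e1]; exact a
          · show v ∈ Lg l
            rw [e2]; exact b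
        · rintro ⟨p, ⟨_, _, hp⟩, a, b⟩
          exact (h1.2 u v).2 ⟨_, hp, a, b⟩)
      (by
        intro i hi u v _ _
        have h1 := (hPQ i hi).2
        constructor
        · rintro ⟨w, hw, h⟩
          obtain ⟨p, hp, a, b⟩ := (h1.2 u v).1 ⟨w, h, hw⟩
          obtain ⟨j, hj, e1⟩ := hsurj _ (h1.1 p hp).1
          obtain ⟨l, hl, e2⟩ := hsurj _ (h1.1 p hp).2
          refine ⟨(j, l), ⟨hj, hl, ?_⟩, ?_, ?_⟩
          · show (Lg j, Lg l) ∈ QS i
            rw [e1, e2]; exact hp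
          · show u ∈ Lg j
            rw [e1]; exact a
          · show v ∈ Lg l
            rw [e2]; exact b
        · rintro ⟨p, ⟨_, _, hp⟩, a, b⟩
          obtain ⟨w, hw, h⟩ := (h1.2 u v).2 ⟨_, hp, a, b⟩
          exact ⟨w, h, hw⟩)
      (TT T) (TT P) hT hP
  let R : LL := (List.range n).map fun q => (List.range k).map fun a => ρ q a
  let Λ : LL := (List.range n).map fun q => (List.range k).map fun a => lam q a
  have hR : rh R = ρ := by
    funext q a
    simp only [rh, R]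
    rw [getD_map_range]
    by_cases hq : q < n
    · rw [if_pos hq, getD_map_range]
      by_cases ha : a < k
      · rw [if_pos ha]
      · rw [if_neg ha, (hout q a (fun h => ha h.2)).1]
    · rw [if_neg hq, (hout q a (fun h => hq h.1)).1]
      simp
  have hΛ : rh Λ = lam := by
    funext q a
    simp only [rh, Λ]
    rw [getD_map_range]
    by_cases hq : q < n
    · rw [if_pos hq, getD_map_range]
      by_cases ha : a < k
      · rw [if_pos ha]
      · rw [if_neg ha, (hout q a (fun h => ha h.2)).2]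
    · rw [if_neg hq, (hout q a (fun h => hq h.1)).2]
      simp
  let Fl : LL := (List.range m).map fun i => (List.range n).filter (fun p => F i p)
  have hFl : FF Fl = F := by
    funext i p
    apply propext
    simp only [FF, Fl]
    rw [getD_map_range]
    by_cases hi : i < m
    · rw [if_pos hi]
      simp only [List.mem_filter, List.mem_range, decide_eq_true_eq]
      exact ⟨fun h => h.2, fun h => ⟨(hFb i p h).1, h⟩⟩
    · rw [if_neg hi]
      simp only [List.not_mem_nil, false_iff]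
      exact fun h => hi (hFb i p h).2
  have hEf : ∀ i, {t : ℕ × ℕ × ℕ | E i t.1 t.2.1 t.2.2}.Finite := fun i =>
    ((Set.finite_Iio n).prod ((Set.finite_Iio n).prod (Set.finite_Iio n))).subset
      (fun t ht => ⟨(hEb _ _ _ _ ht).2.1, (hEb _ _ _ _ ht).2.2.1, (hEb _ _ _ _ ht).2.2.2⟩)
  let El : LT := (List.range m).map fun i => (hEf i).toFinset.toList
  have hEl : EE El = E := by
    funext i p x y
    apply propext
    simp only [EE, El]
    rw [getD_map_range]
    by_cases hi : i < m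
    · rw [if_pos hi, Finset.mem_toList, Set.Finite.mem_toFinset]
      rfl
    · rw [if_neg hi]
      simp only [List.not_mem_nil, false_iff]
      exact fun h => hi (hEb _ _ _ _ h).1
  have hstate : ∀ w : List ℕ, w.foldl (fun q a => tbl.getD (q * k + a) 0) 0 ∈
      (insert 0 {x | x ∈ tbl} : Set ℕ) := by
    intro w
    induction w using List.reverseRecOn with
    | nil => simp
    | append_singleton w b _ =>
      rw [List.foldl_append]
      simp only [List.foldl_cons, List.foldl_nil]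
      generalize w.foldl (fun q a => tbl.getD (q * k + a) 0) 0 * k + b = j
      by_cases hj : j < tbl.length
      · rw [List.getD_eq_getElem _ _ hj]
        exact Or.inr (List.getElem_mem _)
      · rw [List.getD_eq_default _ _ (by omega)]
        exact Or.inl rfl
  have hBf : {t : ℕ × ℕ | ∃ w, Al k w ∧ num w = t.1 ∧
      w.foldl (fun q a => tbl.getD (q * k + a) 0) 0 = t.2}.Finite := by
    refine ((Set.finite_Iio n).prod ((List.finite_toSet tbl).insert 0)).subset ?_
    rintro ⟨x, y⟩ ⟨w, hw, rfl, rfl⟩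
    exact ⟨num_lt w hw, hstate w⟩
  have hBm : ∀ t : ℕ × ℕ, t ∈ hBf.toFinset.toList ↔ ∃ w, Al k w ∧ num w = t.1 ∧
      w.foldl (fun q a => tbl.getD (q * k + a) 0) 0 = t.2 := by
    intro t
    rw [Finset.mem_toList, Set.Finite.mem_toFinset]
    rfl
  have hlen : Fl.length = m := by simp [Fl]
  refine ⟨((n, num []), (R, Λ), Fl, (T, P), El, hBf.toFinset.toList), ?_, ⟨?_, ?_, ?_, ?_, ?_⟩, ?_, ?_, ?_⟩
  · have hns : n ≤ 2 ^ s := hn2.trans (Nat.pow_le_pow_right (by norm_num) hms)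
    have hRR : ∀ (f : ℕ → ℕ → ℕ), (∀ q < n, ∀ a < k, f q a < n) →
        Encodable.encode ((List.range n).map fun q => (List.range k).map fun a => f q a) ≤
          bd (bd (2 ^ s) k) (2 ^ s) := by
      intro f hf
      refine bd_le _ _ _ ?_ (by simpa using hns)
      intro l hl
      obtain ⟨q, hq, rfl⟩ := List.mem_map.1 hl
      refine bd_le _ _ _ ?_ (by simp)
      intro x hx
      obtain ⟨a, ha, rfl⟩ := List.mem_map.1 hx
      rw [List.mem_range] at hq ha
      exact (hf q hq a ha).le.trans hns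
    simp only [Encodable.encode_prod_val, Bd, Encodable.encode_nat]
    refine pair_mono (pair_mono hns ((num_lt [] al_nil).le.trans hns)) (pair_mono (pair_mono ?_ ?_)
      (pair_mono ?_ (pair_mono (pair_mono ?_ ?_) (pair_mono ?_ ?_))))
    · exact hRR ρ (fun q hq a ha => (G.hcl q hq a ha).1)
    · exact hRR lam (fun q hq a ha => (G.hcl q hq a ha).2)
    · refine bd_le _ _ _ ?_ (by simpa [Fl] using hms)
      intro l hl
      obtain ⟨i, hi, rfl⟩ := List.mem_map.1 hl
      refine bd_le _ _ _ ?_ ?_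
      · intro x hx
        have := (List.mem_filter.1 hx).1
        rw [List.mem_range] at this
        exact this.le.trans hns
      · refine (List.length_filter_le _ _).trans ?_
        simpa using hns
    · refine bd_le _ _ _ ?_ (by simpa [T] using hms)
      intro l hl
      obtain ⟨i, hi, rfl⟩ := List.mem_map.1 hl
      refine encode_fin (hPtf i) (Finset.range m ×ˢ Finset.range m) ?_ _ _ ?_ ?_
      · intro x hx
        simp only [Finset.mem_product, Finset.mem_range]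
        exact ⟨hx.1, hx.2.1⟩
      · intro x hx
        simp only [Finset.mem_product, Finset.mem_range] at hx
        exact pair_mono (hx.1.le.trans hms) (hx.2.le.trans hms)
      · simp only [Finset.card_product, Finset.card_range]
        exact Nat.mul_le_mul hms hms
    · refine bd_le _ _ _ ?_ (by simpa [P] using hms)
      intro l hl
      obtain ⟨i, hi, rfl⟩ := List.mem_map.1 hl
      refine encode_fin (hPsf i) (Finset.range m ×ˢ Finset.range m) ?_ _ _ ?_ ?_
      · intro x hx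
        simp only [Finset.mem_product, Finset.mem_range]
        exact ⟨hx.1, hx.2.1⟩
      · intro x hx
        simp only [Finset.mem_product, Finset.mem_range] at hx
        exact pair_mono (hx.1.le.trans hms) (hx.2.le.trans hms)
      · simp only [Finset.card_product, Finset.card_range]
        exact Nat.mul_le_mul hms hms
    · refine bd_le _ _ _ ?_ (by simpa [El] using hms)
      intro l hl
      obtain ⟨i, hi, rfl⟩ := List.mem_map.1 hl
      refine encode_fin (hEf i) (Finset.range n ×ˢ (Finset.range n ×ˢ Finset.range n)) ?_ _ _ ?_ ?_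
      · intro x hx
        simp only [Finset.mem_product, Finset.mem_range]
        exact (hEb _ _ _ _ hx).2
      · intro x hx
        simp only [Finset.mem_product, Finset.mem_range] at hx
        exact pair_mono (hx.1.le.trans hns) (pair_mono (hx.2.1.le.trans hns) (hx.2.2.le.trans hns))
      · simp only [Finset.card_product, Finset.card_range]
        exact Nat.mul_le_mul hns (Nat.mul_le_mul hns hns)
    · refine encode_fin hBf (Finset.range n ×ˢ (insert 0 tbl.toFinset)) ?_ _ _ ?_ ?_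
      · rintro ⟨x, y⟩ ⟨w, hw, rfl, rfl⟩
        simp only [Finset.mem_product, Finset.mem_range]
        refine ⟨num_lt w hw, ?_⟩
        rcases hstate w with h | h
        · rw [h]; exact Finset.mem_insert_self _ _
        · exact Finset.mem_insert_of_mem (List.mem_toFinset.2 h)
      · intro x hx
        simp only [Finset.mem_product, Finset.mem_range, Finset.mem_insert, List.mem_toFinset] at hx
        refine pair_mono (hx.1.le.trans hns) ?_
        rcases hx.2 with h | h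
        · show x.2 ≤ Encodable.encode tbl
          rw [h]; exact Nat.zero_le _
        · exact le_encode _ _ h
      · rw [Finset.card_product, Finset.card_range]
        refine Nat.mul_le_mul hns ((Finset.card_insert_le _ _).trans ?_)
        exact Nat.succ_le_succ (List.toFinset_card_le _)
  · dsimp only
    rw [hR, hΛ, hFl, hEl, hlen]
    exact G
  · dsimp only
    rw [hlen]; exact hm0
  · dsimp only
    rw [hBm]
    exact ⟨[], al_nil, rfl, rfl⟩
  · dsimp only
    intro t ht a ha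
    rw [hBm] at ht ⊢
    obtain ⟨w, hw, e1, e2⟩ := ht
    refine ⟨w ++ [a], hw.app (al_single ha), ?_, ?_⟩
    · dsimp only
      rw [hR, ← e1, hρ w a hw ha]
    · dsimp only
      rw [List.foldl_append, e2]
      rfl
  · dsimp only
    intro t ht
    rw [hBm] at ht
    obtain ⟨w, hw, e1, e2⟩ := ht
    have h1 : t.1 ∈ Fl.getD 0 [] ↔ F 0 t.1 := by
      rw [← hFl]; rfl
    rw [h1, ← e1, hF 0 w hw hm0, ← e2]
    show w ∈ Lg 0 ↔ _
    have : Lg 0 = K0 (k, tbl, acc) := rfl
    rw [this]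
    exact ⟨fun h => h.2, fun h => ⟨hw, h⟩⟩
  · dsimp only
    rw [hlen]; exact hms
  · dsimp only
    rw [hlen]
    intro i hi t ht
    have := (hT i hi t).1 ht
    exact ⟨this.1, this.2.1⟩
  · dsimp only
    rw [hlen]
    intro i hi t ht
    have := (hP i hi t).1 ht
    exact ⟨this.1, this.2.1⟩


theorem prim_Bd : Primrec₂ Bd := by
  have p2 : Primrec fun x : (ℕ × List ℕ × List ℕ) × ℕ => 2 ^ x.2 := by
    have h : Primrec fun n : ℕ => 2 ^ n := by
      have := Primrec.nat_rec' (α := ℕ) (β := ℕ) (f := fun n => n) (g := fun _ => 1)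
        (h := fun _ p => 2 * p.2) Primrec.id (Primrec.const 1)
        (Primrec.nat_mul.comp (Primrec.const 2) (Primrec.snd.comp Primrec.snd))
      refine this.of_eq ?_
      intro n
      induction n with
      | zero => rfl
      | succ n ih => rw [pow_succ, ← ih]; simp [Nat.mul_comm]
    exact h.comp Primrec.snd
  have ps : Primrec fun x : (ℕ × List ℕ × List ℕ) × ℕ => x.2 := Primrec.snd
  have pk : Primrec fun x : (ℕ × List ℕ × List ℕ) × ℕ => x.1.1 := Primrec.fst.comp Primrec.fst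
  have pt : Primrec fun x : (ℕ × List ℕ × List ℕ) × ℕ => x.1.2.1 :=
    Primrec.fst.comp (Primrec.snd.comp Primrec.fst)
  have P : ∀ {f g : (ℕ × List ℕ × List ℕ) × ℕ → ℕ}, Primrec f → Primrec g →
      Primrec fun x => Nat.pair (f x) (g x) := fun hf hg => Primrec₂.natPair.comp hf hg
  have B : ∀ {f g : (ℕ × List ℕ × List ℕ) × ℕ → ℕ}, Primrec f → Primrec g →
      Primrec fun x => bd (f x) (g x) := fun hf hg => prim_bd.comp hf hg
  have M : ∀ {f g : (ℕ × List ℕ × List ℕ) × ℕ → ℕ}, Primrec f → Primrec g →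
      Primrec fun x => f x * g x := fun hf hg => Primrec.nat_mul.comp hf hg
  exact P (P p2 p2) (P (P (B (B p2 pk) p2) (B (B p2 pk) p2)) (P (B (B p2 p2) ps)
    (P (P (B (B (P ps ps) (M ps ps)) ps) (B (B (P ps ps) (M ps ps)) ps))
      (P (B (B (P p2 (P p2 p2)) (M p2 (M p2 p2))) ps)
        (B (P p2 (Primrec.encode.comp pt)) (M p2 (Primrec.succ.comp (Primrec.list_length.comp pt))))))))

theorem prim_chkB : PrimrecPred fun x : ((ℕ × List ℕ × List ℕ) × ℕ) × Cert =>
    ChkB x.1.1 x.1.2 x.2 := by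
  have c0 : Primrec fun x : ((ℕ × List ℕ × List ℕ) × ℕ) × Cert => x.2 := Primrec.snd
  have e1 : Primrec fun x : ((ℕ × List ℕ × List ℕ) × ℕ) × Cert => x.2.2 := Primrec.snd.comp c0
  have e2 : Primrec fun x : ((ℕ × List ℕ × List ℕ) × ℕ) × Cert => x.2.2.2 := Primrec.snd.comp e1
  have d3 : Primrec fun x : ((ℕ × List ℕ × List ℕ) × ℕ) × Cert => x.2.2.2.1 := Primrec.fst.comp e2
  have e3 : Primrec fun x : ((ℕ × List ℕ × List ℕ) × ℕ) × Cert => x.2.2.2.2 := Primrec.snd.comp e2
  have d4 : Primrec fun x : ((ℕ × List ℕ × List ℕ) × ℕ) × Cert => x.2.2.2.2.1 := Primrec.fst.comp e3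
  have dl : Primrec fun x : ((ℕ × List ℕ × List ℕ) × ℕ) × Cert => x.2.2.2.1.length :=
    Primrec.list_length.comp d3
  have K : ∀ {T : ((ℕ × List ℕ × List ℕ) × ℕ) × Cert → LP}, Primrec T →
      PrimrecPred fun x : ((ℕ × List ℕ × List ℕ) × ℕ) × Cert =>
        ∀ i < x.2.2.2.1.length, ∀ t ∈ TT (T x) i, t.1 < x.2.2.2.1.length ∧ t.2 < x.2.2.2.1.length := by
    intro T hT
    refine pAll dl (pAllMem ((Primrec.list_getD []).comp (hT.comp Primrec.fst) Primrec.snd)
      (PrimrecPred.and ?_ ?_))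
    · exact pLt (Primrec.fst.comp Primrec.snd) (dl.comp (Primrec.fst.comp Primrec.fst))
    · exact pLt (Primrec.snd.comp Primrec.snd) (dl.comp (Primrec.fst.comp Primrec.fst))
  refine PrimrecPred.and ?_ (PrimrecPred.and ?_ (PrimrecPred.and ?_ ?_))
  · exact prim_chk.comp (Primrec.pair (Primrec.fst.comp Primrec.fst) Primrec.snd)
  · exact Primrec.nat_le.comp dl (Primrec.snd.comp Primrec.fst)
  · exact K (Primrec.fst.comp d4)
  · exact K (Primrec.snd.comp d4)

theorem decB : ComputablePred fun x : (ℕ × List ℕ × List ℕ) × ℕ => IsDecB x.1 x.2 := by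
  have h0 : PrimrecRel fun (x : (ℕ × List ℕ × List ℕ) × ℕ) (d : Cert) => ChkB x.1 x.2 d :=
    prim_chkB
  have h1 := primrecPred_decode h0
  have h2 : PrimrecRel fun (e : ℕ) (x : (ℕ × List ℕ × List ℕ) × ℕ) =>
      ∃ d : Cert, Encodable.decode e = some d ∧ ChkB x.1 x.2 d := h1.swap
  have h3 := (h2.exists_mem_list).comp
    (Primrec.list_range.comp (Primrec.succ.comp prim_Bd)) (Primrec.id (α := (ℕ × List ℕ × List ℕ) × ℕ))
  refine (PrimrecPred.computablePred h3).of_eq ?_
  rintro ⟨c, s⟩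
  constructor
  · rintro ⟨e, _, d, _, hd⟩
    exact dec_of_chkB c s d hd
  · intro h
    obtain ⟨d, h1, h2⟩ := chk_of_decB c s h
    refine ⟨Encodable.encode d, ?_, d, Encodable.encodek d, h2⟩
    rw [List.mem_range]
    exact Nat.lt_succ_of_le h1

end Pool.Agent.Helper230.Dec
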