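import Pool.Agent.Helper230.DecS

namespace Pool.Agent.Helper230.Dec

theorem exists_num {α β : Type*} [Finite β] (ty : α → β) :
    ∃ (n : ℕ) (num : α → ℕ), (∀ a, num a < n) ∧ (∀ q < n, ∃ a, num a = q) ∧
      ∀ a b, num a = num b ↔ ty a = ty b := by
  obtain ⟨n, ⟨e⟩⟩ := Finite.exists_equiv_fin (Set.range ty)
  refine ⟨n, fun a => (e ⟨ty a, Set.mem_range_self a⟩).val, fun a => (e _).isLt, ?_, ?_⟩
  · intro q hq
    obtain ⟨b, hb⟩ := (e.symm ⟨q, hq⟩).2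
    refine ⟨b, ?_⟩
    have : (⟨ty b, Set.mem_range_self b⟩ : Set.range ty) = e.symm ⟨q, hq⟩ := Subtype.ext hb
    show (e ⟨ty b, Set.mem_range_self b⟩).val = q
    rw [this]; simp
  · intro a b
    constructor
    · intro h
      have := e.injective (Fin.ext h)
      exact congrArg Subtype.val this
    · intro h
      have : (⟨ty a, Set.mem_range_self a⟩ : Set.range ty) = ⟨ty b, Set.mem_range_self b⟩ :=
        Subtype.ext h
      show (e ⟨ty a, Set.mem_range_self a⟩).val = (e ⟨ty b, Set.mem_range_self b⟩).val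
      rw [this]

/-- letters below `k` -/
def Al (k : ℕ) (w : List ℕ) : Prop := ∀ a ∈ w, a < k

theorem Al.app {k : ℕ} {u v : List ℕ} (hu : Al k u) (hv : Al k v) : Al k (u ++ v) := by
  intro a ha
  rcases List.mem_append.1 ha with h | h
  · exact hu a h
  · exact hv a h

theorem al_nil {k : ℕ} : Al k [] := by intro a ha; simp at ha

theorem al_single {k a : ℕ} (h : a < k) : Al k [a] := by
  intro b hb; rw [List.mem_singleton] at hb; subst hb; exact h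

theorem Al.cons {k a : ℕ} {u : List ℕ} (h : a < k) (hu : Al k u) : Al k (a :: u) := by
  intro b hb
  rcases List.mem_cons.1 hb with rfl | h'
  · exact h
  · exact hu b h'

theorem sh_nn {w : List ℕ} : Sh w [] [] ↔ w = [] := by cases w <;> simp [Sh]
theorem sh_cn {w u : List ℕ} {a : ℕ} : Sh w (a :: u) [] ↔ ∃ w', w = a :: w' ∧ Sh w' u [] := by
  cases w with
  | nil => simp [Sh]
  | cons c w =>
    simp only [Sh, List.cons.injEq]
    constructor
    · rintro (⟨u', ⟨rfl, rfl⟩, h⟩ | ⟨v', h, _⟩)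
      · exact ⟨w, ⟨rfl, rfl⟩, h⟩
      · cases h
    · rintro ⟨w', ⟨rfl, rfl⟩, h⟩
      exact Or.inl ⟨u, ⟨rfl, rfl⟩, h⟩
theorem sh_nc {w v : List ℕ} {b : ℕ} : Sh w [] (b :: v) ↔ ∃ w', w = b :: w' ∧ Sh w' [] v := by
  cases w with
  | nil => simp [Sh]
  | cons c w =>
    simp only [Sh, List.cons.injEq]
    constructor
    · rintro (⟨u', h, _⟩ | ⟨v', ⟨rfl, rfl⟩, h⟩)
      · cases h
      · exact ⟨w, ⟨rfl, rfl⟩, h⟩
    · rintro ⟨w', ⟨rfl, rfl⟩, h⟩
      exact Or.inr ⟨v, ⟨rfl, rfl⟩, h⟩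
theorem sh_cc {w u v : List ℕ} {a b : ℕ} : Sh w (a :: u) (b :: v) ↔
    (∃ w', w = a :: w' ∧ Sh w' u (b :: v)) ∨ ∃ w', w = b :: w' ∧ Sh w' (a :: u) v := by
  cases w with
  | nil => simp [Sh]
  | cons c w =>
    simp only [Sh, List.cons.injEq]
    constructor
    · rintro (⟨u', ⟨rfl, rfl⟩, h⟩ | ⟨v', ⟨rfl, rfl⟩, h⟩)
      · exact Or.inl ⟨w, ⟨rfl, rfl⟩, h⟩
      · exact Or.inr ⟨w, ⟨rfl, rfl⟩, h⟩
    · rintro (⟨w', ⟨rfl, rfl⟩, h⟩ | ⟨w', ⟨rfl, rfl⟩, h⟩)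
      · exact Or.inl ⟨u, ⟨rfl, rfl⟩, h⟩
      · exact Or.inr ⟨v, ⟨rfl, rfl⟩, h⟩

theorem exists_good (k m : ℕ) (L : ℕ → Set (List ℕ))
    (Pt Ps : ℕ → Set (ℕ × ℕ))
    (hPt : ∀ i < m, ∀ p ∈ Pt i, p.1 < m ∧ p.2 < m)
    (hPs : ∀ i < m, ∀ p ∈ Ps i, p.1 < m ∧ p.2 < m)
    (ht : ∀ i < m, ∀ u v : List ℕ, Al k u → Al k v →
      (u ++ v ∈ L i ↔ ∃ p ∈ Pt i, u ∈ L p.1 ∧ v ∈ L p.2))
    (hs : ∀ i < m, ∀ u v : List ℕ, Al k u → Al k v →
      ((∃ w, Sh w u v ∧ w ∈ L i) ↔ ∃ p ∈ Ps i, u ∈ L p.1 ∧ v ∈ L p.2))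
    (T P : ℕ → List (ℕ × ℕ)) (hT : ∀ i < m, ∀ p, p ∈ T i ↔ p ∈ Pt i)
    (hP : ∀ i < m, ∀ p, p ∈ P i ↔ p ∈ Ps i) :
    ∃ (n : ℕ) (num : List ℕ → ℕ) (ρ lam : ℕ → ℕ → ℕ) (F : ℕ → ℕ → Prop)
      (E : ℕ → ℕ → ℕ → ℕ → Prop),
      (∀ w, Al k w → num w < n) ∧
      (∀ w a, Al k w → a < k → ρ (num w) a = num (w ++ [a])) ∧
      (∀ i w, Al k w → i < m → (F i (num w) ↔ w ∈ L i)) ∧
      (∀ i p, F i p → p < n ∧ i < m) ∧
      (∀ i p x y, E i p x y → i < m ∧ p < n ∧ x < n ∧ y < n) ∧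
      (∀ q a, ¬ (q < n ∧ a < k) → ρ q a = 0 ∧ lam q a = 0) ∧
      Good k n (num []) m ρ lam F T P E := by
  classical
  obtain ⟨n, num0, h1, h2, h3⟩ := exists_num (α := {w : List ℕ // Al k w})
    (fun w => fun i : Fin m => w.1 ∈ L i)
  have h3' : ∀ a b : {w : List ℕ // Al k w}, num0 a = num0 b ↔
      ∀ i < m, (a.1 ∈ L i ↔ b.1 ∈ L i) := by
    intro a b
    rw [h3]
    constructor
    · intro h i hi
      exact iff_of_eq (congrFun h ⟨i, hi⟩)
    · intro h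
      funext i
      exact propext (h i.1 i.2)
  let num : List ℕ → ℕ := fun w => if h : Al k w then num0 ⟨w, h⟩ else 0
  have hnum : ∀ w (h : Al k w), num w = num0 ⟨w, h⟩ := fun w h => by simp only [num, dif_pos h]
  have num_lt : ∀ w, Al k w → num w < n := fun w h => by rw [hnum w h]; exact h1 _
  have num_surj : ∀ q < n, ∃ w, Al k w ∧ num w = q := by
    intro q hq
    obtain ⟨a, ha⟩ := h2 q hq
    exact ⟨a.1, a.2, by rw [hnum _ a.2]; exact ha⟩
  have num_eq : ∀ u v, Al k u → Al k v → (num u = num v ↔ ∀ i < m, (u ∈ L i ↔ v ∈ L i)) := by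
    intro u v hu hv
    rw [hnum u hu, hnum v hv, h3']
  have cong : ∀ u u' v v', Al k u → Al k u' → Al k v → Al k v' → num u = num u' →
      num v = num v' → num (u ++ v) = num (u' ++ v') := by
    intro u u' v v' hu hu' hv hv' e1 e2
    rw [num_eq _ _ (hu.app hv) (hu'.app hv')]
    intro i hi
    rw [ht i hi u v hu hv, ht i hi u' v' hu' hv']
    rw [num_eq _ _ hu hu'] at e1
    rw [num_eq _ _ hv hv'] at e2
    constructor
    · rintro ⟨p, hp, a, b⟩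
      have := hPt i hi p hp
      exact ⟨p, hp, (e1 _ this.1).1 a, (e2 _ this.2).1 b⟩
    · rintro ⟨p, hp, a, b⟩
      have := hPt i hi p hp
      exact ⟨p, hp, (e1 _ this.1).2 a, (e2 _ this.2).2 b⟩
  have hrep : ∀ q, ∃ w, q < n → Al k w ∧ num w = q := by
    intro q
    by_cases hq : q < n
    · obtain ⟨w, hw⟩ := num_surj q hq
      exact ⟨w, fun _ => hw⟩
    · exact ⟨[], fun h => absurd h hq⟩
  choose rep hrep using hrep
  let ρ : ℕ → ℕ → ℕ := fun q a => if q < n ∧ a < k then num (rep q ++ [a]) else 0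
  let lam : ℕ → ℕ → ℕ := fun q a => if q < n ∧ a < k then num ([a] ++ rep q) else 0
  have hρ : ∀ w a, Al k w → a < k → ρ (num w) a = num (w ++ [a]) := by
    intro w a hw ha
    have := hrep (num w) (num_lt w hw)
    simp only [ρ]
    rw [if_pos ⟨num_lt w hw, ha⟩]
    exact cong _ _ _ _ this.1 hw (al_single ha) (al_single ha) this.2 rfl
  have hlam : ∀ w a, Al k w → a < k → lam (num w) a = num (a :: w) := by
    intro w a hw ha
    have := hrep (num w) (num_lt w hw)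
    simp only [lam]
    rw [if_pos ⟨num_lt w hw, ha⟩]
    exact cong [a] [a] _ _ (al_single ha) (al_single ha) this.1 hw rfl this.2
  let F : ℕ → ℕ → Prop := fun i q => i < m ∧ ∃ w, Al k w ∧ num w = q ∧ w ∈ L i
  have hF : ∀ i w, Al k w → i < m → (F i (num w) ↔ w ∈ L i) := by
    intro i w hw hi
    constructor
    · rintro ⟨_, w', hw', e, h⟩
      exact ((num_eq w' w hw' hw).1 e i hi).1 h
    · intro h
      exact ⟨hi, w, hw, rfl, h⟩
  let E : ℕ → ℕ → ℕ → ℕ → Prop := fun i p x y => i < m ∧ ∃ w1 u v, Al k w1 ∧ Al k u ∧ Al k v ∧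
    num w1 = p ∧ num u = x ∧ num v = y ∧ ∃ w, Sh w u v ∧ w1 ++ w ∈ L i
  have hE : ∀ i w1 u v, i < m → Al k w1 → Al k u → Al k v →
      (E i (num w1) (num u) (num v) ↔ ∃ w, Sh w u v ∧ w1 ++ w ∈ L i) := by
    have key : ∀ i w1 u v, i < m → Al k w1 → Al k u → Al k v →
      ((∃ w, Sh w u v ∧ w1 ++ w ∈ L i) ↔
        ∃ p ∈ Pt i, w1 ∈ L p.1 ∧ ∃ r ∈ Ps p.2, u ∈ L r.1 ∧ v ∈ L r.2) := by
      intro i w1 u v hi hw1 hu hv
      have hal : ∀ w, Sh w u v → Al k w := by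
        intro w hw a ha
        rcases (hw.mem a).1 ha with h | h
        · exact hu a h
        · exact hv a h
      constructor
      · rintro ⟨w, hw, h⟩
        rw [ht i hi w1 w hw1 (hal w hw)] at h
        obtain ⟨p, hp, a, b⟩ := h
        exact ⟨p, hp, a, (hs _ (hPt i hi p hp).2 u v hu hv).1 ⟨w, hw, b⟩⟩
      · rintro ⟨p, hp, a, b⟩
        obtain ⟨w, hw, h⟩ := (hs _ (hPt i hi p hp).2 u v hu hv).2 b
        exact ⟨w, hw, (ht i hi w1 w hw1 (hal w hw)).2 ⟨p, hp, a, h⟩⟩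
    intro i w1 u v hi hw1 hu hv
    constructor
    · rintro ⟨_, w1', u', v', a1, a2, a3, e1, e2, e3, h⟩
      rw [key i _ _ _ hi a1 a2 a3] at h
      rw [key i _ _ _ hi hw1 hu hv]
      rw [num_eq _ _ a1 hw1] at e1
      rw [num_eq _ _ a2 hu] at e2
      rw [num_eq _ _ a3 hv] at e3
      obtain ⟨p, hp, b1, r, hr, b2, b3⟩ := h
      have q1 := hPt i hi p hp
      have q2 := hPs _ q1.2 r hr
      exact ⟨p, hp, (e1 _ q1.1).1 b1, r, hr, (e2 _ q2.1).1 b2, (e3 _ q2.2).1 b3⟩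
    · intro h
      exact ⟨hi, w1, u, v, hw1, hu, hv, rfl, rfl, rfl, h⟩
  have hDT : ∀ i < m, ∀ u v, Al k u → Al k v → (DD F T i (num u) (num v) ↔ u ++ v ∈ L i) := by
    intro i hi u v hu hv
    rw [ht i hi u v hu hv]
    constructor
    · rintro ⟨t, htt, a, b⟩
      have := (hT i hi t).1 htt
      have h5 := hPt i hi t this
      exact ⟨t, this, (hF _ _ hu h5.1).1 a, (hF _ _ hv h5.2).1 b⟩
    · rintro ⟨t, htt, a, b⟩
      have h5 := hPt i hi t htt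
      exact ⟨t, (hT i hi t).2 htt, (hF _ _ hu h5.1).2 a, (hF _ _ hv h5.2).2 b⟩
  have hDP : ∀ i < m, ∀ u v, Al k u → Al k v →
      (DD F P i (num u) (num v) ↔ ∃ w, Sh w u v ∧ w ∈ L i) := by
    intro i hi u v hu hv
    rw [hs i hi u v hu hv]
    constructor
    · rintro ⟨t, htt, a, b⟩
      have := (hP i hi t).1 htt
      have h5 := hPs i hi t this
      exact ⟨t, this, (hF _ _ hu h5.1).1 a, (hF _ _ hv h5.2).1 b⟩
    · rintro ⟨t, htt, a, b⟩
      have h5 := hPs i hi t htt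
      exact ⟨t, (hP i hi t).2 htt, (hF _ _ hu h5.1).2 a, (hF _ _ hv h5.2).2 b⟩
  refine ⟨n, num, ρ, lam, F, E, num_lt, hρ, hF, ?_, ?_, ?_, ?_⟩
  · rintro i p ⟨hi, w, hw, rfl, _⟩
    exact ⟨num_lt w hw, hi⟩
  · rintro i p x y ⟨hi, w1, u, v, a1, a2, a3, rfl, rfl, rfl, _⟩
    exact ⟨hi, num_lt _ a1, num_lt _ a2, num_lt _ a3⟩
  · intro q a h
    simp only [ρ, lam]
    rw [if_neg h, if_neg h]
    exact ⟨rfl, rfl⟩
  · refine ⟨num_lt _ al_nil, ?_, ?_, ?_, ?_, ?_, ?_, ?_, ?_, ?_, ?_⟩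
    · intro q hq a ha
      obtain ⟨w, hw, rfl⟩ := num_surj q hq
      rw [hρ w a hw ha, hlam w a hw ha]
      exact ⟨num_lt _ (hw.app (al_single ha)), num_lt _ (hw.cons ha)⟩
    · intro a ha
      rw [hρ [] a al_nil ha, hlam [] a al_nil ha]
      rfl
    · intro q hq a ha b hb
      obtain ⟨w, hw, rfl⟩ := num_surj q hq
      rw [hρ w b hw hb, hlam w a hw ha, hρ _ b (hw.cons ha) hb, hlam _ a (hw.app (al_single hb)) ha]
      rfl
    · intro i hi p hp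
      obtain ⟨w, hw, rfl⟩ := num_surj p hp
      rw [hDT i hi w [] hw al_nil, hF i w hw hi]; simp
    · intro i hi p hp q hq a ha
      obtain ⟨w, hw, rfl⟩ := num_surj p hp
      obtain ⟨v, hv, rfl⟩ := num_surj q hq
      rw [hρ w a hw ha, hlam v a hv ha, hDT i hi _ _ (hw.app (al_single ha)) hv,
        hDT i hi _ _ hw (hv.cons ha)]
      simp
    · intro i hi p hp
      obtain ⟨w, hw, rfl⟩ := num_surj p hp
      rw [hE i _ _ _ hi hw al_nil al_nil, hF i w hw hi]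
      constructor
      · rintro ⟨w', h, h'⟩
        rw [sh_nn] at h; subst h; simpa using h'
      · intro h
        exact ⟨[], sh_nn.2 rfl, by simpa using h⟩
    · intro i hi p hp x hx a ha
      obtain ⟨w, hw, rfl⟩ := num_surj p hp
      obtain ⟨u, hu, rfl⟩ := num_surj x hx
      rw [hρ w a hw ha, hlam u a hu ha, hE i _ _ _ hi hw (hu.cons ha) al_nil,
        hE i _ _ _ hi (hw.app (al_single ha)) hu al_nil]
      constructor
      · rintro ⟨w', h, h'⟩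
        rw [sh_cn] at h
        obtain ⟨w'', rfl, h⟩ := h
        exact ⟨w'', h, by simpa using h'⟩
      · rintro ⟨w', h, h'⟩
        exact ⟨a :: w', sh_cn.2 ⟨w', rfl, h⟩, by simpa using h'⟩
    · intro i hi p hp x hx a ha
      obtain ⟨w, hw, rfl⟩ := num_surj p hp
      obtain ⟨u, hu, rfl⟩ := num_surj x hx
      rw [hρ w a hw ha, hlam u a hu ha, hE i _ _ _ hi hw al_nil (hu.cons ha),
        hE i _ _ _ hi (hw.app (al_single ha)) al_nil hu]
      constructor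
      · rintro ⟨w', h, h'⟩
        rw [sh_nc] at h
        obtain ⟨w'', rfl, h⟩ := h
        exact ⟨w'', h, by simpa using h'⟩
      · rintro ⟨w', h, h'⟩
        exact ⟨a :: w', sh_nc.2 ⟨w', rfl, h⟩, by simpa using h'⟩
    · intro i hi p hp x hx y hy a ha b hb
      obtain ⟨w, hw, rfl⟩ := num_surj p hp
      obtain ⟨u, hu, rfl⟩ := num_surj x hx
      obtain ⟨v, hv, rfl⟩ := num_surj y hy
      rw [hρ w a hw ha, hρ w b hw hb, hlam u a hu ha, hlam v b hv hb,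
        hE i _ _ _ hi hw (hu.cons ha) (hv.cons hb),
        hE i _ _ _ hi (hw.app (al_single ha)) hu (hv.cons hb),
        hE i _ _ _ hi (hw.app (al_single hb)) (hu.cons ha) hv]
      constructor
      · rintro ⟨w', h, h'⟩
        rw [sh_cc] at h
        rcases h with ⟨w'', rfl, h⟩ | ⟨w'', rfl, h⟩
        · exact Or.inl ⟨w'', h, by simpa using h'⟩
        · exact Or.inr ⟨w'', h, by simpa using h'⟩
      · rintro (⟨w', h, h'⟩ | ⟨w', h, h'⟩)
        · exact ⟨a :: w', sh_cc.2 (Or.inl ⟨w', rfl, h⟩), by simpa using h'⟩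
        · exact ⟨b :: w', sh_cc.2 (Or.inr ⟨w', rfl, h⟩), by simpa using h'⟩
    · intro i hi x hx y hy
      obtain ⟨u, hu, rfl⟩ := num_surj x hx
      obtain ⟨v, hv, rfl⟩ := num_surj y hy
      rw [hE i [] u v hi al_nil hu hv, hDP i hi u v hu hv]
      simp

end Pool.Agent.Helper230.Dec
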