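import Pool.Agent.Helper230.DecP

namespace Pool.Agent.Helper230.Dec

abbrev Cert := (ℕ × ℕ) × (LL × LL) × LL × (LP × LP) × LT × List (ℕ × ℕ)

def Chk (c : ℕ × List ℕ × List ℕ) (d : Cert) : Prop :=
  Good c.1 d.1.1 d.1.2 d.2.2.1.length (rh d.2.1.1) (rh d.2.1.2) (FF d.2.2.1)
    (TT d.2.2.2.1.1) (TT d.2.2.2.1.2) (EE d.2.2.2.2.1) ∧
  0 < d.2.2.1.length ∧
  (d.1.2, 0) ∈ d.2.2.2.2.2 ∧
  (∀ t ∈ d.2.2.2.2.2, ∀ a < c.1, (rh d.2.1.1 t.1 a, c.2.1.getD (t.2 * c.1 + a) 0) ∈ d.2.2.2.2.2) ∧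
  (∀ t ∈ d.2.2.2.2.2, (t.1 ∈ d.2.2.1.getD 0 [] ↔ t.2 ∈ c.2.2))

theorem pAllMem {Γ β : Type} [Primcodable Γ] [Primcodable β] {f : Γ → List β}
    {p : Γ → β → Prop} (hf : Primrec f)
    (hp : PrimrecPred fun x : Γ × β => p x.1 x.2) : PrimrecPred fun x => ∀ a ∈ f x, p x a := by
  have hR : PrimrecRel fun (a : β) (x : Γ) => p x a :=
    hp.comp (Primrec.pair Primrec.snd Primrec.fst)
  exact (hR.forall_mem_list).comp hf (Primrec.id (α := Γ))

theorem prim_chk : PrimrecPred fun x : (ℕ × List ℕ × List ℕ) × Cert => Chk x.1 x.2 := by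
  have c0 : Primrec fun x : (ℕ × List ℕ × List ℕ) × Cert => x.2 := Primrec.snd
  have q1 : Primrec fun x : (ℕ × List ℕ × List ℕ) × Cert => x.1.1 := Primrec.fst.comp Primrec.fst
  have q2 : Primrec fun x : (ℕ × List ℕ × List ℕ) × Cert => x.1.2.1 :=
    Primrec.fst.comp (Primrec.snd.comp Primrec.fst)
  have q3 : Primrec fun x : (ℕ × List ℕ × List ℕ) × Cert => x.1.2.2 :=
    Primrec.snd.comp (Primrec.snd.comp Primrec.fst)
  have d1 : Primrec fun x : (ℕ × List ℕ × List ℕ) × Cert => x.2.1 := Primrec.fst.comp c0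
  have e1 : Primrec fun x : (ℕ × List ℕ × List ℕ) × Cert => x.2.2 := Primrec.snd.comp c0
  have d2 : Primrec fun x : (ℕ × List ℕ × List ℕ) × Cert => x.2.2.1 := Primrec.fst.comp e1
  have e2 : Primrec fun x : (ℕ × List ℕ × List ℕ) × Cert => x.2.2.2 := Primrec.snd.comp e1
  have d3 : Primrec fun x : (ℕ × List ℕ × List ℕ) × Cert => x.2.2.2.1 := Primrec.fst.comp e2
  have e3 : Primrec fun x : (ℕ × List ℕ × List ℕ) × Cert => x.2.2.2.2 := Primrec.snd.comp e2
  have d4 : Primrec fun x : (ℕ × List ℕ × List ℕ) × Cert => x.2.2.2.2.1 := Primrec.fst.comp e3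
  have e4 : Primrec fun x : (ℕ × List ℕ × List ℕ) × Cert => x.2.2.2.2.2 := Primrec.snd.comp e3
  have d5 : Primrec fun x : (ℕ × List ℕ × List ℕ) × Cert => x.2.2.2.2.2.1 := Primrec.fst.comp e4
  have e5 : Primrec fun x : (ℕ × List ℕ × List ℕ) × Cert => x.2.2.2.2.2.2 := Primrec.snd.comp e4
  refine PrimrecPred.and ?_ (PrimrecPred.and ?_ (PrimrecPred.and ?_ (PrimrecPred.and ?_ ?_)))
  · exact good_prim q1 (Primrec.fst.comp d1) (Primrec.snd.comp d1) (Primrec.list_length.comp d3)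
      (Primrec.fst.comp d2) (Primrec.snd.comp d2) d3 (Primrec.fst.comp d4) (Primrec.snd.comp d4) d5
  · exact pLt (Primrec.const 0) (Primrec.list_length.comp d3)
  · exact pMem (Primrec.pair (Primrec.snd.comp d1) (Primrec.const 0)) e5
  · refine pAllMem e5 (pAll (q1.comp Primrec.fst) ?_)
    refine pMem (Primrec.pair ?_ ?_) (e5.comp (Primrec.fst.comp Primrec.fst))
    · exact prh ((Primrec.fst.comp d2).comp (Primrec.fst.comp Primrec.fst))
        (Primrec.fst.comp (Primrec.snd.comp Primrec.fst)) Primrec.snd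
    · exact (Primrec.list_getD 0).comp (q2.comp (Primrec.fst.comp Primrec.fst))
        (Primrec.nat_add.comp (Primrec.nat_mul.comp
          (Primrec.snd.comp (Primrec.snd.comp Primrec.fst))
          (q1.comp (Primrec.fst.comp Primrec.fst))) Primrec.snd)
  · refine pAllMem e5 (pIff ?_ ?_)
    · exact pMem (Primrec.fst.comp Primrec.snd)
        ((Primrec.list_getD []).comp (d3.comp Primrec.fst) (Primrec.const 0))
    · exact pMem (Primrec.snd.comp Primrec.snd) (q3.comp Primrec.fst)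

/-- the language of the coded automaton -/
def K0 (c : ℕ × List ℕ × List ℕ) : Language ℕ :=
  {w : List ℕ | (∀ a ∈ w, a < c.1) ∧
          w.foldl (fun q a => c.2.1.getD (q * c.1 + a) 0) 0 ∈ c.2.2}

def IsDec (c : ℕ × List ℕ × List ℕ) : Prop :=
    ∃ S : Set (Language ℕ), S.Finite ∧ K0 c ∈ S ∧
      ∀ K ∈ S,
        (∃ P : Set (Language ℕ × Language ℕ), P.Finite ∧
          (∀ p ∈ P, p.1 ∈ S ∧ p.2 ∈ S) ∧
          ∀ u v : List ℕ, u ++ v ∈ K ↔ ∃ p ∈ P, u ∈ p.1 ∧ v ∈ p.2) ∧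
        (∃ P : Set (Language ℕ × Language ℕ), P.Finite ∧
          (∀ p ∈ P, p.1 ∈ S ∧ p.2 ∈ S) ∧
          ∀ u v : List ℕ, (∃ w ∈ K, Sh w u v) ↔ ∃ p ∈ P, u ∈ p.1 ∧ v ∈ p.2)

theorem dec_of_chk (c : ℕ × List ℕ × List ℕ) (d : Cert) (h : Chk c d) : IsDec c := by
  obtain ⟨G, hm, hB0, hB1, hB2⟩ := h
  obtain ⟨⟨n, z⟩, ⟨R, Λ⟩, F, ⟨T, P⟩, E, B⟩ := d
  obtain ⟨k, tbl, acc⟩ := c
  dsimp only at G hm hB0 hB1 hB2
  let lang : ℕ → Language ℕ := fun i => {w : List ℕ | Al k w ∧ FF F i (w.foldl (rh R) z)}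
  have hlang : ∀ i w, w ∈ lang i ↔ Al k w ∧ FF F i (w.foldl (rh R) z) := fun i w => Iff.rfl
  have hFF : ∀ i, F.length ≤ i → ∀ p, ¬ FF F i p := by
    intro i hi p hp
    unfold FF at hp
    rw [List.getD_eq_default _ _ hi] at hp
    simp at hp
  have hempty : ∀ i, F.length ≤ i → ∀ w, w ∉ lang i := fun i hi w hw => hFF i hi _ hw.2
  refine ⟨Set.range lang, ?_, ?_, ?_⟩
  · refine ((Set.finite_Iic F.length).image lang).subset ?_
    rintro _ ⟨i, rfl⟩
    by_cases hi : i ≤ F.length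
    · exact ⟨i, hi, rfl⟩
    · refine ⟨F.length, Set.mem_Iic.2 (le_refl _), ?_⟩
      ext w
      constructor
      · intro hw; exact absurd hw (hempty _ le_rfl w)
      · intro hw; exact absurd hw (hempty _ (by omega) w)
  · refine ⟨0, ?_⟩
    ext w
    rw [hlang]
    have key : ∀ w : List ℕ, Al k w → (w.foldl (rh R) z,
        w.foldl (fun q a => tbl.getD (q * k + a) 0) 0) ∈ B := by
      intro w
      induction w using List.reverseRecOn with
      | nil => intro _; exact hB0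
      | append_singleton w b ih =>
        intro hw
        have h1 := ih (fun a ha => hw a (by simp [ha]))
        have h2 := hB1 _ h1 b (hw b (by simp))
        rw [List.foldl_append, List.foldl_append]
        exact h2
    constructor
    · rintro ⟨h1, h2⟩
      exact ⟨h1, (hB2 _ (key w h1)).1 h2⟩
    · rintro ⟨h1, h2⟩
      exact ⟨h1, (hB2 _ (key w h1)).2 h2⟩
  · rintro _ ⟨i, rfl⟩
    by_cases hi : i < F.length
    · constructor
      · refine ⟨(fun t : ℕ × ℕ => (lang t.1, lang t.2)) '' {t | t ∈ TT T i},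
          (List.finite_toSet _).image _, ?_, ?_⟩
        · rintro _ ⟨t, _, rfl⟩
          exact ⟨⟨_, rfl⟩, ⟨_, rfl⟩⟩
        · intro u v
          rw [hlang]
          constructor
          · rintro ⟨h1, h2⟩
            have hu : Al k u := fun a ha => h1 a (by simp [ha])
            have hv : Al k v := fun a ha => h1 a (by simp [ha])
            obtain ⟨t, ht, h3, h4⟩ := (tau_ok G hi v u hv hu).2 h2
            exact ⟨_, ⟨t, ht, rfl⟩, ⟨hu, h3⟩, ⟨hv, h4⟩⟩
          · rintro ⟨_, ⟨t, ht, rfl⟩, ⟨hu, h3⟩, ⟨hv, h4⟩⟩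
            exact ⟨hu.app hv, (tau_ok G hi v u hv hu).1 ⟨t, ht, h3, h4⟩⟩
      · refine ⟨(fun t : ℕ × ℕ => (lang t.1, lang t.2)) '' {t | t ∈ TT P i},
          (List.finite_toSet _).image _, ?_, ?_⟩
        · rintro _ ⟨t, _, rfl⟩
          exact ⟨⟨_, rfl⟩, ⟨_, rfl⟩⟩
        · intro u v
          constructor
          · rintro ⟨w, hw, hs⟩
            rw [hlang] at hw
            have hu : Al k u := fun a ha => hw.1 a ((hs.mem a).2 (Or.inl ha))
            have hv : Al k v := fun a ha => hw.1 a ((hs.mem a).2 (Or.inr ha))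
            have h1 := (sig_ok G hi u v z G.hz hu hv).1 ⟨w, hs, hw.2⟩
            rw [G.e4 i hi _ (run_lt G G.hz hu) _ (run_lt G G.hz hv)] at h1
            obtain ⟨t, ht, h3, h4⟩ := h1
            exact ⟨_, ⟨t, ht, rfl⟩, ⟨hu, h3⟩, ⟨hv, h4⟩⟩
          · rintro ⟨_, ⟨t, ht, rfl⟩, ⟨hu, h3⟩, ⟨hv, h4⟩⟩
            have h1 := (G.e4 i hi _ (run_lt G G.hz hu) _ (run_lt G G.hz hv)).2 ⟨t, ht, h3, h4⟩
            obtain ⟨w, hs, hw⟩ := (sig_ok G hi u v z G.hz hu hv).2 h1
            refine ⟨w, ⟨?_, hw⟩, hs⟩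
            intro a ha
            rcases (hs.mem a).1 ha with h | h
            · exact hu a h
            · exact hv a h
    · have hi' : F.length ≤ i := by omega
      constructor
      · refine ⟨∅, Set.finite_empty, by simp, ?_⟩
        intro u v
        constructor
        · intro h; exact absurd h (hempty i hi' _)
        · rintro ⟨p, hp, _⟩; cases hp
      · refine ⟨∅, Set.finite_empty, by simp, ?_⟩
        intro u v
        constructor
        · rintro ⟨w, hw, _⟩; exact absurd hw (hempty i hi' _)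
        · rintro ⟨p, hp, _⟩; cases hp

theorem getD_map_range {β : Type*} (f : ℕ → β) (n q : ℕ) (d : β) :
    ((List.range n).map f).getD q d = if q < n then f q else d := by
  by_cases h : q < n
  · rw [if_pos h, List.getD_eq_getElem _ _ (by simpa using h)]
    simp
  · rw [if_neg h, List.getD_eq_default _ _ (by simpa using h)]

theorem chk_of_dec (c : ℕ × List ℕ × List ℕ) (h : IsDec c) : ∃ d, Chk c d := by
  classical
  obtain ⟨S, hfin, hK0, hS⟩ := h
  obtain ⟨k, tbl, acc⟩ := c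
  let SL : List (Language ℕ) := K0 (k, tbl, acc) :: hfin.toFinset.toList
  let m := SL.length
  have hm0 : 0 < m := by simp [m, SL]
  let Lg : ℕ → Language ℕ := fun i => SL.getD i 0
  have hSL : ∀ K ∈ SL, K ∈ S := by
    intro K hK
    rcases List.mem_cons.1 hK with rfl | h
    · exact hK0
    · rw [Finset.mem_toList, Set.Finite.mem_toFinset] at h; exact h
  have hmem : ∀ i < m, Lg i ∈ S := by
    intro i hi
    apply hSL
    simp only [Lg]
    rw [List.getD_eq_getElem _ _ hi]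
    exact List.getElem_mem _
  have hsurj : ∀ K ∈ S, ∃ i < m, Lg i = K := by
    intro K hK
    have h1 : K ∈ SL := List.mem_cons_of_mem _ (by
      rw [Finset.mem_toList, Set.Finite.mem_toFinset]; exact hK)
    obtain ⟨i, hi, h2⟩ := List.getElem_of_mem h1
    refine ⟨i, hi, ?_⟩
    simp only [Lg]
    rw [List.getD_eq_getElem _ _ hi, h2]
  have hS' : ∀ i, ∃ P Q : Set (Language ℕ × Language ℕ), i < m →
      ((∀ p ∈ P, p.1 ∈ S ∧ p.2 ∈ S) ∧
          ∀ u v : List ℕ, u ++ v ∈ Lg i ↔ ∃ p ∈ P, u ∈ p.1 ∧ v ∈ p.2) ∧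
      ((∀ p ∈ Q, p.1 ∈ S ∧ p.2 ∈ S) ∧
          ∀ u v : List ℕ, (∃ w ∈ Lg i, Sh w u v) ↔ ∃ p ∈ Q, u ∈ p.1 ∧ v ∈ p.2) := by
    intro i
    by_cases hi : i < m
    · obtain ⟨⟨P, _, h1, h2⟩, ⟨Q, _, h3, h4⟩⟩ := hS _ (hmem i hi)
      exact ⟨P, Q, fun _ => ⟨⟨h1, h2⟩, ⟨h3, h4⟩⟩⟩
    · exact ⟨∅, ∅, fun h => absurd h hi⟩
  choose PS QS hPQ using hS'
  let Pt : ℕ → Set (ℕ × ℕ) := fun i => {p | p.1 < m ∧ p.2 < m ∧ (Lg p.1, Lg p.2) ∈ PS i}
  let Ps : ℕ → Set (ℕ × ℕ) := fun i => {p | p.1 < m ∧ p.2 < m ∧ (Lg p.1, Lg p.2) ∈ QS i}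
  have hPtf : ∀ i, (Pt i).Finite := fun i =>
    ((Set.finite_Iio m).prod (Set.finite_Iio m)).subset (fun p hp => ⟨hp.1, hp.2.1⟩)
  have hPsf : ∀ i, (Ps i).Finite := fun i =>
    ((Set.finite_Iio m).prod (Set.finite_Iio m)).subset (fun p hp => ⟨hp.1, hp.2.1⟩)
  let T : LP := (List.range m).map fun i => (hPtf i).toFinset.toList
  let P : LP := (List.range m).map fun i => (hPsf i).toFinset.toList
  have hT : ∀ i < m, ∀ p, p ∈ TT T i ↔ p ∈ Pt i := by
    intro i hi p
    simp only [TT, T]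
    rw [getD_map_range, if_pos hi, Finset.mem_toList, Set.Finite.mem_toFinset]
  have hP : ∀ i < m, ∀ p, p ∈ TT P i ↔ p ∈ Ps i := by
    intro i hi p
    simp only [TT, P]
    rw [getD_map_range, if_pos hi, Finset.mem_toList, Set.Finite.mem_toFinset]
  obtain ⟨n, num, ρ, lam, F, E, num_lt, hρ, hF, hFb, hEb, hout, G⟩ :=
    exists_good k m (fun i => {w | w ∈ Lg i}) Pt Ps
      (fun i _ p hp => ⟨hp.1, hp.2.1⟩) (fun i _ p hp => ⟨hp.1, hp.2.1⟩)
      (by
        intro i hi u v _ _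
        have h1 := (hPQ i hi).1
        constructor
        · intro h
          obtain ⟨p, hp, a, b⟩ := (h1.2 u v).1 h
          obtain ⟨j, hj, e1⟩ := hsurj _ (h1.1 p hp).1
          obtain ⟨l, hl, e2⟩ := hsurj _ (h1.1 p hp).2
          refine ⟨(j, l), ⟨hj, hl, ?_⟩, ?_, ?_⟩
          · show (Lg j, Lg l) ∈ PS i
            rw [e1, e2]; exact hp
          · show u ∈ Lg j
            rw [e1]; exact a
          · show v ∈ Lg l
            rw [e2]; exact b
        · rintro ⟨p, ⟨_, _, hp⟩, a, b⟩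
          exact (h1.2 u v).2 ⟨_, hp, a, b⟩)
      (by
        intro i hi u v _ _
        have h1 := (hPQ i hi).2
        constructor
        · rintro ⟨w, hw, h⟩
          obtain ⟨p, hp, a, b⟩ := (h1.2 u v).1 ⟨w, h, hw⟩
          obtain ⟨j, hj, e1⟩ := hsurj _ (h1.1 p hp).1
          obtain ⟨l, hl, e2⟩ := hsurj _ (h1.1 p hp).2
          refine ⟨(j, l), ⟨hj, hl, ?_⟩, ?_, ?_⟩
          · show (Lg j, Lg l) ∈ QS i
            rw [e1, e2]; exact hp
          · show u ∈ Lg j
            rw [e1]; exact a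
          · show v ∈ Lg l
            rw [e2]; exact b
        · rintro ⟨p, ⟨_, _, hp⟩, a, b⟩
          obtain ⟨w, hw, h⟩ := (h1.2 u v).2 ⟨_, hp, a, b⟩
          exact ⟨w, h, hw⟩)
      (TT T) (TT P) hT hP
  let R : LL := (List.range n).map fun q => (List.range k).map fun a => ρ q a
  let Λ : LL := (List.range n).map fun q => (List.range k).map fun a => lam q a
  have hR : rh R = ρ := by
    funext q a
    simp only [rh, R]
    rw [getD_map_range]
    by_cases hq : q < n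
    · rw [if_pos hq, getD_map_range]
      by_cases ha : a < k
      · rw [if_pos ha]
      · rw [if_neg ha, (hout q a (fun h => ha h.2)).1]
    · rw [if_neg hq, (hout q a (fun h => hq h.1)).1]
      simp
  have hΛ : rh Λ = lam := by
    funext q a
    simp only [rh, Λ]
    rw [getD_map_range]
    by_cases hq : q < n
    · rw [if_pos hq, getD_map_range]
      by_cases ha : a < k
      · rw [if_pos ha]
      · rw [if_neg ha, (hout q a (fun h => ha h.2)).2]
    · rw [if_neg hq, (hout q a (fun h => hq h.1)).2]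
      simp
  let Fl : LL := (List.range m).map fun i => (List.range n).filter (fun p => F i p)
  have hFl : FF Fl = F := by
    funext i p
    apply propext
    simp only [FF, Fl]
    rw [getD_map_range]
    by_cases hi : i < m
    · rw [if_pos hi]
      simp only [List.mem_filter, List.mem_range, decide_eq_true_eq]
      exact ⟨fun h => h.2, fun h => ⟨(hFb i p h).1, h⟩⟩
    · rw [if_neg hi]
      simp only [List.not_mem_nil, false_iff]
      exact fun h => hi (hFb i p h).2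
  have hEf : ∀ i, {t : ℕ × ℕ × ℕ | E i t.1 t.2.1 t.2.2}.Finite := fun i =>
    ((Set.finite_Iio n).prod ((Set.finite_Iio n).prod (Set.finite_Iio n))).subset
      (fun t ht => ⟨(hEb _ _ _ _ ht).2.1, (hEb _ _ _ _ ht).2.2.1, (hEb _ _ _ _ ht).2.2.2⟩)
  let El : LT := (List.range m).map fun i => (hEf i).toFinset.toList
  have hEl : EE El = E := by
    funext i p x y
    apply propext
    simp only [EE, El]
    rw [getD_map_range]
    by_cases hi : i < m
    · rw [if_pos hi, Finset.mem_toList, Set.Finite.mem_toFinset]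
      rfl
    · rw [if_neg hi]
      simp only [List.not_mem_nil, false_iff]
      exact fun h => hi (hEb _ _ _ _ h).1
  have hstate : ∀ w : List ℕ, w.foldl (fun q a => tbl.getD (q * k + a) 0) 0 ∈
      (insert 0 {x | x ∈ tbl} : Set ℕ) := by
    intro w
    induction w using List.reverseRecOn with
    | nil => simp
    | append_singleton w b _ =>
      rw [List.foldl_append]
      simp only [List.foldl_cons, List.foldl_nil]
      generalize w.foldl (fun q a => tbl.getD (q * k + a) 0) 0 * k + b = j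
      by_cases hj : j < tbl.length
      · rw [List.getD_eq_getElem _ _ hj]
        exact Or.inr (List.getElem_mem _)
      · rw [List.getD_eq_default _ _ (by omega)]
        exact Or.inl rfl
  have hBf : {t : ℕ × ℕ | ∃ w, Al k w ∧ num w = t.1 ∧
      w.foldl (fun q a => tbl.getD (q * k + a) 0) 0 = t.2}.Finite := by
    refine ((Set.finite_Iio n).prod ((List.finite_toSet tbl).insert 0)).subset ?_
    rintro ⟨x, y⟩ ⟨w, hw, rfl, rfl⟩
    exact ⟨num_lt w hw, hstate w⟩
  have hBm : ∀ t : ℕ × ℕ, t ∈ hBf.toFinset.toList ↔ ∃ w, Al k w ∧ num w = t.1 ∧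
      w.foldl (fun q a => tbl.getD (q * k + a) 0) 0 = t.2 := by
    intro t
    rw [Finset.mem_toList, Set.Finite.mem_toFinset]
    rfl
  have hlen : Fl.length = m := by simp [Fl]
  refine ⟨((n, num []), (R, Λ), Fl, (T, P), El, hBf.toFinset.toList), ?_, ?_, ?_, ?_, ?_⟩
  · dsimp only
    rw [hR, hΛ, hFl, hEl, hlen]
    exact G
  · dsimp only
    rw [hlen]; exact hm0
  · dsimp only
    rw [hBm]
    exact ⟨[], al_nil, rfl, rfl⟩
  · dsimp only
    intro t ht a ha
    rw [hBm] at ht ⊢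
    obtain ⟨w, hw, e1, e2⟩ := ht
    refine ⟨w ++ [a], hw.app (al_single ha), ?_, ?_⟩
    · dsimp only
      rw [hR, ← e1, hρ w a hw ha]
    · dsimp only
      rw [List.foldl_append, e2]
      rfl
  · dsimp only
    intro t ht
    rw [hBm] at ht
    obtain ⟨w, hw, e1, e2⟩ := ht
    have h1 : t.1 ∈ Fl.getD 0 [] ↔ F 0 t.1 := by
      rw [← hFl]; rfl
    rw [h1, ← e1, hF 0 w hw hm0, ← e2]
    show w ∈ Lg 0 ↔ _
    have : Lg 0 = K0 (k, tbl, acc) := rfl
    rw [this]
    exact ⟨fun h => h.2, fun h => ⟨hw, h⟩⟩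

theorem rePred_of_S1 {α : Type} [Primcodable α] {p : α → Prop} (h : S1 p) : REPred p := by
  classical
  obtain ⟨V, hV, h1⟩ := h
  have h2 : Computable₂ fun (a : α) (n : ℕ) => decide (V a n) := (PrimrecPred.decide hV).to_comp
  have h3 : Partrec fun a => Nat.rfind fun n => Part.some (decide (V a n)) :=
    Partrec.rfind h2.partrec₂
  refine (Partrec.dom_re h3).of_eq ?_
  intro a
  rw [h1]
  refine Iff.trans Nat.rfind_dom ?_
  simp

theorem re_dec : REPred IsDec := by
  apply rePred_of_S1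
  have h : S1 fun c => ∃ d : Cert, Chk c d :=
    S1.exists (q := fun c d => Chk c d) (S1.of_prim prim_chk)
  exact h.of_eq (fun c => ⟨fun ⟨d, hd⟩ => dec_of_chk c d hd, chk_of_dec c⟩)

end Pool.Agent.Helper230.Dec
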