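import Mathlib

/-! Semi-decidable predicates in the form `∃ n, V a n` with `V` primitive recursive,
with closure properties. -/

namespace Pool.Agent.Helper230

/-- `p` is the projection of a primitive recursive relation. -/
def S1 {α : Type} [Primcodable α] (p : α → Prop) : Prop :=
  ∃ V : α → ℕ → Prop, PrimrecRel V ∧ ∀ a, p a ↔ ∃ n, V a n

section
variable {α β γ δ : Type} [Primcodable α] [Primcodable β] [Primcodable γ] [Primcodable δ]

theorem S1.of_eq {p q : α → Prop} (hp : S1 p) (h : ∀ a, p a ↔ q a) : S1 q := by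
  obtain ⟨V, hV, h1⟩ := hp
  exact ⟨V, hV, fun a => (h a).symm.trans (h1 a)⟩

theorem S1.of_prim {p : α → Prop} (hp : PrimrecPred p) : S1 p := by
  refine ⟨fun a _ => p a, ?_, fun a => ⟨fun h => ⟨0, h⟩, fun ⟨_, h⟩ => h⟩⟩
  exact hp.comp Primrec.fst

theorem S1.comp {p : β → Prop} {f : α → β} (hp : S1 p) (hf : Primrec f) : S1 fun a => p (f a) := by
  obtain ⟨V, hV, h1⟩ := hp
  refine ⟨fun a n => V (f a) n, ?_, fun a => h1 (f a)⟩
  exact hV.comp (hf.comp Primrec.fst) Primrec.snd

theorem S1.and {p q : α → Prop} (hp : S1 p) (hq : S1 q) : S1 fun a => p a ∧ q a := by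
  obtain ⟨V, hV, h1⟩ := hp
  obtain ⟨W, hW, h2⟩ := hq
  refine ⟨fun a n => V a n.unpair.1 ∧ W a n.unpair.2, ?_, fun a => ?_⟩
  · exact PrimrecPred.and
      (hV.comp Primrec.fst (Primrec.fst.comp (Primrec.unpair.comp Primrec.snd)))
      (hW.comp Primrec.fst (Primrec.snd.comp (Primrec.unpair.comp Primrec.snd)))
  · dsimp only
    rw [h1, h2]
    constructor
    · rintro ⟨⟨n, hn⟩, ⟨m, hm⟩⟩
      exact ⟨Nat.pair n m, by simpa using ⟨hn, hm⟩⟩
    · rintro ⟨n, hn, hm⟩
      exact ⟨⟨_, hn⟩, ⟨_, hm⟩⟩

theorem S1.or {p q : α → Prop} (hp : S1 p) (hq : S1 q) : S1 fun a => p a ∨ q a := by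
  obtain ⟨V, hV, h1⟩ := hp
  obtain ⟨W, hW, h2⟩ := hq
  refine ⟨fun a n => V a n ∨ W a n, PrimrecPred.or hV hW, fun a => ?_⟩
  dsimp only
  rw [h1, h2]
  constructor
  · rintro (⟨n, hn⟩ | ⟨n, hn⟩)
    · exact ⟨n, Or.inl hn⟩
    · exact ⟨n, Or.inr hn⟩
  · rintro ⟨n, hn | hn⟩
    · exact Or.inl ⟨n, hn⟩
    · exact Or.inr ⟨n, hn⟩

theorem primrecPred_decode {q : α → β → Prop} (hq : PrimrecRel q) :
    PrimrecRel fun (a : α) (n : ℕ) => ∃ b, Encodable.decode (α := β) n = some b ∧ q a b := by
  classical
  have h1 : Primrec fun x : α × ℕ =>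
      (Option.casesOn (motive := fun _ => Bool) (Encodable.decode (α := β) x.2) false
        (fun b => decide (q x.1 b)) : Bool) := by
    refine Primrec.option_casesOn (Primrec.decode.comp Primrec.snd) (Primrec.const false) ?_
    exact (hq.comp (Primrec.fst.comp Primrec.fst) Primrec.snd).decide
  refine ⟨fun _ => Classical.dec _, h1.of_eq ?_⟩
  rintro ⟨a, n⟩
  have h2 : ∀ o : Option β, (Option.casesOn (motive := fun _ => Bool) o false
        (fun b => decide (q a b)) : Bool) = decide (∃ b, o = some b ∧ q a b) := by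
    intro o
    cases o with
    | none => simp
    | some b => simp
  exact (h2 _).trans (by congr)

theorem S1.exists {q : α → β → Prop} (hq : S1 fun x : α × β => q x.1 x.2) :
    S1 fun a => ∃ b, q a b := by
  obtain ⟨V, hV, h1⟩ := hq
  refine ⟨fun a n => ∃ b, Encodable.decode (α := β) n.unpair.1 = some b ∧
      V (a, b) n.unpair.2, ?_, fun a => ?_⟩
  · have hq : PrimrecRel fun (x : α × ℕ) (b : β) => V (x.1, b) x.2 :=
      hV.comp (Primrec.pair (Primrec.fst.comp Primrec.fst) Primrec.snd)
        (Primrec.snd.comp Primrec.fst)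
    have h2 := primrecPred_decode hq
    have h3 : PrimrecRel fun (a : α) (n : ℕ) =>
        ∃ b, Encodable.decode (α := β) n.unpair.1 = some b ∧ V (a, b) n.unpair.2 :=
      h2.comp (f := fun x : α × ℕ => (x.1, x.2.unpair.2)) (g := fun x : α × ℕ => x.2.unpair.1)
        (Primrec.pair Primrec.fst (Primrec.snd.comp (Primrec.unpair.comp Primrec.snd)))
        (Primrec.fst.comp (Primrec.unpair.comp Primrec.snd))
    exact h3
  · constructor
    · rintro ⟨b, hb⟩
      obtain ⟨n, hn⟩ := (h1 (a, b)).1 hb
      exact ⟨Nat.pair (Encodable.encode b) n, b, by simp, by simpa using hn⟩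
    · rintro ⟨n, b, -, hn⟩
      exact ⟨b, (h1 (a, b)).2 ⟨_, hn⟩⟩

theorem S1.forall_mem {q : α → β → Prop} (hq : S1 fun x : α × β => q x.1 x.2) :
    S1 fun x : α × List β => ∀ b ∈ x.2, q x.1 b := by
  obtain ⟨V, hV, h1⟩ := hq
  refine ⟨fun x n => ∀ b ∈ x.2, ∃ m < n, V (x.1, b) m, ?_, ?_⟩
  · -- inner relation: R m (a,b) := V (a,b) m
    have hR : PrimrecRel fun (m : ℕ) (x : α × β) => V x m := hV.swap
    have hR2 : PrimrecRel fun (n : ℕ) (x : α × β) => ∃ m < n, V x m := by
      have h5 : PrimrecRel fun (l : List ℕ) (x : α × β) => ∃ m ∈ l, V x m := hR.exists_mem_list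
      have h6 : PrimrecRel fun (n : ℕ) (x : α × β) => ∃ m ∈ List.range n, V x m :=
        h5.comp (Primrec.list_range.comp Primrec.fst) Primrec.snd
      exact h6.of_eq (fun n x => by simp)
    have hR3 : PrimrecRel fun (b : β) (y : α × ℕ) => ∃ m < y.2, V (y.1, b) m :=
      hR2.comp (Primrec.snd.comp Primrec.snd)
        (Primrec.pair (Primrec.fst.comp Primrec.snd) Primrec.fst)
    have hR4 : PrimrecRel fun (l : List β) (y : α × ℕ) => ∀ b ∈ l, ∃ m < y.2, V (y.1, b) m :=
      hR3.forall_mem_list
    exact hR4.comp (f := fun x : (α × List β) × ℕ => x.1.2)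
      (g := fun x : (α × List β) × ℕ => (x.1.1, x.2))
      (Primrec.snd.comp Primrec.fst)
      (Primrec.pair (Primrec.fst.comp Primrec.fst) Primrec.snd)
  · rintro ⟨a, l⟩
    dsimp only
    constructor
    · intro h
      induction l with
      | nil => exact ⟨0, by simp⟩
      | cons b l ih =>
        obtain ⟨n, hn⟩ := ih (fun b hb => h b (List.mem_cons_of_mem _ hb))
        obtain ⟨m, hm⟩ := (h1 (a, b)).1 (h b List.mem_cons_self)
        refine ⟨max n (m + 1), ?_⟩
        intro b' hb'
        rcases List.mem_cons.1 hb' with rfl | hb'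
        · exact ⟨m, by omega, hm⟩
        · obtain ⟨k, hk, hk'⟩ := hn b' hb'
          exact ⟨k, by omega, hk'⟩
    · rintro ⟨n, hn⟩ b hb
      obtain ⟨m, -, hm⟩ := hn b hb
      exact (h1 (a, b)).2 ⟨m, hm⟩

theorem S1.forall_mem' {q : α → β → Prop} {f : α → List β} (hf : Primrec f)
    (hq : S1 fun x : α × β => q x.1 x.2) :
    S1 fun a => ∀ b ∈ f a, q a b :=
  (S1.forall_mem hq).comp (f := fun a => (a, f a)) (Primrec.pair Primrec.id hf)

theorem S1.exists_mem' {q : α → β → Prop} {f : α → List β} (hf : Primrec f)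
    (hq : S1 fun x : α × β => q x.1 x.2) :
    S1 fun a => ∃ b ∈ f a, q a b := by
  classical
  refine S1.exists (q := fun a b => b ∈ f a ∧ q a b) (S1.and (S1.of_prim ?_) hq)
  have h : PrimrecRel fun (l : List β) (b : β) => ∃ c ∈ l, c = b :=
    (Primrec.eq (α := β)).exists_mem_list
  refine (h.comp (hf.comp Primrec.fst) Primrec.snd).of_eq ?_
  intro x
  simp

/-- transitive closure -/
theorem S1.reflTransGen {R : α → β → β → Prop}
    (hR : S1 fun x : α × β × β => R x.1 x.2.1 x.2.2) :
    S1 fun x : α × β × β => Relation.ReflTransGen (R x.1) x.2.1 x.2.2 := by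
  classical
  -- link check
  let chk : Option β → β × β → Option β := fun o e => if o = some e.1 then some e.2 else none
  have hchk : Primrec₂ chk := by
    refine Primrec.ite (PrimrecRel.comp Primrec.eq Primrec.fst
      (Primrec.option_some.comp (Primrec.fst.comp Primrec.snd))) ?_ (Primrec.const none)
    exact Primrec.option_some.comp (Primrec.snd.comp Primrec.snd)
  have key : ∀ (a : α) (u v : β), Relation.ReflTransGen (R a) u v ↔
      ∃ l : List (β × β), l.foldl chk (some u) = some v ∧ ∀ e ∈ l, R a e.1 e.2 := by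
    intro a u v
    constructor
    · intro h
      induction h with
      | refl => exact ⟨[], rfl, by simp⟩
      | @tail b c _ hbc ih =>
        obtain ⟨l, hl, hl2⟩ := ih
        refine ⟨l ++ [(b, c)], ?_, ?_⟩
        · rw [List.foldl_append, hl]; simp [chk]
        · intro e he
          rcases List.mem_append.1 he with he | he
          · exact hl2 e he
          · rw [List.mem_singleton] at he; subst he; exact hbc
    · rintro ⟨l, hl, hl2⟩
      induction l using List.reverseRecOn generalizing v with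
      | nil => simp at hl; subst hl; exact Relation.ReflTransGen.refl
      | append_singleton l e ih =>
        rw [List.foldl_append] at hl
        simp only [List.foldl_cons, List.foldl_nil, chk] at hl
        split_ifs at hl with hc
        have hv : e.2 = v := by simpa using hl
        subst hv
        refine Relation.ReflTransGen.tail (b := e.1) (ih e.1 hc ?_) ?_
        · intro e' he'; exact hl2 e' (List.mem_append_left _ he')
        · exact hl2 e (by simp)
  refine S1.of_eq (p := fun x : α × β × β =>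
    ∃ l : List (β × β), l.foldl chk (some x.2.1) = some x.2.2 ∧ ∀ e ∈ l, R x.1 e.1 e.2) ?_
    (fun x => (key _ _ _).symm)
  refine S1.exists (S1.and (S1.of_prim ?_) ?_)
  · refine PrimrecRel.comp Primrec.eq ?_ ?_
    · exact Primrec.list_foldl (α := (α × β × β) × List (β × β)) (h := fun _ y => chk y.1 y.2)
        Primrec.snd
        (Primrec.option_some.comp (Primrec.fst.comp (Primrec.snd.comp Primrec.fst)))
        (hchk.comp (Primrec.fst.comp Primrec.snd) (Primrec.snd.comp Primrec.snd))
    · exact Primrec.option_some.comp (Primrec.snd.comp (Primrec.snd.comp Primrec.fst))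
  · refine S1.forall_mem' (q := fun (x : (α × β × β) × List (β × β)) (e : β × β) =>
      R x.1.1 e.1 e.2) Primrec.snd ?_
    exact hR.comp (f := fun y : ((α × β × β) × List (β × β)) × (β × β) =>
      (y.1.1.1, y.2.1, y.2.2))
      (Primrec.pair (Primrec.fst.comp (Primrec.fst.comp Primrec.fst))
        (Primrec.pair (Primrec.fst.comp Primrec.snd) (Primrec.snd.comp Primrec.snd)))

theorem computablePred_of_S1 {p : α → Prop} (h1 : S1 p) (h2 : S1 fun a => ¬ p a) :
    ComputablePred p := by
  classical
  obtain ⟨V, hV, hV'⟩ := h1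
  obtain ⟨W, hW, hW'⟩ := h2
  have hex : ∀ a, ∃ n, V a n ∨ W a n := by
    intro a
    by_cases h : p a
    · obtain ⟨n, hn⟩ := (hV' a).1 h; exact ⟨n, Or.inl hn⟩
    · obtain ⟨n, hn⟩ := (hW' a).1 h; exact ⟨n, Or.inr hn⟩
  have hfind : Computable fun a => Nat.find (hex a) := by
    refine Computable.find (P := fun a n => V a n ∨ W a n) ?_ hex
    exact (PrimrecPred.or hV hW).computablePred
  have hVc : ComputablePred fun x : α × ℕ => V x.1 x.2 :=
    PrimrecPred.computablePred hV
  refine ComputablePred.computable_iff.2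
    ⟨fun a => decide (V a (Nat.find (hex a))), ?_, ?_⟩
  · exact hVc.decide.comp (Computable.pair Computable.id hfind)
  · funext a
    apply propext
    simp only [decide_eq_true_eq]
    constructor
    · intro h
      rcases Nat.find_spec (hex a) with h3 | h3
      · exact h3
      · exact absurd h ((hW' a).2 ⟨_, h3⟩)
    · intro h
      exact (hV' a).2 ⟨_, h⟩

/-- from a total semi-decidable relation, a computable choice function. -/
theorem computable_choice_of_S1 {q : α → β → Prop} (hq : S1 fun x : α × β => q x.1 x.2)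
    (hex : ∀ a, ∃ b, q a b) : ∃ F : α → β, Computable F ∧ ∀ a, q a (F a) := by
  classical
  obtain ⟨V, hV, hV'⟩ := hq
  by_cases hne : Nonempty β
  swap
  · by_cases hα : Nonempty α
    · obtain ⟨a⟩ := hα
      obtain ⟨b, _⟩ := hex a
      exact absurd ⟨b⟩ hne
    · have hE : IsEmpty α := not_nonempty_iff.1 hα
      refine ⟨fun a => isEmptyElim a, Primrec.to_comp ?_, fun a => isEmptyElim a⟩
      refine Primrec.option_some_iff.1 ((Primrec.const none).of_eq (fun a => isEmptyElim a))
  obtain ⟨b0⟩ := hne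
  let P : α → ℕ → Prop := fun a n => ∃ b, Encodable.decode (α := β) n.unpair.1 = some b ∧
      V (a, b) n.unpair.2
  have hP : PrimrecRel P := by
    have hq : PrimrecRel fun (x : α × ℕ) (b : β) => V (x.1, b) x.2 :=
      hV.comp (Primrec.pair (Primrec.fst.comp Primrec.fst) Primrec.snd)
        (Primrec.snd.comp Primrec.fst)
    have h2 := primrecPred_decode hq
    have h3 : PrimrecRel fun (a : α) (n : ℕ) =>
        ∃ b, Encodable.decode (α := β) n.unpair.1 = some b ∧ V (a, b) n.unpair.2 :=
      h2.comp (f := fun x : α × ℕ => (x.1, x.2.unpair.2)) (g := fun x : α × ℕ => x.2.unpair.1)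
        (Primrec.pair Primrec.fst (Primrec.snd.comp (Primrec.unpair.comp Primrec.snd)))
        (Primrec.fst.comp (Primrec.unpair.comp Primrec.snd))
    exact h3
  have hPex : ∀ a, ∃ n, P a n := by
    intro a
    obtain ⟨b, hb⟩ := hex a
    obtain ⟨n, hn⟩ := (hV' (a, b)).1 hb
    exact ⟨Nat.pair (Encodable.encode b) n, b, by simp, by simpa using hn⟩
  have hfind : Computable fun a => Nat.find (hPex a) :=
    Computable.find (P := P) (PrimrecPred.computablePred hP) hPex
  let F : α → β := fun a => (Encodable.decode (α := β) (Nat.find (hPex a)).unpair.1).getD b0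
  refine ⟨F, ?_, ?_⟩
  · have h1 : Primrec fun n : ℕ => (Encodable.decode (α := β) n.unpair.1).getD b0 :=
      Primrec.option_getD.comp (Primrec.decode.comp (Primrec.fst.comp Primrec.unpair))
        (Primrec.const b0)
    exact h1.to_comp.comp hfind
  · intro a
    obtain ⟨b, hb, hb2⟩ := Nat.find_spec (hPex a)
    have : F a = b := by simp only [F, hb, Option.getD_some]
    rw [this]
    exact (hV' (a, b)).2 ⟨_, hb2⟩

end

end Pool.Agent.Helper230
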