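import Pool.Agent.Helper230.DecC
import Pool.Agent.Helper230.S1

namespace Pool.Agent.Helper230.Dec

abbrev LL := List (List ℕ)
abbrev LP := List (List (ℕ × ℕ))
abbrev LT := List (List (ℕ × ℕ × ℕ))

def rh (R : LL) (q a : ℕ) : ℕ := (R.getD q []).getD a 0
def FF (F : LL) (i p : ℕ) : Prop := p ∈ F.getD i []
def EE (E : LT) (i p x y : ℕ) : Prop := (p, x, y) ∈ E.getD i []
def TT (T : LP) (i : ℕ) : List (ℕ × ℕ) := T.getD i []

section
variable {Γ : Type} [Primcodable Γ]

theorem pAll {f : Γ → ℕ} {p : Γ → ℕ → Prop} (hf : Primrec f)
    (hp : PrimrecPred fun x : Γ × ℕ => p x.1 x.2) : PrimrecPred fun x => ∀ a < f x, p x a := by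
  have hR : PrimrecRel fun (a : ℕ) (x : Γ) => p x a :=
    hp.comp (Primrec.pair Primrec.snd Primrec.fst)
  have h1 := (hR.forall_mem_list).comp (Primrec.list_range.comp hf) (Primrec.id (α := Γ))
  refine h1.of_eq ?_
  intro x
  simp

theorem pIff {p q : Γ → Prop} (hp : PrimrecPred p) (hq : PrimrecPred q) :
    PrimrecPred fun x => (p x ↔ q x) := by
  refine ((hp.and hq).or (hp.not.and hq.not)).of_eq ?_
  intro x
  tauto

theorem pMem {β : Type} [Primcodable β] {f : Γ → β} {g : Γ → List β} (hf : Primrec f)
    (hg : Primrec g) : PrimrecPred fun x => f x ∈ g x := by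
  classical
  have h : PrimrecRel fun (l : List β) (b : β) => ∃ c ∈ l, c = b :=
    (Primrec.eq (α := β)).exists_mem_list
  refine (h.comp hg hf).of_eq ?_
  intro x
  simp

theorem prh {R : Γ → LL} {q a : Γ → ℕ} (hR : Primrec R) (hq : Primrec q) (ha : Primrec a) :
    Primrec fun x => rh (R x) (q x) (a x) :=
  (Primrec.list_getD 0).comp ((Primrec.list_getD []).comp hR hq) ha

theorem pFF {F : Γ → LL} {i p : Γ → ℕ} (hF : Primrec F) (hi : Primrec i) (hp : Primrec p) :
    PrimrecPred fun x => FF (F x) (i x) (p x) :=
  pMem hp ((Primrec.list_getD []).comp hF hi)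

theorem pEE {E : Γ → LT} {i p y z : Γ → ℕ} (hE : Primrec E) (hi : Primrec i) (hp : Primrec p)
    (hy : Primrec y) (hz : Primrec z) :
    PrimrecPred fun x => EE (E x) (i x) (p x) (y x) (z x) :=
  pMem (Primrec.pair hp (Primrec.pair hy hz)) ((Primrec.list_getD []).comp hE hi)

theorem pDD {F : Γ → LL} {T : Γ → LP} {i p q : Γ → ℕ} (hF : Primrec F) (hT : Primrec T)
    (hi : Primrec i) (hp : Primrec p) (hq : Primrec q) :
    PrimrecPred fun x => DD (FF (F x)) (TT (T x)) (i x) (p x) (q x) := by
  have hR : PrimrecRel fun (t : ℕ × ℕ) (x : Γ) => FF (F x) t.1 (p x) ∧ FF (F x) t.2 (q x) := by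
    refine PrimrecPred.and ?_ ?_
    · exact pFF (hF.comp Primrec.snd) (Primrec.fst.comp Primrec.fst) (hp.comp Primrec.snd)
    · exact pFF (hF.comp Primrec.snd) (Primrec.snd.comp Primrec.fst) (hq.comp Primrec.snd)
  have h1 := (hR.exists_mem_list).comp ((Primrec.list_getD []).comp hT hi) (Primrec.id (α := Γ))
  exact h1.of_eq (fun x => Iff.rfl)

theorem pLt {f g : Γ → ℕ} (hf : Primrec f) (hg : Primrec g) : PrimrecPred fun x => f x < g x :=
  Primrec.nat_lt.comp hf hg

theorem pEqN {f g : Γ → ℕ} (hf : Primrec f) (hg : Primrec g) : PrimrecPred fun x => f x = g x :=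
  Primrec.eq.comp hf hg

theorem pid {δ : Type} [Primcodable δ] : Primrec fun a : δ => a := Primrec.id

theorem good_prim {k n z m : Γ → ℕ} {R Λ F : Γ → LL} {T P : Γ → LP} {E : Γ → LT}
    (hk : Primrec k) (hn : Primrec n) (hz : Primrec z) (hm : Primrec m)
    (hR : Primrec R) (hΛ : Primrec Λ) (hF : Primrec F) (hT : Primrec T) (hP : Primrec P)
    (hE : Primrec E) :
    PrimrecPred fun x => Good (k x) (n x) (z x) (m x) (rh (R x)) (rh (Λ x)) (FF (F x))
      (TT (T x)) (TT (P x)) (EE (E x)) := by
  have a1 : PrimrecPred fun x => z x < n x := pLt hz hn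
  have a2 : PrimrecPred fun x => ∀ q < n x, ∀ a < k x, rh (R x) q a < n x ∧ rh (Λ x) q a < n x := by
    with_reducible (repeat' first
      | exact Primrec.fst | exact Primrec.snd | exact pid | exact Primrec.id
      | exact Primrec.const _
      | apply pAll | apply pIff | apply prh | apply pFF | apply pEE | apply pDD
      | apply PrimrecPred.and | apply PrimrecPred.or | apply pLt | apply pEqN
      | apply Primrec.comp hk | apply Primrec.comp hn | apply Primrec.comp hz
      | apply Primrec.comp hR | apply Primrec.comp hΛ | apply Primrec.comp hF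
      | apply Primrec.comp hT | apply Primrec.comp hP | apply Primrec.comp hE
      | apply Primrec.comp hm
      | apply Primrec.comp Primrec.fst | apply Primrec.comp Primrec.snd)
  have a3 : PrimrecPred fun x => ∀ a < k x, rh (Λ x) (z x) a = rh (R x) (z x) a := by
    with_reducible (repeat' first
      | exact Primrec.fst | exact Primrec.snd | exact pid | exact Primrec.id
      | exact Primrec.const _
      | apply pAll | apply pIff | apply prh | apply pFF | apply pEE | apply pDD
      | apply PrimrecPred.and | apply PrimrecPred.or | apply pLt | apply pEqN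
      | apply Primrec.comp hk | apply Primrec.comp hn | apply Primrec.comp hz
      | apply Primrec.comp hR | apply Primrec.comp hΛ | apply Primrec.comp hF
      | apply Primrec.comp hT | apply Primrec.comp hP | apply Primrec.comp hE
      | apply Primrec.comp hm
      | apply Primrec.comp Primrec.fst | apply Primrec.comp Primrec.snd)
  have a4 : PrimrecPred fun x => ∀ q < n x, ∀ a < k x, ∀ b < k x,
      rh (R x) (rh (Λ x) q a) b = rh (Λ x) (rh (R x) q b) a := by
    with_reducible (repeat' first
      | exact Primrec.fst | exact Primrec.snd | exact pid | exact Primrec.id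
      | exact Primrec.const _
      | apply pAll | apply pIff | apply prh | apply pFF | apply pEE | apply pDD
      | apply PrimrecPred.and | apply PrimrecPred.or | apply pLt | apply pEqN
      | apply Primrec.comp hk | apply Primrec.comp hn | apply Primrec.comp hz
      | apply Primrec.comp hR | apply Primrec.comp hΛ | apply Primrec.comp hF
      | apply Primrec.comp hT | apply Primrec.comp hP | apply Primrec.comp hE
      | apply Primrec.comp hm
      | apply Primrec.comp Primrec.fst | apply Primrec.comp Primrec.snd)
  have a5 : PrimrecPred fun x => ∀ i < m x, ∀ p < n x,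
      (DD (FF (F x)) (TT (T x)) i p (z x) ↔ FF (F x) i p) := by
    with_reducible (repeat' first
      | exact Primrec.fst | exact Primrec.snd | exact pid | exact Primrec.id
      | exact Primrec.const _
      | apply pAll | apply pIff | apply prh | apply pFF | apply pEE | apply pDD
      | apply PrimrecPred.and | apply PrimrecPred.or | apply pLt | apply pEqN
      | apply Primrec.comp hk | apply Primrec.comp hn | apply Primrec.comp hz
      | apply Primrec.comp hR | apply Primrec.comp hΛ | apply Primrec.comp hF
      | apply Primrec.comp hT | apply Primrec.comp hP | apply Primrec.comp hE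
      | apply Primrec.comp hm
      | apply Primrec.comp Primrec.fst | apply Primrec.comp Primrec.snd)
  have a6 : PrimrecPred fun x => ∀ i < m x, ∀ p < n x, ∀ q < n x, ∀ a < k x,
      (DD (FF (F x)) (TT (T x)) i (rh (R x) p a) q ↔ DD (FF (F x)) (TT (T x)) i p (rh (Λ x) q a)) := by
    with_reducible (repeat' first
      | exact Primrec.fst | exact Primrec.snd | exact pid | exact Primrec.id
      | exact Primrec.const _
      | apply pAll | apply pIff | apply prh | apply pFF | apply pEE | apply pDD
      | apply PrimrecPred.and | apply PrimrecPred.or | apply pLt | apply pEqN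
      | apply Primrec.comp hk | apply Primrec.comp hn | apply Primrec.comp hz
      | apply Primrec.comp hR | apply Primrec.comp hΛ | apply Primrec.comp hF
      | apply Primrec.comp hT | apply Primrec.comp hP | apply Primrec.comp hE
      | apply Primrec.comp hm
      | apply Primrec.comp Primrec.fst | apply Primrec.comp Primrec.snd)
  have a7 : PrimrecPred fun x => ∀ i < m x, ∀ p < n x,
      (EE (E x) i p (z x) (z x) ↔ FF (F x) i p) := by
    with_reducible (repeat' first
      | exact Primrec.fst | exact Primrec.snd | exact pid | exact Primrec.id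
      | exact Primrec.const _
      | apply pAll | apply pIff | apply prh | apply pFF | apply pEE | apply pDD
      | apply PrimrecPred.and | apply PrimrecPred.or | apply pLt | apply pEqN
      | apply Primrec.comp hk | apply Primrec.comp hn | apply Primrec.comp hz
      | apply Primrec.comp hR | apply Primrec.comp hΛ | apply Primrec.comp hF
      | apply Primrec.comp hT | apply Primrec.comp hP | apply Primrec.comp hE
      | apply Primrec.comp hm
      | apply Primrec.comp Primrec.fst | apply Primrec.comp Primrec.snd)
  have a8 : PrimrecPred fun w => ∀ i < m w, ∀ p < n w, ∀ x < n w, ∀ a < k w,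
      (EE (E w) i p (rh (Λ w) x a) (z w) ↔ EE (E w) i (rh (R w) p a) x (z w)) := by
    with_reducible (repeat' first
      | exact Primrec.fst | exact Primrec.snd | exact pid | exact Primrec.id
      | exact Primrec.const _
      | apply pAll | apply pIff | apply prh | apply pFF | apply pEE | apply pDD
      | apply PrimrecPred.and | apply PrimrecPred.or | apply pLt | apply pEqN
      | apply Primrec.comp hk | apply Primrec.comp hn | apply Primrec.comp hz
      | apply Primrec.comp hR | apply Primrec.comp hΛ | apply Primrec.comp hF
      | apply Primrec.comp hT | apply Primrec.comp hP | apply Primrec.comp hE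
      | apply Primrec.comp hm
      | apply Primrec.comp Primrec.fst | apply Primrec.comp Primrec.snd)
  have a9 : PrimrecPred fun w => ∀ i < m w, ∀ p < n w, ∀ y < n w, ∀ b < k w,
      (EE (E w) i p (z w) (rh (Λ w) y b) ↔ EE (E w) i (rh (R w) p b) (z w) y) := by
    with_reducible (repeat' first
      | exact Primrec.fst | exact Primrec.snd | exact pid | exact Primrec.id
      | exact Primrec.const _
      | apply pAll | apply pIff | apply prh | apply pFF | apply pEE | apply pDD
      | apply PrimrecPred.and | apply PrimrecPred.or | apply pLt | apply pEqN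
      | apply Primrec.comp hk | apply Primrec.comp hn | apply Primrec.comp hz
      | apply Primrec.comp hR | apply Primrec.comp hΛ | apply Primrec.comp hF
      | apply Primrec.comp hT | apply Primrec.comp hP | apply Primrec.comp hE
      | apply Primrec.comp hm
      | apply Primrec.comp Primrec.fst | apply Primrec.comp Primrec.snd)
  have a10 : PrimrecPred fun w => ∀ i < m w, ∀ p < n w, ∀ x < n w, ∀ y < n w, ∀ a < k w, ∀ b < k w,
      (EE (E w) i p (rh (Λ w) x a) (rh (Λ w) y b) ↔
        EE (E w) i (rh (R w) p a) x (rh (Λ w) y b) ∨ EE (E w) i (rh (R w) p b) (rh (Λ w) x a) y) := by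
    with_reducible (repeat' first
      | exact Primrec.fst | exact Primrec.snd | exact pid | exact Primrec.id
      | exact Primrec.const _
      | apply pAll | apply pIff | apply prh | apply pFF | apply pEE | apply pDD
      | apply PrimrecPred.and | apply PrimrecPred.or | apply pLt | apply pEqN
      | apply Primrec.comp hk | apply Primrec.comp hn | apply Primrec.comp hz
      | apply Primrec.comp hR | apply Primrec.comp hΛ | apply Primrec.comp hF
      | apply Primrec.comp hT | apply Primrec.comp hP | apply Primrec.comp hE
      | apply Primrec.comp hm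
      | apply Primrec.comp Primrec.fst | apply Primrec.comp Primrec.snd)
  have a11 : PrimrecPred fun w => ∀ i < m w, ∀ x < n w, ∀ y < n w,
      (EE (E w) i (z w) x y ↔ DD (FF (F w)) (TT (P w)) i x y) := by
    with_reducible (repeat' first
      | exact Primrec.fst | exact Primrec.snd | exact pid | exact Primrec.id
      | exact Primrec.const _
      | apply pAll | apply pIff | apply prh | apply pFF | apply pEE | apply pDD
      | apply PrimrecPred.and | apply PrimrecPred.or | apply pLt | apply pEqN
      | apply Primrec.comp hk | apply Primrec.comp hn | apply Primrec.comp hz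
      | apply Primrec.comp hR | apply Primrec.comp hΛ | apply Primrec.comp hF
      | apply Primrec.comp hT | apply Primrec.comp hP | apply Primrec.comp hE
      | apply Primrec.comp hm
      | apply Primrec.comp Primrec.fst | apply Primrec.comp Primrec.snd)
  refine (a1.and (a2.and (a3.and (a4.and (a5.and (a6.and (a7.and (a8.and (a9.and
    (a10.and a11)))))))))).of_eq ?_
  intro x
  constructor
  · rintro ⟨b1, b2, b3, b4, b5, b6, b7, b8, b9, b10, b11⟩
    exact ⟨b1, b2, b3, b4, b5, b6, b7, b8, b9, b10, b11⟩
  · rintro ⟨b1, b2, b3, b4, b5, b6, b7, b8, b9, b10, b11⟩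
    exact ⟨b1, b2, b3, b4, b5, b6, b7, b8, b9, b10, b11⟩

end

end Pool.Agent.Helper230.Dec
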