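import Mathlib

namespace Pool.Agent.Helper230.Dec

/-- `Sh w u v`: `w` is a shuffle of `u` and `v`. -/
def Sh : List ℕ → List ℕ → List ℕ → Prop
  | [], u, v => u = [] ∧ v = []
  | c :: w, u, v => (∃ u', u = c :: u' ∧ Sh w u' v) ∨ (∃ v', v = c :: v' ∧ Sh w u v')

theorem sh_iff : ∀ (w u v : List ℕ), Sh w u v ↔ ∃ b : List Bool, b.length = w.length ∧
      ((w.zip b).filter (fun x => x.2)).map Prod.fst = u ∧
      ((w.zip b).filter (fun x => !x.2)).map Prod.fst = v := by
  intro w
  induction w with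
  | nil =>
    intro u v
    constructor
    · rintro ⟨rfl, rfl⟩
      exact ⟨[], by simp⟩
    · rintro ⟨b, hb, h1, h2⟩
      simp at h1 h2
      exact ⟨h1, h2⟩
  | cons c w ih =>
    intro u v
    constructor
    · rintro (⟨u', rfl, h⟩ | ⟨v', rfl, h⟩)
      · obtain ⟨b, hb, h1, h2⟩ := (ih _ _).1 h
        exact ⟨true :: b, by simp [hb], by simp [h1], by simp [h2]⟩
      · obtain ⟨b, hb, h1, h2⟩ := (ih _ _).1 h
        exact ⟨false :: b, by simp [hb], by simp [h1], by simp [h2]⟩
    · rintro ⟨b, hb, h1, h2⟩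
      cases b with
      | nil => simp at hb
      | cons x b =>
        have hb' : b.length = w.length := by simpa using hb
        cases x with
        | true =>
          simp at h1 h2
          left
          refine ⟨_, h1.symm, (ih _ _).2 ⟨b, hb', ?_, ?_⟩⟩
          · simp
          · simpa using h2
        | false =>
          simp at h1 h2
          right
          refine ⟨_, h2.symm, (ih _ _).2 ⟨b, hb', ?_, ?_⟩⟩
          · simpa using h1
          · simp

theorem Sh.mem {w u v : List ℕ} (h : Sh w u v) : ∀ a, a ∈ w ↔ a ∈ u ∨ a ∈ v := by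
  induction w generalizing u v with
  | nil => obtain ⟨rfl, rfl⟩ := h; simp
  | cons c w ih =>
    rcases h with ⟨u', rfl, h⟩ | ⟨v', rfl, h⟩
    · intro a
      have := ih h a
      simp only [List.mem_cons, this]
      tauto
    · intro a
      have := ih h a
      simp only [List.mem_cons, this]
      tauto

section
variable (k n z m : ℕ) (ρ lam : ℕ → ℕ → ℕ) (F : ℕ → ℕ → Prop) (T P : ℕ → List (ℕ × ℕ))
  (E : ℕ → ℕ → ℕ → ℕ → Prop)

def DD (T : ℕ → List (ℕ × ℕ)) (i p q : ℕ) : Prop := ∃ t ∈ T i, F t.1 p ∧ F t.2 q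

structure Good : Prop where
  hz : z < n
  hcl : ∀ q < n, ∀ a < k, ρ q a < n ∧ lam q a < n
  h0 : ∀ a < k, lam z a = ρ z a
  hcomm : ∀ q < n, ∀ a < k, ∀ b < k, ρ (lam q a) b = lam (ρ q b) a
  t0 : ∀ i < m, ∀ p < n, (DD F T i p z ↔ F i p)
  t1 : ∀ i < m, ∀ p < n, ∀ q < n, ∀ a < k, (DD F T i (ρ p a) q ↔ DD F T i p (lam q a))
  e0 : ∀ i < m, ∀ p < n, (E i p z z ↔ F i p)
  e1 : ∀ i < m, ∀ p < n, ∀ x < n, ∀ a < k, (E i p (lam x a) z ↔ E i (ρ p a) x z)
  e2 : ∀ i < m, ∀ p < n, ∀ y < n, ∀ b < k, (E i p z (lam y b) ↔ E i (ρ p b) z y)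
  e3 : ∀ i < m, ∀ p < n, ∀ x < n, ∀ y < n, ∀ a < k, ∀ b < k,
    (E i p (lam x a) (lam y b) ↔ E i (ρ p a) x (lam y b) ∨ E i (ρ p b) (lam x a) y)
  e4 : ∀ i < m, ∀ x < n, ∀ y < n, (E i z x y ↔ DD F P i x y)

variable {k n z m ρ lam F T P E}

theorem run_lt (G : Good k n z m ρ lam F T P E) {p : ℕ} (hp : p < n) :
    ∀ {w : List ℕ}, (∀ a ∈ w, a < k) → w.foldl ρ p < n := by
  intro w
  induction w generalizing p with
  | nil => intro _; exact hp
  | cons c w ih =>
    intro h
    exact ih (G.hcl p hp c (h c (by simp))).1 (fun a ha => h a (by simp [ha]))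

theorem run_cons (G : Good k n z m ρ lam F T P E) {a : ℕ} (ha : a < k) :
    ∀ {w : List ℕ}, (∀ a ∈ w, a < k) → (a :: w).foldl ρ z = lam (w.foldl ρ z) a := by
  intro w
  induction w using List.reverseRecOn with
  | nil => intro _; simp [G.h0 a ha]
  | append_singleton w b ih =>
    intro h
    have h' : ∀ a ∈ w, a < k := fun a ha => h a (by simp [ha])
    have hb : b < k := h b (by simp)
    have e1 : (a :: (w ++ [b])).foldl ρ z = ρ ((a :: w).foldl ρ z) b := by
      rw [← List.cons_append, List.foldl_append]; rfl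
    rw [e1, ih h', G.hcomm _ (run_lt G G.hz h') a ha b hb, List.foldl_append]
    rfl

theorem tau_ok (G : Good k n z m ρ lam F T P E) {i : ℕ} (hi : i < m) :
    ∀ (v u : List ℕ), (∀ a ∈ v, a < k) → (∀ a ∈ u, a < k) →
      (DD F T i (u.foldl ρ z) (v.foldl ρ z) ↔ F i ((u ++ v).foldl ρ z)) := by
  intro v
  induction v with
  | nil => intro u _ hu; simpa using G.t0 i hi _ (run_lt G G.hz hu)
  | cons a v ih =>
    intro u hv hu
    have ha : a < k := hv a (by simp)
    have hv' : ∀ a ∈ v, a < k := fun b hb => hv b (by simp [hb])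
    rw [run_cons G ha hv', ← G.t1 i hi _ (run_lt G G.hz hu) _ (run_lt G G.hz hv') a ha]
    have h1 := ih (u ++ [a]) hv' (by
      intro b hb
      rcases List.mem_append.1 hb with h | h
      · exact hu b h
      · rw [List.mem_singleton] at h; subst h; exact ha)
    rw [List.foldl_append] at h1
    simp only [List.foldl_cons, List.foldl_nil] at h1
    rw [h1]
    simp

theorem sig_ok (G : Good k n z m ρ lam F T P E) {i : ℕ} (hi : i < m) :
    ∀ (u v : List ℕ) (p : ℕ), p < n → (∀ a ∈ u, a < k) → (∀ a ∈ v, a < k) →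
      ((∃ w, Sh w u v ∧ F i (w.foldl ρ p)) ↔ E i p (u.foldl ρ z) (v.foldl ρ z)) := by
  intro u
  induction u with
  | nil =>
    intro v
    induction v with
    | nil =>
      intro p hp _ _
      simp only [List.foldl_nil]
      rw [G.e0 i hi p hp]
      constructor
      · rintro ⟨w, hw, h⟩
        cases w with
        | nil => exact h
        | cons c w => simp [Sh] at hw
      · intro h
        exact ⟨[], ⟨rfl, rfl⟩, h⟩
    | cons b v ih =>
      intro p hp hu hv
      have hb : b < k := hv b (by simp)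
      have hv' : ∀ a ∈ v, a < k := fun c hc => hv c (by simp [hc])
      rw [run_cons G hb hv']
      simp only [List.foldl_nil]
      rw [G.e2 i hi p hp _ (run_lt G G.hz hv') b hb]
      have h1 := ih (ρ p b) (G.hcl p hp b hb).1 hu hv'
      simp only [List.foldl_nil] at h1
      rw [← h1]
      constructor
      · rintro ⟨w, hw, h⟩
        cases w with
        | nil => simp [Sh] at hw
        | cons c w =>
          rcases hw with ⟨u', hu', _⟩ | ⟨v', hv2, hw⟩
          · simp at hu'
          · simp only [List.cons.injEq] at hv2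
            obtain ⟨rfl, rfl⟩ := hv2
            exact ⟨w, hw, h⟩
      · rintro ⟨w, hw, h⟩
        exact ⟨b :: w, Or.inr ⟨v, rfl, hw⟩, h⟩
  | cons a u ihu =>
    intro v
    induction v with
    | nil =>
      intro p hp hu hv
      have ha : a < k := hu a (by simp)
      have hu' : ∀ a ∈ u, a < k := fun c hc => hu c (by simp [hc])
      rw [run_cons G ha hu']
      simp only [List.foldl_nil]
      rw [G.e1 i hi p hp _ (run_lt G G.hz hu') a ha]
      have h1 := ihu [] (ρ p a) (G.hcl p hp a ha).1 hu' hv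
      simp only [List.foldl_nil] at h1
      rw [← h1]
      constructor
      · rintro ⟨w, hw, h⟩
        cases w with
        | nil => simp [Sh] at hw
        | cons c w =>
          rcases hw with ⟨u', hu2, hw⟩ | ⟨v', hv2, hw⟩
          · simp only [List.cons.injEq] at hu2
            obtain ⟨rfl, rfl⟩ := hu2
            exact ⟨w, hw, h⟩
          · simp at hv2
      · rintro ⟨w, hw, h⟩
        exact ⟨a :: w, Or.inl ⟨u, rfl, hw⟩, h⟩
    | cons b v ihv =>
      intro p hp hu hv
      have ha : a < k := hu a (by simp)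
      have hu' : ∀ a ∈ u, a < k := fun c hc => hu c (by simp [hc])
      have hb : b < k := hv b (by simp)
      have hv' : ∀ a ∈ v, a < k := fun c hc => hv c (by simp [hc])
      have h1 := ihu (b :: v) (ρ p a) (G.hcl p hp a ha).1 hu' hv
      have h2 := ihv (ρ p b) (G.hcl p hp b hb).1 hu hv'
      rw [run_cons G hb hv'] at h1
      rw [run_cons G ha hu'] at h2
      rw [run_cons G ha hu', run_cons G hb hv',
        G.e3 i hi p hp _ (run_lt G G.hz hu') _ (run_lt G G.hz hv') a ha b hb, ← h1, ← h2]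
      constructor
      · rintro ⟨w, hw, h⟩
        cases w with
        | nil => simp [Sh] at hw
        | cons c w =>
          rcases hw with ⟨u', hu2, hw⟩ | ⟨v', hv2, hw⟩
          · simp only [List.cons.injEq] at hu2
            obtain ⟨rfl, rfl⟩ := hu2
            exact Or.inl ⟨w, hw, h⟩
          · simp only [List.cons.injEq] at hv2
            obtain ⟨rfl, rfl⟩ := hv2
            exact Or.inr ⟨w, hw, h⟩
      · rintro (⟨w, hw, h⟩ | ⟨w, hw, h⟩)
        · exact ⟨a :: w, Or.inl ⟨u, rfl, hw⟩, h⟩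
        · exact ⟨b :: w, Or.inr ⟨v, rfl, hw⟩, h⟩

end

end Pool.Agent.Helper230.Dec
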