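import Pool.Agent.Helper230.EClean

/-! A parallel grammar either generates a linear language or carries a certificate. -/

namespace Pool.Agent.Helper230.E

section marks
variable {A : Type} (sym : Mk → Option A)

def okm (ζ : List (A × List Mk)) : Prop :=
  ∀ p ∈ ζ, p.2 = [] ∨ ∃ m, p.2 = [m] ∧ ∀ Z, sym m = some Z → p.1 = Z

def MR (H : A → List A → Prop) (u : List A) (c : List Mk) : Prop :=
  ∃ ζ : List (A × List Mk), It H 1 u (ζ.map Prod.fst) ∧ okm sym ζ ∧ ζ.flatMap Prod.snd = c

variable {sym} {H : A → List A → Prop}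

theorem okm.append {a b : List (A × List Mk)} (ha : okm sym a) (hb : okm sym b) :
    okm sym (a ++ b) := by
  intro p hp
  rcases List.mem_append.1 hp with h | h
  · exact ha p h
  · exact hb p h

theorem MR.append {u v : List A} {c d : List Mk} (h1 : MR sym H u c) (h2 : MR sym H v d) :
    MR sym H (u ++ v) (c ++ d) := by
  obtain ⟨a, h3, h4, rfl⟩ := h1
  obtain ⟨b, h5, h6, rfl⟩ := h2
  refine ⟨a ++ b, ?_, h4.append h6, by simp⟩
  rw [List.map_append]
  exact h3.append h5

theorem plain_marks (γ : List A) : ∃ γ' : List (A × List Mk), γ'.map Prod.fst = γ ∧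
    okm sym γ' ∧ γ'.flatMap Prod.snd = [] := by
  refine ⟨γ.map (fun x => (x, [])), by simp [Function.comp_def], ?_, by simp⟩
  intro p hp
  rw [List.mem_map] at hp
  obtain ⟨x, -, rfl⟩ := hp
  exact Or.inl rfl

theorem side_marks (γ : List A) (fl : Bool) (a : Mk) (h : fl = true → γ ≠ [])
    (ha : sym a = none) : ∃ γ' : List (A × List Mk), γ'.map Prod.fst = γ ∧
    okm sym γ' ∧ γ'.flatMap Prod.snd = if fl then [a] else [] := by
  cases fl with
  | false =>
    obtain ⟨γ', h1, h2, h3⟩ := plain_marks (sym := sym) γ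
    exact ⟨γ', h1, h2, by simpa using h3⟩
  | true =>
    cases γ with
    | nil => exact absurd rfl (h rfl)
    | cons g γ =>
      obtain ⟨γ', h1, h2, h3⟩ := plain_marks (sym := sym) γ
      refine ⟨(g, [a]) :: γ', by simp [h1], ?_, by simp [h3]⟩
      intro p hp
      rcases List.mem_cons.1 hp with rfl | hp
      · exact Or.inr ⟨a, rfl, fun Z hZ => by rw [ha] at hZ; simp at hZ⟩
      · exact h2 p hp

theorem MR.plain (hne : ∀ X, ∃ ξ, H X ξ ∧ ξ ≠ []) (u : List A) : MR sym H u [] := by
  obtain ⟨ξ, h1, -⟩ := It.exists_len hne 1 u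
  obtain ⟨γ', h2, h3, h4⟩ := plain_marks (sym := sym) ξ
  exact ⟨γ', by rw [h2]; exact h1, h3, h4⟩

theorem MR.rel {X Z : A} {fl fr : Bool} (h : Rel H 1 X Z fl fr) {a m b : Mk}
    (ha : sym a = none) (hb : sym b = none) (hm : sym m = some Z) :
    MR sym H [X] ((if fl then [a] else []) ++ ([m] ++ (if fr then [b] else []))) := by
  obtain ⟨γ, δ, h1, h2, h3⟩ := h
  obtain ⟨γ', h4, h5, h6⟩ := side_marks (sym := sym) γ fl a h2 ha
  obtain ⟨δ', h7, h8, h9⟩ := side_marks (sym := sym) δ fr b h3 hb
  refine ⟨γ' ++ ([(Z, [m])] ++ δ'), ?_, ?_, ?_⟩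
  · simp only [List.map_append, List.map_cons, List.map_nil, h4, h7]
    exact h1
  · refine h5.append (okm.append ?_ h8)
    intro p hp
    rw [List.mem_singleton] at hp
    subst hp
    refine Or.inr ⟨m, rfl, fun Z' hZ => ?_⟩
    rw [hm] at hZ
    exact Option.some.inj hZ
  · simp [h6, h9]

end marks

section build
variable {Q : Type} {pr : Q → List Q → Prop} {tm : Q → Prop} {t π n : ℕ}

theorem lift_marks {τ : ℕ} (hB : Bs pr tm τ = Bs pr tm t) (hN : Ns pr tm τ = Ns pr tm t)
    {sym : Mk → Option (Ns pr tm t)} (u : List Q) (hu : ∀ X ∈ u, X ∈ Bs pr tm t)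
    (ζ : List (Ns pr tm t × List Mk)) (h : fl _ u = ζ.map Prod.fst) (hok : okm sym ζ) :
    ∃ w : MW Q, w.map Prod.fst = u ∧ MOK pr tm τ (fun m => (sym m).map Subtype.val) w ∧
      conts w = ζ.flatMap Prod.snd := by
  induction u generalizing ζ with
  | nil =>
    rw [fl_nil] at h
    have : ζ = [] := by
      cases ζ with
      | nil => rfl
      | cons a l => simp at h
    subst this
    exact ⟨[], rfl, fun p hp => by simp at hp, rfl⟩
  | cons X u ih =>
    have hu' : ∀ X ∈ u, X ∈ Bs pr tm t := fun Y hY => hu Y (List.mem_cons_of_mem _ hY)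
    by_cases hX : X ∈ Ns pr tm t
    · rw [fl_cons_mem hX] at h
      cases ζ with
      | nil => simp at h
      | cons p ζ =>
        simp only [List.map_cons, List.cons.injEq] at h
        obtain ⟨h1, h2⟩ := h
        obtain ⟨w, h3, h4, h5⟩ := ih hu' ζ h2 (fun p hp => hok p (List.mem_cons_of_mem _ hp))
        refine ⟨(X, p.2) :: w, by simp [h3], ?_, ?_⟩
        · intro q hq
          rcases List.mem_cons.1 hq with rfl | hq
          · refine ⟨by rw [hB]; exact hu X List.mem_cons_self, ?_⟩
            rcases hok p List.mem_cons_self with h6 | ⟨m, h6, h7⟩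
            · exact Or.inl h6
            · right
              refine ⟨m, h6, by rw [hN]; exact hX, ?_⟩
              intro Z hZ
              simp only [Option.map_eq_some_iff] at hZ
              obtain ⟨Z', hZ', rfl⟩ := hZ
              have := h7 Z' hZ'
              rw [← h1] at this
              rw [← this]
          · exact h4 q hq
        · unfold conts at h5 ⊢
          simp [h5]
    · rw [fl_cons_not_mem hX] at h
      obtain ⟨w, h3, h4, h5⟩ := ih hu' ζ h hok
      refine ⟨(X, []) :: w, by simp [h3], ?_, ?_⟩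
      · intro q hq
        rcases List.mem_cons.1 hq with rfl | hq
        · exact ⟨by rw [hB]; exact hu X List.mem_cons_self, Or.inl rfl⟩
        · exact h4 q hq
      · unfold conts at h5 ⊢
        simp [h5]

theorem it_one_H' (hB : Bs pr tm (π + t) = Bs pr tm t) (hN : Ns pr tm (π + t) = Ns pr tm t)
    (k : ℕ) {u : List Q} (hu : ∀ X ∈ u, X ∈ Bs pr tm t) (ζ : List (Ns pr tm t)) :
    It (fun X ξ => It (HC pr tm t π) n [X] ξ) k (fl _ u) ζ ↔
      ∃ v, It pr (k * (n * π)) u v ∧ (∀ Z ∈ v, Z ∈ Bs pr tm t) ∧ fl _ v = ζ := by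
  rw [It.mul_iff, it_HC hB hN _ hu, show n * k * π = k * (n * π) by ring]

theorem fin_H' (hB : Bs pr tm (π + t) = Bs pr tm t) (hN : Ns pr tm (π + t) = Ns pr tm t)
    (k : ℕ) {u : List Q} (hu : ∀ X ∈ u, X ∈ Bs pr tm t) (w : List Q) :
    Fin (fun X ξ => It (HC pr tm t π) n [X] ξ) (fun X w => Fin (HC pr tm t π) (ωC pr tm t) n [X] w)
      k (fl _ u) w ↔ Yd pr tm (k * (n * π) + (n * π + t)) u w := by
  have h1 : Fin (fun X ξ => It (HC pr tm t π) n [X] ξ)
      (fun X w => Fin (HC pr tm t π) (ωC pr tm t) n [X] w) k (fl _ u) w ↔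
      Fin (HC pr tm t π) (ωC pr tm t) (n * k + n) (fl _ u) w := by
    rw [Fin.add_iff]
    constructor
    · rintro ⟨v, h1, h2⟩
      exact ⟨v, It.mul_iff.1 h1, Fin.iff_sub.2 h2⟩
    · rintro ⟨v, h1, h2⟩
      exact ⟨v, It.mul_iff.2 h1, Fin.iff_sub.1 h2⟩
  rw [h1, fin_HC hB hN _ hu, show (n * k + n) * π + t = k * (n * π) + (n * π + t) by ring]

theorem MR.down (hB : Bs pr tm (π + t) = Bs pr tm t) (hN : Ns pr tm (π + t) = Ns pr tm t)
    {sym : Mk → Option (Ns pr tm t)} {v : List Q} (hv : ∀ X ∈ v, X ∈ Bs pr tm t)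
    {c : List Mk} (h : MR sym (fun X ξ => It (HC pr tm t π) n [X] ξ) (fl _ v) c) :
    ∃ w : MW Q, It pr (n * π) v (w.map Prod.fst) ∧
      MOK pr tm (n * π + t) (fun m => (sym m).map Subtype.val) w ∧ conts w = c := by
  obtain ⟨ζ, h1, h2, h3⟩ := h
  obtain ⟨v', h4, h5, h6⟩ := (it_one_H' hB hN 1 hv _).1 h1
  obtain ⟨w, h7, h8, h9⟩ := lift_marks (τ := n * π + t) (profile_mul hB hN n).1
    (profile_mul hB hN n).2 v' h5 ζ h6 h2
  refine ⟨w, ?_, h8, by rw [h9, h3]⟩
  rw [h7]
  rwa [Nat.one_mul] at h4

/-- iterating a marker substitution -/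
theorem theta_iter (κ : Mk → List Mk) (a b : List Mk) (ha : a.flatMap κ = a) (hb : b.flatMap κ = b)
    (m : Mk) (hm : κ m = a ++ ([m] ++ b)) (j : ℕ) :
    (fun x : List Mk => x.flatMap κ)^[j] [m] =
      (List.replicate j a).flatten ++ ([m] ++ (List.replicate j b).flatten) := by
  have hrep : ∀ (c : List Mk) (j : ℕ), c.flatMap κ = c →
      ((List.replicate j c).flatten).flatMap κ = (List.replicate j c).flatten := by
    intro c j hc
    induction j with
    | zero => simp
    | succ j ih => simp only [List.replicate_succ, List.flatten_cons, List.flatMap_append, hc, ih]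
  have hcomm : ∀ (c : List Mk) (j : ℕ), (List.replicate j c).flatten ++ c =
      c ++ (List.replicate j c).flatten := by
    intro c j
    induction j with
    | zero => simp
    | succ j ih => simp only [List.replicate_succ, List.flatten_cons, List.append_assoc, ih]
  induction j with
  | zero => simp
  | succ j ih =>
    rw [Function.iterate_succ_apply', ih]
    simp only [List.flatMap_append, hrep a j ha, hrep b j hb, List.flatMap_cons,
      List.flatMap_nil, List.append_nil, hm, List.replicate_succ, List.flatten_cons]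
    rw [← List.append_assoc, ← List.append_assoc, hcomm a j]
    simp [List.append_assoc]

theorem theta_append (κ : Mk → List Mk) (j : ℕ) (x y : List Mk) :
    (fun x : List Mk => x.flatMap κ)^[j] (x ++ y) =
      (fun x : List Mk => x.flatMap κ)^[j] x ++ (fun x : List Mk => x.flatMap κ)^[j] y := by
  induction j generalizing x y with
  | zero => rfl
  | succ j ih => simp only [Function.iterate_succ_apply, List.flatMap_append, ih]

theorem era_append (x y : List Mk) : era (x ++ y) = era x ++ era y := by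
  simp [era]

theorem era_rep (j : ℕ) (c : Mk) (hc : 3 ≤ c.val) :
    era ((List.replicate j [c]).flatten) = List.replicate j c := by
  rw [List.flatten_replicate_singleton]
  unfold era
  rw [List.filter_replicate]
  simp [hc]

/-- assembling a certificate -/
noncomputable def mkCert {S : Q} (hn : 1 ≤ n) (hπ : 1 ≤ π)
    (hB : Bs pr tm (π + t) = Bs pr tm t) (hN : Ns pr tm (π + t) = Ns pr tm t)
    (sym : Mk → Option (Ns pr tm t)) (fL fR : Mk → Bool) (a b : Mk → Mk)
    (ha : ∀ m, sym (a m) = none) (hb : ∀ m, sym (b m) = none)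
    (hf : ∀ m, sym m = none → fL m = false ∧ fR m = false)
    (hloop : ∀ m Z, sym m = some Z →
      Rel (fun X ξ => It (HC pr tm t π) n [X] ξ) 1 Z Z (fL m) (fR m))
    (l0 : ℕ) (v : List Q) (hl : It pr l0 [S] v) (hv : ∀ X ∈ v, X ∈ Bs pr tm t)
    (κ0 : List Mk) (h0 : MR sym (fun X ξ => It (HC pr tm t π) n [X] ξ) (fl _ v) κ0)
    (h01 : κ0 ≠ []) (h02 : κ0.length ≤ 6)
    (hc : ∀ j, era ((fun x : List Mk => x.flatMap
      (fun m => (if fL m then [a m] else []) ++ ([m] ++ (if fR m then [b m] else []))))^[j] κ0) =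
    List.replicate j 3 ++ List.replicate j 4 ++ List.replicate j 5) : Cert pr tm S where
  l := l0 + n * π
  P := n * π
  τ := n * π + t
  hP := Nat.mul_pos hn hπ
  hτ := by
    have := Nat.mul_pos hn hπ
    omega
  hB := by
    rw [← Nat.add_assoc, ← Nat.add_mul, (profile_mul hB hN _).1, (profile_mul hB hN _).1]
  hN := by
    rw [← Nat.add_assoc, ← Nat.add_mul, (profile_mul hB hN _).2, (profile_mul hB hN _).2]
  sym := fun m => (sym m).map Subtype.val
  κ := fun m => (if fL m then [a m] else []) ++ ([m] ++ (if fR m then [b m] else []))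
  κ0 := κ0
  κ0_ne := h01
  κ_len := by
    intro m
    cases fL m <;> cases fR m <;> simp
  κ0_len := h02
  κ_ne := by
    intro m
    simp
  κ_a := by
    intro m hm
    simp only [Option.map_eq_none_iff] at hm
    rw [(hf m hm).1, (hf m hm).2]
    simp
  init := by
    obtain ⟨w, h1, h2, h3⟩ := MR.down hB hN hv h0
    exact ⟨w, It.add_iff.2 ⟨v, hl, h1⟩, h2, h3⟩
  loop := by
    intro m Z hZ
    simp only [Option.map_eq_some_iff] at hZ
    obtain ⟨Z', hZ', rfl⟩ := hZ
    have h1 := MR.rel (sym := sym) (hloop m Z' hZ') (ha m) (hb m) hZ'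
    have hZB : ∀ X ∈ [Z'.1], X ∈ Bs pr tm t := by
      intro X hX
      rw [List.mem_singleton] at hX
      subst hX
      exact Ns_sub_Bs Z'.2
    have h2 : fl (Ns pr tm t) [Z'.1] = [Z'] := by
      rw [fl_cons_mem Z'.2, fl_nil]
    rw [← h2] at h1
    exact MR.down hB hN hZB h1
  count := hc

theorem count_spine (fL fR : Mk → Bool) (a b : Mk → Mk) (ha : ∀ m, 3 ≤ (a m).val)
    (hb : ∀ m, 3 ≤ (b m).val) (hf : ∀ m : Mk, 3 ≤ m.val → fL m = false ∧ fR m = false)
    (m : Mk) (hm : m.val < 3) (j : ℕ) :
    era ((fun x : List Mk => x.flatMap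
      (fun m => (if fL m then [a m] else []) ++ ([m] ++ (if fR m then [b m] else []))))^[j] [m]) =
    (if fL m then List.replicate j (a m) else []) ++
      (if fR m then List.replicate j (b m) else []) := by
  have hfix : ∀ (f : Bool) (c : Mk), 3 ≤ c.val → (if f then [c] else []).flatMap
      (fun m => (if fL m then [a m] else []) ++ ([m] ++ (if fR m then [b m] else []))) =
      (if f then [c] else []) := by
    intro f c hc
    cases f with
    | false => simp
    | true => simp [hf c hc]
  rw [theta_iter _ _ _ (hfix (fL m) (a m) (ha m)) (hfix (fR m) (b m) (hb m)) m rfl, era_append,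
    era_append]
  have h1 : ∀ (f : Bool) (c : Mk), 3 ≤ c.val →
      era ((List.replicate j (if f then [c] else [])).flatten) =
      (if f then List.replicate j c else []) := by
    intro f c hc
    cases f with
    | false =>
      have : ∀ j, (List.replicate j ([] : List Mk)).flatten = [] := by
        intro j
        induction j with
        | zero => rfl
        | succ j ih => simp [List.replicate_succ]
      simp [era]
    | true => simpa using era_rep j c hc
  rw [h1 _ _ (ha m), h1 _ _ (hb m)]
  have h2 : era [m] = [] := by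
    unfold era
    simp
    omega
  rw [h2, List.nil_append]

theorem cyc_flags {A : Type} {H : A → List A → Prop} {Z : A}
    (h : Rel H 1 Z Z true false ∨ Rel H 1 Z Z false true) :
    ∃ f : Bool, Rel H 1 Z Z f (!f) := by
  rcases h with h | h
  · exact ⟨true, h⟩
  · exact ⟨false, h⟩

theorem cert_of_viol {S : Q} (hn : 1 ≤ n) (hπ : 1 ≤ π)
    (hB : Bs pr tm (π + t) = Bs pr tm t) (hN : Ns pr tm (π + t) = Ns pr tm t)
    {ω : Ns pr tm t → List Q → Prop} {Gr : Ns pr tm t → Prop}
    (hNice : Nice (fun X ξ => It (HC pr tm t π) n [X] ξ) ω Gr)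
    (l0 : ℕ) (v : List Q) (hl : It pr l0 [S] v) (hv : ∀ X ∈ v, X ∈ Bs pr tm t)
    (h : Viol (fun X ξ => It (HC pr tm t π) n [X] ξ) Gr (fl _ v)) : Nonempty (Cert pr tm S) := by
  rcases h with ⟨z0, X1, z1, X2, z2, X3, z3, he, g1, g2, g3⟩ | ⟨z0, X1, z1, X2, z2, he, g1, g2, Z, hZ, hZZ⟩
  · obtain ⟨Z1, r1, c1⟩ := hNice.gr_cyc X1 g1
    obtain ⟨Z2, r2, c2⟩ := hNice.gr_cyc X2 g2
    obtain ⟨Z3, r3, c3⟩ := hNice.gr_cyc X3 g3
    obtain ⟨f1, c1⟩ := cyc_flags c1
    obtain ⟨f2, c2⟩ := cyc_flags c2
    obtain ⟨f3, c3⟩ := cyc_flags c3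
    refine ⟨mkCert hn hπ hB hN ![some Z1, some Z2, some Z3, none, none, none]
      ![f1, f2, f3, false, false, false] ![!f1, !f2, !f3, false, false, false]
      ![3, 4, 5, 3, 3, 3] ![3, 4, 5, 3, 3, 3] ?_ ?_ ?_ ?_ l0 v hl hv [0, 1, 2] ?_ (by simp)
      (by simp) ?_⟩
    · intro m; fin_cases m <;> rfl
    · intro m; fin_cases m <;> rfl
    · intro m; fin_cases m <;> simp
    · intro m Z hZ
      fin_cases m
      · obtain rfl : Z1 = Z := Option.some.inj hZ
        exact c1
      · obtain rfl : Z2 = Z := Option.some.inj hZ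
        exact c2
      · obtain rfl : Z3 = Z := Option.some.inj hZ
        exact c3
      all_goals exact absurd hZ (by simp)
    · rw [he]
      have e : z0 ++ X1 :: z1 ++ X2 :: z2 ++ X3 :: z3 =
        z0 ++ ([X1] ++ (z1 ++ ([X2] ++ (z2 ++ ([X3] ++ z3))))) := by simp
      rw [e]
      have m1 := MR.rel (sym := ![some Z1, some Z2, some Z3, none, none, none]) r1
        (a := 3) (m := 0) (b := 3) rfl rfl rfl
      have m2 := MR.rel (sym := ![some Z1, some Z2, some Z3, none, none, none]) r2
        (a := 3) (m := 1) (b := 3) rfl rfl rfl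
      have m3 := MR.rel (sym := ![some Z1, some Z2, some Z3, none, none, none]) r3
        (a := 3) (m := 2) (b := 3) rfl rfl rfl
      exact (MR.plain hNice.hne z0).append (m1.append ((MR.plain hNice.hne z1).append
        (m2.append ((MR.plain hNice.hne z2).append (m3.append (MR.plain hNice.hne z3))))))
    · intro j
      rw [show ([0, 1, 2] : List Mk) = [0] ++ ([1] ++ [2]) from rfl, theta_append, theta_append,
        era_append, era_append]
      have hab : ∀ m, 3 ≤ ((![3, 4, 5, 3, 3, 3] : Mk → Mk) m).val := by decide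
      have hff : ∀ m : Mk, 3 ≤ m.val → (![f1, f2, f3, false, false, false] : Mk → Bool) m = false ∧
          (![!f1, !f2, !f3, false, false, false] : Mk → Bool) m = false := by
        intro m hm
        fin_cases m <;> simp_all
      rw [count_spine _ _ _ _ hab hab hff 0 (by decide), count_spine _ _ _ _ hab hab hff 1 (by decide),
        count_spine _ _ _ _ hab hab hff 2 (by decide)]
      cases f1 <;> cases f2 <;> cases f3 <;> simp
  · obtain ⟨Z1, r1, c1⟩ := hNice.gr_cyc X1 g1
    obtain ⟨Z2, r2, c2⟩ := hNice.gr_cyc X2 g2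
    obtain ⟨f1, c1⟩ := cyc_flags c1
    obtain ⟨f2, c2⟩ := cyc_flags c2
    have hreach : ∀ X, Reach (fun X ξ => It (HC pr tm t π) n [X] ξ) X Z →
        Rel (fun X ξ => It (HC pr tm t π) n [X] ξ) 1 X Z false false := by
      rintro X ⟨k, hk⟩
      cases k with
      | zero =>
        obtain ⟨γ, δ, h1, -, -⟩ := hk
        rw [It] at h1
        have : X = Z := by
          cases γ with
          | nil => simp at h1; exact h1.1.symm
          | cons g γ =>
            have := congrArg List.length h1
            simp at this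
        subst this
        exact hZZ.mono (by simp) (by simp)
      | succ k => exact (Rel.idem_pow hNice.hne hNice.idem k X Z false false).1 hk
    have e : z0 ++ X1 :: z1 ++ X2 :: z2 = z0 ++ ([X1] ++ (z1 ++ ([X2] ++ z2))) := by simp
    rw [e] at he
    rcases hZ with hZ | hZ
    · have r1 := hreach _ hZ
      refine ⟨mkCert hn hπ hB hN ![some Z, some Z2, none, none, none, none]
        ![true, f2, false, false, false, false] ![true, !f2, false, false, false, false]
        ![3, 5, 3, 3, 3, 3] ![4, 5, 3, 3, 3, 3] ?_ ?_ ?_ ?_ l0 v hl hv [0, 1] ?_ (by simp)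
        (by simp) ?_⟩
      · intro m; fin_cases m <;> rfl
      · intro m; fin_cases m <;> rfl
      · intro m; fin_cases m <;> simp
      · intro m Z' hZ'
        fin_cases m
        · obtain rfl : Z = Z' := Option.some.inj hZ'
          exact hZZ
        · obtain rfl : Z2 = Z' := Option.some.inj hZ'
          exact c2
        all_goals exact absurd hZ' (by simp)
      · rw [he]
        have m1 := MR.rel (sym := ![some Z, some Z2, none, none, none, none]) r1
          (a := 3) (m := 0) (b := 3) rfl rfl rfl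
        have m2 := MR.rel (sym := ![some Z, some Z2, none, none, none, none]) r2
          (a := 3) (m := 1) (b := 3) rfl rfl rfl
        exact (MR.plain hNice.hne z0).append (m1.append ((MR.plain hNice.hne z1).append
          (m2.append (MR.plain hNice.hne z2))))
      · intro j
        rw [show ([0, 1] : List Mk) = [0] ++ [1] from rfl, theta_append, era_append]
        have ha : ∀ m, 3 ≤ ((![3, 5, 3, 3, 3, 3] : Mk → Mk) m).val := by decide
        have hb : ∀ m, 3 ≤ ((![4, 5, 3, 3, 3, 3] : Mk → Mk) m).val := by decide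
        have hff : ∀ m : Mk, 3 ≤ m.val →
            (![true, f2, false, false, false, false] : Mk → Bool) m = false ∧
            (![true, !f2, false, false, false, false] : Mk → Bool) m = false := by
          intro m hm
          fin_cases m <;> simp_all
        rw [count_spine _ _ _ _ ha hb hff 0 (by decide), count_spine _ _ _ _ ha hb hff 1 (by decide)]
        cases f2 <;> simp
    · have r2 := hreach _ hZ
      refine ⟨mkCert hn hπ hB hN ![some Z1, some Z, none, none, none, none]
        ![f1, true, false, false, false, false] ![!f1, true, false, false, false, false]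
        ![3, 4, 3, 3, 3, 3] ![3, 5, 3, 3, 3, 3] ?_ ?_ ?_ ?_ l0 v hl hv [0, 1] ?_ (by simp)
        (by simp) ?_⟩
      · intro m; fin_cases m <;> rfl
      · intro m; fin_cases m <;> rfl
      · intro m; fin_cases m <;> simp
      · intro m Z' hZ'
        fin_cases m
        · obtain rfl : Z1 = Z' := Option.some.inj hZ'
          exact c1
        · obtain rfl : Z = Z' := Option.some.inj hZ'
          exact hZZ
        all_goals exact absurd hZ' (by simp)
      · rw [he]
        have m1 := MR.rel (sym := ![some Z1, some Z, none, none, none, none]) r1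
          (a := 3) (m := 0) (b := 3) rfl rfl rfl
        have m2 := MR.rel (sym := ![some Z1, some Z, none, none, none, none]) r2
          (a := 3) (m := 1) (b := 3) rfl rfl rfl
        exact (MR.plain hNice.hne z0).append (m1.append ((MR.plain hNice.hne z1).append
          (m2.append (MR.plain hNice.hne z2))))
      · intro j
        rw [show ([0, 1] : List Mk) = [0] ++ [1] from rfl, theta_append, era_append]
        have ha : ∀ m, 3 ≤ ((![3, 4, 3, 3, 3, 3] : Mk → Mk) m).val := by decide
        have hb : ∀ m, 3 ≤ ((![3, 5, 3, 3, 3, 3] : Mk → Mk) m).val := by decide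
        have hff : ∀ m : Mk, 3 ≤ m.val →
            (![f1, true, false, false, false, false] : Mk → Bool) m = false ∧
            (![!f1, true, false, false, false, false] : Mk → Bool) m = false := by
          intro m hm
          fin_cases m <;> simp_all
        rw [count_spine _ _ _ _ ha hb hff 0 (by decide), count_spine _ _ _ _ ha hb hff 1 (by decide)]
        cases f1 <;> simp

end build

theorem dichotomy {Q : Type} [Finite Q] {pr : Q → List Q → Prop} (tm : Q → Prop)
    (hpr : ∀ X, {α | pr X α}.Finite) (S : Q) :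
    Lin {w | ∃ τ, Yd pr tm τ [S] w} ∨ Nonempty (Cert pr tm S) := by
  by_cases hcert : Nonempty (Cert pr tm S)
  · exact Or.inr hcert
  left
  obtain ⟨t, π, hπ, hB, hN⟩ := exists_period pr tm
  obtain ⟨n, hn, Gr, hNice⟩ := exists_nice (clean_of (tm := tm) (t := t) (π := π) hpr hN)
  have hsafe : ∀ (l0 : ℕ) (v : List Q), It pr l0 [S] v → (∀ X ∈ v, X ∈ Bs pr tm t) →
      Safe (fun X ξ => It (HC pr tm t π) n [X] ξ) Gr (fl _ v) := by
    intro l0 v hl hv k ξ hk hviol
    obtain ⟨v', h1, h2, rfl⟩ := (it_one_H' hB hN k hv ξ).1 hk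
    exact hcert (cert_of_viol hn hπ hB hN hNice (l0 + k * (n * π)) v'
      (It.add_iff.2 ⟨v, hl, h1⟩) h2 hviol)
  have hlin : ∀ r, ∀ v ∈ {v | It pr r [S] v ∧ ∀ X ∈ v, X ∈ Bs pr tm t},
      Lin {w | ∃ k, Yd pr tm (k * (n * π) + (n * π + t)) v w} := by
    rintro r v ⟨h1, h2⟩
    have h3 := Nice.lin hNice (hsafe r v h1 h2)
    simpa only [fin_H' hB hN _ h2] using h3
  have hall : {w | ∃ τ, Yd pr tm τ [S] w} =
      (⋃ τ ∈ Set.Iio (n * π + t), {w | Yd pr tm τ [S] w}) ∪
      (⋃ r ∈ Set.Iio (n * π), ⋃ v ∈ {v | It pr r [S] v ∧ ∀ X ∈ v, X ∈ Bs pr tm t},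
        {w | ∃ k, Yd pr tm (k * (n * π) + (n * π + t)) v w}) := by
    ext w
    simp only [Set.mem_ofPred_eq, Set.mem_union, Set.mem_iUnion, Set.mem_Iio, exists_prop]
    constructor
    · rintro ⟨τ, hτ⟩
      by_cases hlt : τ < n * π + t
      · exact Or.inl ⟨τ, hlt, hτ⟩
      · right
        have hpos : 0 < n * π := Nat.mul_pos hn hπ
        have e : τ = (τ - (n * π + t)) % (n * π) +
            ((τ - (n * π + t)) / (n * π) * (n * π) + (n * π + t)) := by
          have := Nat.mod_add_div' (τ - (n * π + t)) (n * π)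
          omega
        rw [e] at hτ
        obtain ⟨v, h1, h2⟩ := Yd.add_iff.1 hτ
        refine ⟨_, Nat.mod_lt _ hpos, v, ⟨h1, ?_⟩, _, h2⟩
        have h3 := h2.mem_Bs
        rw [← Nat.add_assoc, ← Nat.mul_assoc, ← Nat.add_mul, (profile_mul hB hN _).1] at h3
        exact h3
    · rintro (⟨τ, -, h⟩ | ⟨r, -, v, ⟨h1, -⟩, k, h3⟩)
      · exact ⟨τ, h⟩
      · exact ⟨_, Yd.add_iff.2 ⟨v, h1, h3⟩⟩
  rw [hall]
  refine Lin.union ?_ ?_
  · refine Lin.finite (Set.Finite.biUnion (Set.finite_Iio _) (fun τ _ => ?_))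
    exact (It.finite hpr τ (u := [S])).subset (fun w h => h.1)
  · refine Lin.biUnion (Set.finite_Iio _) _ (fun r _ => ?_)
    refine Lin.biUnion ?_ _ (fun v hv => hlin r v hv)
    exact (It.finite hpr r (u := [S])).subset (fun w h => h.1)

end Pool.Agent.Helper230.E
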