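import Pool.Agent.Helper230.ESub

/-! Growth of parallel rewriting systems; normalisation by passing to a power. -/

namespace Pool.Agent.Helper230.E

section rel
variable {A B : Type} (H : A → List A → Prop)

/-- occurrences after `k` steps, with flags for nonempty context -/
def Rel (k : ℕ) (X Z : A) (fl fr : Bool) : Prop :=
  ∃ γ δ, It H k [X] (γ ++ Z :: δ) ∧ (fl = true → γ ≠ []) ∧ (fr = true → δ ≠ [])

def Grow (X : A) : Prop := ∀ b : ℕ, ∃ k ξ, It H k [X] ξ ∧ b ≤ ξ.length

structure Clean (ω : A → List B → Prop) : Prop where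
  hfin : ∀ X, {ξ | H X ξ}.Finite
  ofin : ∀ X, {w | ω X w}.Finite
  hne : ∀ X, ∃ ξ, H X ξ ∧ ξ ≠ []
  one : ∀ X, ∃ w, ω X w ∧ w ≠ []

variable {H}

theorem Rel.mono {k : ℕ} {X Z : A} {fl fr fl' fr' : Bool} (h : Rel H k X Z fl fr)
    (hl : fl' = true → fl = true) (hr : fr' = true → fr = true) : Rel H k X Z fl' fr' := by
  obtain ⟨γ, δ, h1, h2, h3⟩ := h
  exact ⟨γ, δ, h1, fun h => h2 (hl h), fun h => h3 (hr h)⟩

theorem Rel.refl (X : A) : Rel H 0 X X false false :=
  ⟨[], [], rfl, by simp, by simp⟩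

theorem Rel.comp (hne : ∀ X, ∃ ξ, H X ξ ∧ ξ ≠ []) {j k : ℕ} {X Y Z : A} {fl1 fr1 fl2 fr2 : Bool}
    (h1 : Rel H j X Y fl1 fr1) (h2 : Rel H k Y Z fl2 fr2) :
    Rel H (j + k) X Z (fl1 || fl2) (fr1 || fr2) := by
  obtain ⟨γ, δ, h3, h4, h5⟩ := h1
  obtain ⟨γ', δ', h6, h7, h8⟩ := h2
  obtain ⟨γp, h9, h10⟩ := It.exists_len hne k γ
  obtain ⟨δp, h11, h12⟩ := It.exists_len hne k δ
  refine ⟨γp ++ γ', δ' ++ δp, ?_, ?_, ?_⟩
  · rw [It.add_iff]
    refine ⟨_, h3, ?_⟩
    have h13 := h9.append ((It.append (u := [Y]) h6 h11))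
    simpa using h13
  · intro h
    rw [Bool.or_eq_true] at h
    intro h14
    rw [List.append_eq_nil_iff] at h14
    rcases h with h | h
    · apply h4 h
      rw [h14.1] at h10
      exact List.eq_nil_of_length_eq_zero (by simpa using h10)
    · exact h7 h h14.2
  · intro h
    rw [Bool.or_eq_true] at h
    intro h14
    rw [List.append_eq_nil_iff] at h14
    rcases h with h | h
    · apply h5 h
      rw [h14.2] at h12
      exact List.eq_nil_of_length_eq_zero (by simpa using h12)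
    · exact h8 h h14.1

theorem Rel.decomp {j k : ℕ} {X Z : A} {fl fr : Bool} (h : Rel H (j + k) X Z fl fr) :
    ∃ Y fl1 fr1 fl2 fr2, Rel H j X Y fl1 fr1 ∧ Rel H k Y Z fl2 fr2 ∧
      (fl = true → (fl1 || fl2) = true) ∧ (fr = true → (fr1 || fr2) = true) := by
  classical
  obtain ⟨γ, δ, h3, h4, h5⟩ := h
  obtain ⟨v, h6, h7⟩ := It.add_iff.1 h3
  rw [It.iff_sub] at h7
  obtain ⟨u1, Y, u2, p1, p2, s1, s2, rfl, rfl, rfl, h8, h9, h10⟩ := h7.locate
  refine ⟨Y, decide (u1 ≠ []), decide (u2 ≠ []), decide (p2 ≠ []), decide (s1 ≠ []),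
    ⟨u1, u2, h6, by simp, by simp⟩, ⟨p2, s1, h9, by simp, by simp⟩, ?_, ?_⟩
  · intro h
    have := h4 h
    rw [Bool.or_eq_true, decide_eq_true_eq, decide_eq_true_eq]
    by_contra hc
    rw [not_or, not_not, not_not] at hc
    obtain ⟨rfl, rfl⟩ := hc
    rw [Sub.nil_iff] at h8
    subst h8
    exact this rfl
  · intro h
    have := h5 h
    rw [Bool.or_eq_true, decide_eq_true_eq, decide_eq_true_eq]
    by_contra hc
    rw [not_or, not_not, not_not] at hc
    obtain ⟨rfl, rfl⟩ := hc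
    rw [Sub.nil_iff] at h10
    subst h10
    exact this rfl

theorem Rel.det (hne : ∀ X, ∃ ξ, H X ξ ∧ ξ ≠ []) {a b : ℕ}
    (hab : ∀ X Z fl fr, Rel H a X Z fl fr ↔ Rel H b X Z fl fr) (c : ℕ) (X Z : A) (fl fr : Bool) :
    Rel H (a + c) X Z fl fr ↔ Rel H (b + c) X Z fl fr := by
  constructor
  · intro h
    obtain ⟨Y, fl1, fr1, fl2, fr2, h1, h2, h3, h4⟩ := h.decomp
    exact (Rel.comp hne ((hab _ _ _ _).1 h1) h2).mono h3 h4
  · intro h
    obtain ⟨Y, fl1, fr1, fl2, fr2, h1, h2, h3, h4⟩ := h.decomp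
    exact (Rel.comp hne ((hab _ _ _ _).2 h1) h2).mono h3 h4

def Reach (H : A → List A → Prop) (X Z : A) : Prop := ∃ k, Rel H k X Z false false

theorem Reach.trans (hne : ∀ X, ∃ ξ, H X ξ ∧ ξ ≠ []) {X Y Z : A} (h1 : Reach H X Y)
    (h2 : Reach H Y Z) : Reach H X Z := by
  obtain ⟨j, h1⟩ := h1
  obtain ⟨k, h2⟩ := h2
  exact ⟨j + k, Rel.comp hne h1 h2⟩

def PC (H : A → List A → Prop) (Z : A) : Prop :=
  ∃ q, Rel H q Z Z true false ∨ Rel H q Z Z false true

noncomputable def rank (H : A → List A → Prop) (X : A) : ℕ := Set.ncard {Z | Reach H X Z}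

theorem rank_mono [Finite A] (hne : ∀ X, ∃ ξ, H X ξ ∧ ξ ≠ []) {X Y : A} (h : Reach H X Y) :
    rank H Y ≤ rank H X :=
  Set.ncard_le_ncard (fun _ hZ => h.trans hne hZ) (Set.toFinite _)

theorem rank_lt [Finite A] (hne : ∀ X, ∃ ξ, H X ξ ∧ ξ ≠ []) {X Y : A} (h : Reach H X Y)
    (h' : ¬ Reach H Y X) : rank H Y < rank H X := by
  apply Set.ncard_lt_ncard _ (Set.toFinite _)
  refine ⟨fun _ hZ => h.trans hne hZ, fun hsub => h' (hsub ⟨0, Rel.refl X⟩)⟩

theorem Rel.of_mem {X Z : A} {ξ : List A} (h : H X ξ) (hZ : Z ∈ ξ) : Rel H 1 X Z false false := by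
  obtain ⟨γ, δ, rfl⟩ := List.append_of_mem hZ
  exact ⟨γ, δ, It.one_iff.2 (Sub.single_iff.2 h), by simp, by simp⟩

theorem bounded_of_noPC [Finite A] (hne : ∀ X, ∃ ξ, H X ξ ∧ ξ ≠ []) {m : ℕ}
    (hm : ∀ X ξ, H X ξ → ξ.length ≤ m) (hm1 : 1 ≤ m) (k : ℕ) :
    ∀ (X : A) (ξ : List A), (∀ Z, Reach H X Z → ¬ PC H Z) → It H k [X] ξ →
      ξ.length ≤ m ^ rank H X := by
  induction k with
  | zero =>
    intro X ξ _ h
    rw [It] at h
    subst h
    simpa using Nat.one_le_pow _ _ hm1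
  | succ k ih =>
    intro X ξ hX h
    obtain ⟨ζ, h1, h2⟩ := It.single_succ.1 h
    match ζ, h1, h2 with
    | [], h1, h2 =>
      rw [It.nil_iff] at h2
      subst h2
      simp
    | [Y], h1, h2 =>
      have hr : Reach H X Y := ⟨1, Rel.of_mem h1 (by simp)⟩
      refine (ih Y ξ (fun Z hZ => hX Z (hr.trans hne hZ)) h2).trans ?_
      exact Nat.pow_le_pow_right hm1 (rank_mono hne hr)
    | Y1 :: Y2 :: ζ, h1, h2 =>
      have hlt : ∀ Y ∈ (Y1 :: Y2 :: ζ), Reach H X Y ∧ rank H Y < rank H X := by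
        intro Y hY
        have hr : Reach H X Y := ⟨1, Rel.of_mem h1 hY⟩
        refine ⟨hr, rank_lt hne hr ?_⟩
        rintro ⟨j, hj⟩
        obtain ⟨γ, δ, he⟩ := List.append_of_mem hY
        apply hX X ⟨0, Rel.refl X⟩
        rw [he] at h1
        have h3 : It H 1 [X] (γ ++ Y :: δ) := It.one_iff.2 (Sub.single_iff.2 h1)
        by_cases hγ : γ = []
        · have hδ : δ ≠ [] := by
            rintro rfl
            subst hγ
            simp at he
          exact ⟨1 + j, Or.inr (Rel.comp hne (fl1 := false) (fr1 := true)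
            ⟨γ, δ, h3, by simp, fun _ => hδ⟩ hj)⟩
        · exact ⟨1 + j, Or.inl (Rel.comp hne (fl1 := true) (fr1 := false)
            ⟨γ, δ, h3, fun _ => hγ, by simp⟩ hj)⟩
      have hpos : 1 ≤ rank H X := by
        have := (hlt Y1 (by simp)).2
        omega
      rw [It.iff_sub] at h2
      have h3 : ξ.length ≤ (Y1 :: Y2 :: ζ).length * m ^ (rank H X - 1) := by
        refine h2.length_le ?_
        intro Y hY w hw
        have h4 := hlt Y hY
        refine (ih Y w (fun Z hZ => hX Z (h4.1.trans hne hZ)) hw).trans ?_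
        exact Nat.pow_le_pow_right hm1 (by omega)
      refine h3.trans ?_
      have h5 := hm X _ h1
      calc (Y1 :: Y2 :: ζ).length * m ^ (rank H X - 1) ≤ m * m ^ (rank H X - 1) :=
            Nat.mul_le_mul_right _ h5
        _ = m ^ rank H X := by
            rw [← Nat.pow_succ']
            congr 1
            omega

theorem exists_max_len [Finite A] (hfin : ∀ X, {ξ | H X ξ}.Finite) :
    ∃ m, 1 ≤ m ∧ ∀ X ξ, H X ξ → ξ.length ≤ m := by
  classical
  have : Fintype A := Fintype.ofFinite A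
  have h1 : ∀ X, ∃ m, ∀ ξ, H X ξ → ξ.length ≤ m := by
    intro X
    have h2 := (hfin X).image List.length
    obtain ⟨m, hm⟩ := h2.bddAbove
    exact ⟨m, fun ξ hξ => hm ⟨ξ, hξ, rfl⟩⟩
  choose m hm using h1
  refine ⟨∑ X, m X + 1, by omega, fun X ξ h => ?_⟩
  have h3 := hm X ξ h
  have h4 : m X ≤ ∑ X, m X := Finset.single_le_sum (fun _ _ => Nat.zero_le _) (Finset.mem_univ X)
  omega

theorem Grow.cyc [Finite A] (hne : ∀ X, ∃ ξ, H X ξ ∧ ξ ≠ []) (hfin : ∀ X, {ξ | H X ξ}.Finite)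
    {X : A} (h : Grow H X) : ∃ Z, Reach H X Z ∧ PC H Z := by
  by_contra hc
  push Not at hc
  obtain ⟨m, hm1, hm⟩ := exists_max_len hfin
  obtain ⟨k, ξ, h1, h2⟩ := h (m ^ rank H X + 1)
  have := bounded_of_noPC hne hm hm1 k X ξ hc h1
  omega

theorem Grow.up (hne : ∀ X, ∃ ξ, H X ξ ∧ ξ ≠ []) {X Z : A} {ξ : List A} (h : H X ξ)
    (hZ : Z ∈ ξ) (hg : Grow H Z) : Grow H X := by
  intro b
  obtain ⟨k, ξ', h1, h2⟩ := hg b
  obtain ⟨γ, δ, rfl⟩ := List.append_of_mem hZ
  obtain ⟨γp, h3, -⟩ := It.exists_len hne k γ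
  obtain ⟨δp, h4, -⟩ := It.exists_len hne k δ
  refine ⟨k + 1, γp ++ (ξ' ++ δp), It.single_succ.2 ⟨_, h, ?_⟩, ?_⟩
  · exact h3.append (It.append (u := [Z]) h1 h4)
  · simp only [List.length_append]
    omega

theorem exists_bound [Finite A] : ∃ b, ∀ Z, ¬ Grow H Z → ∀ k ξ, It H k [Z] ξ → ξ.length ≤ b := by
  classical
  have : Fintype A := Fintype.ofFinite A
  have h1 : ∀ Z, ∃ b, ¬ Grow H Z → ∀ k ξ, It H k [Z] ξ → ξ.length ≤ b := by
    intro Z
    by_cases h : Grow H Z
    · exact ⟨0, fun h' => absurd h h'⟩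
    · have h' := h
      unfold Grow at h'
      push Not at h'
      obtain ⟨b, hb⟩ := h'
      exact ⟨b, fun _ k ξ hξ => (hb k ξ hξ).le⟩
  choose b hb using h1
  refine ⟨∑ Z, b Z, fun Z h k ξ hξ => ?_⟩
  exact (hb Z h k ξ hξ).trans
    (Finset.single_le_sum (fun _ _ => Nat.zero_le _) (Finset.mem_univ Z))

theorem Grow.down [Finite A] (hfin : ∀ X, {ξ | H X ξ}.Finite) {X : A} (h : Grow H X) :
    ∃ ξ, H X ξ ∧ ∃ Z ∈ ξ, Grow H Z := by
  by_contra hc
  push Not at hc
  obtain ⟨m, hm1, hm⟩ := exists_max_len hfin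
  obtain ⟨b, hb⟩ := exists_bound (H := H)
  obtain ⟨k, ξ, h1, h2⟩ := h (m * b + 2)
  cases k with
  | zero =>
    rw [It] at h1
    subst h1
    simp at h2
  | succ k =>
    obtain ⟨ζ, h3, h4⟩ := It.single_succ.1 h1
    rw [It.iff_sub] at h4
    have h5 := h4.length_le (m := b) (fun Z hZ w hw => hb Z (hc ζ h3 Z hZ) k w hw)
    have h6 : ζ.length * b ≤ m * b := Nat.mul_le_mul_right _ (hm X ζ h3)
    omega

end rel

theorem exists_idem {F : Type} [Finite F] (x : ℕ → F)
    (hx : ∀ a b c, x a = x b → x (a + c) = x (b + c)) : ∃ n, 1 ≤ n ∧ x n = x (2 * n) := by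
  obtain ⟨a, b, hab, he⟩ := Finite.exists_ne_map_eq_of_infinite x
  wlog hlt : a < b generalizing a b
  · exact this b a hab.symm he.symm (by omega)
  obtain ⟨d, rfl⟩ := Nat.exists_eq_add_of_lt hlt
  have h1 : ∀ m i, x (a + i) = x (a + i + m * (d + 1)) := by
    intro m
    induction m with
    | zero => intro i; simp
    | succ m ih =>
      intro i
      rw [ih i]
      have h2 := hx _ _ (i + m * (d + 1)) he
      have e1 : a + (i + m * (d + 1)) = a + i + m * (d + 1) := by ring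
      have e2 : a + d + 1 + (i + m * (d + 1)) = a + i + (m + 1) * (d + 1) := by ring
      rw [e1, e2] at h2
      exact h2
  refine ⟨(a + 1) * (d + 1), ?_, ?_⟩
  · exact Nat.mul_pos (by omega) (by omega)
  · have hge : a ≤ (a + 1) * (d + 1) := by nlinarith
    obtain ⟨i, hi⟩ := Nat.exists_eq_add_of_le hge
    have h2 := h1 (a + 1) i
    rw [← hi] at h2
    rw [h2]
    congr 1
    ring

section nice
variable {A B : Type}

structure Nice (H : A → List A → Prop) (ω : A → List B → Prop) (Gr : A → Prop) : Prop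
    extends Clean H ω where
  idem : ∀ X Z fl fr, Rel H 2 X Z fl fr ↔ Rel H 1 X Z fl fr
  const : ∀ U, ¬ Gr U → ∀ k w, Fin H ω k [U] w ↔ ω U w
  gr_up : ∀ X ξ Z, H X ξ → Z ∈ ξ → Gr Z → Gr X
  gr_down : ∀ X, Gr X → ∃ ξ, H X ξ ∧ ∃ Z ∈ ξ, Gr Z
  gr_cyc : ∀ X, Gr X → ∃ Z, Rel H 1 X Z false false ∧
    (Rel H 1 Z Z true false ∨ Rel H 1 Z Z false true)

theorem Rel.idem_pow {H : A → List A → Prop} (hne : ∀ X, ∃ ξ, H X ξ ∧ ξ ≠ [])
    (idem : ∀ X Z fl fr, Rel H 2 X Z fl fr ↔ Rel H 1 X Z fl fr) (k : ℕ) (X Z : A) (fl fr : Bool) :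
    Rel H (k + 1) X Z fl fr ↔ Rel H 1 X Z fl fr := by
  induction k generalizing X Z fl fr with
  | zero => exact Iff.rfl
  | succ k ih =>
    have h1 := Rel.det hne ih 1 X Z fl fr
    rw [h1]
    exact idem X Z fl fr

theorem exists_nice [Finite A] {H : A → List A → Prop} {ω : A → List B → Prop}
    (h : Clean H ω) : ∃ n, 1 ≤ n ∧ ∃ Gr,
      Nice (fun X ξ => It H n [X] ξ) (fun X w => Fin H ω n [X] w) Gr := by
  classical
  obtain ⟨b0, hb0⟩ := exists_bound (H := H)
  have hfl : Finite {l : List A // l.length ≤ b0} := List.finite_length_le A b0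
  let x : ℕ → (A → A → Bool → Bool → Prop) × (A → Set {l : List A // l.length ≤ b0}) :=
    fun k => (fun X Z fl fr => Rel H k X Z fl fr, fun U => {l | It H k [U] l.1})
  obtain ⟨n, hn1, hn⟩ := exists_idem x (by
    intro a b c hab
    simp only [x, Prod.mk.injEq] at hab ⊢
    obtain ⟨h1, h2⟩ := hab
    constructor
    · funext X Z fl fr
      apply propext
      exact Rel.det h.hne (fun X Z fl fr => by
        rw [funext_iff] at h1
        have := h1 X
        rw [funext_iff] at this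
        have := this Z
        rw [funext_iff] at this
        have := this fl
        rw [funext_iff] at this
        rw [this fr]) c X Z fl fr
    · funext U
      ext l
      have h3 : ∀ Z (w : List A), w.length ≤ b0 → (It H a [Z] w ↔ It H b [Z] w) := by
        intro Z w hw
        rw [funext_iff] at h2
        have h4 := h2 Z
        have h5 : (⟨w, hw⟩ : {l : List A // l.length ≤ b0}) ∈
            {l : {l : List A // l.length ≤ b0} | It H a [Z] l.1} ↔
            (⟨w, hw⟩ : {l : List A // l.length ≤ b0}) ∈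
            {l : {l : List A // l.length ≤ b0} | It H b [Z] l.1} := by rw [h4]
        exact h5
      simp only [Set.mem_ofPred_eq]
      rw [Nat.add_comm a c, Nat.add_comm b c, It.add_iff, It.add_iff]
      constructor
      · rintro ⟨v, h4, h5⟩
        refine ⟨v, h4, ?_⟩
        rw [It.iff_sub] at h5 ⊢
        exact h5.mono' (fun Z _ w hw _ h6 => (h3 Z w (hw.trans l.2)).1 h6)
      · rintro ⟨v, h4, h5⟩
        refine ⟨v, h4, ?_⟩
        rw [It.iff_sub] at h5 ⊢
        exact h5.mono' (fun Z _ w hw _ h6 => (h3 Z w (hw.trans l.2)).2 h6))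
  let H' : A → List A → Prop := fun X ξ => It H n [X] ξ
  let ω' : A → List B → Prop := fun X w => Fin H ω n [X] w
  have hIt : ∀ k u w, It H' k u w ↔ It H (n * k) u w := fun k u w => It.mul_iff
  have hRel : ∀ k X Z fl fr, Rel H' k X Z fl fr ↔ Rel H (n * k) X Z fl fr := by
    intro k X Z fl fr
    unfold Rel
    simp only [hIt]
  have hx1 : ∀ X Z fl fr, Rel H n X Z fl fr ↔ Rel H (2 * n) X Z fl fr := by
    intro X Z fl fr
    have h1 := congrArg Prod.fst hn
    simp only [x] at h1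
    rw [funext_iff] at h1
    have := h1 X
    rw [funext_iff] at this
    have := this Z
    rw [funext_iff] at this
    have := this fl
    rw [funext_iff] at this
    rw [this fr]
  have hx2 : ∀ Z (w : List A), w.length ≤ b0 → (It H n [Z] w ↔ It H (2 * n) [Z] w) := by
    intro Z w hw
    have h1 := congrArg Prod.snd hn
    simp only [x] at h1
    rw [funext_iff] at h1
    have h4 := h1 Z
    have h5 : (⟨w, hw⟩ : {l : List A // l.length ≤ b0}) ∈
        {l : {l : List A // l.length ≤ b0} | It H n [Z] l.1} ↔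
        (⟨w, hw⟩ : {l : List A // l.length ≤ b0}) ∈
        {l : {l : List A // l.length ≤ b0} | It H (2 * n) [Z] l.1} := by rw [h4]
    exact h5
  have hne' : ∀ X, ∃ ξ, H' X ξ ∧ ξ ≠ [] := by
    intro X
    obtain ⟨w, h1, h2⟩ := It.exists_len h.hne n [X]
    refine ⟨w, h1, ?_⟩
    rintro rfl
    simp at h2
  have hfin' : ∀ X, {ξ | H' X ξ}.Finite := fun X => It.finite h.hfin n
  have hclean : Clean H' ω' := by
    refine ⟨hfin', ?_, hne', ?_⟩
    · intro X
      have : {w | ω' X w} = ⋃ v ∈ {v | It H n [X] v}, {w | Sub ω v w} := by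
        ext w
        simp only [Set.mem_ofPred_eq, Set.mem_iUnion, exists_prop]
        exact Iff.rfl
      rw [this]
      exact Set.Finite.biUnion (It.finite h.hfin n) (fun v _ => Sub.finite (fun a _ => h.ofin a))
    · intro X
      obtain ⟨v, h1, h2⟩ := It.exists_len h.hne n [X]
      obtain ⟨w, h3, h4⟩ := Sub.exists_len (f := ω) (u := v) (fun a _ => h.one a)
      refine ⟨w, ⟨v, h1, h3⟩, ?_⟩
      rintro rfl
      have := h2.trans h4
      simp at this
  have hgrow : ∀ U, Grow H U → Grow H' U := by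
    intro U hU b
    obtain ⟨k, ξ, h1, h2⟩ := hU b
    obtain ⟨ξ', h3, h4⟩ := It.exists_len h.hne (n * (k + 1) - k) ξ
    refine ⟨k + 1, ξ', ?_, h2.trans h4⟩
    rw [hIt]
    have : n * (k + 1) = k + (n * (k + 1) - k) := by
      have : k ≤ n * (k + 1) := by nlinarith
      omega
    rw [this, It.add_iff]
    exact ⟨ξ, h1, h3⟩
  have hidem : ∀ X Z fl fr, Rel H' 2 X Z fl fr ↔ Rel H' 1 X Z fl fr := by
    intro X Z fl fr
    rw [hRel, hRel, Nat.mul_comm n 2, ← hx1, Nat.mul_one]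
  refine ⟨n, hn1, Grow H', ⟨hclean, hidem, ?_, ?_, ?_, ?_⟩⟩
  · intro U hU k w
    have hU' : ¬ Grow H U := fun h' => hU (hgrow U h')
    have hpow : ∀ j ξ, It H (n * (j + 1)) [U] ξ ↔ It H n [U] ξ := by
      intro j
      induction j with
      | zero => intro ξ; rw [Nat.zero_add, Nat.mul_one]
      | succ j ih =>
        intro ξ
        have e1 : n * (j + 1 + 1) = n * j + 2 * n := by ring
        have e2 : n * (j + 1) = n * j + n := by ring
        rw [← ih ξ, e1, e2, It.add_iff, It.add_iff]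
        constructor
        · rintro ⟨v, h4, h5⟩
          refine ⟨v, h4, ?_⟩
          have hl : ξ.length ≤ b0 := hb0 U hU' (n * j + 2 * n) ξ (It.add_iff.2 ⟨v, h4, h5⟩)
          rw [It.iff_sub] at h5 ⊢
          exact h5.mono' (fun Z _ w hw _ h6 => (hx2 Z w (hw.trans hl)).2 h6)
        · rintro ⟨v, h4, h5⟩
          refine ⟨v, h4, ?_⟩
          have hl : ξ.length ≤ b0 := hb0 U hU' (n * j + n) ξ (It.add_iff.2 ⟨v, h4, h5⟩)
          rw [It.iff_sub] at h5 ⊢
          exact h5.mono' (fun Z _ w hw _ h6 => (hx2 Z w (hw.trans hl)).1 h6)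
    constructor
    · rintro ⟨v, h1, h2⟩
      rw [hIt] at h1
      obtain ⟨x, h3, h4⟩ := (Sub.comp (f := fun X ξ => It H n [X] ξ) (g := ω)).1 h2
      rw [← It.iff_sub] at h3
      have h5 : It H (n * (k + 1)) [U] x := by
        rw [Nat.mul_succ, It.add_iff]
        exact ⟨v, h1, h3⟩
      exact ⟨x, (hpow k x).1 h5, h4⟩
    · rintro ⟨x, h1, h2⟩
      have h5 := (hpow k x).2 h1
      rw [Nat.mul_succ, It.add_iff] at h5
      obtain ⟨v, h6, h7⟩ := h5
      refine ⟨v, (hIt _ _ _).2 h6, ?_⟩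
      refine (Sub.comp (f := fun X ξ => It H n [X] ξ) (g := ω)).2 ⟨x, ?_, h2⟩
      rw [← It.iff_sub]
      exact h7
  · intro X ξ Z h1 h2 h3
    exact Grow.up hne' h1 h2 h3
  · intro X hX
    exact Grow.down hfin' hX
  · intro X hX
    obtain ⟨Z, ⟨e, he⟩, q, hq⟩ := Grow.cyc hne' hfin' hX
    have hq1 : Rel H' 1 Z Z true false ∨ Rel H' 1 Z Z false true := by
      cases q with
      | zero =>
        exfalso
        rcases hq with ⟨γ, δ, h1, h2, h3⟩ | ⟨γ, δ, h1, h2, h3⟩
        · rw [It] at h1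
          have := congrArg List.length h1
          simp only [List.length_append, List.length_cons, List.length_nil] at this
          exact h2 rfl (List.eq_nil_of_length_eq_zero (by omega))
        · rw [It] at h1
          have := congrArg List.length h1
          simp only [List.length_append, List.length_cons, List.length_nil] at this
          exact h3 rfl (List.eq_nil_of_length_eq_zero (by omega))
      | succ q =>
        rcases hq with hq | hq
        · exact Or.inl ((Rel.idem_pow hne' hidem q Z Z true false).1 hq)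
        · exact Or.inr ((Rel.idem_pow hne' hidem q Z Z false true).1 hq)
    refine ⟨Z, ?_, hq1⟩
    have h1 : Rel H' 1 Z Z false false := by
      rcases hq1 with h | h
      · exact h.mono (by simp) (by simp)
      · exact h.mono (by simp) (by simp)
    exact (Rel.idem_pow hne' hidem e X Z false false).1 (Rel.comp hne' he h1)

end nice

end Pool.Agent.Helper230.E
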