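import Mathlib

/-!
# Grammar forms and EOL forms under s-interpretations

Letters are natural numbers, words are lists of letters, languages are sets of words and
language families are sets of languages.
-/

namespace Pool.Agent.Helper230.EForms

/-- The data `(V, T, P, S)` of a grammar: a finite alphabet `V`, the set `T` of terminals, a
finite set `P` of productions (the pair `(X, α)` is the production `X → α`) and a start letter
`S`. -/
structure Gram where
  V : Finset ℕ
  T : Finset ℕ
  P : Finset (ℕ × List ℕ)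
  S : ℕ

/-- `G` is a context-free grammar: the terminals are letters of `V`, the start letter is a
nonterminal, and every production is `A → α` with `A ∈ V - T` and `α ∈ V*` (the empty word
is allowed as a right side). -/
structure IsCF (G : Gram) : Prop where
  ter : G.T ⊆ G.V
  start : G.S ∈ G.V \ G.T
  prod : ∀ p ∈ G.P, p.1 ∈ G.V \ G.T ∧ ∀ x ∈ p.2, x ∈ G.V

/-- `G` is an EOL grammar: the terminals and the start letter are letters of `V`, every
production is `X → α` with `X ∈ V` and `α ∈ V*` (the empty word is allowed), and every letter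
of `V`, terminals included, has at least one production. -/
structure IsEOL (G : Gram) : Prop where
  ter : G.T ⊆ G.V
  start : G.S ∈ G.V
  prod : ∀ p ∈ G.P, p.1 ∈ G.V ∧ ∀ x ∈ p.2, x ∈ G.V
  total : ∀ X ∈ G.V, ∃ α, (X, α) ∈ G.P

/-- One sequential (context-free) derivation step. -/
def cfStep (G : Gram) (u v : List ℕ) : Prop :=
  ∃ (l r : List ℕ) (A : ℕ) (α : List ℕ), (A, α) ∈ G.P ∧ u = l ++ [A] ++ r ∧ v = l ++ α ++ r

/-- The language of a context-free grammar. -/
def cfLanguage (G : Gram) : Set (List ℕ) :=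
  {w | (∀ x ∈ w, x ∈ G.T) ∧ Relation.ReflTransGen (cfStep G) [G.S] w}

/-- One parallel derivation step: all letters are rewritten simultaneously. -/
def eolStep (G : Gram) (u v : List ℕ) : Prop :=
  ∃ αs : List (List ℕ), List.Forall₂ (fun X α => (X, α) ∈ G.P) u αs ∧ v = αs.flatten

/-- The language of an EOL grammar. -/
def eolLanguage (G : Gram) : Set (List ℕ) :=
  {w | (∀ x ∈ w, x ∈ G.T) ∧ Relation.ReflTransGen (eolStep G) [G.S] w}

/-- The conditions on the finite substitution `μ` that make `G₁` an s-interpretation of `G₂`. -/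
structure IsInterp (G₁ G₂ : Gram) (μ : ℕ → Finset ℕ) : Prop where
  ter : ∀ a ∈ G₂.T, μ a ⊆ G₁.T
  nonter : ∀ A ∈ G₂.V \ G₂.T, μ A ⊆ G₁.V \ G₁.T
  disj : ∀ X ∈ G₂.V, ∀ Y ∈ G₂.V, X ≠ Y → Disjoint (μ X) (μ Y)
  prod : ∀ p ∈ G₁.P, ∃ q ∈ G₂.P, p.1 ∈ μ q.1 ∧ List.Forall₂ (fun x' x => x' ∈ μ x) p.2 q.2
  start : G₁.S ∈ μ G₂.S

/-- The s-grammatical family of a context-free grammar form `G`. -/
def sFamily (G : Gram) : Set (Set (List ℕ)) :=
  {L | ∃ G', IsCF G' ∧ (∃ μ, IsInterp G' G μ) ∧ L = cfLanguage G'}

/-- The family of an EOL form `F`. -/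
def eolFamily (F : Gram) : Set (Set (List ℕ)) :=
  {L | ∃ F', IsEOL F' ∧ (∃ μ, IsInterp F' F μ) ∧ L = eolLanguage F'}

/-- The family of linear languages: the languages of context-free grammars all of whose right
sides contain at most one nonterminal. -/
def LIN : Set (Set (List ℕ)) :=
  {L | ∃ G, IsCF G ∧ (∀ p ∈ G.P, (p.2.filter (fun x => x ∈ G.V \ G.T)).length ≤ 1) ∧
    L = cfLanguage G}

/-- Containment of families; languages that differ at most by the empty word are identified. -/
def FamLE (𝓐 𝓑 : Set (Set (List ℕ))) : Prop :=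
  ∀ L ∈ 𝓐, ∃ L' ∈ 𝓑, L \ {[]} = L' \ {[]}

/-- Equality of families; languages that differ at most by the empty word are identified. -/
def FamEq (𝓐 𝓑 : Set (Set (List ℕ))) : Prop := FamLE 𝓐 𝓑 ∧ FamLE 𝓑 𝓐

end Pool.Agent.Helper230.EForms
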