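import Pool.Agent.Helper230.FEq

/-! Interpretations of the grammars of `FEq`. -/

set_option linter.constructorNameAsVariable false
set_option linter.unusedSectionVars false

namespace Pool.Agent.Helper230.FEq

open Pool.Agent.Helper230

/-- closure under letter-to-letter transducers, with a change of typing -/
theorem Gen.trans2 {G : GDat} {τ0 τ : ℕ → ℕ} {L : Set (List ℕ)} (hL : Gen G τ0 L) {Z : Type}
    [Finite Z] (δ : Z → ℕ → ℕ → Z → Prop) (D' : Finset ℕ) (z0 : Z) (Fi : Set Z)
    (hT : ∀ x ∈ D', τ x ∈ G.T)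
    (hδ : ∀ z x x' z', δ z x x' z' → x' ∈ D' ∧ (τ0 x = τ x' )) :
    Gen G τ {w' | ∃ w ∈ L, ∃ z ∈ Fi, Run δ z0 w w' z} := by
  obtain ⟨Q, hQ, ν, s, R, D, hs, hN, hD, hR, hRD, rfl⟩ := hL
  let ν' : Option (Z × Q × Z) → ℕ := fun o => o.elim G.S (fun p => ν p.2.1)
  have hdec : ∀ z β β' z', Dec δ z β β' z' →
      β'.map (Sum.elim ν' τ) = β.map (Sum.elim ν τ0) ∧ ∀ x, Sum.inr x ∈ β' → x ∈ D' := by
    intro z β β' z' h
    induction h with
    | nil z => exact ⟨rfl, by simp⟩
    | nt _ ih =>
      refine ⟨?_, ?_⟩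
      · rw [List.map_cons, List.map_cons, ih.1]; rfl
      · intro x hx
        rcases List.mem_cons.1 hx with hx | hx
        · simp at hx
        · exact ih.2 x hx
    | ter hx _ ih =>
      refine ⟨?_, ?_⟩
      · rw [List.map_cons, List.map_cons, ih.1, Sum.elim_inr, Sum.elim_inr, (hδ _ _ _ _ hx).2]
      · intro x h
        rcases List.mem_cons.1 h with h | h
        · simp only [Sum.inr.injEq] at h
          subst h
          exact (hδ _ _ _ _ hx).1
        · exact ih.2 x h
  refine ⟨Option (Z × Q × Z), inferInstance, ν', none, RT R s δ z0 Fi, D', rfl, ?_, hT, ?_, ?_, ?_⟩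
  · rintro (_ | ⟨z, q, z'⟩)
    · exact G.hS
    · exact hN q
  · rintro ⟨q, β'⟩ (⟨z, q0, z', β, h1, h2, h3⟩ | ⟨z', _, β, h1, h2, h3⟩)
    · dsimp only at h1 h3 ⊢
      subst h1
      rw [(hdec _ _ _ _ h3).1]
      exact hR _ h2
    · dsimp only at h1 h3 ⊢
      subst h1
      rw [(hdec _ _ _ _ h3).1]
      have := hR _ h2
      rw [hs] at this
      exact this
  · rintro ⟨q, β'⟩ (⟨z, q0, z', β, h1, h2, h3⟩ | ⟨z', _, β, h1, h2, h3⟩) x hx
    · exact (hdec _ _ _ _ h3).2 x hx
    · exact (hdec _ _ _ _ h3).2 x hx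
  · ext w'
    constructor
    · rintro ⟨w, ⟨n, hw⟩, z, hz, hr⟩
      obtain ⟨m, β, rfl, hβ, hd⟩ := hw.single_inv
      obtain ⟨β', h1, h2⟩ := dec_complete (s := s) (z0 := z0) (Fi := Fi) hd z0 w' z hr
      exact Der.single (Or.inr ⟨z, hz, β, rfl, hβ, h1⟩) ⟨m, h2⟩
    · rintro ⟨n, hw⟩
      obtain ⟨m, β', rfl, hβ, hd⟩ := hw.single_inv
      rcases hβ with ⟨z, q0, z', β, h1, h2, h3⟩ | ⟨z', hz', β, h1, h2, h3⟩
      · simp at h1
      · obtain ⟨w, h4, h5⟩ := dec_sound hd _ _ _ h3
        exact ⟨w, Der.single h2 ⟨m, h4⟩, z', hz', h5⟩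

theorem finite_words {α : Type} (E : Set α) (hE : E.Finite) (r : ℕ) :
    {w : List α | (∀ x ∈ w, x ∈ E) ∧ w.length < r}.Finite := by
  have : Finite E := hE
  have h : {w : List α | (∀ x ∈ w, x ∈ E) ∧ w.length < r} ⊆
      (fun w : List E => w.map Subtype.val) '' {w : List E | w.length < r} := by
    rintro w ⟨hw, hr⟩
    refine ⟨w.attach.map (fun x => ⟨x.1, hw x.1 x.2⟩), ?_, ?_⟩
    · simpa using hr
    · simp
  exact Set.Finite.subset (Set.Finite.image _ (List.finite_length_lt E r)) h

section reg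
variable {Q : Type}

/-- right-linear sentential forms -/
inductive RL : List (Q ⊕ ℕ) → Prop
  | nil : RL []
  | one (q : Q) : RL [Sum.inl q]
  | cons (a : ℕ) {u : List (Q ⊕ ℕ)} : RL u → RL (Sum.inr a :: u)

theorem RL.ters (l : List ℕ) {u : List (Q ⊕ ℕ)} (h : RL u) : RL (l.map Sum.inr ++ u) := by
  induction l with
  | nil => exact h
  | cons a l ih => exact RL.cons a ih

/-- a language generated by right-linear rules which is mapped into `L` is obtained from `L`
by a letter-to-letter transducer -/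
theorem Gen.reg {G : GDat} {τ : ℕ → ℕ} {L : Set (List ℕ)} (hL : Gen G id L) [Finite Q] (s : Q)
    (R : Set (Q × List (Q ⊕ ℕ))) (D : Finset ℕ) (hD : ∀ x ∈ D, τ x ∈ G.T)
    (hRD : ∀ r ∈ R, ∀ x, Sum.inr x ∈ r.2 → x ∈ D)
    (hRL : ∀ r ∈ R, ∃ a u, r.2 = Sum.inr a :: u ∧ RL u) (B : ℕ) (hB : ∀ r ∈ R, r.2.length < B)
    (hsub : ∀ w, Der (ExR R) [Sum.inl s] w → w.map τ ∈ L) :
    Gen G τ {w | Der (ExR R) [Sum.inl s] w} := by
  classical
  have hE : (Set.range (Sum.inl : Q → Q ⊕ ℕ) ∪ Sum.inr '' (D : Set ℕ)).Finite :=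
    (Set.finite_range _).union (Set.Finite.image _ D.finite_toSet)
  let Z : Set (List (Q ⊕ ℕ)) := {w : List (Q ⊕ ℕ) |
    (∀ x ∈ w, x ∈ (Set.range (Sum.inl : Q → Q ⊕ ℕ) ∪ Sum.inr '' (D : Set ℕ))) ∧
      w.length < B + 2}
  have hZf : Finite Z := finite_words _ hE (B + 2)
  have hZmem : ∀ u : List (Q ⊕ ℕ), (∀ x, Sum.inr x ∈ u → x ∈ D) → u.length < B + 2 → u ∈ Z := by
    intro u h1 h2
    refine ⟨?_, h2⟩
    intro x hx
    cases x with
    | inl q => exact Or.inl ⟨q, rfl⟩
    | inr x => exact Or.inr ⟨x, h1 x hx, rfl⟩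
  have hZD : ∀ u ∈ Z, ∀ x, Sum.inr x ∈ u → x ∈ D := by
    intro u hu x hx
    rcases hu.1 _ hx with ⟨q, hq⟩ | ⟨y, hy, hyx⟩
    · simp at hq
    · have : y = x := by simpa using hyx
      subst this; exact hy
  let δ : Z → ℕ → ℕ → Z → Prop := fun z x x' z' => (x' ∈ D ∧ x = τ x') ∧
    (z.1 = Sum.inr x' :: z'.1 ∨ ∃ q, z.1 = [Sum.inl q] ∧ (q, Sum.inr x' :: z'.1) ∈ R)
  let z0 : Z := ⟨[Sum.inl s], hZmem _ (by simp) (by simp)⟩
  have h1 := Gen.trans2 hL (τ := τ) δ D z0 {z | z.1 = []} hD (fun z x x' z' h => h.1)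
  have sound : ∀ (z z' : Z) (w w' : List ℕ), Run δ z w w' z' → z'.1 = [] →
      w = w'.map τ ∧ Der (ExR R) z.1 w' := by
    intro z z' w w' h
    induction h with
    | nil z => intro hz; rw [hz]; exact ⟨rfl, Der.nil⟩
    | cons hd _ ih =>
      intro hz
      obtain ⟨h2, h3⟩ := ih hz
      obtain ⟨⟨h4, h5⟩, h6 | ⟨q, h6, h7⟩⟩ := hd
      · rw [h6]
        exact ⟨by rw [List.map_cons, h2, h5], Der.ter _ h3⟩
      · rw [h6]
        exact ⟨by rw [List.map_cons, h2, h5], Der.single h7 (Der.ter _ h3)⟩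
  let zf : Z := ⟨[], hZmem _ (by simp) (by simp)⟩
  have complete : ∀ (n : ℕ) (u : List (Q ⊕ ℕ)) (w' : List ℕ), DerN (ExR R) n u w' → RL u →
      ∀ hu : u ∈ Z, Run δ ⟨u, hu⟩ (w'.map τ) w' zf := by
    intro n u w' h
    induction h with
    | nil n => intro _ hu; exact Run.nil _
    | @ter n u w a _ ih =>
      intro hrl hu
      have hu' : u ∈ Z := hZmem u (fun x hx => hZD _ hu x (List.mem_cons_of_mem _ hx)) (by
        have := hu.2
        simp only [List.length_cons] at this
        omega)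
      cases hrl with
      | cons _ hrl =>
        exact Run.cons (z' := ⟨u, hu'⟩) ⟨⟨hZD _ hu a List.mem_cons_self, rfl⟩, Or.inl rfl⟩
          (ih hrl hu')
    | @nt n q x u w1 w2 hx _ hd2 ih1 _ =>
      intro hrl hu
      cases hrl with
      | one _ =>
        have hw2 : w2 = [] := DerN.nil_inv hd2
        subst hw2
        rw [List.append_nil]
        obtain ⟨a, v, hxe, hv⟩ := hRL _ hx
        dsimp only at hxe
        subst hxe
        have hxZ : (Sum.inr a :: v : List (Q ⊕ ℕ)) ∈ Z := hZmem _ (hRD _ hx) (by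
          have := hB _ hx
          dsimp only at this
          omega)
        have h2 := ih1 (RL.cons a hv) hxZ
        generalize hw : w1.map τ = w at h2 ⊢
        generalize hz1 : (⟨Sum.inr a :: v, hxZ⟩ : Z) = z1 at h2
        generalize hz2 : zf = z2 at h2 ⊢
        cases h2 with
        | nil _ =>
          exfalso
          rw [← hz2] at hz1
          have := congrArg Subtype.val hz1
          simp [zf] at this
        | cons hd hr =>
          obtain ⟨h4, h5 | ⟨q', h6, h7⟩⟩ := hd
          · refine Run.cons ⟨h4, Or.inr ⟨q, rfl, ?_⟩⟩ hr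
            rw [← hz1] at h5
            dsimp only at h5
            rw [← h5]
            exact hx
          · rw [← hz1] at h6
            simp at h6
  convert h1 using 1
  ext w'
  simp only [Set.mem_ofPred_eq]
  constructor
  · intro hw
    obtain ⟨n, hn⟩ := hw
    exact ⟨w'.map τ, hsub w' ⟨n, hn⟩, zf, rfl, complete n _ _ hn (RL.one s) z0.2⟩
  · rintro ⟨w, hw, z, hz, hr⟩
    exact (sound _ _ _ _ hr hz).2

end reg

/-- restriction of a derivation to the rules with left side in a closed set -/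
theorem DerN.restrict {Q : Type} {R R' : Set (Q × List (Q ⊕ ℕ))} (C : Set Q)
    (hC : ∀ q α, (q, α) ∈ R → q ∈ C → (q, α) ∈ R' ∧ ∀ q', Sum.inl q' ∈ α → q' ∈ C) {n : ℕ}
    {u : List (Q ⊕ ℕ)} {w : List ℕ} (hd : DerN (ExR R) n u w) :
    (∀ q', Sum.inl q' ∈ u → q' ∈ C) → DerN (ExR R') n u w := by
  induction hd with
  | nil n => intro _; exact DerN.nil n
  | ter a _ ih => intro h; exact DerN.ter a (ih (fun q' hq' => h q' (List.mem_cons_of_mem _ hq')))
  | nt hx _ _ ih1 ih2 =>
    intro h
    have h1 := hC _ _ hx (h _ List.mem_cons_self)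
    exact DerN.nt h1.1 (ih1 h1.2) (ih2 (fun q' hq' => h q' (List.mem_cons_of_mem _ hq')))

theorem DerN.type {Q Q' : Type} {R : Set (Q × List (Q ⊕ ℕ))} {R' : Set (Q' × List (Q' ⊕ ℕ))}
    (f : Q → Q') (τ : ℕ → ℕ) (h : ∀ q α, (q, α) ∈ R → (f q, α.map (Sum.map f τ)) ∈ R') {n : ℕ}
    {u : List (Q ⊕ ℕ)} {w : List ℕ} (hd : DerN (ExR R) n u w) :
    DerN (ExR R') n (u.map (Sum.map f τ)) (w.map τ) := by
  induction hd with
  | nil n => exact DerN.nil n
  | ter a _ ih => exact DerN.ter (τ a) ih
  | nt hx _ _ ih1 ih2 =>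
    rw [List.map_append]
    exact DerN.nt (h _ _ hx) ih1 ih2

/-- interpretations typed by `NT` -/
def GenR (R0 : Set (NT × List (NT ⊕ ℕ))) (T : Set ℕ) (τ : ℕ → ℕ) (L : Set (List ℕ)) : Prop :=
  ∃ (Q : Type) (_ : Finite Q) (A : Q → NT) (s : Q) (R : Set (Q × List (Q ⊕ ℕ))) (D : Finset ℕ),
    A s = NT.S ∧ (∀ x ∈ D, τ x ∈ T) ∧
    (∀ q α, (q, α) ∈ R → (A q, α.map (Sum.map A τ)) ∈ R0) ∧
    (∀ q α, (q, α) ∈ R → ∀ x, Sum.inr x ∈ α → x ∈ D) ∧ L = {w | Der (ExR R) [Sum.inl s] w}

/-- the grammar data given by a set of rules over `NT` -/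
structure IsDat (G : GDat) (R0 : Set (NT × List (NT ⊕ ℕ))) (T : Set ℕ) : Prop where
  hN : G.N = Set.range code
  hT : G.T = T
  hS : G.S = code .S
  hP : ∀ p, p ∈ G.P ↔ ∃ r ∈ R0, p = (code r.1, r.2.map (Sum.elim code id))
  ge : ∀ x ∈ T, 8 ≤ x
  ter : ∀ r ∈ R0, ∀ x, Sum.inr x ∈ r.2 → x ∈ T

def unc (n : ℕ) : NT ⊕ ℕ := if n < 8 then Sum.inl (deco n) else Sum.inr n

theorem unc_map {T : Set ℕ} (hT : ∀ x ∈ T, 8 ≤ x) {α : List (NT ⊕ ℕ)}
    (h : ∀ x, Sum.inr x ∈ α → x ∈ T) : (α.map (Sum.elim code id)).map unc = α := by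
  rw [List.map_map]
  conv_rhs => rw [← List.map_id α]
  apply List.map_congr_left
  intro x hx
  cases x with
  | inl A =>
    simp only [Function.comp_apply, Sum.elim_inl, unc, if_pos (code_lt A), deco_code, id_eq]
  | inr x =>
    have h8 : ¬ x < 8 := by have := hT x (h x hx); omega
    simp only [Function.comp_apply, Sum.elim_inr, unc, id_eq, if_neg h8]

theorem gen_iff {G : GDat} {R0 : Set (NT × List (NT ⊕ ℕ))} {T : Set ℕ} (hG : IsDat G R0 T)
    (τ : ℕ → ℕ) (L : Set (List ℕ)) : Gen G τ L ↔ GenR R0 T τ L := by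
  constructor
  · rintro ⟨Q, hQ, ν, s, R, D, hs, hN, hD, hR, hRD, rfl⟩
    have h1 : ∀ q, ∃ A, code A = ν q := by
      intro q
      have := hN q
      rw [hG.hN] at this
      exact this
    choose A hA using h1
    refine ⟨Q, hQ, A, s, R, D, ?_, ?_, ?_, fun q α h => hRD _ h, rfl⟩
    · have h2 := hA s
      rw [hs, hG.hS] at h2
      rw [← deco_code (A s), h2, deco_code]
    · intro x hx
      have := hD x hx
      rwa [hG.hT] at this
    · intro q α h
      obtain ⟨⟨B, γ⟩, hr, he⟩ := (hG.hP _).1 (hR _ h)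
      rw [Prod.mk.injEq] at he
      obtain ⟨he1, he2⟩ := he
      dsimp only at he1 he2
      have h2 : A q = B := by
        rw [← deco_code (A q), hA, he1, deco_code]
      have h3 : α.map (Sum.map A τ) = γ := by
        rw [← unc_map (α := γ) hG.ge (fun x hx => hG.ter _ hr x hx), ← he2]
        have h4 : α.map (Sum.elim ν τ) = (α.map (Sum.map A τ)).map (Sum.elim code id) := by
          rw [List.map_map]
          apply List.map_congr_left
          intro x _
          cases x with
          | inl q' => simp [hA]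
          | inr x => rfl
        rw [h4, unc_map hG.ge]
        intro x hx
        obtain ⟨y, hy, hxy⟩ := List.mem_map.1 hx
        cases y with
        | inl q' => simp at hxy
        | inr y =>
          have h5 : τ y = x := by simpa using hxy
          rw [← h5]
          have := hD y (hRD _ h y hy)
          rwa [hG.hT] at this
      rw [h2, h3]
      exact hr
  · rintro ⟨Q, hQ, A, s, R, D, hs, hD, hR, hRD, rfl⟩
    refine ⟨Q, hQ, fun q => code (A q), s, R, D, ?_, ?_, ?_, ?_, fun r hr => hRD _ _ hr, rfl⟩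
    · dsimp only
      rw [hs, hG.hS]
    · intro q
      rw [hG.hN]
      exact ⟨_, rfl⟩
    · intro x hx
      rw [hG.hT]
      exact hD x hx
    · rintro ⟨q, α⟩ hr
      refine (hG.hP _).2 ⟨_, hR q α hr, ?_⟩
      dsimp only
      rw [List.map_map]
      congr 1
      apply List.map_congr_left
      intro x _
      cases x <;> rfl

theorem genR_id {R0 : Set (NT × List (NT ⊕ ℕ))} {T : Finset ℕ}
    (hter : ∀ r ∈ R0, ∀ x, Sum.inr x ∈ r.2 → x ∈ T) :
    GenR R0 T id {w | Der (ExR R0) [Sum.inl NT.S] w} := by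
  refine ⟨NT, inferInstance, id, NT.S, R0, T, rfl, fun x hx => hx, ?_, fun q α h => hter _ h, rfl⟩
  intro q α h
  rw [Sum.map_id_id, List.map_id]
  exact h

section main

variable {S : Type} [Fintype S] (Φ : S → S → List S) (K : S)
  (t : Option ((S ⊕ S × S) ⊕ S) → ℕ)

theorem ne_family {z : List S} (ht : Function.Injective t) {T : Set ℕ}
    (h : Sol Φ K z) (τ : ℕ → ℕ) :
    ¬ GenR (S2 Φ K t) T τ {w | Der (ExR (S1 Φ K t z)) [Sum.inl NT.S] w} := by
  rintro ⟨Q, hQ, A, s, R, D, hs, hD, hR, hRD, hL⟩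
  obtain ⟨w, hw1, hw2⟩ := not_sub_of_sol Φ K t ht h
  have hw3 : Der (ExR (S1 Φ K t z)) [Sum.inl NT.S] w := by
    obtain ⟨n, hn⟩ := hw1
    exact ⟨n, DerN.mono_set Set.subset_union_right hn⟩
  have hw4 : Der (ExR R) [Sum.inl s] w := by
    have : w ∈ {w | Der (ExR (S1 Φ K t z)) [Sum.inl NT.S] w} := hw3
    rw [hL] at this
    exact this
  obtain ⟨n, hn⟩ := hw4
  have h1 := DerN.type A τ hR hn
  have h2 : Der (ExR (S2 Φ K t)) [Sum.inl NT.S] (w.map τ) := by
    refine ⟨n, ?_⟩
    rw [List.map_cons, List.map_nil, Sum.map_inl, hs] at h1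
    exact h1
  have h3 := lang2_pre Φ K t h2
  have h4 := langB_pre t hw1
  obtain ⟨v, hv⟩ := h4
  obtain ⟨v', hv'⟩ := h3
  have h5 : (pre t).map τ = pre t := by
    rw [← hv, List.map_append] at hv'
    exact (List.append_inj_left hv' (by simp)).symm
  have h6 : ∀ a, τ (t a) = t a := by
    intro a
    have h7 : t a ∈ pre t := by simp [pre]
    have h8 : (pre t).map τ = (pre t).map id := by rw [h5, List.map_id]
    exact (List.map_inj_left.1 h8) _ h7
  apply hw2
  have h9 : w.map τ = w := by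
    conv_rhs => rw [← List.map_id w]
    apply List.map_congr_left
    intro x hx
    obtain ⟨m, hm⟩ := hw1
    have h10 := sat_sound (langB_sound t z) hm
    rw [sat_one] at h10
    obtain ⟨p, y, -, rfl⟩ := h10
    have : ∃ a, t a = x := by
      simp only [enc, rv, pre, List.mem_append, List.mem_map, List.mem_cons, List.mem_reverse] at hx
      rcases hx with ⟨a, _, rfl⟩ | ⟨a, _, rfl⟩ | rfl | ⟨a, _, rfl⟩
      · exact ⟨a, rfl⟩
      · exact ⟨_, rfl⟩
      · exact ⟨_, rfl⟩
      · exact ⟨_, rfl⟩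
    obtain ⟨a, rfl⟩ := this
    exact h6 a
  rw [← h9]
  exact h2

theorem eq_family {z : List S} {G : GDat} {T : Finset ℕ} (hG : IsDat G (S2 Φ K t) T)
    (h : ¬ Sol Φ K z) (τ : ℕ → ℕ) (L : Set (List ℕ)) (hL : GenR (S1 Φ K t z) T τ L) :
    GenR (S2 Φ K t) T τ L := by
  classical
  obtain ⟨Q, hQ, A, s, R, D, hs, hD, hR, hRD, rfl⟩ := hL
  let Ra : Set (Q × List (Q ⊕ ℕ)) := {r | r ∈ R ∧ (A r.1, r.2.map (Sum.map A τ)) ∈ S2 Φ K t}
  let Rb : Set (Q × List (Q ⊕ ℕ)) := {r | r ∈ R ∧ (A r.1, r.2.map (Sum.map A τ)) ∈ SB t z}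
  have ha : Gen G τ {w | Der (ExR Ra) [Sum.inl s] w} := by
    rw [gen_iff hG]
    exact ⟨Q, hQ, A, s, Ra, D, hs, hD, fun q α h => h.2, fun q α h => hRD q α h.1, rfl⟩
  have hid : Gen G id {w | Der (ExR (S2 Φ K t)) [Sum.inl NT.S] w} := by
    rw [gen_iff hG]
    exact genR_id hG.ter
  have hb : Gen G τ {w | Der (ExR Rb) [Sum.inl s] w} := by
    refine Gen.reg hid s Rb D ?_ (fun r hr => hRD r.1 r.2 hr.1) ?_
      ((sw t z).length + 10) ?_ ?_
    · intro x hx
      rw [hG.hT]
      exact hD x hx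
    · rintro ⟨q, α⟩ ⟨-, hr⟩
      dsimp only at hr ⊢
      have key : ∀ γ : List (NT ⊕ ℕ), (∃ a u, γ = Sum.inr a :: u ∧ RL u) →
          ∀ α : List (Q ⊕ ℕ), α.map (Sum.map A τ) = γ → ∃ a u, α = Sum.inr a :: u ∧ RL u := by
        have key1 : ∀ γ : List (NT ⊕ ℕ), RL γ →
          ∀ α : List (Q ⊕ ℕ), α.map (Sum.map A τ) = γ → RL α := by
          intro γ hγ
          induction hγ with
          | nil => intro α hα; rw [List.map_eq_nil_iff] at hα; rw [hα]; exact RL.nil
          | one q =>
            intro α hα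
            match α, hα with
            | [Sum.inl q'], _ => exact RL.one q'
            | [Sum.inr x], hα => simp at hα
          | cons a _ ih =>
            intro α hα
            match α, hα with
            | Sum.inl q' :: _, hα => simp at hα
            | Sum.inr x :: α', hα =>
              simp only [List.map_cons, List.cons.injEq] at hα
              exact RL.cons x (ih α' hα.2)
        rintro γ ⟨a, u, rfl, hu⟩ α hα
        match α, hα with
        | Sum.inl q' :: _, hα => simp at hα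
        | Sum.inr x :: α', hα =>
          simp only [List.map_cons, List.cons.injEq] at hα
          exact ⟨x, α', rfl, key1 u hu α' hα.2⟩
      refine key _ ?_ α rfl
      rcases hr with hr | hr
      · have h2 : α.map (Sum.map A τ) = (sw t z).map Sum.inr ++ [Sum.inl .X] :=
          congrArg Prod.snd hr
        rw [h2]
        have h3 : sw t z ≠ [] := by
          simp only [sw, pre, ne_eq, List.append_eq_nil_iff, List.map_eq_nil_iff,
            Finset.toList_eq_nil, not_and]
          intro h4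
          exact absurd (Finset.mem_univ none) (by rw [h4]; simp)
        obtain ⟨a, l, hl⟩ := List.exists_cons_of_ne_nil h3
        rw [hl]
        exact ⟨a, l.map Sum.inr ++ [Sum.inl .X], rfl, RL.ters l (RL.one _)⟩
      · change RF t _ _ at hr
        generalize α.map (Sum.map A τ) = γ at hr
        generalize A q = B at hr
        cases hr with
        | x1 p => exact ⟨_, _, rfl, RL.one _⟩
        | x2 => exact ⟨_, _, rfl, RL.one _⟩
        | y1 s => exact ⟨_, _, rfl, RL.one _⟩
        | y2 s => exact ⟨_, _, rfl, RL.nil⟩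
    · rintro ⟨q, α⟩ ⟨-, hr⟩
      dsimp only at hr ⊢
      have h1 : α.length = (α.map (Sum.map A τ)).length := by simp
      rw [h1]
      rcases hr with hr | hr
      · have h2 : α.map (Sum.map A τ) = (sw t z).map Sum.inr ++ [Sum.inl .X] :=
          congrArg Prod.snd hr
        rw [h2]
        simp
      · change RF t _ _ at hr
        generalize α.map (Sum.map A τ) = γ at hr
        generalize A q = B at hr
        cases hr <;> simp
    · rintro w ⟨n, hn⟩
      have h1 := DerN.type A τ (R' := SB t z) (fun q α h => h.2) hn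
      rw [List.map_cons, List.map_nil, Sum.map_inl, hs] at h1
      have h2 := sat_sound (langB_sound t z) h1
      rw [sat_one] at h2
      exact sub_of_not_sol Φ K t h _ h2
  have hU : {w | Der (ExR R) [Sum.inl s] w} =
      ⋃ b : Bool, (if b then {w | Der (ExR Ra) [Sum.inl s] w} else
        {w | Der (ExR Rb) [Sum.inl s] w}) := by
    ext w
    simp only [Set.mem_iUnion, Bool.exists_bool, if_true, Set.mem_ofPred_eq, Bool.false_eq_true,
      if_false]
    constructor
    · rintro ⟨n, hn⟩
      obtain ⟨m, α, rfl, hα, hd⟩ := hn.single_inv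
      have hty := hR _ _ hα
      rw [hs] at hty
      rcases hty with h1 | h1
      · right
        refine Der.single (q := s) ⟨hα, by rw [hs]; exact h1⟩ ⟨m, ?_⟩
        refine DerN.restrict {q | A q ≠ .S ∧ A q ≠ .X ∧ A q ≠ .Y} ?_ hd ?_
        · intro q γ hq ⟨h2, h3, h4⟩
          have h5 := hR _ _ hq
          have h6 : (A q, γ.map (Sum.map A τ)) ∈ S2 Φ K t := by
            rcases h5 with h5 | h5 | h5
            · exact h5
            · exact absurd (congrArg Prod.fst h5) h2
            · change RF t _ _ at h5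
              exfalso
              generalize γ.map (Sum.map A τ) = γ' at h5
              generalize A q = B at *
              cases h5 <;> simp at h3 h4
          refine ⟨⟨hq, h6⟩, ?_⟩
          intro q' hq'
          have h7 : Sum.inl (A q') ∈ γ.map (Sum.map A τ) :=
            List.mem_map.2 ⟨_, hq', rfl⟩
          change R2 Φ K t _ _ at h6
          change A q' ≠ .S ∧ A q' ≠ .X ∧ A q' ≠ .Y
          clear h5
          generalize γ.map (Sum.map A τ) = γ' at h6 h7
          generalize A q' = C at *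
          generalize A q = B at *
          cases h6 <;> simp_all
        · intro q' hq'
          have h7 : Sum.inl (A q') ∈ α.map (Sum.map A τ) :=
            List.mem_map.2 ⟨_, hq', rfl⟩
          change R2 Φ K t _ _ at h1
          generalize α.map (Sum.map A τ) = γ' at h1 h7
          change A q' ≠ .S ∧ A q' ≠ .X ∧ A q' ≠ .Y
          generalize A q' = C at *
          generalize hN : NT.S = N at h1
          cases h1 <;> simp_all
      · left
        refine Der.single (q := s) ⟨hα, by rw [hs]; exact h1⟩ ⟨m, ?_⟩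
        refine DerN.restrict {q | A q = .X ∨ A q = .Y} ?_ hd ?_
        · intro q γ hq h2
          have h5 := hR _ _ hq
          have h6 : (A q, γ.map (Sum.map A τ)) ∈ SB t z := by
            rcases h5 with h5 | h5
            · change R2 Φ K t _ _ at h5
              exfalso
              change A q = .X ∨ A q = .Y at h2
              generalize γ.map (Sum.map A τ) = γ' at h5
              generalize A q = B at *
              cases h5 <;> simp at h2
            · exact h5
          refine ⟨⟨hq, h6⟩, ?_⟩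
          intro q' hq'
          have h7 : Sum.inl (A q') ∈ γ.map (Sum.map A τ) :=
            List.mem_map.2 ⟨_, hq', rfl⟩
          change A q' = .X ∨ A q' = .Y
          change A q = .X ∨ A q = .Y at h2
          rcases h6 with h6 | h6
          · have h8 : A q = .S := congrArg Prod.fst h6
            rw [h8] at h2
            simp at h2
          · change RF t _ _ at h6
            generalize γ.map (Sum.map A τ) = γ' at h6 h7
            generalize A q' = C at *
            generalize A q = B at *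
            cases h6 <;> simp_all
        · intro q' hq'
          have h7 : Sum.inl (A q') ∈ α.map (Sum.map A τ) :=
            List.mem_map.2 ⟨_, hq', rfl⟩
          change A q' = .X ∨ A q' = .Y
          rcases h1 with h1 | h1
          · have h2 : α.map (Sum.map A τ) = (sw t z).map Sum.inr ++ [Sum.inl .X] :=
              congrArg Prod.snd h1
            rw [h2] at h7
            simp at h7
            exact Or.inl h7
          · change RF t _ _ at h1
            generalize α.map (Sum.map A τ) = γ' at h1 h7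
            generalize A q' = C at *
            generalize hN : NT.S = N at h1
            cases h1 <;> simp_all
    · rintro (⟨n, hn⟩ | ⟨n, hn⟩)
      · exact ⟨n, DerN.mono_set (fun r hr => hr.1) hn⟩
      · exact ⟨n, DerN.mono_set (fun r hr => hr.1) hn⟩
  rw [← gen_iff hG, hU]
  refine Gen.iUnion Bool _ ?_
  rintro (_ | _)
  · simpa using hb
  · simpa using ha

end main

end Pool.Agent.Helper230.FEq
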