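import Pool.Agent.Helper230.EForms
import Pool.Agent.Helper230.CL0
import Pool.Agent.Helper230.FEq2

/-! Context-free grammars as rule sets: glue between the official and the working notions. -/

namespace Pool.Agent.Helper230.EForms

open Pool.Agent.Helper230 Pool.Agent.Helper230.E

theorem all_ters {Q : Type} {T' : Finset ℕ} (e : Q → ℕ) (he : ∀ q, e q ∉ T')
    (U : List (Q ⊕ ℕ)) (hw : ∀ x ∈ U.map (Sum.elim e id), x ∈ T') :
    U = (U.map (Sum.elim e id)).map Sum.inr := by
  induction U with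
  | nil => rfl
  | cons x U ih =>
    have ih' := ih (fun y hy => hw y (by rw [List.map_cons]; exact List.mem_cons_of_mem _ hy))
    cases x with
    | inl q => exact absurd (hw (e q) (by simp)) (he q)
    | inr x =>
      rw [List.map_cons, List.map_cons, ← ih']
      rfl

theorem lang_eq (G' : Gram) {Q : Type} (e : Q → ℕ) (R : Set (Q × List (Q ⊕ ℕ))) (s : Q)
    (hs : G'.S = e s) (he : ∀ q, e q ∉ G'.T) (hwf : ∀ p ∈ G'.P, p.1 ∉ G'.T)
    (h1 : ∀ q β, (q, β) ∈ R → (e q, β.map (Sum.elim e id)) ∈ G'.P ∧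
      ∀ x, Sum.inr x ∈ β → x ∈ G'.T)
    (h2 : ∀ q γ, (e q, γ) ∈ G'.P → ∃ β, (q, β) ∈ R ∧ γ = β.map (Sum.elim e id)) :
    cfLanguage G' = {w | Der (ExR R) [Sum.inl s] w} := by
  ext w
  constructor
  · rintro ⟨hw, hd⟩
    have key : ∀ u, Relation.ReflTransGen (cfStep G') u w → ∀ U : List (Q ⊕ ℕ),
        u = U.map (Sum.elim e id) → (∀ x, Sum.inr x ∈ U → x ∈ G'.T) → Der (ExR R) U w := by
      intro u hu
      induction hu using Relation.ReflTransGen.head_induction_on with
      | refl =>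
        intro U hU _
        have : U = w.map Sum.inr := by
          subst hU
          exact all_ters (T' := G'.T) e he U hw
        rw [this]
        exact Der.of_ters w
      | head hstep _ ih =>
        intro U hU hT
        obtain ⟨l, r, A, β, hA, rfl, rfl⟩ := hstep
        have hU' : U.map (Sum.elim e id) = l ++ A :: r := by rw [← hU]; simp
        obtain ⟨U1, U2, rfl, h3, h4⟩ := List.map_eq_append_iff.1 hU'
        obtain ⟨x, U3, rfl, h5, h6⟩ := List.map_eq_cons_iff.1 h4
        cases x with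
        | inr x =>
          exfalso
          have h7 : x = A := h5
          subst h7
          exact hwf _ hA (hT x (by simp))
        | inl q =>
          have h7 : e q = A := h5
          subst h7
          obtain ⟨β0, hβ0, rfl⟩ := h2 q β hA
          have h8 := ih (U1 ++ β0 ++ U3) (by simp [h3, h6]) (by
            intro x hx
            rw [List.mem_append, List.mem_append] at hx
            rcases hx with (hx | hx) | hx
            · exact hT x (List.mem_append_left _ hx)
            · exact (h1 _ _ hβ0).2 x hx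
            · exact hT x (List.mem_append_right _ (List.mem_cons_of_mem _ hx)))
          exact Der.of_step ⟨U1, U3, q, β0, rfl, hβ0, rfl⟩ h8
    exact key _ hd [Sum.inl s] (by simp [hs]) (by simp)
  · rintro hd
    have hd' := (rtg_iff_Der _ _).2 hd
    obtain ⟨n, hn⟩ := hd
    refine ⟨?_, ?_⟩
    · exact DerN_letters (D := G'.T) (fun r hr x hx => (h1 r.1 r.2 hr).2 x hx) hn (by simp)
    · have h3 : ∀ u v, Step (ExR R) u v →
          cfStep G' (u.map (Sum.elim e id)) (v.map (Sum.elim e id)) := by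
        rintro _ _ ⟨pre, suf, q, x, rfl, hx, rfl⟩
        exact ⟨pre.map (Sum.elim e id), suf.map (Sum.elim e id), e q, x.map (Sum.elim e id),
          (h1 _ _ hx).1, by simp, by simp⟩
      have h4 := Relation.ReflTransGen.lift (r := Step (ExR R)) (p := cfStep G')
        (fun u => u.map (Sum.elim e id)) h3 _ _ hd'
      have h5 : (w.map (Sum.inr : ℕ → Q ⊕ ℕ)).map (Sum.elim e id) = w := by
        rw [List.map_map]
        conv_rhs => rw [← List.map_id w]
        rfl
      simp only [Function.onFun] at h4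
      rw [h5] at h4
      simpa [hs] using h4

def dat (G : Gram) (h : IsCF G) : GDat where
  N := {x | x ∈ G.V \ G.T}
  T := G.T
  S := G.S
  P := G.P
  disj := fun x hx h' => (Finset.mem_sdiff.1 hx).2 h'
  hS := h.start
  wf := fun p hp => ⟨(h.prod p hp).1, fun x hx => by
    by_cases hT : x ∈ G.T
    · exact Or.inr hT
    · exact Or.inl (Finset.mem_sdiff.2 ⟨(h.prod p hp).2 x hx, hT⟩)⟩

theorem exists_gram {Q : Type} [Finite Q] (R : Set (Q × List (Q ⊕ ℕ))) (hR : R.Finite) (s : Q)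
    (D : Finset ℕ) (hRD : ∀ r ∈ R, ∀ x, Sum.inr x ∈ r.2 → x ∈ D) :
    ∃ (G : Gram) (e : Q → ℕ), Function.Injective e ∧ (∀ q, e q ∉ D) ∧ IsCF G ∧ G.T = D ∧
      (∀ x, x ∈ G.V ↔ x ∈ D ∨ ∃ q, e q = x) ∧
      (∀ p, p ∈ G.P ↔ ∃ q β, (q, β) ∈ R ∧ (e q, β.map (Sum.elim e id)) = p) ∧ G.S = e s ∧
      cfLanguage G = {w | Der (ExR R) [Sum.inl s] w} := by
  classical
  have : Fintype Q := Fintype.ofFinite Q
  obtain ⟨idx, hidx⟩ := exists_injective_nat Q
  let M : ℕ := D.sup id + 1
  have hM : ∀ x ∈ D, x < M := fun x hx => Nat.lt_succ_of_le (Finset.le_sup (f := id) hx)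
  let e : Q → ℕ := fun q => M + idx q
  have he : Function.Injective e := by
    intro q q' h
    apply hidx
    simp only [e] at h
    omega
  have heD : ∀ q, e q ∉ D := by
    intro q h
    have := hM _ h
    simp only [e] at this
    omega
  let P' : Finset (ℕ × List ℕ) := hR.toFinset.image (fun r => (e r.1, r.2.map (Sum.elim e id)))
  have hP' : ∀ p, p ∈ P' ↔ ∃ q β, (q, β) ∈ R ∧ (e q, β.map (Sum.elim e id)) = p := by
    intro p
    simp only [P', Finset.mem_image, Set.Finite.mem_toFinset, Prod.exists]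
  let V' : Finset ℕ := D ∪ Finset.univ.image e
  have hV' : ∀ x, x ∈ V' ↔ x ∈ D ∨ ∃ q, e q = x := by
    intro x
    simp only [V', Finset.mem_union, Finset.mem_image, Finset.mem_univ, true_and]
  refine ⟨⟨V', D, P', e s⟩, e, he, heD, ⟨?_, ?_, ?_⟩, rfl, hV', hP', rfl, ?_⟩
  · intro x hx
    exact (hV' x).2 (Or.inl hx)
  · exact Finset.mem_sdiff.2 ⟨(hV' _).2 (Or.inr ⟨s, rfl⟩), heD s⟩
  · intro p hp
    obtain ⟨q, β, hr, rfl⟩ := (hP' p).1 hp
    refine ⟨Finset.mem_sdiff.2 ⟨(hV' _).2 (Or.inr ⟨q, rfl⟩), heD q⟩, ?_⟩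
    intro x hx
    obtain ⟨y, hy, rfl⟩ := List.mem_map.1 hx
    rcases y with q' | c
    · exact (hV' _).2 (Or.inr ⟨q', rfl⟩)
    · exact (hV' _).2 (Or.inl (hRD _ hr c hy))
  · refine lang_eq _ e R s rfl heD ?_ ?_ ?_
    · intro p hp
      obtain ⟨q, β, hr, rfl⟩ := (hP' p).1 hp
      exact heD q
    · intro q β hr
      exact ⟨(hP' _).2 ⟨q, β, hr, rfl⟩, hRD _ hr⟩
    · intro q γ hγ
      obtain ⟨q', β, hr, heq⟩ := (hP' _).1 hγ
      rw [Prod.mk.injEq] at heq
      have := he heq.1
      subst this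
      exact ⟨β, hr, heq.2.symm⟩

theorem gen_finite {G : Gram} (hG : IsCF G) {τ : ℕ → ℕ} {Q : Type} [Finite Q] {ν : Q → ℕ}
    {R : Set (Q × List (Q ⊕ ℕ))} {D : Finset ℕ}
    (hR : ∀ r ∈ R, (ν r.1, r.2.map (Sum.elim ν τ)) ∈ (dat G hG).P)
    (hRD : ∀ r ∈ R, ∀ x, Sum.inr x ∈ r.2 → x ∈ D) : R.Finite := by
  obtain ⟨n, hn⟩ : ∃ n, ∀ p ∈ G.P, p.2.length < n := by
    refine ⟨G.P.sup (fun p => p.2.length) + 1, fun p hp => Nat.lt_succ_of_le ?_⟩
    exact Finset.le_sup (f := fun p : ℕ × List ℕ => p.2.length) hp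
  have hE : (Set.range (Sum.inl : Q → Q ⊕ ℕ) ∪ Sum.inr '' (D : Set ℕ)).Finite :=
    (Set.finite_range _).union (Set.Finite.image _ D.finite_toSet)
  refine ((Set.finite_univ (α := Q)).prod (FEq.finite_words _ hE n)).subset ?_
  rintro ⟨q, β⟩ hr
  refine ⟨Set.mem_univ _, ?_, ?_⟩
  · intro x hx
    cases x with
    | inl q => exact Or.inl ⟨q, rfl⟩
    | inr x => exact Or.inr ⟨x, hRD _ hr x hx, rfl⟩
  · have := hn _ (hR _ hr)
    simpa using this

theorem gen_fam {G : Gram} (hG : IsCF G) {τ : ℕ → ℕ} {L : Set (List ℕ)}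
    (hL : Gen (dat G hG) τ L) : L ∈ sFamily G := by
  classical
  obtain ⟨Q, hQ, ν, s, R, D, hs, hN, hD, hR, hRD, rfl⟩ := hL
  have : Fintype Q := Fintype.ofFinite Q
  obtain ⟨G', e, he, heD, hCF, hT, hV, hP, hS, hlang⟩ :=
    exists_gram R (gen_finite hG hR hRD) s D hRD
  have hN' : ∀ q, ν q ∈ G.V ∧ ν q ∉ G.T := fun q => Finset.mem_sdiff.1 (hN q)
  have hD' : ∀ x ∈ D, τ x ∈ G.T := hD
  let μ : ℕ → Finset ℕ := fun y =>
    (Finset.univ.filter (fun q => ν q = y)).image e ∪ D.filter (fun x => τ x = y)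
  have hμ : ∀ y x, x ∈ μ y ↔ (∃ q, ν q = y ∧ e q = x) ∨ (x ∈ D ∧ τ x = y) := by
    intro y x
    simp only [μ, Finset.mem_union, Finset.mem_image, Finset.mem_filter, Finset.mem_univ,
      true_and]
  refine ⟨G', hCF, ⟨μ, ?_, ?_, ?_, ?_, ?_⟩, hlang.symm⟩
  · intro a ha x hx
    rw [hT]
    rcases (hμ a x).1 hx with ⟨q, rfl, -⟩ | ⟨h, -⟩
    · exact absurd ha (hN' q).2
    · exact h
  · intro A hA x hx
    rw [Finset.mem_sdiff, hT]
    rcases (hμ A x).1 hx with ⟨q, -, rfl⟩ | ⟨h, rfl⟩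
    · exact ⟨(hV _).2 (Or.inr ⟨q, rfl⟩), heD q⟩
    · exact absurd (hD' x h) (Finset.mem_sdiff.1 hA).2
  · intro X _ Y _ hne
    rw [Finset.disjoint_left]
    intro x h1 h2
    rcases (hμ X x).1 h1 with ⟨q, rfl, rfl⟩ | ⟨h, rfl⟩ <;>
      rcases (hμ Y _).1 h2 with ⟨q', rfl, h3⟩ | ⟨h', rfl⟩
    · exact hne (by rw [he h3])
    · exact heD _ h'
    · rw [← h3] at h
      exact heD _ h
    · exact hne rfl
  · intro p hp
    obtain ⟨q, β, hr, rfl⟩ := (hP p).1 hp
    refine ⟨(ν q, β.map (Sum.elim ν τ)), hR _ hr, (hμ _ _).2 (Or.inl ⟨q, rfl, rfl⟩), ?_⟩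
    change List.Forall₂ _ (β.map (Sum.elim e id)) (β.map (Sum.elim ν τ))
    rw [List.forall₂_map_left_iff, List.forall₂_map_right_iff, List.forall₂_same]
    intro z hz
    rw [hμ]
    rcases z with q' | c
    · exact Or.inl ⟨q', rfl, rfl⟩
    · exact Or.inr ⟨hRD _ hr c hz, rfl⟩
  · rw [hS, hμ]
    exact Or.inl ⟨s, hs, rfl⟩

theorem fam_gen {G : Gram} (hG : IsCF G) {L : Set (List ℕ)} (hL : L ∈ sFamily G) :
    ∃ τ : ℕ → ℕ, Gen (dat G hG) τ L := by
  classical
  obtain ⟨G', hG', ⟨μ, hI⟩, rfl⟩ := hL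
  let Q := {x : ℕ // ∃ A ∈ G.V \ G.T, x ∈ μ A}
  have hQfin : Finite Q := by
    have h1 : {x : ℕ | ∃ A ∈ G.V \ G.T, x ∈ μ A} ⊆ ↑((G.V \ G.T).biUnion μ) := by
      rintro x ⟨A, hA, hx⟩
      simp only [Finset.coe_biUnion, Set.mem_iUnion]
      exact ⟨A, hA, hx⟩
    exact Set.Finite.to_subtype ((Finset.finite_toSet _).subset h1)
  choose ν hν1 hν2 using fun q : Q => q.2
  let D : Finset ℕ := G.T.biUnion μ
  have hDT : ∀ x ∈ D, x ∈ G'.T := by
    intro x hx
    obtain ⟨t, ht, hxt⟩ := Finset.mem_biUnion.1 hx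
    exact hI.ter t ht hxt
  have hT : ∀ x : ℕ, ∃ t, x ∈ D → t ∈ G.T ∧ x ∈ μ t := by
    intro x
    by_cases hx : x ∈ D
    · obtain ⟨t, ht, hxt⟩ := Finset.mem_biUnion.1 hx
      exact ⟨t, fun _ => ⟨ht, hxt⟩⟩
    · exact ⟨0, fun h => absurd h hx⟩
  choose τ hτ using hT
  have huniq : ∀ z x y, x ∈ G.V → y ∈ G.V → z ∈ μ x → z ∈ μ y → x = y := by
    intro z x y hx hy h1 h2
    by_contra hne
    exact (Finset.disjoint_left.1 (hI.disj x hx y hy hne)) h1 h2
  have hSd := Finset.mem_sdiff.1 hG.start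
  let e : Q → ℕ := Subtype.val
  have heT : ∀ q : Q, e q ∉ G'.T := by
    rintro ⟨q, A, hA, hq⟩
    exact (Finset.mem_sdiff.1 (hI.nonter A hA hq)).2
  let R : Set (Q × List (Q ⊕ ℕ)) :=
    {r | (e r.1, r.2.map (Sum.elim e id)) ∈ G'.P ∧ ∀ x, Sum.inr x ∈ r.2 → x ∈ D}
  let s0 : Q := ⟨G'.S, G.S, hG.start, hI.start⟩
  refine ⟨τ, Q, hQfin, ν, s0, R, D, ?_, hν1, ?_, ?_, ?_, ?_⟩
  · exact huniq G'.S _ _ (Finset.mem_sdiff.1 (hν1 s0)).1 hSd.1 (hν2 s0) hI.start
  · intro x hx
    exact (hτ x hx).1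
  · rintro ⟨q, β⟩ ⟨hr, hx⟩
    obtain ⟨⟨A, γ⟩, hq, hA, hF⟩ := hI.prod _ hr
    dsimp only at hA hF hx ⊢
    have hwf := hG.prod _ hq
    have h1 : ν q = A := huniq q.1 _ _ (Finset.mem_sdiff.1 (hν1 q)).1
      (Finset.mem_sdiff.1 hwf.1).1 (hν2 q) hA
    have h2 : β.map (Sum.elim ν τ) = γ := by
      have hγ : ∀ x ∈ γ, x ∈ G.V := fun x hx => hwf.2 x hx
      clear hr hq hwf
      induction β generalizing γ with
      | nil =>
        cases γ with
        | nil => rfl
        | cons y γ => simp at hF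
      | cons x β ih =>
        cases γ with
        | nil => simp at hF
        | cons y γ =>
          rw [List.map_cons, List.forall₂_cons] at hF
          rw [List.map_cons, ih (fun y hy => hx y (List.mem_cons_of_mem _ hy)) γ hF.2
            (fun y hy => hγ y (List.mem_cons_of_mem _ hy))]
          congr 1
          cases x with
          | inl q' =>
            exact huniq q'.1 _ _ (Finset.mem_sdiff.1 (hν1 q')).1 (hγ y List.mem_cons_self)
              (hν2 q') hF.1
          | inr x =>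
            have hxT := hx x List.mem_cons_self
            exact huniq x _ _ (hG.ter (hτ x hxT).1) (hγ y List.mem_cons_self) (hτ x hxT).2 hF.1
    rw [h1, h2]
    exact hq
  · rintro ⟨q, β⟩ ⟨_, hx⟩ x h
    exact hx x h
  · refine lang_eq G' e R s0 rfl heT ?_ ?_ ?_
    · intro p hp
      exact (Finset.mem_sdiff.1 (hG'.prod p hp).1).2
    · intro q β h
      exact ⟨h.1, fun x hx => hDT x (h.2 x hx)⟩
    · intro q γ hγ
      obtain ⟨⟨A, δ⟩, hq, hA, hF⟩ := hI.prod _ hγ
      dsimp only at hA hF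
      have hwf := (hG.prod _ hq).2
      dsimp only at hwf
      have hmem : ∀ x ∈ γ, (∃ A ∈ G.V \ G.T, x ∈ μ A) ∨ x ∈ D := by
        clear hγ hq
        induction hF with
        | nil => intro x hx; simp at hx
        | @cons a b l1 l2 h1 _ ih =>
          intro x hx
          rcases List.mem_cons.1 hx with rfl | hx
          · have hb := hwf b List.mem_cons_self
            by_cases hbT : b ∈ G.T
            · exact Or.inr (Finset.mem_biUnion.2 ⟨b, hbT, h1⟩)
            · exact Or.inl ⟨b, Finset.mem_sdiff.2 ⟨hb, hbT⟩, h1⟩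
          · exact ih (fun y hy => hwf y (List.mem_cons_of_mem _ hy)) x hx
      let lf : ℕ → Q ⊕ ℕ := fun x => if h : ∃ A ∈ G.V \ G.T, x ∈ μ A then Sum.inl ⟨x, h⟩
        else Sum.inr x
      have h1 : (γ.map lf).map (Sum.elim e id) = γ := by
        rw [List.map_map]
        conv_rhs => rw [← List.map_id γ]
        apply List.map_congr_left
        intro x _
        simp only [Function.comp_apply, lf]
        split_ifs <;> rfl
      refine ⟨γ.map lf, ⟨?_, ?_⟩, h1.symm⟩
      · dsimp only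
        rw [h1]; exact hγ
      · intro x hx
        obtain ⟨y, hy, hxy⟩ := List.mem_map.1 hx
        simp only [lf] at hxy
        split_ifs at hxy with h
        have : y = x := by simpa using hxy
        subst this
        rcases hmem y hy with h2 | h2
        · exact absurd h2 h
        · exact h2

/-- the abstract linear languages are linear -/
theorem lin_LIN {L : Set (List ℕ)} (h : Lin L) : L ∈ LIN := by
  classical
  obtain ⟨Q, hQ, Δ, Φ, s, hΔ, hΦ, rfl⟩ := h
  let R : Set (Q × List (Q ⊕ ℕ)) :=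
    (fun x : Q × List ℕ × List ℕ × Q =>
      (x.1, x.2.1.map Sum.inr ++ Sum.inl x.2.2.2 :: x.2.2.1.map Sum.inr)) '' Δ ∪
    ⋃ q : Q, (fun w : List ℕ => (q, w.map Sum.inr)) '' {w | Φ q w}
  have hR : R.Finite := (hΔ.image _).union (Set.finite_iUnion (fun q => (hΦ q).image _))
  have hletters : {c : ℕ | ∃ r ∈ R, Sum.inr c ∈ r.2}.Finite := by
    have : {c : ℕ | ∃ r ∈ R, Sum.inr c ∈ r.2} ⊆ ⋃ r ∈ R,
        (fun y : Q ⊕ ℕ => Sum.elim (fun _ => 0) id y) '' {y | y ∈ r.2} := by
      rintro c ⟨r, hr, hc⟩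
      exact Set.mem_biUnion hr ⟨_, hc, rfl⟩
    exact (Set.Finite.biUnion hR (fun r _ => (List.finite_toSet r.2).image _)).subset this
  let D : Finset ℕ := hletters.toFinset
  have hRD : ∀ r ∈ R, ∀ x, Sum.inr x ∈ r.2 → x ∈ D := by
    intro r hr x hx
    rw [Set.Finite.mem_toFinset]
    exact ⟨r, hr, hx⟩
  obtain ⟨G, e, he, heD, hCF, hT, hV, hP, hS, hlang⟩ := exists_gram R hR s D hRD
  refine ⟨G, hCF, ?_, ?_⟩
  · intro p hp
    obtain ⟨q, β, hr, rfl⟩ := (hP p).1 hp
    have hter : ∀ w : List ℕ, (∀ x ∈ w, x ∈ D) →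
        ((w.map (Sum.inr : ℕ → Q ⊕ ℕ)).map (Sum.elim e id)).filter (fun x => x ∈ G.V \ G.T) =
          [] := by
      intro w hw
      rw [List.filter_eq_nil_iff]
      intro x hx
      rw [List.map_map, List.mem_map] at hx
      obtain ⟨y, hy, rfl⟩ := hx
      simp only [Function.comp_apply, Sum.elim_inr, id_eq, decide_eq_true_eq, Finset.mem_sdiff,
        not_and, not_not]
      intro _
      rw [hT]
      exact hw y hy
    rcases hr with ⟨⟨a, b, c, d⟩, hx, h⟩ | hr
    · simp only [Prod.mk.injEq] at h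
      obtain ⟨rfl, rfl⟩ := h
      have hr' : (a, b.map Sum.inr ++ Sum.inl d :: c.map Sum.inr) ∈ R := Or.inl ⟨_, hx, rfl⟩
      dsimp only
      rw [List.map_append, List.map_cons, List.filter_append, hter b (fun x hx =>
        hRD _ hr' x (by simp [hx]))]
      have e1 : Sum.elim e id (Sum.inl d : Q ⊕ ℕ) :: (c.map Sum.inr).map (Sum.elim e id) =
        [e d] ++ (c.map Sum.inr).map (Sum.elim e id) := rfl
      rw [e1, List.filter_append, hter c (fun x hx => hRD _ hr' x (by simp [hx]))]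
      rw [List.nil_append, List.append_nil]
      exact (List.length_filter_le _ _)
    · simp only [Set.mem_iUnion] at hr
      obtain ⟨q', w, hw, h⟩ := hr
      simp only [Prod.mk.injEq] at h
      obtain ⟨rfl, rfl⟩ := h
      have hr' : (q', w.map Sum.inr) ∈ R := Or.inr (Set.mem_iUnion.2 ⟨q', w, hw, rfl⟩)
      dsimp only
      rw [hter w (fun x hx => hRD _ hr' x (by simp [hx]))]
      simp
  · rw [hlang]
    ext w
    simp only [Set.mem_ofPred_eq]
    clear hlang hS hP hV hT hCF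
    constructor
    · intro h
      induction h with
      | @fin q w h =>
        exact Der.single (Or.inr (Set.mem_iUnion.2 ⟨q, w, h, rfl⟩)) (Der.of_ters w)
      | @step q q' u v w h _ ih =>
        refine Der.single (Or.inl ⟨_, h, rfl⟩) ?_
        have := (Der.of_ters (Ex := ExR R) u).append (Der.append (u := [Sum.inl q']) ih
          (Der.of_ters v))
        simpa using this
    · rintro ⟨n, h⟩
      induction n using Nat.strong_induction_on generalizing s w with
      | _ n ih =>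
        generalize hb : [Sum.inl s] = β at h
        cases h with
        | nil => simp at hb
        | ter a h => simp at hb
        | @nt m q x u w1 w2 hx h1 h2 =>
          simp only [List.cons.injEq, Sum.inl.injEq] at hb
          obtain ⟨rfl, rfl⟩ := hb
          cases h2
          rw [List.append_nil]
          have hters : ∀ (u w : List ℕ), Der (ExR R) (u.map Sum.inr) w → w = u := by
            intro u w h
            induction u generalizing w with
            | nil => exact Der.nil_iff'.1 h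
            | cons a u ih =>
              rw [List.map_cons, Der.cons_iff'] at h
              obtain ⟨w1, w2, rfl, h1, h2⟩ := h
              rw [Der.ter_iff'.1 h1, ih _ h2]
              rfl
          rcases hx with ⟨⟨a, b, c, d⟩, hx, he2⟩ | hx
          · simp only [Prod.mk.injEq] at he2
            obtain ⟨rfl, rfl⟩ := he2
            obtain ⟨y1, y2, rfl, h3, h4⟩ := h1.split
            obtain ⟨y3, y4, rfl, h5, h6⟩ := h4.cons_split
            have e1 := hters b y1 ⟨_, h3⟩
            have e2 := hters c y4 ⟨_, h6⟩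
            subst e1 e2
            have h7 := LRun.step hx (ih m (by omega) d y3 h5)
            simpa using h7
          · simp only [Set.mem_iUnion] at hx
            obtain ⟨q', w', hw', h⟩ := hx
            simp only [Prod.mk.injEq] at h
            obtain ⟨rfl, rfl⟩ := h
            rw [hters w' w1 ⟨_, h1⟩]
            exact LRun.fin hw'

end Pool.Agent.Helper230.EForms
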