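import Pool.Agent.Helper230.EGlueC

/-! EOL grammars: glue, and the main theorem. -/

namespace Pool.Agent.Helper230.EForms

open Pool.Agent.Helper230 Pool.Agent.Helper230.E

section eol
variable {Q : Type}

theorem rtg_it {f : Q → List Q → Prop} {u v : List Q} :
    Relation.ReflTransGen (Sub f) u v ↔ ∃ k, It f k u v := by
  constructor
  · intro h
    induction h using Relation.ReflTransGen.head_induction_on with
    | refl => exact ⟨0, rfl⟩
    | head h1 _ ih =>
      obtain ⟨k, hk⟩ := ih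
      exact ⟨k + 1, _, h1, hk⟩
  · rintro ⟨k, hk⟩
    induction k generalizing u with
    | zero => rw [It] at hk; rw [hk]
    | succ k ih =>
      obtain ⟨x, h1, h2⟩ := hk
      exact Relation.ReflTransGen.head h1 (ih h2)

theorem eol_lang (G : Gram) (e : Q → ℕ) (pr : Q → List Q → Prop) (tm : Q → Prop) (S0 : Q)
    (hS : G.S = e S0) (h1 : ∀ q α, pr q α → (e q, α.map e) ∈ G.P)
    (h2 : ∀ q γ, (e q, γ) ∈ G.P → ∃ α, pr q α ∧ γ = α.map e) (htm : ∀ q, tm q ↔ e q ∈ G.T) :
    eolLanguage G = {w | ∃ w' : List Q, (∃ τ, Yd pr tm τ [S0] w') ∧ w = w'.map e} := by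
  have s1 : ∀ (u' : List Q) (αs : List (List ℕ)),
      List.Forall₂ (fun X α => (X, α) ∈ G.P) (u'.map e) αs →
      ∃ v', Sub pr u' v' ∧ αs.flatten = v'.map e := by
    intro u'
    induction u' with
    | nil =>
      intro αs h
      rw [List.map_nil, List.forall₂_nil_left_iff] at h
      subst h
      exact ⟨[], Sub.nil, rfl⟩
    | cons q u' ih =>
      intro αs h
      rw [List.map_cons, List.forall₂_cons_left_iff] at h
      obtain ⟨γ, αs', h3, h4, rfl⟩ := h
      obtain ⟨α, h5, rfl⟩ := h2 q γ h3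
      obtain ⟨v', h6, h7⟩ := ih αs' h4
      exact ⟨α ++ v', Sub.cons h5 h6, by simp [h7]⟩
  have s2 : ∀ {u' v' : List Q}, Sub pr u' v' → eolStep G (u'.map e) (v'.map e) := by
    intro u' v' h
    induction h with
    | nil => exact ⟨[], List.Forall₂.nil, rfl⟩
    | @cons a u w1 w2 h _ ih =>
      obtain ⟨αs, h3, h4⟩ := ih
      exact ⟨w1.map e :: αs, List.Forall₂.cons (h1 _ _ h) h3, by simp [h4]⟩
  ext w
  simp only [eolLanguage, Set.mem_ofPred_eq]
  constructor
  · rintro ⟨hw, hd⟩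
    have key : ∀ u, Relation.ReflTransGen (eolStep G) u w → ∀ u' : List Q, u = u'.map e →
        ∃ w', w = w'.map e ∧ ∃ k, It pr k u' w' := by
      intro u hu
      induction hu using Relation.ReflTransGen.head_induction_on with
      | refl => exact fun u' hu' => ⟨u', hu', 0, rfl⟩
      | head hstep _ ih =>
        rintro u' rfl
        obtain ⟨αs, h3, rfl⟩ := hstep
        obtain ⟨v', h4, h5⟩ := s1 u' αs h3
        obtain ⟨w', h6, k, h7⟩ := ih v' h5
        exact ⟨w', h6, k + 1, v', h4, h7⟩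
    obtain ⟨w', rfl, k, hk⟩ := key _ hd [S0] (by simp [hS])
    refine ⟨w', ⟨k, hk, ?_⟩, rfl⟩
    intro x hx
    rw [htm]
    exact hw _ (List.mem_map_of_mem hx)
  · rintro ⟨w', ⟨k, hk, ht⟩, rfl⟩
    constructor
    · intro x hx
      rw [List.mem_map] at hx
      obtain ⟨q, hq, rfl⟩ := hx
      exact (htm q).1 (ht q hq)
    · have h3 := rtg_it.2 ⟨k, hk⟩
      have h4 := Relation.ReflTransGen.lift (r := Sub pr) (p := eolStep G)
        (fun u => u.map e) (fun _ _ h => s2 h) _ _ h3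
      simpa [Function.onFun, hS] using h4

theorem exists_eol {F : Gram} {Q' : Type} [Finite Q'] (ty : Q' → ℕ)
    (pr' : Q' → List Q' → Prop)
    (hfin : ∀ q, {α | pr' q α}.Finite) (htot : ∀ q, ∃ α, pr' q α) (S' : Q') (hS : ty S' = F.S)
    (hP : ∀ q α, pr' q α → (ty q, α.map ty) ∈ F.P) :
    ∃ e : Q' → ℕ, Function.Injective e ∧
      {w | ∃ w' : List Q', (∃ τ, Yd pr' (fun q => ty q ∈ F.T) τ [S'] w') ∧ w = w'.map e} ∈
        eolFamily F := by
  classical
  have : Fintype Q' := Fintype.ofFinite Q'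
  obtain ⟨e, he⟩ := exists_injective_nat Q'
  have hPfin : {r : Q' × List Q' | pr' r.1 r.2}.Finite := by
    have : {r : Q' × List Q' | pr' r.1 r.2} = ⋃ q : Q', (fun α => (q, α)) '' {α | pr' q α} := by
      ext ⟨q, α⟩
      simp only [Set.mem_ofPred_eq, Set.mem_iUnion, Set.mem_image, Prod.mk.injEq]
      constructor
      · intro h
        exact ⟨q, α, h, rfl, rfl⟩
      · rintro ⟨q', α', h, rfl, rfl⟩
        exact h
    rw [this]
    exact Set.finite_iUnion (fun q => (hfin q).image _)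
  let P' : Finset (ℕ × List ℕ) := hPfin.toFinset.image (fun r => (e r.1, r.2.map e))
  have hP' : ∀ p, p ∈ P' ↔ ∃ q α, pr' q α ∧ (e q, α.map e) = p := by
    intro p
    simp only [P', Finset.mem_image, Set.Finite.mem_toFinset, Prod.exists, Set.mem_ofPred_eq]
  let G : Gram := ⟨Finset.univ.image e, (Finset.univ.filter (fun q => ty q ∈ F.T)).image e, P',
    e S'⟩
  have hV : ∀ x, x ∈ G.V ↔ ∃ q, e q = x := by
    intro x
    simp only [G, Finset.mem_image, Finset.mem_univ, true_and]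
  have hT : ∀ x, x ∈ G.T ↔ ∃ q, ty q ∈ F.T ∧ e q = x := by
    intro x
    simp only [G, Finset.mem_image, Finset.mem_filter, Finset.mem_univ, true_and]
  have hTe : ∀ q, ty q ∈ F.T ↔ e q ∈ G.T := by
    intro q
    rw [hT]
    constructor
    · exact fun h => ⟨q, h, rfl⟩
    · rintro ⟨q', h, h'⟩
      rwa [← he h']
  refine ⟨e, he, G, ⟨?_, ?_, ?_, ?_⟩, ⟨fun y => (Finset.univ.filter (fun q => ty q = y)).image e,
    ?_, ?_, ?_, ?_, ?_⟩, ?_⟩
  · intro x hx
    obtain ⟨q, -, h⟩ := (hT x).1 hx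
    exact (hV x).2 ⟨q, h⟩
  · exact (hV _).2 ⟨S', rfl⟩
  · intro p hp
    obtain ⟨q, α, hr, rfl⟩ := (hP' p).1 hp
    refine ⟨(hV _).2 ⟨q, rfl⟩, ?_⟩
    intro x hx
    obtain ⟨y, hy, rfl⟩ := List.mem_map.1 hx
    exact (hV _).2 ⟨y, rfl⟩
  · intro X hX
    obtain ⟨q, rfl⟩ := (hV X).1 hX
    obtain ⟨α, hα⟩ := htot q
    exact ⟨α.map e, (hP' _).2 ⟨q, α, hα, rfl⟩⟩
  · intro a ha x hx
    simp only [Finset.mem_image, Finset.mem_filter, Finset.mem_univ, true_and] at hx
    obtain ⟨q, rfl, rfl⟩ := hx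
    exact (hTe q).1 ha
  · intro A hA x hx
    simp only [Finset.mem_image, Finset.mem_filter, Finset.mem_univ, true_and] at hx
    obtain ⟨q, rfl, rfl⟩ := hx
    rw [Finset.mem_sdiff] at hA ⊢
    exact ⟨(hV _).2 ⟨q, rfl⟩, fun h => hA.2 ((hTe q).2 h)⟩
  · intro X _ Y _ hne
    rw [Finset.disjoint_left]
    intro x h1 h2
    simp only [Finset.mem_image, Finset.mem_filter, Finset.mem_univ, true_and] at h1 h2
    obtain ⟨q, rfl, rfl⟩ := h1
    obtain ⟨q', rfl, h3⟩ := h2
    exact hne (by rw [he h3])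
  · intro p hp
    obtain ⟨q, α, hr, rfl⟩ := (hP' p).1 hp
    refine ⟨(ty q, α.map ty), hP _ _ hr, ?_, ?_⟩
    · simp only [Finset.mem_image, Finset.mem_filter, Finset.mem_univ, true_and]
      exact ⟨q, rfl, rfl⟩
    · change List.Forall₂ _ (α.map e) (α.map ty)
      rw [List.forall₂_map_left_iff, List.forall₂_map_right_iff, List.forall₂_same]
      intro z _
      simp only [Finset.mem_image, Finset.mem_filter, Finset.mem_univ, true_and]
      exact ⟨z, rfl, rfl⟩
  · simp only [Finset.mem_image, Finset.mem_filter, Finset.mem_univ, true_and]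
    exact ⟨S', hS, rfl⟩
  · symm
    refine eol_lang G e pr' _ S' rfl ?_ ?_ hTe
    · intro q α hr
      exact (hP' _).2 ⟨q, α, hr, rfl⟩
    · intro q γ hγ
      obtain ⟨q', α, hr, heq⟩ := (hP' _).1 hγ
      rw [Prod.mk.injEq] at heq
      have := he heq.1
      subst this
      exact ⟨α, hr, heq.2.symm⟩

end eol

theorem lift_list {V : Finset ℕ} {γ : List ℕ} (h : ∀ x ∈ γ, x ∈ V) :
    ∃ α : List {x // x ∈ V}, γ = α.map Subtype.val := by
  induction γ with
  | nil => exact ⟨[], rfl⟩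
  | cons x γ ih =>
    obtain ⟨α, hα⟩ := ih (fun y hy => h y (List.mem_cons_of_mem _ hy))
    refine ⟨⟨x, h x List.mem_cons_self⟩ :: α, ?_⟩
    rw [List.map_cons, ← hα]

/-- The main theorem: if the family of an EOL form is an s-grammatical family then this family
consists of linear languages. -/
theorem main {G F : Gram} (hG : IsCF G) (hF : IsEOL F)
    (h : FamEq (eolFamily F) (sFamily G)) : sFamily G ⊆ LIN := by
  classical
  intro L hL
  obtain ⟨τ, Q, hQ, ν, s, R, D, hs, hN, hD, hR, hRD, rfl⟩ := fam_gen hG hL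
  rcases cf_dichotomy (gen_finite hG hR hRD) s with hlin | hDP
  · exact lin_LIN hlin
  exfalso
  obtain ⟨x, u, a, v, y, r, b, t, z, hx, hu, ha, hv, hy, hr, hb, ht, hz, hgen⟩ :=
    Gen.of_DP hs hN hD hR hRD hDP
  obtain ⟨L1, ⟨F', hF', ⟨μ, hI⟩, rfl⟩, hL1⟩ := h.2 _ (gen_fam hG hgen)
  -- the abstract parallel grammar
  let Q1 := {x // x ∈ F'.V}
  let pr : Q1 → List Q1 → Prop := fun X α => (X.1, α.map Subtype.val) ∈ F'.P
  let tm : Q1 → Prop := fun X => X.1 ∈ F'.T
  let S0 : Q1 := ⟨F'.S, hF'.start⟩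
  have hinj : Function.Injective (Subtype.val : Q1 → ℕ) := Subtype.val_injective
  have hpr : ∀ X, {α | pr X α}.Finite := by
    intro X
    have h1 : {β | (X.1, β) ∈ F'.P}.Finite := by
      refine (F'.P.finite_toSet.image Prod.snd).subset ?_
      intro β hβ
      exact ⟨_, hβ, rfl⟩
    exact Set.Finite.preimage (f := List.map Subtype.val) (hinj.list_map.injOn) h1
  have htot : ∀ X, ∃ α, pr X α := by
    intro X
    obtain ⟨γ, hγ⟩ := hF'.total X.1 X.2
    obtain ⟨α, rfl⟩ := lift_list (hF'.prod _ hγ).2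
    exact ⟨α, hγ⟩
  have hlang := eol_lang F' (Subtype.val : Q1 → ℕ) pr tm S0 rfl (fun q α h => h)
    (fun q γ h => by
      obtain ⟨α, rfl⟩ := lift_list (hF'.prod _ h).2
      exact ⟨α, h, rfl⟩) (fun q => Iff.rfl)
  have hL1' : ∀ w, w ≠ [] → (w ∈ eolLanguage F' ↔ ∃ n m, w = w0 x u a v y r b t z n m) := by
    intro w hw
    have h1 : w ∈ ({w | ∃ n m, w = w0 x u a v y r b t z n m} : Set (List ℕ)) \ {[]} ↔
        w ∈ eolLanguage F' \ {[]} := by rw [hL1]
    simp only [Set.mem_sdiff, Set.mem_ofPred_eq, Set.mem_singleton_iff, hw, not_false_eq_true,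
      and_true] at h1
    exact h1.symm
  rcases dichotomy tm hpr S0 with hlin | hC
  · refine L0_not_lin hx hu ha hv hy hr hb ht hz hL1' ?_
    rw [hlang]
    have h1 := hlin.map (fun q : Q1 => [q.1])
    have h2 : ∀ w' : List Q1, w'.flatMap (fun q : Q1 => [q.1]) = w'.map Subtype.val := by
      intro w'
      induction w' with
      | nil => rfl
      | cons q w' ih => rw [List.flatMap_cons, ih]; rfl
    simp only [h2] at h1
    exact h1
  obtain ⟨C⟩ := hC
  have hcdf1 := L0_cdf hx hu ha hv hy hr hb ht hz hL1'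
  have hcdf : CDF {w | ∃ τ, Yd pr tm τ [S0] w} := by
    intro l y' r' h1 h2 hne
    have h3 := hcdf1 (l.map Subtype.val) (y'.map Subtype.val) (r'.map Subtype.val)
      (by rw [hlang]; exact ⟨_, h1, by simp⟩) (by rw [hlang]; exact ⟨_, h2, by simp⟩)
      (by
        intro h
        apply hne
        simp only [List.append_eq_nil_iff, List.map_eq_nil_iff] at h ⊢
        exact h)
    exact List.map_eq_nil_iff.1 h3
  obtain ⟨Q', hQ', st, pr', S', hst, hfin', htot', hpr', good, f, hg1, hg2⟩ :=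
    refine_main C hpr htot hcdf
  -- types of the letters
  have hty : ∀ X : Q1, ∃ Y ∈ F.V, X.1 ∈ μ Y := by
    intro X
    obtain ⟨γ, hγ⟩ := hF'.total X.1 X.2
    obtain ⟨p, hp, h1, -⟩ := hI.prod _ hγ
    exact ⟨p.1, (hF.prod p hp).1, h1⟩
  choose ty hty1 hty2 using hty
  have huniq : ∀ z x y, x ∈ F.V → y ∈ F.V → z ∈ μ x → z ∈ μ y → x = y := by
    intro z x y hx hy h1 h2
    by_contra hne
    exact (Finset.disjoint_left.1 (hI.disj x hx y hy hne)) h1 h2
  have htyP : ∀ X α, pr X α → (ty X, α.map ty) ∈ F.P := by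
    intro X α hXα
    obtain ⟨⟨Y, γ⟩, hp, h1, h2⟩ := hI.prod _ hXα
    dsimp only at h1 h2
    have hwf := hF.prod _ hp
    dsimp only at hwf
    have e1 : ty X = Y := huniq _ _ _ (hty1 X) hwf.1 (hty2 X) h1
    have e2 : α.map ty = γ := by
      have hγ := hwf.2
      clear hp hwf hXα
      induction α generalizing γ with
      | nil =>
        cases γ with
        | nil => rfl
        | cons y γ => simp at h2
      | cons q α ih =>
        cases γ with
        | nil => simp at h2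
        | cons y γ =>
          rw [List.map_cons, List.forall₂_cons] at h2
          rw [List.map_cons, ih γ h2.2 (fun y hy => hγ y (List.mem_cons_of_mem _ hy)),
            huniq _ _ _ (hty1 q) (hγ y List.mem_cons_self) (hty2 q) h2.1]
    rw [e1, e2]
    exact hp
  have htyT : ∀ X, tm X ↔ ty X ∈ F.T := by
    intro X
    constructor
    · intro h1
      by_contra h2
      exact (Finset.mem_sdiff.1 (hI.nonter (ty X) (Finset.mem_sdiff.2 ⟨hty1 X, h2⟩)
        (hty2 X))).2 h1
    · intro h1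
      exact hI.ter _ h1 (hty2 X)
  have hS0 : ty S0 = F.S := huniq _ _ _ (hty1 S0) hF.start (hty2 S0) hI.start
  obtain ⟨e, he, hmem⟩ := exists_eol (F := F) (fun q => ty (st q)) pr' hfin'
    htot' S' (by rw [hst]; exact hS0) (fun q α h => by
      have := htyP _ _ (hpr' q α h)
      rw [List.map_map] at this
      exact this)
  obtain ⟨L3, hL3, hL3'⟩ := h.1 _ hmem
  obtain ⟨τ3, Q3, hQ3, ν3, s3, R3, D3, hs3, hN3, hD3, hR3, hRD3, rfl⟩ := fam_gen hG hL3
  have hmem3 : ∀ w, w ≠ [] → (Der (ExR R3) [Sum.inl s3] w ↔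
      ∃ w' : List Q', (∃ τ, Yd pr' (fun q => tm (st q)) τ [S'] w') ∧ w = w'.map e) := by
    intro w hw
    have h1 : w ∈ ({w | ∃ w' : List Q', (∃ τ, Yd pr' (fun q => ty (st q) ∈ F.T) τ [S'] w') ∧
        w = w'.map e} : Set (List ℕ)) \ {[]} ↔ w ∈ {w | Der (ExR R3) [Sum.inl s3] w} \ {[]} := by
      rw [hL3']
    simp only [Set.mem_sdiff, Set.mem_ofPred_eq, Set.mem_singleton_iff, hw, not_false_eq_true,
      and_true] at h1
    have h2 : (fun q => tm (st q)) = (fun q => ty (st q) ∈ F.T) := by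
      funext q
      exact propext (htyT _)
    rw [h2]
    exact h1.symm
  let f3 : ℕ → List Mk := fun c => if h : ∃ q, e q = c then f h.choose else []
  have hf3 : ∀ q, f3 (e q) = f q := by
    intro q
    have hq : ∃ q', e q' = e q := ⟨q, rfl⟩
    simp only [f3, dif_pos hq]
    rw [he hq.choose_spec]
  have hf3w : ∀ w : List Q', (w.map e).flatMap f3 = w.flatMap f := by
    intro w
    induction w with
    | nil => rfl
    | cons q w ih => rw [List.map_cons, List.flatMap_cons, List.flatMap_cons, ih, hf3]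
  obtain ⟨Fb, hFb⟩ := (Set.finite_range (fun q => (f q).length)).bddAbove
  refine not_cf (gen_finite hG hR3 hRD3) s3 (fun c => ∃ q, e q = c ∧ good q) (f := f3) (F := Fb)
    ?_ ?_ ?_
  · intro c
    by_cases hc : ∃ q, e q = c
    · obtain ⟨q, rfl⟩ := hc
      rw [hf3]
      exact hFb ⟨q, rfl⟩
    · simp only [f3, dif_neg hc]
      exact Nat.zero_le _
  · intro w hw hder hgood
    obtain ⟨w', hw', rfl⟩ := (hmem3 w hw).1 hder
    have hne : w' ≠ [] := by rintro rfl; exact hw rfl
    obtain ⟨i, hi⟩ := hg1 w' hne hw' (fun q hq => by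
      obtain ⟨q', h1, h2⟩ := hgood (e q) (List.mem_map_of_mem hq)
      rwa [← he h1])
    exact ⟨i, by rw [hf3w]; exact hi⟩
  · intro i
    obtain ⟨w', hw', hgood, hi⟩ := hg2 i
    have hne : w' ≠ [] := by
      rintro rfl
      simp [List.replicate_succ] at hi
    refine ⟨w'.map e, (hmem3 _ (by simpa using hne)).2 ⟨w', hw', rfl⟩, ?_, by
      rw [hf3w]; exact hi⟩
    intro c hc
    rw [List.mem_map] at hc
    obtain ⟨q, hq, rfl⟩ := hc
    exact ⟨q, rfl, hgood q hq⟩

end Pool.Agent.Helper230.EForms
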