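import Mathlib

/-! Linear languages and timed regular languages, closure properties. -/

namespace Pool.Agent.Helper230.E

section lin
variable {B : Type}

inductive LRun {Q : Type} (Δ : Set (Q × List B × List B × Q)) (Φ : Q → List B → Prop) :
    Q → List B → Prop
  | fin {q : Q} {w : List B} : Φ q w → LRun Δ Φ q w
  | step {q q' : Q} {u v w : List B} : (q, u, v, q') ∈ Δ → LRun Δ Φ q' w →
      LRun Δ Φ q (u ++ w ++ v)

/-- linear languages -/
def Lin (L : Set (List B)) : Prop :=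
  ∃ (Q : Type) (_ : Finite Q) (Δ : Set (Q × List B × List B × Q)) (Φ : Q → List B → Prop) (s : Q),
    Δ.Finite ∧ (∀ q, {w | Φ q w}.Finite) ∧ L = {w | LRun Δ Φ s w}

theorem Lin.exits {Q : Type} [Finite Q] (Δ : Set (Q × List B × List B × Q)) (hΔ : Δ.Finite)
    (Ex : Q → Set (List B)) (hEx : ∀ q, Lin (Ex q)) (s : Q) :
    Lin {w | LRun Δ (fun q w => w ∈ Ex q) s w} := by
  choose Qx hQx Δx Φx sx hf1 hf2 hx using hEx
  let D1 : Set ((Q ⊕ (Σ q, Qx q)) × List B × List B × (Q ⊕ (Σ q, Qx q))) :=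
    (fun x : Q × List B × List B × Q => (Sum.inl x.1, x.2.1, x.2.2.1, Sum.inl x.2.2.2)) '' Δ
  let D2 : Set ((Q ⊕ (Σ q, Qx q)) × List B × List B × (Q ⊕ (Σ q, Qx q))) :=
    Set.range (fun q : Q => (Sum.inl q, [], [], Sum.inr ⟨q, sx q⟩))
  let D3 : Set ((Q ⊕ (Σ q, Qx q)) × List B × List B × (Q ⊕ (Σ q, Qx q))) :=
    ⋃ q, (fun x : Qx q × List B × List B × Qx q =>
      ((Sum.inr ⟨q, x.1⟩ : (Q ⊕ (Σ q, Qx q))), x.2.1, x.2.2.1, (Sum.inr ⟨q, x.2.2.2⟩ : (Q ⊕ (Σ q, Qx q))))) '' (Δx q)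
  let Φ' : (Q ⊕ (Σ q, Qx q)) → List B → Prop := fun q w => q.elim (fun _ => False) (fun p => Φx p.1 p.2 w)
  refine ⟨Q ⊕ (Σ q, Qx q), inferInstance, D1 ∪ D2 ∪ D3, Φ', Sum.inl s, ?_, ?_, ?_⟩
  · refine ((hΔ.image _).union (Set.finite_range _)).union ?_
    exact Set.finite_iUnion (fun q => (hf1 q).image _)
  · rintro (q | ⟨q, x⟩)
    · simp [Φ']
    · exact hf2 q x
  · have k1 : ∀ q x w, LRun (D1 ∪ D2 ∪ D3) Φ' (Sum.inr ⟨q, x⟩) w ↔ LRun (Δx q) (Φx q) x w := by
      intro q x w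
      constructor
      · intro h
        generalize hy : (Sum.inr ⟨q, x⟩ : (Q ⊕ (Σ q, Qx q))) = y at h
        induction h generalizing x with
        | fin h => subst hy; exact LRun.fin h
        | step h _ ih =>
          subst hy
          rcases h with (h | h) | h
          · obtain ⟨x, -, h⟩ := h
            simp at h
          · obtain ⟨x, h⟩ := h
            simp at h
          · obtain ⟨_, ⟨q', rfl⟩, ⟨a, u', v', b⟩, h1, h2⟩ := h
            simp only [Prod.mk.injEq, Sum.inr.injEq] at h2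
            obtain ⟨h3, rfl, rfl, h4⟩ := h2
            cases h3
            exact LRun.step h1 (ih _ h4)
      · intro h
        induction h with
        | fin h => exact LRun.fin h
        | step h _ ih =>
          exact LRun.step (Or.inr (Set.mem_iUnion.2 ⟨q, ⟨_, h, rfl⟩⟩)) ih
    ext w
    simp only [Set.mem_ofPred_eq]
    constructor
    · intro h
      induction h with
      | @fin q w h =>
        rw [hx] at h
        have h1 := (k1 q (sx q) w).2 h
        have h2 := LRun.step (Δ := D1 ∪ D2 ∪ D3) (Φ := Φ') (q := Sum.inl q) (u := []) (v := [])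
          (Or.inl (Or.inr ⟨q, rfl⟩)) h1
        simpa using h2
      | step h _ ih =>
        exact LRun.step (Or.inl (Or.inl ⟨_, h, rfl⟩)) ih
    · intro h
      generalize hy : (Sum.inl s : (Q ⊕ (Σ q, Qx q))) = y at h
      induction h generalizing s with
      | fin h => subst hy; exact absurd h (by simp [Φ'])
      | @step q q' u v w h h' ih =>
        subst hy
        rcases h with (h | h) | h
        · obtain ⟨⟨a, u', v', b⟩, h1, h2⟩ := h
          simp only [Prod.mk.injEq, Sum.inl.injEq] at h2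
          obtain ⟨rfl, rfl, rfl, rfl⟩ := h2
          exact LRun.step h1 (ih _ rfl)
        · obtain ⟨x, h⟩ := h
          simp only [Prod.mk.injEq, Sum.inl.injEq] at h
          obtain ⟨rfl, rfl, rfl, rfl⟩ := h
          simp only [List.nil_append, List.append_nil]
          apply LRun.fin
          rw [hx]
          exact (k1 _ _ _).1 h'
        · obtain ⟨_, ⟨q', rfl⟩, ⟨a, u', v', b⟩, h1, h2⟩ := h
          simp at h2

theorem Lin.finite {L : Set (List B)} (h : L.Finite) : Lin L := by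
  refine ⟨Unit, inferInstance, ∅, fun _ w => w ∈ L, (), Set.finite_empty, fun _ => h, ?_⟩
  ext w
  constructor
  · intro h; exact LRun.fin h
  · intro h
    cases h with
    | fin h => exact h
    | step h _ => simp at h

theorem Lin.iUnion {ι : Type} [Finite ι] (L : ι → Set (List B)) (h : ∀ i, Lin (L i)) :
    Lin (⋃ i, L i) := by
  have h1 := Lin.exits (Q := Option ι) (Set.range (fun i : ι => (none, [], [], some i)))
    (Set.finite_range _) (fun o => o.elim ∅ L) (by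
      rintro (_ | i)
      · exact Lin.finite (B := B) Set.finite_empty
      · exact h i) none
  convert h1 using 1
  have k1 : ∀ i w, LRun (Set.range (fun i : ι => ((none : Option ι), ([] : List B),
      ([] : List B), some i))) (fun q w => w ∈ (Option.elim q ∅ L : Set (List B))) (some i) w ↔
      w ∈ L i := by
    intro i w
    constructor
    · intro h
      cases h with
      | fin h => exact h
      | step h _ => simp at h
    · intro h; exact LRun.fin h
  ext w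
  rw [Set.mem_iUnion]
  constructor
  · rintro ⟨i, hi⟩
    have := LRun.step (q := (none : Option ι)) (u := []) (v := []) (Set.mem_range_self i)
      ((k1 i w).2 hi)
    simpa using this
  · intro h
    have key : ∀ (o : Option ι) (w : List B), LRun (Set.range (fun i : ι => ((none : Option ι),
      ([] : List B), ([] : List B), some i)))
      (fun q w => w ∈ (Option.elim q ∅ L : Set (List B))) o w → o = none → ∃ i, w ∈ L i := by
      intro o w h'
      cases h' with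
      | fin h => intro ho; subst ho; simp at h
      | step h1 h2 =>
        intro _
        obtain ⟨i, hi⟩ := h1
        simp only [Prod.mk.injEq] at hi
        obtain ⟨-, rfl, rfl, rfl⟩ := hi
        exact ⟨i, by simpa using (k1 i _).1 h2⟩
    exact key _ _ h rfl

theorem Lin.biUnion {ι : Type} {s : Set ι} (hs : s.Finite) (L : ι → Set (List B))
    (h : ∀ i ∈ s, Lin (L i)) : Lin (⋃ i ∈ s, L i) := by
  have : Finite s := hs
  have h1 := Lin.iUnion (fun i : s => L i) (fun i => h i i.2)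
  convert h1 using 1
  ext w
  simp

theorem Lin.union {L M : Set (List B)} (hL : Lin L) (hM : Lin M) : Lin (L ∪ M) := by
  have h1 := Lin.iUnion (fun b : Bool => if b then L else M) (by
    rintro (_ | _)
    · simpa using hM
    · simpa using hL)
  convert h1 using 1
  ext w
  simp [or_comm]

theorem Lin.ctx {L : Set (List B)} (h : Lin L) {U V : Set (List B)} (hU : U.Finite)
    (hV : V.Finite) : Lin {w | ∃ u ∈ U, ∃ x ∈ L, ∃ v ∈ V, w = u ++ x ++ v} := by
  have h1 := Lin.exits (Q := Bool)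
    ((fun p : List B × List B => (false, p.1, p.2, true)) '' (U ×ˢ V))
    ((hU.prod hV).image _) (fun b => if b then L else ∅) (by
      rintro (_ | _)
      · simpa using Lin.finite (B := B) Set.finite_empty
      · simpa using h) false
  convert h1 using 1
  have k1 : ∀ w, LRun ((fun p : List B × List B => (false, p.1, p.2, true)) '' (U ×ˢ V))
      (fun q w => w ∈ (if q then L else ∅ : Set (List B))) true w ↔ w ∈ L := by
    intro w
    constructor
    · intro h
      generalize hn : true = o at h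
      cases h with
      | fin h => subst hn; simpa using h
      | step h _ =>
        subst hn
        obtain ⟨_, _, h⟩ := h
        simp at h
    · intro h; exact LRun.fin (by simpa using h)
  ext w
  simp only [Set.mem_ofPred_eq]
  constructor
  · rintro ⟨u, hu, x, hx, v, hv, rfl⟩
    exact LRun.step ⟨(u, v), ⟨hu, hv⟩, rfl⟩ ((k1 x).2 hx)
  · intro h
    have key : ∀ (o : Bool) (w : List B),
      LRun ((fun p : List B × List B => (false, p.1, p.2, true)) '' (U ×ˢ V))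
      (fun q w => w ∈ (if q then L else ∅ : Set (List B))) o w → o = false →
      ∃ u ∈ U, ∃ x ∈ L, ∃ v ∈ V, w = u ++ x ++ v := by
      intro o w h'
      cases h' with
      | fin h => intro ho; subst ho; simp at h
      | step h1 h2 =>
        intro _
        obtain ⟨⟨u, v⟩, ⟨hu, hv⟩, he⟩ := h1
        simp only [Prod.mk.injEq] at he
        obtain ⟨-, rfl, rfl, rfl⟩ := he
        exact ⟨_, hu, _, (k1 _).1 h2, _, hv, rfl⟩
    exact key _ _ h rfl

end lin

section treg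
variable {B : Type}

inductive TPath {Q : Type} (Δ : Set (Q × ℕ × List B × Q)) : Q → ℕ → List B → Q → Prop
  | nil (q : Q) : TPath Δ q 0 [] q
  | cons {q q' q'' : Q} {t k : ℕ} {u w : List B} : (q, t, u, q') ∈ Δ → TPath Δ q' k w q'' →
      TPath Δ q (t + k) (u ++ w) q''

def TReg (T : Set (ℕ × List B)) : Prop :=
  ∃ (Q : Type) (_ : Finite Q) (Δ : Set (Q × ℕ × List B × Q)) (s : Q) (F : Set Q),
    Δ.Finite ∧ (∀ x ∈ Δ, x.2.1 ≤ 1) ∧ T = {p | ∃ f ∈ F, TPath Δ s p.1 p.2 f}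

section
variable {Q : Type} {Δ : Set (Q × ℕ × List B × Q)}

theorem TPath.trans {q q' q'' : Q} {k l : ℕ} {u w : List B} (h1 : TPath Δ q k u q')
    (h2 : TPath Δ q' l w q'') : TPath Δ q (k + l) (u ++ w) q'' := by
  induction h1 with
  | nil q => simpa using h2
  | cons h _ ih =>
    rw [Nat.add_assoc, List.append_assoc]
    exact TPath.cons h (ih h2)

theorem TPath.single {q q' : Q} {t : ℕ} {u : List B} (h : (q, t, u, q') ∈ Δ) :
    TPath Δ q t u q' := by
  have := TPath.cons h (TPath.nil q')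
  simpa using this

theorem TPath.mono {Δ' : Set (Q × ℕ × List B × Q)} (hs : Δ ⊆ Δ') {q q' : Q} {k : ℕ}
    {u : List B} (h : TPath Δ q k u q') : TPath Δ' q k u q' := by
  induction h with
  | nil q => exact TPath.nil q
  | cons h _ ih => exact TPath.cons (hs h) ih

theorem TPath.split_last (hΔ : ∀ x ∈ Δ, x.2.1 ≤ 1) {q q' : Q} {n : ℕ} {w : List B}
    (h : TPath Δ q n w q') : ∀ k, n = k + 1 → ∃ a b v w1 w2, w = w1 ++ v ++ w2 ∧
      TPath Δ q k w1 a ∧ (a, 1, v, b) ∈ Δ ∧ TPath Δ b 0 w2 q' := by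
  induction h with
  | nil q => intro k hk; omega
  | @cons q q' q'' t m u w h h' ih =>
    intro k hk
    have ht := hΔ _ h
    dsimp only at ht
    rcases Nat.lt_or_ge t 1 with ht0 | ht1
    · have ht0 : t = 0 := by omega
      subst ht0
      obtain ⟨a, b, v, w1, w2, rfl, h1, h2, h3⟩ := ih k (by omega)
      refine ⟨a, b, v, u ++ w1, w2, by simp, ?_, h2, h3⟩
      have := TPath.cons h h1
      simpa using this
    · have ht1 : t = 1 := by omega
      subst ht1
      cases m with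
      | zero =>
        have hk0 : k = 0 := by omega
        subst hk0
        exact ⟨q, q', u, [], w, by simp, TPath.nil q, h, h'⟩
      | succ m =>
        obtain ⟨a, b, v, w1, w2, rfl, h1, h2, h3⟩ := ih m rfl
        refine ⟨a, b, v, u ++ w1, w2, by simp, ?_, h2, h3⟩
        have h4 := TPath.cons h h1
        have : k = 1 + m := by omega
        rw [this]
        exact h4

end

/-- transport of paths along an embedding of states -/
theorem TPath.map {Q Q' : Type} {Δ : Set (Q × ℕ × List B × Q)} {Δ' : Set (Q' × ℕ × List B × Q')}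
    (f : Q → Q') (h : ∀ q t u q', (q, t, u, q') ∈ Δ → (f q, t, u, f q') ∈ Δ') {q q' : Q}
    {k : ℕ} {w : List B} (hp : TPath Δ q k w q') : TPath Δ' (f q) k w (f q') := by
  induction hp with
  | nil q => exact TPath.nil _
  | cons h1 _ ih => exact TPath.cons (h _ _ _ _ h1) ih

theorem TPath.map_inv {Q Q' : Type} {Δ : Set (Q × ℕ × List B × Q)}
    {Δ' : Set (Q' × ℕ × List B × Q')} (f : Q → Q')
    (h : ∀ q t u y, (f q, t, u, y) ∈ Δ' → ∃ q', y = f q' ∧ (q, t, u, q') ∈ Δ) {x y : Q'}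
    {k : ℕ} {w : List B} (hp : TPath Δ' x k w y) : ∀ q, x = f q →
      ∃ q', y = f q' ∧ TPath Δ q k w q' := by
  induction hp with
  | nil x => intro q hq; exact ⟨q, hq, TPath.nil q⟩
  | cons h1 _ ih =>
    intro q hq
    subst hq
    obtain ⟨q', rfl, h2⟩ := h _ _ _ _ h1
    obtain ⟨q'', rfl, h3⟩ := ih q' rfl
    exact ⟨q'', rfl, TPath.cons h2 h3⟩

theorem TReg.path {Q : Type} [Finite Q] {Δ : Set (Q × ℕ × List B × Q)} (hΔ : Δ.Finite)
    (h1 : ∀ x ∈ Δ, x.2.1 ≤ 1) (q q' : Q) : TReg {p : ℕ × List B | TPath Δ q p.1 p.2 q'} :=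
  ⟨Q, inferInstance, Δ, q, {q'}, hΔ, h1, by simp⟩

/-- paths whose outputs are written in reversed order -/
inductive RPath {Q : Type} (Δ : Set (Q × ℕ × List B × Q)) : Q → ℕ → List B → Q → Prop
  | nil (q : Q) : RPath Δ q 0 [] q
  | cons {q q' q'' : Q} {t k : ℕ} {u w : List B} : (q, t, u, q') ∈ Δ → RPath Δ q' k w q'' →
      RPath Δ q (t + k) (w ++ u) q''

theorem TReg.rpath {Q : Type} [Finite Q] {Δ : Set (Q × ℕ × List B × Q)} (hΔ : Δ.Finite)
    (h1 : ∀ x ∈ Δ, x.2.1 ≤ 1) (q q' : Q) : TReg {p : ℕ × List B | RPath Δ q p.1 p.2 q'} := by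
  let Δ' : Set (Q × ℕ × List B × Q) := (fun x : Q × ℕ × List B × Q =>
    (x.2.2.2, x.2.1, x.2.2.1, x.1)) '' Δ
  refine ⟨Q, inferInstance, Δ', q', {q}, hΔ.image _, ?_, ?_⟩
  · rintro _ ⟨x, hx, rfl⟩
    exact h1 x hx
  · ext ⟨k, w⟩
    simp only [Set.mem_ofPred_eq, Set.mem_singleton_iff, exists_eq_left]
    constructor
    · intro h
      induction h with
      | nil q => exact TPath.nil q
      | cons h _ ih =>
        rw [Nat.add_comm]
        exact ih.trans (TPath.single ⟨_, h, rfl⟩)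
    · intro h
      have key : ∀ (a b c : Q) (k l : ℕ) (u v : List B), TPath Δ' a k u b → RPath Δ a l v c →
          RPath Δ b (k + l) (v ++ u) c := by
        intro a b c k l u v h
        induction h generalizing l v with
        | nil q => intro h; simpa using h
        | @cons q q' q'' t k u w h _ ih =>
          intro h2
          obtain ⟨⟨x1, x2, x3, x4⟩, hx, he⟩ := h
          simp only [Prod.mk.injEq] at he
          obtain ⟨rfl, rfl, rfl, rfl⟩ := he
          have h3 := ih _ _ (RPath.cons hx h2)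
          have e1 : x2 + k + l = k + (x2 + l) := by omega
          rw [e1, ← List.append_assoc]
          exact h3
      have := key _ _ _ _ _ _ _ h (RPath.nil q')
      simpa using this

theorem TReg.iUnion {ι : Type} [Finite ι] (T : ι → Set (ℕ × List B)) (h : ∀ i, TReg (T i)) :
    TReg (⋃ i, T i) := by
  choose Q hQ Δ s F hf h1 hT using h
  let f : ∀ i, Q i → Option (Σ i, Q i) := fun i q => some ⟨i, q⟩
  let D1 : Set (Option (Σ i, Q i) × ℕ × List B × Option (Σ i, Q i)) := Set.range (fun i : ι => (none, 0, [], f i (s i)))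
  let D2 : Set (Option (Σ i, Q i) × ℕ × List B × Option (Σ i, Q i)) := ⋃ i, (fun x : Q i × ℕ × List B × Q i =>
    (f i x.1, x.2.1, x.2.2.1, f i x.2.2.2)) '' (Δ i)
  refine ⟨Option (Σ i, Q i), inferInstance, D1 ∪ D2, none, {x | ∃ i, ∃ q ∈ F i, x = f i q}, ?_, ?_, ?_⟩
  · exact (Set.finite_range _).union (Set.finite_iUnion (fun i => (hf i).image _))
  · rintro x (⟨i, rfl⟩ | hx)
    · simp
    · obtain ⟨_, ⟨i, rfl⟩, y, hy, rfl⟩ := hx
      exact h1 i y hy
  · have hmap : ∀ i q t u q', (q, t, u, q') ∈ Δ i → (f i q, t, u, f i q') ∈ D1 ∪ D2 :=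
      fun i q t u q' h => Or.inr (Set.mem_iUnion.2 ⟨i, ⟨_, h, rfl⟩⟩)
    have hinv : ∀ i q t u y, (f i q, t, u, y) ∈ D1 ∪ D2 →
        ∃ q', y = f i q' ∧ (q, t, u, q') ∈ Δ i := by
      rintro i q t u y (⟨j, hj⟩ | hx)
      · simp [f] at hj
      · obtain ⟨_, ⟨j, rfl⟩, ⟨a, b, c, d⟩, hy, he⟩ := hx
        simp only [Prod.mk.injEq] at he
        obtain ⟨h2, rfl, rfl, rfl⟩ := he
        have h3 : (⟨j, a⟩ : Σ i, Q i) = ⟨i, q⟩ := Option.some.inj h2
        cases h3
        exact ⟨d, rfl, hy⟩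
    ext ⟨k, w⟩
    simp only [Set.mem_iUnion, Set.mem_ofPred_eq]
    constructor
    · rintro ⟨i, hi⟩
      rw [hT] at hi
      obtain ⟨q, hq, hp⟩ := hi
      refine ⟨f i q, ⟨i, q, hq, rfl⟩, ?_⟩
      have h2 := TPath.cons (Δ := D1 ∪ D2) (q := none) (t := 0) (u := []) (Or.inl ⟨i, rfl⟩)
        (TPath.map (f i) (hmap i) hp)
      simpa using h2
    · rintro ⟨_, ⟨i, q, hq, rfl⟩, hp⟩
      generalize hn : (none : Option (Σ i, Q i)) = x at hp
      generalize hm : f i q = y at hp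
      cases hp with
      | nil _ => rw [← hn] at hm; simp [f] at hm
      | cons h2 h3 =>
        subst hn
        rcases h2 with ⟨j, hj⟩ | hx
        · simp only [Prod.mk.injEq, true_and] at hj
          obtain ⟨rfl, rfl, rfl⟩ := hj
          obtain ⟨q', he, h4⟩ := TPath.map_inv (f j) (hinv j) h3 (s j) rfl
          rw [← hm] at he
          have h5 : (⟨i, q⟩ : Σ i, Q i) = ⟨j, q'⟩ := Option.some.inj he
          cases h5
          refine ⟨i, ?_⟩
          rw [hT]
          exact ⟨q, hq, by simpa using h4⟩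
        · exfalso
          obtain ⟨_, ⟨j, rfl⟩, ⟨a, b, c, d⟩, hy, he⟩ := hx
          simp [f] at he

theorem TReg.mul {T1 T2 : Set (ℕ × List B)} (h1 : TReg T1) (h2 : TReg T2) :
    TReg {p | ∃ a ∈ T1, ∃ b ∈ T2, p = (a.1 + b.1, a.2 ++ b.2)} := by
  obtain ⟨Q1, hQ1, Δ1, s1, F1, hf1, ht1, rfl⟩ := h1
  obtain ⟨Q2, hQ2, Δ2, s2, F2, hf2, ht2, rfl⟩ := h2
  let D1 : Set ((Q1 ⊕ Q2) × ℕ × List B × (Q1 ⊕ Q2)) := (fun x : Q1 × ℕ × List B × Q1 =>
    (Sum.inl x.1, x.2.1, x.2.2.1, Sum.inl x.2.2.2)) '' Δ1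
  let D2 : Set ((Q1 ⊕ Q2) × ℕ × List B × (Q1 ⊕ Q2)) := (fun x : Q2 × ℕ × List B × Q2 =>
    (Sum.inr x.1, x.2.1, x.2.2.1, Sum.inr x.2.2.2)) '' Δ2
  let D3 : Set ((Q1 ⊕ Q2) × ℕ × List B × (Q1 ⊕ Q2)) := (fun q : Q1 => (Sum.inl q, 0, [], Sum.inr s2)) '' F1
  refine ⟨Q1 ⊕ Q2, inferInstance, D1 ∪ D2 ∪ D3, Sum.inl s1, {x | ∃ q ∈ F2, x = Sum.inr q}, ?_, ?_, ?_⟩
  · exact ((hf1.image _).union (hf2.image _)).union ((Set.toFinite _).image _)
  · rintro x ((⟨y, hy, rfl⟩ | ⟨y, hy, rfl⟩) | ⟨y, hy, rfl⟩)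
    · exact ht1 y hy
    · exact ht2 y hy
    · simp
  · have hinv2 : ∀ q t u y, ((Sum.inr q : Q1 ⊕ Q2), t, u, y) ∈ D1 ∪ D2 ∪ D3 →
        ∃ q', y = Sum.inr q' ∧ (q, t, u, q') ∈ Δ2 := by
      rintro q t u y ((⟨⟨a, b, c, d⟩, hy, he⟩ | ⟨⟨a, b, c, d⟩, hy, he⟩) | ⟨a, hy, he⟩)
      · simp at he
      · simp only [Prod.mk.injEq, Sum.inr.injEq] at he
        obtain ⟨rfl, rfl, rfl, rfl⟩ := he
        exact ⟨d, rfl, hy⟩
      · simp at he
    have hfwd : ∀ (x y : Q1 ⊕ Q2) k w, TPath (D1 ∪ D2 ∪ D3) x k w y → ∀ q, x = Sum.inl q →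
        ∀ q2 ∈ F2, y = Sum.inr q2 → ∃ f1 ∈ F1, ∃ k1 w1 k2 w2, k = k1 + k2 ∧ w = w1 ++ w2 ∧
          TPath Δ1 q k1 w1 f1 ∧ TPath Δ2 s2 k2 w2 q2 := by
      intro x y k w h
      induction h with
      | nil x => intro q hq q2 _ h; rw [hq] at h; simp at h
      | @cons x x' x'' t k u w h h' ih =>
        intro q hq q2 hq2 hy
        subst hq
        rcases h with (⟨⟨a, b, c, d⟩, hy', he⟩ | ⟨⟨a, b, c, d⟩, hy', he⟩) | ⟨a, hy', he⟩
        · simp only [Prod.mk.injEq, Sum.inl.injEq] at he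
          obtain ⟨rfl, rfl, rfl, rfl⟩ := he
          obtain ⟨f1, hf1, k1, w1, k2, w2, rfl, rfl, h3, h4⟩ := ih d rfl q2 hq2 hy
          exact ⟨f1, hf1, b + k1, c ++ w1, k2, w2, by omega, by simp, TPath.cons hy' h3, h4⟩
        · simp at he
        · simp only [Prod.mk.injEq, Sum.inl.injEq] at he
          obtain ⟨rfl, rfl, rfl, rfl⟩ := he
          obtain ⟨q', he', h4⟩ := TPath.map_inv (Sum.inr : Q2 → Q1 ⊕ Q2) hinv2 h' s2 rfl
          rw [hy] at he'
          have : q2 = q' := Sum.inr.inj he'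
          subst this
          exact ⟨a, hy', 0, [], k, w, by omega, rfl, TPath.nil a, h4⟩
    ext ⟨k, w⟩
    simp only [Set.mem_ofPred_eq, Prod.mk.injEq]
    constructor
    · rintro ⟨⟨k1, w1⟩, ⟨f1, hf1, h3⟩, ⟨k2, w2⟩, ⟨f2, hf2, h4⟩, rfl, rfl⟩
      refine ⟨Sum.inr f2, ⟨f2, hf2, rfl⟩, ?_⟩
      have h5 := TPath.map (Δ' := D1 ∪ D2 ∪ D3) (Sum.inl : Q1 → Q1 ⊕ Q2)
        (fun q t u q' h => Or.inl (Or.inl ⟨_, h, rfl⟩)) h3
      have h6 := TPath.map (Δ' := D1 ∪ D2 ∪ D3) (Sum.inr : Q2 → Q1 ⊕ Q2)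
        (fun q t u q' h => Or.inl (Or.inr ⟨_, h, rfl⟩)) h4
      have h7 := TPath.cons (Δ := D1 ∪ D2 ∪ D3) (q := Sum.inl f1) (t := 0) (u := [])
        (Or.inr ⟨f1, hf1, rfl⟩) h6
      have h8 := h5.trans h7
      simpa using h8
    · rintro ⟨_, ⟨q2, hq2, rfl⟩, hp⟩
      obtain ⟨f1, hf1, k1, w1, k2, w2, rfl, rfl, h3, h4⟩ := hfwd _ _ _ _ hp s1 rfl q2 hq2 rfl
      exact ⟨(k1, w1), ⟨f1, hf1, h3⟩, (k2, w2), ⟨q2, hq2, h4⟩, rfl, rfl⟩

theorem TReg.atom {W : Set (List B)} (hW : W.Finite) {t : ℕ} (ht : t ≤ 1) :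
    TReg {p : ℕ × List B | p.1 = t ∧ p.2 ∈ W} := by
  refine ⟨Bool, inferInstance, (fun w => (false, t, w, true)) '' W, false, {true}, hW.image _,
    ?_, ?_⟩
  · rintro _ ⟨w, _, rfl⟩
    exact ht
  · ext ⟨k, w⟩
    simp only [Set.mem_ofPred_eq, Set.mem_singleton_iff, exists_eq_left]
    constructor
    · rintro ⟨rfl, hw⟩
      exact TPath.single ⟨w, hw, rfl⟩
    · intro h
      generalize hx : false = x at h
      generalize hy : true = y at h
      cases h with
      | nil _ => rw [← hx] at hy; simp at hy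
      | cons h1 h2 =>
        subst hx
        obtain ⟨u, hu, he⟩ := h1
        simp only [Prod.mk.injEq, true_and] at he
        obtain ⟨rfl, rfl, rfl⟩ := he
        generalize hz : true = z at h2
        cases h2 with
        | nil _ => exact ⟨rfl, by simpa using hu⟩
        | cons h3 _ =>
          subst hz
          obtain ⟨u, hu, he⟩ := h3
          simp only [Prod.mk.injEq] at he
          rw [← hy] at he
          exact absurd he.1 (by simp)

theorem TReg.idle : TReg {p : ℕ × List B | p.2 = []} := by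
  refine ⟨Unit, inferInstance, {((), 1, [], ())}, (), Set.univ, Set.finite_singleton _, ?_, ?_⟩
  · rintro x rfl; simp
  · ext ⟨k, w⟩
    simp only [Set.mem_ofPred_eq, Set.mem_univ, true_and]
    constructor
    · rintro rfl
      refine ⟨(), ?_⟩
      induction k with
      | zero => exact TPath.nil ()
      | succ k ih =>
        have := TPath.cons (Δ := {((), 1, ([] : List B), ())}) (Set.mem_singleton _) ih
        rw [Nat.add_comm]
        simpa using this
    · rintro ⟨f, h⟩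
      have key : ∀ (x y : Unit) k w, TPath (B := B) {((), 1, ([] : List B), ())} x k w y →
          w = [] := by
        intro x y k w h
        induction h with
        | nil _ => rfl
        | cons h _ ih =>
          simp only [Set.mem_singleton_iff, Prod.mk.injEq] at h
          obtain ⟨-, -, rfl, -⟩ := h
          simpa using ih
      exact key _ _ _ _ h

theorem TReg.union {T1 T2 : Set (ℕ × List B)} (h1 : TReg T1) (h2 : TReg T2) :
    TReg (T1 ∪ T2) := by
  have h := TReg.iUnion (fun b : Bool => if b then T1 else T2) (by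
    rintro (_ | _)
    · simpa using h2
    · simpa using h1)
  convert h using 1
  ext w
  simp [or_comm]

theorem TReg.biUnion {ι : Type} {s : Set ι} (hs : s.Finite) (T : ι → Set (ℕ × List B))
    (h : ∀ i ∈ s, TReg (T i)) : TReg (⋃ i ∈ s, T i) := by
  have : Finite s := hs
  have h1 := TReg.iUnion (fun i : s => T i) (fun i => h i i.2)
  convert h1 using 1
  ext w
  simp

/-- pairs with the same time form a linear language -/
theorem Lin.pair {T1 T2 : Set (ℕ × List B)} (h1 : TReg T1) (h2 : TReg T2) {M : Set (List B)}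
    (hM : M.Finite) :
    Lin {w | ∃ k w1 w2, (k, w1) ∈ T1 ∧ (k, w2) ∈ T2 ∧ ∃ m ∈ M, w = w1 ++ m ++ w2} := by
  obtain ⟨Q1, hQ1, Δ1, s1, F1, hf1, ht1, rfl⟩ := h1
  obtain ⟨Q2, hQ2, Δ2, s2, F2, hf2, ht2, rfl⟩ := h2
  let D1 : Set ((Q1 × Q2) × List B × List B × (Q1 × Q2)) :=
    (fun x : (Q1 × ℕ × List B × Q1) × Q2 => ((x.1.1, x.2), x.1.2.2.1, [], (x.1.2.2.2, x.2))) ''
      ({x | x ∈ Δ1 ∧ x.2.1 = 0} ×ˢ Set.univ)
  let D2 : Set ((Q1 × Q2) × List B × List B × (Q1 × Q2)) :=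
    (fun x : (Q2 × ℕ × List B × Q2) × Q1 => ((x.2, x.1.2.2.2), [], x.1.2.2.1, (x.2, x.1.1))) ''
      ({x | x ∈ Δ2 ∧ x.2.1 = 0} ×ˢ Set.univ)
  let D3 : Set ((Q1 × Q2) × List B × List B × (Q1 × Q2)) :=
    (fun x : (Q1 × ℕ × List B × Q1) × (Q2 × ℕ × List B × Q2) =>
      ((x.1.1, x.2.2.2.2), x.1.2.2.1, x.2.2.2.1, (x.1.2.2.2, x.2.1))) ''
      ({x | x ∈ Δ1 ∧ x.2.1 = 1} ×ˢ {x | x ∈ Δ2 ∧ x.2.1 = 1})
  let Φ : Q1 × Q2 → List B → Prop := fun q m => q.1 ∈ F1 ∧ q.2 = s2 ∧ m ∈ M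
  have hfin : (D1 ∪ D2 ∪ D3).Finite := by
    refine ((Set.Finite.image _ ?_).union (Set.Finite.image _ ?_)).union (Set.Finite.image _ ?_)
    · exact (hf1.subset (fun x hx => hx.1)).prod Set.finite_univ
    · exact (hf2.subset (fun x hx => hx.1)).prod Set.finite_univ
    · exact (hf1.subset (fun x hx => hx.1)).prod (hf2.subset (fun x hx => hx.1))
  have hL : ∀ f2 : Q2, Lin {w | LRun (D1 ∪ D2 ∪ D3) Φ (s1, f2) w} := fun f2 =>
    ⟨Q1 × Q2, inferInstance, _, Φ, (s1, f2), hfin,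
      fun q => hM.subset (fun m hm => hm.2.2), rfl⟩
  have sound : ∀ x w, LRun (D1 ∪ D2 ∪ D3) Φ x w → ∃ k w1 m w2, w = w1 ++ m ++ w2 ∧ m ∈ M ∧
      (∃ f1 ∈ F1, TPath Δ1 x.1 k w1 f1) ∧ TPath Δ2 s2 k w2 x.2 := by
    intro x w h
    induction h with
    | @fin q w h =>
      refine ⟨0, [], w, [], by simp, h.2.2, ⟨q.1, h.1, TPath.nil _⟩, ?_⟩
      rw [h.2.1]
      exact TPath.nil _
    | @step q q' u v w h _ ih =>
      obtain ⟨k, w1, m, w2, rfl, hm, ⟨f1, hf1, h3⟩, h4⟩ := ih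
      rcases h with (⟨⟨⟨a, b, c, d⟩, e⟩, ⟨⟨hy, h0⟩, -⟩, he⟩ |
        ⟨⟨⟨a, b, c, d⟩, e⟩, ⟨⟨hy, h0⟩, -⟩, he⟩) |
        ⟨⟨⟨a, b, c, d⟩, ⟨a', b', c', d'⟩⟩, ⟨⟨hy, h0⟩, ⟨hy', h0'⟩⟩, he⟩
      · simp only [Prod.mk.injEq] at he
        obtain ⟨rfl, rfl, rfl, rfl⟩ := he
        dsimp only at h0 h3 h4 ⊢
        subst h0
        refine ⟨k, c ++ w1, m, w2, by simp, hm, ⟨f1, hf1, ?_⟩, h4⟩
        have := TPath.cons hy h3
        simpa using this
      · simp only [Prod.mk.injEq] at he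
        obtain ⟨rfl, rfl, rfl, rfl⟩ := he
        dsimp only at h0 h3 h4 ⊢
        subst h0
        refine ⟨k, w1, m, w2 ++ c, by simp, hm, ⟨f1, hf1, h3⟩, ?_⟩
        have := h4.trans (TPath.single hy)
        simpa using this
      · simp only [Prod.mk.injEq] at he
        obtain ⟨rfl, rfl, rfl, rfl⟩ := he
        dsimp only at h0 h0' h3 h4 ⊢
        subst h0 h0'
        refine ⟨1 + k, c ++ w1, m, w2 ++ c', by simp, hm, ⟨f1, hf1, TPath.cons hy h3⟩, ?_⟩
        have := h4.trans (TPath.single hy')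
        rw [Nat.add_comm 1 k]
        exact this
  have zero : ∀ (b q2 : Q2) k r, TPath Δ2 b k r q2 → k = 0 → ∀ q1 w,
      LRun (D1 ∪ D2 ∪ D3) Φ (q1, b) w → LRun (D1 ∪ D2 ∪ D3) Φ (q1, q2) (w ++ r) := by
    intro b q2 k r h
    induction h with
    | nil b => intro _ q1 w h; simpa using h
    | @cons b b' b'' t k u r h _ ih =>
      intro hk q1 w hw
      have ht : t = 0 := by omega
      have hk0 : k = 0 := by omega
      subst ht
      have h1 : LRun (D1 ∪ D2 ∪ D3) Φ (q1, b') ([] ++ w ++ u) :=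
        LRun.step (Or.inl (Or.inr ⟨((b, 0, u, b'), q1), ⟨⟨h, rfl⟩, Set.mem_univ _⟩, rfl⟩)) hw
      have h2 := ih hk0 q1 _ h1
      simpa using h2
  have complete : ∀ (q1 f1 : Q1) k w1, TPath Δ1 q1 k w1 f1 → f1 ∈ F1 → ∀ m ∈ M, ∀ q2 w2,
      TPath Δ2 s2 k w2 q2 → LRun (D1 ∪ D2 ∪ D3) Φ (q1, q2) (w1 ++ m ++ w2) := by
    intro q1 f1 k w1 h
    induction h with
    | nil q1 =>
      intro hf m hm q2 w2 h2
      simpa using zero _ _ _ _ h2 rfl q1 m (LRun.fin ⟨hf, rfl, hm⟩)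
    | @cons q1 q1' q1'' t k u w1 h _ ih =>
      intro hf m hm q2 w2 h2
      have ht := ht1 _ h
      dsimp only at ht
      rcases Nat.lt_or_ge t 1 with ht0 | ht1'
      · have ht0 : t = 0 := by omega
        subst ht0
        rw [Nat.zero_add] at h2
        have h3 := ih hf m hm q2 w2 h2
        have h4 : LRun (D1 ∪ D2 ∪ D3) Φ (q1, q2) (u ++ (w1 ++ m ++ w2) ++ []) :=
          LRun.step (Or.inl (Or.inl ⟨((q1, 0, u, q1'), q2), ⟨⟨h, rfl⟩, Set.mem_univ _⟩, rfl⟩)) h3
        simpa using h4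
      · have ht1'' : t = 1 := by omega
        subst ht1''
        rw [Nat.add_comm] at h2
        obtain ⟨a, b, v, x1, x2, rfl, h5, h6, h7⟩ := h2.split_last ht2 k rfl
        have h3 := ih hf m hm a x1 h5
        have h4 : LRun (D1 ∪ D2 ∪ D3) Φ (q1, b) (u ++ (w1 ++ m ++ x1) ++ v) :=
          LRun.step (Or.inr ⟨((q1, 1, u, q1'), (a, 1, v, b)), ⟨⟨h, rfl⟩, ⟨h6, rfl⟩⟩, rfl⟩) h3
        have h8 := zero _ _ _ _ h7 rfl q1 _ h4
        simpa using h8
  have h3 := Lin.biUnion (Set.toFinite F2) (fun f2 => {w | LRun (D1 ∪ D2 ∪ D3) Φ (s1, f2) w})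
    (fun f2 _ => hL f2)
  convert h3 using 1
  ext w
  simp only [Set.mem_ofPred_eq, Set.mem_iUnion, exists_prop]
  constructor
  · rintro ⟨k, w1, w2, ⟨f1, hf1, h4⟩, ⟨f2, hf2, h5⟩, m, hm, rfl⟩
    exact ⟨f2, hf2, complete _ _ _ _ h4 hf1 m hm f2 w2 h5⟩
  · rintro ⟨f2, hf2, h⟩
    obtain ⟨k, w1, m, w2, rfl, hm, h4, h5⟩ := sound _ _ h
    exact ⟨k, w1, w2, h4, ⟨f2, hf2, h5⟩, m, hm, rfl⟩

end treg

end Pool.Agent.Helper230.E
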