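import Pool.Agent.Helper230.ECore
import Pool.Agent.Helper230.ELin

/-! A parallel system without three simultaneously growing sides generates linear languages. -/

namespace Pool.Agent.Helper230.E

section viol
variable {A B : Type} (H : A → List A → Prop) (Gr : A → Prop)

def Viol (u : List A) : Prop :=
  (∃ z0 X1 z1 X2 z2 X3 z3, u = z0 ++ X1 :: z1 ++ X2 :: z2 ++ X3 :: z3 ∧ Gr X1 ∧ Gr X2 ∧ Gr X3) ∨
  (∃ z0 X1 z1 X2 z2, u = z0 ++ X1 :: z1 ++ X2 :: z2 ∧ Gr X1 ∧ Gr X2 ∧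
    ∃ Z, (Reach H X1 Z ∨ Reach H X2 Z) ∧ Rel H 1 Z Z true true)

def Safe (u : List A) : Prop := ∀ k ξ, It H k u ξ → ¬ Viol H Gr ξ

def NG (u : List A) : Prop := ∀ Z ∈ u, ¬ Gr Z

def AM (u : List A) : Prop := ∀ z0 X1 z1 X2 z2, u = z0 ++ X1 :: z1 ++ X2 :: z2 → Gr X1 → ¬ Gr X2

def Thin (X : A) : Prop := ∀ Z, Reach H X Z → ¬ Rel H 1 Z Z true true ∧ ∀ ξ, H Z ξ → AM Gr ξ

variable {H Gr}

theorem Viol.ctx {u : List A} (h : Viol H Gr u) (a c : List A) : Viol H Gr (a ++ u ++ c) := by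
  rcases h with ⟨z0, X1, z1, X2, z2, X3, z3, rfl, h⟩ | ⟨z0, X1, z1, X2, z2, rfl, h⟩
  · exact Or.inl ⟨a ++ z0, X1, z1, X2, z2, X3, z3 ++ c, by simp, h⟩
  · exact Or.inr ⟨a ++ z0, X1, z1, X2, z2 ++ c, by simp, h⟩

theorem Safe.step {u ξ : List A} {j : ℕ} (h : Safe H Gr u) (h1 : It H j u ξ) : Safe H Gr ξ := by
  intro k ζ h2
  exact h (j + k) ζ (It.add_iff.2 ⟨ξ, h1, h2⟩)

theorem Safe.sub (hne : ∀ X, ∃ ξ, H X ξ ∧ ξ ≠ []) {a b c : List A}
    (h : Safe H Gr (a ++ b ++ c)) : Safe H Gr b := by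
  intro k ξ h1 h2
  obtain ⟨a', ha, -⟩ := It.exists_len hne k a
  obtain ⟨c', hc, -⟩ := It.exists_len hne k c
  exact h k (a' ++ ξ ++ c') ((ha.append h1).append hc) (h2.ctx a' c')

/-- decomposition at the first growing letter -/
theorem first_gr (Gr : A → Prop) (u : List A) :
    NG Gr u ∨ ∃ γ Z δ, u = γ ++ Z :: δ ∧ NG Gr γ ∧ Gr Z := by
  classical
  induction u with
  | nil => left; intro Z hZ; simp at hZ
  | cons X u ih =>
    by_cases hX : Gr X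
    · right
      exact ⟨[], X, u, rfl, fun Z hZ => by simp at hZ, hX⟩
    · rcases ih with h | ⟨γ, Z, δ, rfl, h1, h2⟩
      · left
        intro Z hZ
        rcases List.mem_cons.1 hZ with rfl | hZ
        · exact hX
        · exact h Z hZ
      · right
        refine ⟨X :: γ, Z, δ, rfl, ?_, h2⟩
        intro Z hZ
        rcases List.mem_cons.1 hZ with rfl | hZ
        · exact hX
        · exact h1 Z hZ

theorem AM.cases {u : List A} (h : AM Gr u) :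
    NG Gr u ∨ ∃ γ Z δ, u = γ ++ Z :: δ ∧ NG Gr γ ∧ Gr Z ∧ NG Gr δ := by
  rcases first_gr Gr u with h1 | ⟨γ, Z, δ, rfl, h1, h2⟩
  · exact Or.inl h1
  · right
    refine ⟨γ, Z, δ, rfl, h1, h2, ?_⟩
    intro Y hY
    obtain ⟨a, b, rfl⟩ := List.append_of_mem hY
    exact h γ Z a Y b (by simp) h2

/-- trichotomy for words without three growing letters -/
theorem three_cases {u : List A} (h : ¬ Viol H Gr u) :
    NG Gr u ∨ (∃ γ Z δ, u = γ ++ Z :: δ ∧ NG Gr γ ∧ Gr Z ∧ NG Gr δ) ∨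
      (∃ γ X1 δ X2 ε, u = γ ++ X1 :: δ ++ X2 :: ε ∧ NG Gr γ ∧ Gr X1 ∧ NG Gr δ ∧ Gr X2 ∧
        NG Gr ε) := by
  rcases first_gr Gr u with h1 | ⟨γ, Z, δ, rfl, h1, h2⟩
  · exact Or.inl h1
  · right
    rcases first_gr Gr δ with h3 | ⟨δ1, X2, ε, rfl, h3, h4⟩
    · exact Or.inl ⟨γ, Z, δ, rfl, h1, h2, h3⟩
    · right
      refine ⟨γ, Z, δ1, X2, ε, by simp, h1, h2, h3, h4, ?_⟩
      intro Y hY hg
      obtain ⟨a, b, rfl⟩ := List.append_of_mem hY
      exact h (Or.inl ⟨γ, Z, δ1, X2, a, Y, b, by simp, h2, h4, hg⟩)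

end viol

section main
variable {A B : Type} {H : A → List A → Prop} {ω : A → List B → Prop} {Gr : A → Prop}

theorem Nice.path (hN : Nice H ω Gr) {X : A} (hX : Gr X) (k : ℕ) :
    ∃ γ Z δ, It H k [X] (γ ++ Z :: δ) ∧ Gr Z := by
  induction k with
  | zero => exact ⟨[], X, [], rfl, hX⟩
  | succ k ih =>
    obtain ⟨γ, Z, δ, h1, h2⟩ := ih
    obtain ⟨ξ, h3, Y, hY, h4⟩ := hN.gr_down Z h2
    obtain ⟨a, b, rfl⟩ := List.append_of_mem hY
    obtain ⟨γ', h5, -⟩ := It.exists_len hN.hne 1 γ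
    obtain ⟨δ', h6, -⟩ := It.exists_len hN.hne 1 δ
    refine ⟨γ' ++ a, Y, b ++ δ', ?_, h4⟩
    rw [It.add_iff]
    refine ⟨_, h1, ?_⟩
    have h7 := h5.append (It.append (u := [Z]) (It.one_iff.2 (Sub.single_iff.2 h3)) h6)
    simpa using h7

theorem Nice.thin (hN : Nice H ω Gr) {γ δ ε : List A} {X1 X2 : A}
    (h : Safe H Gr (γ ++ X1 :: δ ++ X2 :: ε)) (h1 : Gr X1) (h2 : Gr X2) :
    Thin H Gr X1 ∧ Thin H Gr X2 := by
  constructor
  · intro Z hZ
    refine ⟨fun hTS => h 0 _ rfl (Or.inr ⟨γ, X1, δ, X2, ε, rfl, h1, h2, Z, Or.inl hZ, hTS⟩), ?_⟩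
    intro ξ hξ z0 Y1 z1 Y2 z2 he hg1 hg2
    obtain ⟨k, a, b, h3, -, -⟩ := hZ
    obtain ⟨p, W, q, h4, hW⟩ := hN.path h2 (k + 1)
    obtain ⟨a', ha, -⟩ := It.exists_len hN.hne 1 a
    obtain ⟨b', hb, -⟩ := It.exists_len hN.hne 1 b
    have h5 : It H (k + 1) [X1] (a' ++ (ξ ++ b')) :=
      It.add_iff.2 ⟨_, h3, ha.append (It.append (u := [Z])
        (It.one_iff.2 (Sub.single_iff.2 hξ)) hb)⟩
    obtain ⟨γ', hγ, -⟩ := It.exists_len hN.hne (k + 1) γ
    obtain ⟨δ', hδ, -⟩ := It.exists_len hN.hne (k + 1) δ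
    obtain ⟨ε', hε, -⟩ := It.exists_len hN.hne (k + 1) ε
    have h6 : It H (k + 1) (γ ++ X1 :: δ ++ X2 :: ε)
        ((γ' ++ (a' ++ (ξ ++ b') ++ δ')) ++ ((p ++ W :: q) ++ ε')) :=
      (hγ.append (It.append (u := [X1]) h5 hδ)).append (It.append (u := [X2]) h4 hε)
    refine h _ _ h6 (Or.inl ⟨γ' ++ a' ++ z0, Y1, z1, Y2, z2 ++ b' ++ δ' ++ p, W, q ++ ε', ?_,
      hg1, hg2, hW⟩)
    rw [he]
    simp
  · intro Z hZ
    refine ⟨fun hTS => h 0 _ rfl (Or.inr ⟨γ, X1, δ, X2, ε, rfl, h1, h2, Z, Or.inr hZ, hTS⟩), ?_⟩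
    intro ξ hξ z0 Y1 z1 Y2 z2 he hg1 hg2
    obtain ⟨k, a, b, h3, -, -⟩ := hZ
    obtain ⟨p, W, q, h4, hW⟩ := hN.path h1 (k + 1)
    obtain ⟨a', ha, -⟩ := It.exists_len hN.hne 1 a
    obtain ⟨b', hb, -⟩ := It.exists_len hN.hne 1 b
    have h5 : It H (k + 1) [X2] (a' ++ (ξ ++ b')) :=
      It.add_iff.2 ⟨_, h3, ha.append (It.append (u := [Z])
        (It.one_iff.2 (Sub.single_iff.2 hξ)) hb)⟩
    obtain ⟨γ', hγ, -⟩ := It.exists_len hN.hne (k + 1) γ
    obtain ⟨δ', hδ, -⟩ := It.exists_len hN.hne (k + 1) δ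
    obtain ⟨ε', hε, -⟩ := It.exists_len hN.hne (k + 1) ε
    have h6 : It H (k + 1) (γ ++ X1 :: δ ++ X2 :: ε)
        ((γ' ++ ((p ++ W :: q) ++ δ')) ++ ((a' ++ (ξ ++ b')) ++ ε')) :=
      (hγ.append (It.append (u := [X1]) h4 hδ)).append (It.append (u := [X2]) h5 hε)
    refine h _ _ h6 (Or.inl ⟨γ' ++ p, W, q ++ δ' ++ a' ++ z0, Y1, z1, Y2, z2 ++ b' ++ ε', ?_,
      hW, hg1, hg2⟩)
    rw [he]
    simp

theorem Nice.ng (hN : Nice H ω Gr) {u : List A} (hu : NG Gr u) (k : ℕ) (w : List B) :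
    Fin H ω k u w ↔ Sub ω u w := by
  rw [Fin.iff_sub]
  exact Sub.congr (fun a ha w => hN.const a (hu a ha) k w)

theorem Nice.gr_reach (hN : Nice H ω Gr) {X Z : A} (h : Reach H X Z) (hZ : Gr Z) : Gr X := by
  obtain ⟨k, γ, δ, h1, -, -⟩ := h
  induction k generalizing X γ δ with
  | zero =>
    rw [It] at h1
    have := congrArg List.length h1
    simp only [List.length_append, List.length_cons, List.length_nil] at this
    have e1 : γ = [] := List.eq_nil_of_length_eq_zero (by omega)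
    subst e1
    simp only [List.nil_append, List.cons.injEq] at h1
    rw [← h1.1]
    exact hZ
  | succ k ih =>
    obtain ⟨v, h2, h3⟩ := It.single_succ.1 h1
    rw [It.iff_sub] at h3
    obtain ⟨u1, Y, u2, p1, p2, s1, s2, rfl, -, -, -, h4, -⟩ := h3.locate
    exact hN.gr_up X _ Y h2 (by simp) (ih _ _ h4)

def TT (H : A → List A → Prop) (ω : A → List B → Prop) (u : List A) : Set (ℕ × List B) :=
  {p | Fin H ω p.1 u p.2}

theorem Nice.tt_word [Finite A] (hN : Nice H ω Gr) {u : List A} (hu : AM Gr u)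
    (h : ∀ Z ∈ u, Gr Z → TReg (TT H ω [Z])) : TReg (TT H ω u) := by
  rcases hu.cases with h1 | ⟨γ, Z, δ, rfl, h1, h2, h3⟩
  · have h4 := TReg.mul TReg.idle (TReg.atom (t := 0) (W := {w | Sub ω u w})
      (Sub.finite (fun a _ => hN.ofin a)) (by omega))
    convert h4 using 1
    ext ⟨k, w⟩
    simp only [TT, Set.mem_ofPred_eq, hN.ng h1, Prod.mk.injEq]
    constructor
    · intro hw
      exact ⟨(k, []), rfl, (0, w), ⟨rfl, hw⟩, rfl, rfl⟩
    · rintro ⟨⟨k1, w1⟩, h5, ⟨k2, w2⟩, ⟨h6, h7⟩, rfl, rfl⟩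
      dsimp only at h5 h6 h7 ⊢
      rw [h5]
      exact h7
  · have h4 := TReg.mul (TReg.mul (TReg.atom (t := 0) (W := {w | Sub ω γ w})
      (Sub.finite (fun a _ => hN.ofin a)) (by omega)) (h Z (by simp) h2))
      (TReg.atom (t := 0) (W := {w | Sub ω δ w})
      (Sub.finite (fun a _ => hN.ofin a)) (by omega))
    convert h4 using 1
    ext ⟨k, w⟩
    have e : γ ++ Z :: δ = γ ++ ([Z] ++ δ) := rfl
    simp only [TT, Set.mem_ofPred_eq, Prod.mk.injEq]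
    rw [e, Fin.append_iff]
    constructor
    · rintro ⟨w1, w2, rfl, h5, h6⟩
      rw [Fin.append_iff] at h6
      obtain ⟨w3, w4, rfl, h7, h8⟩ := h6
      rw [hN.ng h1] at h5
      rw [hN.ng h3] at h8
      exact ⟨(k, w1 ++ w3), ⟨(0, w1), ⟨rfl, h5⟩, (k, w3), h7, by simp⟩, (0, w4), ⟨rfl, h8⟩,
        rfl, by simp⟩
    · rintro ⟨⟨k1, w1⟩, ⟨⟨k3, w3⟩, ⟨h5, h6⟩, ⟨k4, w4⟩, h7, h8⟩, ⟨k2, w2⟩, ⟨h9, h10⟩, rfl, rfl⟩
      dsimp only at h5 h6 h7 h8 h9 h10 ⊢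
      rw [Prod.mk.injEq] at h8
      obtain ⟨rfl, rfl⟩ := h8
      subst h5 h9
      refine ⟨w3, w4 ++ w2, by simp, (hN.ng h1 _ _).2 h6, ?_⟩
      rw [Fin.append_iff]
      exact ⟨w4, w2, rfl, by simpa using h7, (hN.ng h3 _ _).2 h10⟩

theorem Thin.reach (hne : ∀ X, ∃ ξ, H X ξ ∧ ξ ≠ []) {X Y : A} (h : Thin H Gr X)
    (hr : Reach H X Y) : Thin H Gr Y := fun Z hZ => h Z (hr.trans hne hZ)

theorem word_finite [Finite A] (hN : Nice H ω Gr) (m : ℕ) :
    {w | ∃ γ : List A, γ.length ≤ m ∧ Sub ω γ w}.Finite := by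
  have : {w | ∃ γ : List A, γ.length ≤ m ∧ Sub ω γ w} =
      ⋃ γ ∈ {γ : List A | γ.length ≤ m}, {w | Sub ω γ w} := by
    ext w
    simp
  rw [this]
  exact Set.Finite.biUnion (List.finite_length_le A m)
    (fun γ _ => Sub.finite (fun a _ => hN.ofin a))

theorem Nice.exit_reg [Finite A] (hN : Nice H ω Gr) (C : Set A) (Y : A)
    (h : ∀ ξ, H Y ξ → (∀ Z ∈ ξ, Z ∉ C) → TReg (TT H ω ξ)) :
    TReg {p : ℕ × List B | (p.1 = 0 ∧ ω Y p.2) ∨
      ∃ k, p.1 = 1 + k ∧ ∃ ξ, H Y ξ ∧ (∀ Z ∈ ξ, Z ∉ C) ∧ Fin H ω k ξ p.2} := by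
  have h1 := TReg.union (TReg.atom (t := 0) (W := {w | ω Y w}) (hN.ofin Y) (by omega))
    (TReg.biUnion (s := {ξ | H Y ξ ∧ ∀ Z ∈ ξ, Z ∉ C}) ((hN.hfin Y).subset (fun ξ hξ => hξ.1))
      (fun ξ => {p | ∃ a ∈ {p : ℕ × List B | p.1 = 1 ∧ p.2 ∈ ({[]} : Set (List B))},
        ∃ b ∈ TT H ω ξ, p = (a.1 + b.1, a.2 ++ b.2)})
      (fun ξ hξ => TReg.mul (TReg.atom (Set.finite_singleton _) (le_refl 1)) (h ξ hξ.1 hξ.2)))
  convert h1 using 1
  ext ⟨k, w⟩
  simp only [Set.mem_ofPred_eq, Set.mem_union, Set.mem_iUnion, exists_prop]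
  apply or_congr Iff.rfl
  constructor
  · rintro ⟨j, rfl, ξ, h2, h3, h4⟩
    exact ⟨ξ, ⟨h2, h3⟩, (1, []), ⟨rfl, rfl⟩, (j, w), h4, rfl⟩
  · rintro ⟨ξ, ⟨h2, h3⟩, ⟨a, u⟩, ⟨h4, h5⟩, ⟨j, v⟩, h6, h7⟩
    rw [Prod.mk.injEq] at h7
    obtain ⟨rfl, rfl⟩ := h7
    dsimp only at h4
    subst h4
    have h5' : u = [] := h5
    subst h5'
    exact ⟨j, rfl, ξ, h2, h3, h6⟩

theorem Nice.treg [Finite A] (hN : Nice H ω Gr) (n : ℕ) :
    ∀ X : A, rank H X ≤ n → Gr X → Thin H Gr X → TReg (TT H ω [X]) := by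
  classical
  induction n with
  | zero =>
    intro X hX
    exfalso
    have : 0 < rank H X := by
      rw [rank, Set.ncard_pos (Set.toFinite _)]
      exact ⟨X, 0, Rel.refl X⟩
    omega
  | succ n ih =>
    intro X hX hgX hth
    have hne := hN.hne
    obtain ⟨m, -, hm⟩ := exists_max_len hN.hfin
    let C : Set A := {Y | Reach H X Y ∧ Reach H Y X}
    have hXC : X ∈ C := ⟨⟨0, Rel.refl X⟩, ⟨0, Rel.refl X⟩⟩
    have hgC : ∀ Y ∈ C, Gr Y := fun Y hY => hN.gr_reach hY.2 hgX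
    have hchild : ∀ Y ∈ C, ∀ ξ, H Y ξ → ∀ Z ∈ ξ, Reach H X Z := fun Y hY ξ hξ Z hZ =>
      hY.1.trans hne ⟨1, Rel.of_mem hξ hZ⟩
    -- exits
    let Ext : A → Set (ℕ × List B) := fun Y => {p : ℕ × List B | (p.1 = 0 ∧ ω Y p.2) ∨
      ∃ k, p.1 = 1 + k ∧ ∃ ξ, H Y ξ ∧ (∀ Z ∈ ξ, Z ∉ C) ∧ Fin H ω k ξ p.2}
    have hExt : ∀ Y ∈ C, TReg (Ext Y) := by
      intro Y hY
      refine hN.exit_reg C Y ?_
      intro ξ hξ hC
      refine hN.tt_word ((hth Y hY.1).2 ξ hξ) ?_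
      intro Z hZ hgZ
      have hXZ := hchild Y hY ξ hξ Z hZ
      have hZX : ¬ Reach H Z X := fun h => hC Z hZ ⟨hXZ, h⟩
      exact ih Z (by have := rank_lt hne hXZ hZX; omega) hgZ (hth.reach hne hXZ)
    have hExtF : ∀ Y k w, (k, w) ∈ Ext Y → Fin H ω k [Y] w := by
      rintro Y k w (⟨h0, h1⟩ | ⟨j, hj, ξ, h1, -, h2⟩)
      · dsimp only at h0 h1
        subst h0
        exact Fin.zero_iff.2 (Sub.single_iff.2 h1)
      · dsimp only at hj h2
        subst hj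
        rw [Nat.add_comm, Fin.single_succ]
        exact ⟨ξ, h1, h2⟩
    -- inner transitions
    have hinner : ∀ Y ∈ C, ∀ γ Y' δ, H Y (γ ++ Y' :: δ) → Y' ∈ C → NG Gr γ ∧ NG Gr δ := by
      intro Y hY γ Y' δ hξ hY'
      have ham := (hth Y hY.1).2 _ hξ
      constructor
      · intro Z hZ hgZ
        obtain ⟨a, b, rfl⟩ := List.append_of_mem hZ
        exact ham a Z b Y' δ (by simp) hgZ (hgC _ hY')
      · intro Z hZ
        obtain ⟨a, b, rfl⟩ := List.append_of_mem hZ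
        exact ham γ Y' a Z b (by simp) (hgC _ hY')
    have hcycle : ∀ Y ∈ C, ∀ γ Y' δ, H Y (γ ++ Y' :: δ) → Y' ∈ C →
        (γ ≠ [] → Rel H 1 X X true false) ∧ (δ ≠ [] → Rel H 1 X X false true) := by
      intro Y hY γ Y' δ hξ hY'
      obtain ⟨j, hj⟩ := hY.1
      obtain ⟨l, hl⟩ := hY'.2
      have h1 : It H 1 [Y] (γ ++ Y' :: δ) := It.one_iff.2 (Sub.single_iff.2 hξ)
      constructor
      · intro hγ
        have h2 : Rel H 1 Y Y' true false := ⟨γ, δ, h1, fun _ => hγ, by simp⟩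
        have h3 := Rel.comp hne (Rel.comp hne hj h2) hl
        have e1 : j + 1 + l = (j + l) + 1 := by omega
        rw [e1] at h3
        exact (Rel.idem_pow hne hN.idem _ _ _ _ _).1 (by simpa using h3)
      · intro hδ
        have h2 : Rel H 1 Y Y' false true := ⟨γ, δ, h1, by simp, fun _ => hδ⟩
        have h3 := Rel.comp hne (Rel.comp hne hj h2) hl
        have e1 : j + 1 + l = (j + l) + 1 := by omega
        rw [e1] at h3
        exact (Rel.idem_pow hne hN.idem _ _ _ _ _).1 (by simpa using h3)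
    have hnotboth : ¬ (Rel H 1 X X true false ∧ Rel H 1 X X false true) := by
      rintro ⟨h1, h2⟩
      have h3 := Rel.comp hne h1 h2
      exact (hth X ⟨0, Rel.refl X⟩).1 ((hN.idem X X _ _).1 (by simpa using h3))
    by_cases hcase : Rel H 1 X X false true
    · -- right-type component
      have hleft : ∀ Y ∈ C, ∀ γ Y' δ, H Y (γ ++ Y' :: δ) → Y' ∈ C → γ = [] := by
        intro Y hY γ Y' δ hξ hY'
        by_contra hc
        exact hnotboth ⟨(hcycle Y hY γ Y' δ hξ hY').1 hc, hcase⟩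
      let Δ : Set (A × ℕ × List B × A) := {x | x.2.1 = 1 ∧ x.1 ∈ C ∧ x.2.2.2 ∈ C ∧
        ∃ δ, H x.1 (x.2.2.2 :: δ) ∧ Sub ω δ x.2.2.1}
      have hΔ : Δ.Finite := by
        refine ((Set.finite_univ (α := A)).prod ((Set.finite_singleton 1).prod
          ((word_finite hN m).prod (Set.finite_univ (α := A))))).subset ?_
        rintro ⟨Y, t, u, Y'⟩ ⟨h1, h2, h3, δ, h4, h5⟩
        refine ⟨Set.mem_univ _, h1, ⟨δ, ?_, h5⟩, Set.mem_univ _⟩
        have := hm _ _ h4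
        simp only [List.length_cons] at this
        omega
      have h1 := TReg.biUnion (Set.toFinite C)
        (fun Y => {p | ∃ a ∈ Ext Y, ∃ b ∈ {p : ℕ × List B | RPath Δ X p.1 p.2 Y},
          p = (a.1 + b.1, a.2 ++ b.2)})
        (fun Y hY => TReg.mul (hExt Y hY) (TReg.rpath hΔ (fun x hx => by rw [hx.1]) X Y))
      convert h1 using 1
      ext ⟨k, w⟩
      simp only [TT, Set.mem_ofPred_eq, Set.mem_iUnion, exists_prop, Prod.mk.injEq]
      constructor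
      · have key : ∀ k, ∀ Y0 ∈ C, ∀ w, Fin H ω k [Y0] w → ∃ Y ∈ C, ∃ k1 w1 k2 w2, k = k1 + k2 ∧
            w = w1 ++ w2 ∧ (k1, w1) ∈ Ext Y ∧ RPath Δ Y0 k2 w2 Y := by
          intro k
          induction k with
          | zero =>
            intro Y0 hY0 w hw
            refine ⟨Y0, hY0, 0, w, 0, [], rfl, by simp, Or.inl ⟨rfl, ?_⟩, RPath.nil Y0⟩
            exact Sub.single_iff.1 (Fin.zero_iff.1 hw)
          | succ k ihk =>
            intro Y0 hY0 w hw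
            obtain ⟨ξ, h2, h3⟩ := Fin.single_succ.1 hw
            by_cases hex : ∃ Z ∈ ξ, Z ∈ C
            · obtain ⟨Z, hZ, hZC⟩ := hex
              obtain ⟨γ, δ, rfl⟩ := List.append_of_mem hZ
              have hγ := hleft Y0 hY0 γ Z δ h2 hZC
              subst hγ
              have hng := (hinner Y0 hY0 _ Z δ h2 hZC).2
              have e : ([] ++ Z :: δ : List A) = [Z] ++ δ := rfl
              rw [e, Fin.append_iff] at h3
              obtain ⟨w1, w2, rfl, h4, h5⟩ := h3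
              rw [hN.ng hng] at h5
              obtain ⟨Y, hY, k1, v1, k2, v2, rfl, rfl, h6, h7⟩ := ihk Z hZC w1 h4
              refine ⟨Y, hY, k1, v1, 1 + k2, v2 ++ w2, by omega, by simp, h6, ?_⟩
              exact RPath.cons ⟨rfl, hY0, hZC, δ, h2, h5⟩ h7
            · push Not at hex
              refine ⟨Y0, hY0, 1 + k, w, 0, [], by omega, by simp,
                Or.inr ⟨k, rfl, ξ, h2, hex, h3⟩, RPath.nil Y0⟩
        intro hw
        obtain ⟨Y, hY, k1, w1, k2, w2, rfl, rfl, h2, h3⟩ := key k X hXC w hw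
        exact ⟨Y, hY, (k1, w1), h2, (k2, w2), h3, rfl, rfl⟩
      · rintro ⟨Y, hY, ⟨k1, w1⟩, h2, ⟨k2, w2⟩, h3, rfl, rfl⟩
        dsimp only at h3 ⊢
        have key : ∀ Y0 k2 w2 Y, RPath Δ Y0 k2 w2 Y → ∀ k1 w1, Fin H ω k1 [Y] w1 →
            Fin H ω (k1 + k2) [Y0] (w1 ++ w2) := by
          intro Y0 k2 w2 Y h
          induction h with
          | nil Y0 => intro k1 w1 h; simpa using h
          | @cons Y0 Z Y t k u w hx _ ihp =>
            intro k1 w1 h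
            obtain ⟨ht, hY0, hZC, δ, h4, h5⟩ := hx
            dsimp only at ht hY0 hZC h4 h5
            subst ht
            have h6 := ihp k1 w1 h
            have e1 : k1 + (1 + k) = (k1 + k) + 1 := by omega
            rw [e1, Fin.single_succ]
            refine ⟨_, h4, ?_⟩
            have e : (Z :: δ : List A) = [Z] ++ δ := rfl
            rw [e, Fin.append_iff]
            have hng := (hinner Y0 hY0 [] Z δ h4 hZC).2
            exact ⟨w1 ++ w, u, by simp, h6, (hN.ng hng _ _).2 h5⟩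
        exact key _ _ _ _ h3 k1 w1 (hExtF Y k1 w1 h2)
    · -- left-type component
      have hright : ∀ Y ∈ C, ∀ γ Y' δ, H Y (γ ++ Y' :: δ) → Y' ∈ C → δ = [] := by
        intro Y hY γ Y' δ hξ hY'
        by_contra hc
        exact hcase ((hcycle Y hY γ Y' δ hξ hY').2 hc)
      let Δ : Set (A × ℕ × List B × A) := {x | x.2.1 = 1 ∧ x.1 ∈ C ∧ x.2.2.2 ∈ C ∧
        ∃ γ, H x.1 (γ ++ [x.2.2.2]) ∧ Sub ω γ x.2.2.1}
      have hΔ : Δ.Finite := by
        refine ((Set.finite_univ (α := A)).prod ((Set.finite_singleton 1).prod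
          ((word_finite hN m).prod (Set.finite_univ (α := A))))).subset ?_
        rintro ⟨Y, t, u, Y'⟩ ⟨h1, h2, h3, γ, h4, h5⟩
        refine ⟨Set.mem_univ _, h1, ⟨γ, ?_, h5⟩, Set.mem_univ _⟩
        have := hm _ _ h4
        simp only [List.length_append, List.length_cons, List.length_nil] at this
        omega
      have h1 := TReg.biUnion (Set.toFinite C)
        (fun Y => {p | ∃ a ∈ {p : ℕ × List B | TPath Δ X p.1 p.2 Y}, ∃ b ∈ Ext Y,
          p = (a.1 + b.1, a.2 ++ b.2)})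
        (fun Y hY => TReg.mul (TReg.path hΔ (fun x hx => by rw [hx.1]) X Y) (hExt Y hY))
      convert h1 using 1
      ext ⟨k, w⟩
      simp only [TT, Set.mem_ofPred_eq, Set.mem_iUnion, exists_prop, Prod.mk.injEq]
      constructor
      · have key : ∀ k, ∀ Y0 ∈ C, ∀ w, Fin H ω k [Y0] w → ∃ Y ∈ C, ∃ k1 w1 k2 w2, k = k1 + k2 ∧
            w = w1 ++ w2 ∧ TPath Δ Y0 k1 w1 Y ∧ (k2, w2) ∈ Ext Y := by
          intro k
          induction k with
          | zero =>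
            intro Y0 hY0 w hw
            refine ⟨Y0, hY0, 0, [], 0, w, rfl, by simp, TPath.nil Y0, Or.inl ⟨rfl, ?_⟩⟩
            exact Sub.single_iff.1 (Fin.zero_iff.1 hw)
          | succ k ihk =>
            intro Y0 hY0 w hw
            obtain ⟨ξ, h2, h3⟩ := Fin.single_succ.1 hw
            by_cases hex : ∃ Z ∈ ξ, Z ∈ C
            · obtain ⟨Z, hZ, hZC⟩ := hex
              obtain ⟨γ, δ, rfl⟩ := List.append_of_mem hZ
              have hδ := hright Y0 hY0 γ Z δ h2 hZC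
              subst hδ
              have hng := (hinner Y0 hY0 γ Z _ h2 hZC).1
              rw [Fin.append_iff] at h3
              obtain ⟨w1, w2, rfl, h4, h5⟩ := h3
              rw [hN.ng hng] at h4
              obtain ⟨Y, hY, k1, v1, k2, v2, rfl, rfl, h6, h7⟩ := ihk Z hZC w2 h5
              refine ⟨Y, hY, 1 + k1, w1 ++ v1, k2, v2, by omega, by simp, ?_, h7⟩
              exact TPath.cons ⟨rfl, hY0, hZC, γ, h2, h4⟩ h6
            · push Not at hex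
              refine ⟨Y0, hY0, 0, [], 1 + k, w, by omega, by simp, TPath.nil Y0,
                Or.inr ⟨k, rfl, ξ, h2, hex, h3⟩⟩
        intro hw
        obtain ⟨Y, hY, k1, w1, k2, w2, rfl, rfl, h2, h3⟩ := key k X hXC w hw
        exact ⟨Y, hY, (k1, w1), h2, (k2, w2), h3, rfl, rfl⟩
      · rintro ⟨Y, hY, ⟨k1, w1⟩, h2, ⟨k2, w2⟩, h3, rfl, rfl⟩
        dsimp only at h2 ⊢
        have key : ∀ Y0 k1 w1 Y, TPath Δ Y0 k1 w1 Y → ∀ k2 w2, Fin H ω k2 [Y] w2 →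
            Fin H ω (k1 + k2) [Y0] (w1 ++ w2) := by
          intro Y0 k1 w1 Y h
          induction h with
          | nil Y0 => intro k2 w2 h; simpa using h
          | @cons Y0 Z Y t k u w hx _ ihp =>
            intro k2 w2 h
            obtain ⟨ht, hY0, hZC, γ, h4, h5⟩ := hx
            dsimp only at ht hY0 hZC h4 h5
            subst ht
            have h6 := ihp k2 w2 h
            have e1 : 1 + k + k2 = (k + k2) + 1 := by omega
            rw [e1, Fin.single_succ]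
            refine ⟨_, h4, ?_⟩
            rw [Fin.append_iff]
            have hng := (hinner Y0 hY0 γ Z [] h4 hZC).1
            exact ⟨u, w ++ w2, by simp, (hN.ng hng _ _).2 h5, h6⟩
        exact key _ _ _ _ h2 k2 w2 (hExtF Y k2 w2 h3)

theorem Nice.lin_two [Finite A] (hN : Nice H ω Gr) {γ δ ε : List A} {X1 X2 : A}
    (h : Safe H Gr (γ ++ X1 :: δ ++ X2 :: ε)) (h0 : NG Gr γ) (h1 : Gr X1) (h2 : NG Gr δ)
    (h3 : Gr X2) (h4 : NG Gr ε) :
    Lin {w | ∃ k, Fin H ω k (γ ++ X1 :: δ ++ X2 :: ε) w} := by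
  obtain ⟨ht1, ht2⟩ := hN.thin h h1 h3
  have r1 := hN.treg _ X1 (le_refl _) h1 ht1
  have r2 := hN.treg _ X2 (le_refl _) h3 ht2
  have h5 := Lin.ctx (Lin.pair r1 r2 (M := {w | Sub ω δ w}) (Sub.finite (fun a _ => hN.ofin a)))
    (U := {w | Sub ω γ w}) (V := {w | Sub ω ε w})
    (Sub.finite (fun a _ => hN.ofin a)) (Sub.finite (fun a _ => hN.ofin a))
  convert h5 using 1
  ext w
  simp only [Set.mem_ofPred_eq, TT]
  have e : γ ++ X1 :: δ ++ X2 :: ε = γ ++ ([X1] ++ (δ ++ ([X2] ++ ε))) := by simp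
  rw [e]
  constructor
  · rintro ⟨k, hk⟩
    rw [Fin.append_iff] at hk
    obtain ⟨u, w1, rfl, ha, hk⟩ := hk
    rw [Fin.append_iff] at hk
    obtain ⟨x1, w2, rfl, hb, hk⟩ := hk
    rw [Fin.append_iff] at hk
    obtain ⟨m, w3, rfl, hc, hk⟩ := hk
    rw [Fin.append_iff] at hk
    obtain ⟨x2, v, rfl, hd, he⟩ := hk
    rw [hN.ng h0] at ha
    rw [hN.ng h2] at hc
    rw [hN.ng h4] at he
    exact ⟨u, ha, x1 ++ m ++ x2, ⟨k, x1, x2, hb, hd, m, hc, rfl⟩, v, he, by simp⟩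
  · rintro ⟨u, ha, _, ⟨k, x1, x2, hb, hd, m, hc, rfl⟩, v, he, rfl⟩
    refine ⟨k, ?_⟩
    rw [Fin.append_iff]
    refine ⟨u, x1 ++ m ++ x2 ++ v, by simp, (hN.ng h0 _ _).2 ha, ?_⟩
    rw [Fin.append_iff]
    refine ⟨x1, m ++ x2 ++ v, by simp, hb, ?_⟩
    rw [Fin.append_iff]
    refine ⟨m, x2 ++ v, by simp, (hN.ng h2 _ _).2 hc, ?_⟩
    rw [Fin.append_iff]
    exact ⟨x2, v, rfl, hd, (hN.ng h4 _ _).2 he⟩

theorem Nice.lin_one [Finite A] (hN : Nice H ω Gr) {X : A} (hX : Gr X) (hs : Safe H Gr [X]) :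
    Lin {w | ∃ k, Fin H ω k [X] w} := by
  classical
  have hne := hN.hne
  obtain ⟨m, -, hm⟩ := exists_max_len hN.hfin
  let Q := {X : A // Gr X ∧ Safe H Gr [X]}
  let Δ : Set (Q × List B × List B × Q) := {x | ∃ γ δ, H x.1.1 (γ ++ x.2.2.2.1 :: δ) ∧
    NG Gr γ ∧ NG Gr δ ∧ Sub ω γ x.2.1 ∧ Sub ω δ x.2.2.1}
  have hΔ : Δ.Finite := by
    refine ((Set.finite_univ (α := Q)).prod ((word_finite hN m).prod
      ((word_finite hN m).prod (Set.finite_univ (α := Q))))).subset ?_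
    rintro ⟨Y, u, v, Y'⟩ ⟨γ, δ, h1, -, -, h2, h3⟩
    have := hm _ _ h1
    simp only [List.length_append, List.length_cons] at this
    exact ⟨Set.mem_univ _, ⟨γ, by omega, h2⟩, ⟨δ, by omega, h3⟩, Set.mem_univ _⟩
  let Ex : Q → Set (List B) := fun Y => {w | ω Y.1 w} ∪
    ((⋃ ξ ∈ {ξ | H Y.1 ξ ∧ NG Gr ξ}, {w | Sub ω ξ w}) ∪
    (⋃ ξ ∈ {ξ | H Y.1 ξ ∧ ∃ γ X1 δ X2 ε, ξ = γ ++ X1 :: δ ++ X2 :: ε ∧ NG Gr γ ∧ Gr X1 ∧
      NG Gr δ ∧ Gr X2 ∧ NG Gr ε}, {w | ∃ k, Fin H ω k ξ w}))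
  have hsafe : ∀ Y : Q, ∀ ξ, H Y.1 ξ → Safe H Gr ξ := fun Y ξ h =>
    Y.2.2.step (j := 1) (It.one_iff.2 (Sub.single_iff.2 h))
  have hEx : ∀ Y, Lin (Ex Y) := by
    intro Y
    refine Lin.union (Lin.finite (hN.ofin Y.1)) (Lin.union ?_ ?_)
    · exact Lin.biUnion ((hN.hfin Y.1).subset (fun ξ h => h.1)) _
        (fun ξ _ => Lin.finite (Sub.finite (fun a _ => hN.ofin a)))
    · refine Lin.biUnion ((hN.hfin Y.1).subset (fun ξ h => h.1)) _ ?_
      rintro ξ ⟨h1, γ, X1, δ, X2, ε, rfl, h2, h3, h4, h5, h6⟩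
      exact hN.lin_two (hsafe Y _ h1) h2 h3 h4 h5 h6
  have h1 := Lin.exits Δ hΔ Ex hEx ⟨X, hX, hs⟩
  convert h1 using 1
  ext w
  simp only [Set.mem_ofPred_eq]
  constructor
  · rintro ⟨k, hk⟩
    have key : ∀ k, ∀ Y : Q, ∀ w, Fin H ω k [Y.1] w → LRun Δ (fun q w => w ∈ Ex q) Y w := by
      intro k
      induction k with
      | zero =>
        intro Y w hw
        have h0 : ω Y.1 w := Sub.single_iff.1 (Fin.zero_iff.1 hw)
        exact LRun.fin (Or.inl h0)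
      | succ k ih =>
        intro Y w hw
        obtain ⟨ξ, h2, h3⟩ := Fin.single_succ.1 hw
        rcases three_cases (hsafe Y ξ h2 0 ξ rfl) with h4 | ⟨γ, Z, δ, rfl, h4, h5, h6⟩ | h4
        · rw [hN.ng h4] at h3
          exact LRun.fin (Or.inr (Or.inl (Set.mem_biUnion (show ξ ∈ {ξ | H Y.1 ξ ∧ NG Gr ξ}
            from ⟨h2, h4⟩) h3)))
        · have e : γ ++ Z :: δ = γ ++ ([Z] ++ δ) := rfl
          have hZs : Safe H Gr [Z] := by
            have h7 := hsafe Y _ h2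
            have e2 : γ ++ Z :: δ = γ ++ [Z] ++ δ := by simp
            rw [e2] at h7
            exact h7.sub hne
          rw [e, Fin.append_iff] at h3
          obtain ⟨u, w1, rfl, h7, h8⟩ := h3
          rw [Fin.append_iff] at h8
          obtain ⟨w2, v, rfl, h9, h10⟩ := h8
          rw [hN.ng h4] at h7
          rw [hN.ng h6] at h10
          have h11 := ih ⟨Z, h5, hZs⟩ w2 h9
          have h12 : LRun Δ (fun q w => w ∈ Ex q) Y (u ++ w2 ++ v) :=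
            LRun.step (q' := ⟨Z, h5, hZs⟩) ⟨γ, δ, h2, h4, h6, h7, h10⟩ h11
          simpa using h12
        · refine LRun.fin (Or.inr (Or.inr (Set.mem_biUnion (show ξ ∈ {ξ | H Y.1 ξ ∧
            ∃ γ X1 δ X2 ε, ξ = γ ++ X1 :: δ ++ X2 :: ε ∧ NG Gr γ ∧ Gr X1 ∧
            NG Gr δ ∧ Gr X2 ∧ NG Gr ε} from ⟨h2, h4⟩) ⟨k, h3⟩)))
    exact key k ⟨X, hX, hs⟩ w hk
  · intro h
    have key : ∀ (Y : Q) w, LRun Δ (fun q w => w ∈ Ex q) Y w → ∃ k, Fin H ω k [Y.1] w := by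
      intro Y w h
      induction h with
      | @fin Y w h =>
        rcases h with h | h | h
        · exact ⟨0, Fin.zero_iff.2 (Sub.single_iff.2 h)⟩
        · simp only [Set.mem_ofPred_eq, Set.mem_iUnion, exists_prop] at h
          obtain ⟨ξ, ⟨h2, h3⟩, h4⟩ := h
          exact ⟨1, Fin.single_succ.2 ⟨ξ, h2, Fin.zero_iff.2 h4⟩⟩
        · simp only [Set.mem_ofPred_eq, Set.mem_iUnion] at h
          obtain ⟨ξ, ⟨h2, -⟩, k, hk⟩ := h
          exact ⟨k + 1, Fin.single_succ.2 ⟨ξ, h2, hk⟩⟩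
      | @step Y Y' u v w hx _ ih =>
        obtain ⟨k, hk⟩ := ih
        obtain ⟨γ, δ, h2, h3, h4, h5, h6⟩ := hx
        dsimp only at h2 h5 h6
        refine ⟨k + 1, Fin.single_succ.2 ⟨_, h2, ?_⟩⟩
        have e : γ ++ Y'.1 :: δ = γ ++ ([Y'.1] ++ δ) := rfl
        rw [e, Fin.append_iff]
        refine ⟨u, w ++ v, by simp, (hN.ng h3 _ _).2 h5, ?_⟩
        rw [Fin.append_iff]
        exact ⟨w, v, rfl, hk, (hN.ng h4 _ _).2 h6⟩
    exact key _ w h

/-- Main theorem of this file. -/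
theorem Nice.lin [Finite A] (hN : Nice H ω Gr) {η : List A} (hs : Safe H Gr η) :
    Lin {w | ∃ k, Fin H ω k η w} := by
  rcases three_cases (hs 0 η rfl) with h4 | ⟨γ, Z, δ, rfl, h4, h5, h6⟩ |
    ⟨γ, X1, δ, X2, ε, rfl, h2, h3, h4, h5, h6⟩
  · have h1 : {w | ∃ k, Fin H ω k η w} = {w | Sub ω η w} := by
      ext w
      simp only [Set.mem_ofPred_eq, hN.ng h4, exists_const]
    rw [h1]
    exact Lin.finite (Sub.finite (fun a _ => hN.ofin a))
  · have hZs : Safe H Gr [Z] := by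
      have e2 : γ ++ Z :: δ = γ ++ [Z] ++ δ := by simp
      rw [e2] at hs
      exact hs.sub hN.hne
    have h1 := Lin.ctx (hN.lin_one h5 hZs) (U := {w | Sub ω γ w}) (V := {w | Sub ω δ w})
      (Sub.finite (fun a _ => hN.ofin a)) (Sub.finite (fun a _ => hN.ofin a))
    convert h1 using 1
    ext w
    simp only [Set.mem_ofPred_eq]
    have e : γ ++ Z :: δ = γ ++ ([Z] ++ δ) := rfl
    rw [e]
    constructor
    · rintro ⟨k, hk⟩
      rw [Fin.append_iff] at hk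
      obtain ⟨u, w1, rfl, ha, hk⟩ := hk
      rw [Fin.append_iff] at hk
      obtain ⟨x, v, rfl, hb, hc⟩ := hk
      exact ⟨u, (hN.ng h4 _ _).1 ha, x, ⟨k, hb⟩, v, (hN.ng h6 _ _).1 hc, by simp⟩
    · rintro ⟨u, ha, x, ⟨k, hb⟩, v, hc, rfl⟩
      refine ⟨k, ?_⟩
      rw [Fin.append_iff]
      refine ⟨u, x ++ v, by simp, (hN.ng h4 _ _).2 ha, ?_⟩
      rw [Fin.append_iff]
      exact ⟨x, v, rfl, hb, (hN.ng h6 _ _).2 hc⟩
  · exact hN.lin_two hs h2 h3 h4 h5 h6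

end main

end Pool.Agent.Helper230.E
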