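import Mathlib

/-! Multiplicative extensions of set-valued maps on letters and their iterates. -/

namespace Pool.Agent.Helper230.E

section sub
variable {A B C : Type}

/-- multiplicative extension to words -/
inductive Sub (f : A → List B → Prop) : List A → List B → Prop
  | nil : Sub f [] []
  | cons {a : A} {u : List A} {w1 w2 : List B} : f a w1 → Sub f u w2 → Sub f (a :: u) (w1 ++ w2)

variable {f : A → List B → Prop}

theorem Sub.nil_iff {w : List B} : Sub f [] w ↔ w = [] := by
  constructor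
  · intro h; cases h; rfl
  · rintro rfl; exact Sub.nil

theorem Sub.cons_iff {a : A} {u : List A} {w : List B} :
    Sub f (a :: u) w ↔ ∃ w1 w2, w = w1 ++ w2 ∧ f a w1 ∧ Sub f u w2 := by
  constructor
  · intro h
    cases h with
    | cons h1 h2 => exact ⟨_, _, rfl, h1, h2⟩
  · rintro ⟨w1, w2, rfl, h1, h2⟩
    exact Sub.cons h1 h2

theorem Sub.append {u v : List A} {w1 w2 : List B} (h1 : Sub f u w1) (h2 : Sub f v w2) :
    Sub f (u ++ v) (w1 ++ w2) := by
  induction h1 with
  | nil => exact h2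
  | cons h _ ih =>
    rw [List.cons_append, List.append_assoc]
    exact Sub.cons h ih

theorem Sub.split {u v : List A} {w : List B} (h : Sub f (u ++ v) w) :
    ∃ w1 w2, w = w1 ++ w2 ∧ Sub f u w1 ∧ Sub f v w2 := by
  induction u generalizing w with
  | nil => exact ⟨[], w, rfl, Sub.nil, h⟩
  | cons a u ih =>
    rw [List.cons_append, Sub.cons_iff] at h
    obtain ⟨w1, w2, rfl, h1, h2⟩ := h
    obtain ⟨w3, w4, rfl, h3, h4⟩ := ih h2
    exact ⟨w1 ++ w3, w4, by rw [List.append_assoc], Sub.cons h1 h3, h4⟩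

theorem Sub.append_iff {u v : List A} {w : List B} :
    Sub f (u ++ v) w ↔ ∃ w1 w2, w = w1 ++ w2 ∧ Sub f u w1 ∧ Sub f v w2 := by
  constructor
  · exact Sub.split
  · rintro ⟨w1, w2, rfl, h1, h2⟩
    exact h1.append h2

theorem Sub.single_iff {a : A} {w : List B} : Sub f [a] w ↔ f a w := by
  rw [Sub.cons_iff]
  constructor
  · rintro ⟨w1, w2, rfl, h1, h2⟩
    rw [Sub.nil_iff] at h2
    subst h2
    simpa using h1
  · intro h
    exact ⟨w, [], by simp, h, Sub.nil⟩

theorem Sub.mono {g : A → List B → Prop} {u : List A} {w : List B} (h : Sub f u w)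
    (hfg : ∀ a ∈ u, ∀ w, f a w → g a w) : Sub g u w := by
  induction h with
  | nil => exact Sub.nil
  | cons h _ ih =>
    exact Sub.cons (hfg _ List.mem_cons_self _ h)
      (ih (fun a ha => hfg a (List.mem_cons_of_mem _ ha)))

theorem Sub.congr {g : A → List B → Prop} {u : List A} {w : List B}
    (hfg : ∀ a ∈ u, ∀ w, f a w ↔ g a w) : Sub f u w ↔ Sub g u w :=
  ⟨fun h => h.mono (fun a ha w => (hfg a ha w).1), fun h => h.mono (fun a ha w => (hfg a ha w).2)⟩

/-- like `mono`, but the pieces are known to be infixes of the result -/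
theorem Sub.mono' {g : A → List B → Prop} {u : List A} {w : List B} (h : Sub f u w)
    (hfg : ∀ a ∈ u, ∀ w1, w1.length ≤ w.length → (∀ x ∈ w1, x ∈ w) → f a w1 → g a w1) :
    Sub g u w := by
  induction h with
  | nil => exact Sub.nil
  | cons h _ ih =>
    refine Sub.cons (hfg _ List.mem_cons_self _ (by simp) (fun x hx => by simp [hx]) h)
      (ih (fun a ha w1 hl hm => hfg a (List.mem_cons_of_mem _ ha) w1 ?_ ?_))
    · simp only [List.length_append]; omega
    · intro x hx
      exact List.mem_append_right _ (hm x hx)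

theorem Sub.comp {g : B → List C → Prop} {u : List A} {w : List C} :
    Sub (fun a w => ∃ v, f a v ∧ Sub g v w) u w ↔ ∃ v, Sub f u v ∧ Sub g v w := by
  induction u generalizing w with
  | nil =>
    simp only [Sub.nil_iff, exists_eq_left]
  | cons a u ih =>
    rw [Sub.cons_iff]
    constructor
    · rintro ⟨w1, w2, rfl, ⟨v1, h1, h2⟩, h3⟩
      obtain ⟨v2, h4, h5⟩ := ih.1 h3
      exact ⟨v1 ++ v2, Sub.cons h1 h4, h2.append h5⟩
    · rintro ⟨v, h1, h2⟩
      rw [Sub.cons_iff] at h1
      obtain ⟨v1, v2, rfl, h3, h4⟩ := h1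
      obtain ⟨w1, w2, rfl, h5, h6⟩ := h2.split
      exact ⟨w1, w2, rfl, ⟨v1, h3, h5⟩, ih.2 ⟨v2, h4, h6⟩⟩

theorem Sub.exists {u : List A} (h : ∀ a ∈ u, ∃ w, f a w) : ∃ w, Sub f u w := by
  induction u with
  | nil => exact ⟨[], Sub.nil⟩
  | cons a u ih =>
    obtain ⟨w1, h1⟩ := h a List.mem_cons_self
    obtain ⟨w2, h2⟩ := ih (fun b hb => h b (List.mem_cons_of_mem _ hb))
    exact ⟨w1 ++ w2, Sub.cons h1 h2⟩

theorem Sub.exists_len {u : List A} (h : ∀ a ∈ u, ∃ w, f a w ∧ w ≠ []) :
    ∃ w, Sub f u w ∧ u.length ≤ w.length := by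
  induction u with
  | nil => exact ⟨[], Sub.nil, le_refl _⟩
  | cons a u ih =>
    obtain ⟨w1, h1, h1'⟩ := h a List.mem_cons_self
    obtain ⟨w2, h2, h2'⟩ := ih (fun b hb => h b (List.mem_cons_of_mem _ hb))
    refine ⟨w1 ++ w2, Sub.cons h1 h2, ?_⟩
    have := List.length_pos_iff.2 h1'
    simp only [List.length_append, List.length_cons]
    omega

theorem Sub.forall_mem {P : B → Prop} {u : List A} {w : List B} (h : Sub f u w)
    (hf : ∀ a ∈ u, ∀ w, f a w → ∀ x ∈ w, P x) : ∀ x ∈ w, P x := by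
  induction h with
  | nil => simp
  | cons h _ ih =>
    intro x hx
    rcases List.mem_append.1 hx with hx | hx
    · exact hf _ List.mem_cons_self _ h x hx
    · exact ih (fun a ha => hf a (List.mem_cons_of_mem _ ha)) x hx

theorem Sub.mem {u : List A} {w : List B} (h : Sub f u w) {x : B} (hx : x ∈ w) :
    ∃ a ∈ u, ∃ w1, f a w1 ∧ x ∈ w1 := by
  induction h with
  | nil => simp at hx
  | cons h _ ih =>
    rcases List.mem_append.1 hx with hx | hx
    · exact ⟨_, List.mem_cons_self, _, h, hx⟩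
    · obtain ⟨b, hb, w1, h1, h2⟩ := ih hx
      exact ⟨b, List.mem_cons_of_mem _ hb, w1, h1, h2⟩

/-- the piece containing a given occurrence -/
theorem Sub.locate {u : List A} {p s : List B} {x : B} (h : Sub f u (p ++ x :: s)) :
    ∃ u1 a u2 p1 p2 s1 s2, u = u1 ++ a :: u2 ∧ p = p1 ++ p2 ∧ s = s1 ++ s2 ∧
      Sub f u1 p1 ∧ f a (p2 ++ x :: s1) ∧ Sub f u2 s2 := by
  induction u generalizing p with
  | nil =>
    rw [Sub.nil_iff] at h
    simp at h
  | cons a u ih =>
    rw [Sub.cons_iff] at h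
    obtain ⟨w1, w2, hw, h1, h2⟩ := h
    rcases List.append_eq_append_iff.1 hw with ⟨c, hc1, hc2⟩ | ⟨c, hc1, hc2⟩
    · cases c with
      | nil =>
        simp only [List.append_nil] at hc1
        simp only [List.nil_append] at hc2
        subst hc1
        rw [← hc2] at h2
        obtain ⟨u1, a', u2, p1, p2, s1, s2, rfl, h3, rfl, h4, h5, h6⟩ := ih (p := []) h2
        obtain ⟨rfl, rfl⟩ := List.append_eq_nil_iff.1 h3.symm
        exact ⟨a :: u1, a', u2, w1, [], s1, s2, rfl, by simp, rfl,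
          by simpa using Sub.cons h1 h4, h5, h6⟩
      | cons y c =>
        simp only [List.cons_append, List.cons.injEq] at hc2
        obtain ⟨rfl, rfl⟩ := hc2
        subst hc1
        exact ⟨[], a, u, [], p, c, w2, rfl, rfl, rfl, Sub.nil, h1, h2⟩
    · subst hc1
      rw [hc2] at h2
      obtain ⟨u1, a', u2, p1, p2, s1, s2, rfl, rfl, rfl, h4, h5, h6⟩ := ih h2
      exact ⟨a :: u1, a', u2, w1 ++ p1, p2, s1, s2, rfl, by rw [List.append_assoc], rfl,
        Sub.cons h1 h4, h5, h6⟩

theorem Sub.finite {u : List A} (h : ∀ a ∈ u, {w | f a w}.Finite) : {w | Sub f u w}.Finite := by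
  induction u with
  | nil =>
    have : {w : List B | Sub f [] w} = {[]} := by
      ext w; simp [Sub.nil_iff]
    rw [this]; exact Set.finite_singleton _
  | cons a u ih =>
    have h1 := h a List.mem_cons_self
    have h2 := ih (fun b hb => h b (List.mem_cons_of_mem _ hb))
    have : {w | Sub f (a :: u) w} ⊆ (fun p : List B × List B => p.1 ++ p.2) ''
        ({w | f a w} ×ˢ {w | Sub f u w}) := by
      intro w hw
      obtain ⟨w1, w2, rfl, h3, h4⟩ := Sub.cons_iff.1 hw
      exact ⟨(w1, w2), ⟨h3, h4⟩, rfl⟩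
    exact Set.Finite.subset (Set.Finite.image _ (h1.prod h2)) this

theorem Sub.length_le {m : ℕ} {u : List A} {w : List B} (h : Sub f u w)
    (hf : ∀ a ∈ u, ∀ w, f a w → w.length ≤ m) : w.length ≤ u.length * m := by
  induction h with
  | nil => simp
  | @cons a u w1 w2 h _ ih =>
    have h1 := hf _ List.mem_cons_self _ h
    have h2 := ih (fun a ha => hf a (List.mem_cons_of_mem _ ha))
    simp only [List.length_append, List.length_cons]
    rw [Nat.add_mul]
    omega

end sub

section it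
variable {A B : Type}

/-- `k`-fold iteration of a parallel rewriting step -/
def It (f : A → List A → Prop) : ℕ → List A → List A → Prop
  | 0, u, w => w = u
  | k + 1, u, w => ∃ v, Sub f u v ∧ It f k v w

variable {f : A → List A → Prop}

theorem It.append {k : ℕ} {u v w1 w2 : List A} (h1 : It f k u w1) (h2 : It f k v w2) :
    It f k (u ++ v) (w1 ++ w2) := by
  induction k generalizing u v with
  | zero => rw [It] at h1 h2 ⊢; rw [h1, h2]
  | succ k ih =>
    obtain ⟨u', h3, h4⟩ := h1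
    obtain ⟨v', h5, h6⟩ := h2
    exact ⟨u' ++ v', h3.append h5, ih h4 h6⟩

theorem It.split {k : ℕ} {u v w : List A} (h : It f k (u ++ v) w) :
    ∃ w1 w2, w = w1 ++ w2 ∧ It f k u w1 ∧ It f k v w2 := by
  induction k generalizing u v with
  | zero => rw [It] at h; exact ⟨u, v, h, rfl, rfl⟩
  | succ k ih =>
    obtain ⟨x, h1, h2⟩ := h
    obtain ⟨x1, x2, rfl, h3, h4⟩ := h1.split
    obtain ⟨w1, w2, rfl, h5, h6⟩ := ih h2
    exact ⟨w1, w2, rfl, ⟨x1, h3, h5⟩, ⟨x2, h4, h6⟩⟩

theorem It.nil (k : ℕ) : It f k [] [] := by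
  induction k with
  | zero => rfl
  | succ k ih => exact ⟨[], Sub.nil, ih⟩

theorem It.nil_iff {k : ℕ} {w : List A} : It f k [] w ↔ w = [] := by
  constructor
  · intro h
    induction k generalizing w with
    | zero => exact h
    | succ k ih =>
      obtain ⟨v, h1, h2⟩ := h
      rw [Sub.nil_iff] at h1
      subst h1
      exact ih h2
  · rintro rfl; exact It.nil k

theorem It.iff_sub {k : ℕ} {u w : List A} :
    It f k u w ↔ Sub (fun a w => It f k [a] w) u w := by
  constructor
  · intro h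
    induction u generalizing w with
    | nil => rw [It.nil_iff] at h; subst h; exact Sub.nil
    | cons a u ih =>
      obtain ⟨w1, w2, rfl, h1, h2⟩ := It.split (u := [a]) (v := u) h
      exact Sub.cons h1 (ih h2)
  · intro h
    induction h with
    | nil => exact It.nil k
    | cons h1 _ ih => exact It.append (u := [_]) h1 ih

theorem It.one_iff {u w : List A} : It f 1 u w ↔ Sub f u w := by
  constructor
  · rintro ⟨v, h1, h2⟩
    rw [It] at h2
    subst h2
    exact h1
  · intro h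
    exact ⟨w, h, rfl⟩

theorem It.single_succ {k : ℕ} {a : A} {w : List A} :
    It f (k + 1) [a] w ↔ ∃ v, f a v ∧ It f k v w := by
  rw [It]
  simp only [Sub.single_iff]

theorem It.add_iff {j k : ℕ} {u w : List A} :
    It f (j + k) u w ↔ ∃ v, It f j u v ∧ It f k v w := by
  induction j generalizing u with
  | zero =>
    rw [Nat.zero_add]
    constructor
    · intro h; exact ⟨u, rfl, h⟩
    · rintro ⟨v, h1, h2⟩
      rw [It] at h1; subst h1; exact h2
  | succ j ih =>
    rw [Nat.add_right_comm]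
    constructor
    · rintro ⟨v, h1, h2⟩
      obtain ⟨x, h3, h4⟩ := ih.1 h2
      exact ⟨x, ⟨v, h1, h3⟩, h4⟩
    · rintro ⟨x, ⟨v, h1, h3⟩, h4⟩
      exact ⟨v, h1, ih.2 ⟨x, h3, h4⟩⟩

theorem It.mul_iff {n k : ℕ} {u w : List A} :
    It (fun a w => It f n [a] w) k u w ↔ It f (n * k) u w := by
  induction k generalizing u with
  | zero => rw [Nat.mul_zero]; exact Iff.rfl
  | succ k ih =>
    have h0 : It (fun a w => It f n [a] w) (k + 1) u w ↔
        ∃ v, Sub (fun a w => It f n [a] w) u v ∧ It (fun a w => It f n [a] w) k v w := Iff.rfl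
    rw [h0, Nat.mul_succ, Nat.add_comm, It.add_iff]
    constructor
    · rintro ⟨v, h1, h2⟩
      exact ⟨v, It.iff_sub.2 h1, ih.1 h2⟩
    · rintro ⟨v, h1, h2⟩
      exact ⟨v, It.iff_sub.1 h1, ih.2 h2⟩

theorem It.finite {u : List A} (hf : ∀ a, {w | f a w}.Finite) (k : ℕ) :
    {w | It f k u w}.Finite := by
  induction k generalizing u with
  | zero =>
    have : {w | It f 0 u w} = {u} := by ext w; simp [It]
    rw [this]; exact Set.finite_singleton _
  | succ k ih =>
    have : {w | It f (k + 1) u w} = ⋃ v ∈ {v | Sub f u v}, {w | It f k v w} := by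
      ext w
      simp only [Set.mem_ofPred_eq, Set.mem_iUnion, exists_prop]
      exact Iff.rfl
    rw [this]
    exact Set.Finite.biUnion (Sub.finite (fun a _ => hf a)) (fun v _ => ih)

theorem It.exists (hf : ∀ a, ∃ w, f a w) (k : ℕ) (u : List A) : ∃ w, It f k u w := by
  induction k generalizing u with
  | zero => exact ⟨u, rfl⟩
  | succ k ih =>
    obtain ⟨v, h1⟩ := Sub.exists (u := u) (fun a _ => hf a)
    obtain ⟨w, h2⟩ := ih v
    exact ⟨w, v, h1, h2⟩

theorem It.exists_len (hf : ∀ a, ∃ w, f a w ∧ w ≠ []) (k : ℕ) (u : List A) :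
    ∃ w, It f k u w ∧ u.length ≤ w.length := by
  induction k generalizing u with
  | zero => exact ⟨u, rfl, le_refl _⟩
  | succ k ih =>
    obtain ⟨v, h1, h1'⟩ := Sub.exists_len (u := u) (fun a _ => hf a)
    obtain ⟨w, h2, h2'⟩ := ih v
    exact ⟨w, ⟨v, h1, h2⟩, h1'.trans h2'⟩

/-- followed by a final substitution -/
def Fin (f : A → List A → Prop) (ω : A → List B → Prop) (k : ℕ) (u : List A) (w : List B) : Prop :=
  ∃ v, It f k u v ∧ Sub ω v w

variable {ω : A → List B → Prop}

theorem Fin.iff_sub {k : ℕ} {u : List A} {w : List B} :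
    Fin f ω k u w ↔ Sub (fun a w => Fin f ω k [a] w) u w := by
  unfold Fin
  rw [Sub.comp (f := fun a v => It f k [a] v) (g := ω)]
  simp only [← It.iff_sub]

theorem Fin.append_iff {k : ℕ} {u v : List A} {w : List B} :
    Fin f ω k (u ++ v) w ↔ ∃ w1 w2, w = w1 ++ w2 ∧ Fin f ω k u w1 ∧ Fin f ω k v w2 := by
  rw [Fin.iff_sub, Sub.append_iff]
  simp only [← Fin.iff_sub]

theorem Fin.zero_iff {u : List A} {w : List B} : Fin f ω 0 u w ↔ Sub ω u w := by
  constructor
  · rintro ⟨v, h1, h2⟩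
    rw [It] at h1; subst h1; exact h2
  · intro h; exact ⟨u, rfl, h⟩

theorem Fin.succ_iff {k : ℕ} {u : List A} {w : List B} :
    Fin f ω (k + 1) u w ↔ ∃ v, Sub f u v ∧ Fin f ω k v w := by
  constructor
  · rintro ⟨v, ⟨x, h1, h2⟩, h3⟩
    exact ⟨x, h1, v, h2, h3⟩
  · rintro ⟨x, h1, v, h2, h3⟩
    exact ⟨v, ⟨x, h1, h2⟩, h3⟩

theorem Fin.single_succ {k : ℕ} {a : A} {w : List B} :
    Fin f ω (k + 1) [a] w ↔ ∃ v, f a v ∧ Fin f ω k v w := by
  rw [Fin.succ_iff]
  simp only [Sub.single_iff]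

theorem Fin.add_iff {j k : ℕ} {u : List A} {w : List B} :
    Fin f ω (j + k) u w ↔ ∃ v, It f j u v ∧ Fin f ω k v w := by
  unfold Fin
  constructor
  · rintro ⟨v, h1, h2⟩
    obtain ⟨x, h3, h4⟩ := It.add_iff.1 h1
    exact ⟨x, h3, v, h4, h2⟩
  · rintro ⟨x, h3, v, h4, h2⟩
    exact ⟨v, It.add_iff.2 ⟨x, h3, h4⟩, h2⟩

end it

end Pool.Agent.Helper230.E
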