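import Pool.Agent.Helper230.Univ247

/-! An undecidable word problem `z n ++ Φ(p) = flat(p) ++ [K]` used for reductions to grammars. -/

namespace Pool.Agent.Helper230

open Turing Relation Pool.Agent.Helper230.Queue247
open Pool.Agent.Helper230 (Univ247.u)

def flatΦ {S : Type} (P : S → S → List S) (p : List (S × S)) : List S :=
  p.flatMap (fun a => P a.1 a.2)

def flat2 {S : Type} (p : List (S × S)) : List S := p.flatMap (fun a => [a.1, a.2])

theorem solution_iff {S : Type} (P : S → S → List S) (K : S)
    (hP1 : ∀ x y, 2 ≤ (P x y).length ∨ P x y = [K])
    (hP2 : ∀ y, (P K y).head? ≠ some y) (z : List S) (hz : 2 ≤ z.length) :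
    (∃ p, z ++ flatΦ P p = flat2 p ++ [K]) ↔ QReach P z [K] := by
  have hne : ∀ x y, P x y ≠ [] := by
    intro x y h
    rcases hP1 x y with h1 | h1 <;> simp [h] at h1
  constructor
  · rintro ⟨p, hp⟩
    have key : ∀ (p : List (S × S)) (z : List S), (2 ≤ z.length ∨ z = [K]) →
        z ++ flatΦ P p = flat2 p ++ [K] → QReach P z [K] := by
      intro p
      induction p with
      | nil =>
        intro z _ h
        simp only [flatΦ, flat2, List.flatMap_nil, List.append_nil, List.nil_append] at h
        rw [h]
      | cons a p ih =>
        intro z hz h
        simp only [flatΦ, flat2, List.flatMap_cons, List.cons_append, List.nil_append] at h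
        rcases hz with hz | rfl
        · match z, hz, h with
          | x :: y :: t, _, h =>
            simp only [List.cons_append, List.cons.injEq] at h
            obtain ⟨rfl, rfl, h⟩ := h
            refine ReflTransGen.head (QStep.mk _ _ t) (ih _ ?_ ?_)
            · rcases hP1 a.1 a.2 with h1 | h1
              · left; simp only [List.length_append]; omega
              · rw [h1]
                rcases t with _ | ⟨t1, t⟩
                · right; rfl
                · left; simp
            · simpa [flatΦ, flat2] using h
        · exfalso
          simp only [List.cons_append, List.nil_append, List.cons.injEq] at h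
          obtain ⟨h1, h⟩ := h
          apply hP2 a.2
          rw [← h1] at h
          rcases hp : P K a.2 with _ | ⟨b, l⟩
          · exact absurd hp (hne _ _)
          · rw [hp] at h
            simp only [List.cons_append, List.cons.injEq] at h
            rw [h.1]
            rfl
    exact key p z (Or.inl hz) hp
  · intro h
    clear hz
    induction h using ReflTransGen.head_induction_on with
    | refl => exact ⟨[], rfl⟩
    | head hs _ ih =>
      obtain ⟨p, hp⟩ := ih
      cases hs with
      | mk x y t =>
        refine ⟨(x, y) :: p, ?_⟩
        simp only [flatΦ, flat2, List.flatMap_cons, List.cons_append, List.nil_append] at hp ⊢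
        rw [← hp]
        simp

theorem prod_head_ne {Γ Λ : Type} [Inhabited Γ] [Inhabited Λ] (M : TM0.Machine Γ Λ)
    (y : Queue247.Sym Γ Λ) : (Queue247.prod M .kill y).head? ≠ some y := by
  rcases y with b | ⟨r, b⟩ | _ | _
  · simp [Queue247.prod]
  · intro h
    simp only [Queue247.prod] at h
    split at h <;> simp at h
  · simp [Queue247.prod]
  · simp [Queue247.prod]

/-- The undecidable base problem. -/
theorem exists_base : ∃ (S : Type) (_ : Fintype S) (Φ : S → S → List S) (K : S)
    (z : ℕ → List S), (∀ c : S → ℕ, Computable (fun n => (z n).map c)) ∧
    (∀ n, z n ≠ []) ∧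
    ¬ ComputablePred (fun n => ∃ p, z n ++ flatΦ Φ p = flat2 p ++ [K]) := by
  classical
  obtain ⟨Λ, i1, i2, M, hM⟩ := Univ247.exists_machine
  let S := Queue247.Sym (TM2to1.Γ' PartrecToTM2.K' (fun _ => PartrecToTM2.Γ')) Λ
  have fK : Finite PartrecToTM2.K' := by
    refine Finite.of_injective (fun k : PartrecToTM2.K' => match k with
      | .main => (0 : Fin 4)
      | .rev => 1
      | .aux => 2
      | .stack => 3) ?_
    intro a b h
    cases a <;> cases b <;> simp_all
  have fG : Finite (TM2to1.Γ' PartrecToTM2.K' (fun _ => PartrecToTM2.Γ')) :=
    inferInstanceAs (Finite (Bool × (PartrecToTM2.K' → Option PartrecToTM2.Γ')))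
  have fS : Finite S := inferInstanceAs (Finite (Queue247.Sym _ _))
  let iS : Fintype S := Fintype.ofFinite S
  let P : S → S → List S := Queue247.prod M
  have hP1 : ∀ x y, 2 ≤ (P x y).length ∨ P x y = [Queue247.Sym.kill] := prod_length M
  have hP2 : ∀ y, (P Queue247.Sym.kill y).head? ≠ some y := prod_head_ne M
  let tape : ℕ → List (TM2to1.Γ' PartrecToTM2.K' (fun _ => PartrecToTM2.Γ')) := fun n =>
    Univ247.sym true .cons :: (PartrecToTM2.trNat n).reverse.map (Univ247.sym false)
  let z : ℕ → List S := fun n => initWord (tape n)
  have hz : ∀ n, 2 ≤ (z n).length := fun n => initWord_length _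
  refine ⟨S, iS, P, .kill, z, ?_, ?_, ?_⟩
  · intro c
    have hd := Univ247.digits_computable (fun a => c (Queue247.Sym.cell (Univ247.sym false a)))
    have : (fun n => (z n).map c) = fun n =>
        (if (((PartrecToTM2.trNat n).map
            (fun a => c (Queue247.Sym.cell (Univ247.sym false a)))).length + 1) % 2 = 0 then
          [c Queue247.Sym.mark, c (Queue247.Sym.head default (Univ247.sym true .cons))]
        else [c Queue247.Sym.mark, c (Queue247.Sym.cell default),
          c (Queue247.Sym.head default (Univ247.sym true .cons))]) ++
        ((PartrecToTM2.trNat n).map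
          (fun a => c (Queue247.Sym.cell (Univ247.sym false a)))).reverse := by
      funext n
      simp only [z, tape, initWord, List.length_cons, List.length_map, List.length_reverse]
      split_ifs <;> simp [Function.comp_def]
    rw [this]
    have hlen := Computable.list_length.comp hd
    have hmod : Computable (fun n : ℕ => ((((PartrecToTM2.trNat n).map
            (fun a => c (Queue247.Sym.cell (Univ247.sym false a)))).length + 1) % 2)) :=
      (Primrec.nat_mod.comp (Primrec.succ.comp Primrec.id) (Primrec.const 2)).to_comp.comp hlen
    have hite : Computable (fun n : ℕ => (if (((PartrecToTM2.trNat n).map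
            (fun a => c (Queue247.Sym.cell (Univ247.sym false a)))).length + 1) % 2 = 0 then
          [c Queue247.Sym.mark, c (Queue247.Sym.head default (Univ247.sym true .cons))]
        else [c Queue247.Sym.mark, c (Queue247.Sym.cell default),
          c (Queue247.Sym.head default (Univ247.sym true .cons))])) := by
      have hp : Primrec (fun m : ℕ => if m = 0 then
          [c Queue247.Sym.mark, c (Queue247.Sym.head default (Univ247.sym true .cons))]
        else [c Queue247.Sym.mark, c (Queue247.Sym.cell default),
          c (Queue247.Sym.head default (Univ247.sym true .cons))]) :=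
        Primrec.ite (PrimrecRel.comp Primrec.eq Primrec.id (Primrec.const 0))
          (Primrec.const _) (Primrec.const _)
      exact hp.to_comp.comp hmod
    exact Computable.list_append.comp hite (Computable.list_reverse.comp hd)
  · intro n h
    have := hz n
    rw [h] at this
    simp at this
  · intro h
    apply Univ247.u_not_computable
    have hrw : (fun n => ∃ p, z n ++ flatΦ P p = flat2 p ++ [Queue247.Sym.kill]) =
        fun n => (Univ247.u n).Dom := by
      funext n
      apply propext
      rw [solution_iff P _ hP1 hP2 _ (hz n), ← hM n]
      have hrep : Rep (TM0.init (tape n) : TM0.Cfg _ Λ) (initWord (tape n)) :=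
        rep_init (tape n) (by simp [tape])
      exact rep_halts M hrep
    rw [hrw] at h
    exact h

end Pool.Agent.Helper230
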