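import Pool.Agent.Helper230.GFGen
import Pool.Agent.Helper230.QBase

/-! A fixed linear grammar and its one-parameter extensions by right-linear rules. -/

set_option linter.constructorNameAsVariable false
set_option linter.unusedSectionVars false

namespace Pool.Agent.Helper230.FEq

open Pool.Agent.Helper230

section sat
variable {Q : Type}

/-- satisfaction of a sentential form by a word, for given languages of the nonterminals -/
def Sat (Lang : Q → Set (List ℕ)) : List (Q ⊕ ℕ) → List ℕ → Prop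
  | [], w => w = []
  | Sum.inr a :: u, w => ∃ w', w = a :: w' ∧ Sat Lang u w'
  | Sum.inl q :: u, w => ∃ w1 w2, w = w1 ++ w2 ∧ w1 ∈ Lang q ∧ Sat Lang u w2

theorem sat_sound {R : Set (Q × List (Q ⊕ ℕ))} {Lang : Q → Set (List ℕ)}
    (h : ∀ q α, (q, α) ∈ R → ∀ w, Sat Lang α w → w ∈ Lang q) {n : ℕ} {u : List (Q ⊕ ℕ)}
    {w : List ℕ} (hd : DerN (ExR R) n u w) : Sat Lang u w := by
  induction hd with
  | nil n => rfl
  | ter a _ ih => exact ⟨_, rfl, ih⟩
  | nt hx _ _ ih1 ih2 => exact ⟨_, _, rfl, h _ _ hx _ ih1, ih2⟩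

theorem sat_ters (Lang : Q → Set (List ℕ)) (l : List ℕ) (u : List (Q ⊕ ℕ)) (w : List ℕ) :
    Sat Lang (l.map Sum.inr ++ u) w ↔ ∃ w', w = l ++ w' ∧ Sat Lang u w' := by
  induction l generalizing w with
  | nil => simp
  | cons a l ih =>
    simp only [List.map_cons, List.cons_append, Sat]
    constructor
    · rintro ⟨w', rfl, h⟩
      obtain ⟨w2, h1, h2⟩ := (ih w').1 h
      exact ⟨w2, by rw [h1], h2⟩
    · rintro ⟨w', rfl, h⟩
      exact ⟨l ++ w', rfl, (ih _).2 ⟨w', rfl, h⟩⟩

theorem sat_ters' (Lang : Q → Set (List ℕ)) (l : List ℕ) (w : List ℕ) :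
    Sat Lang (l.map Sum.inr) w ↔ w = l := by
  have := sat_ters Lang l [] w
  rw [List.append_nil] at this
  rw [this]
  constructor
  · rintro ⟨w', rfl, h⟩
    have : w' = [] := h
    rw [this, List.append_nil]
  · rintro rfl
    exact ⟨[], by simp, rfl⟩

theorem sat_one (Lang : Q → Set (List ℕ)) (q : Q) (w : List ℕ) :
    Sat Lang [Sum.inl q] w ↔ w ∈ Lang q := by
  simp only [Sat]
  constructor
  · rintro ⟨w1, w2, rfl, h, rfl⟩
    simpa using h
  · intro h
    exact ⟨w, [], by simp, h, rfl⟩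

end sat

inductive NT
  | S | M (i : Bool) | A | J | D | X | Y
deriving DecidableEq

def code : NT → ℕ
  | .S => 0
  | .M false => 1
  | .M true => 2
  | .A => 3
  | .J => 4
  | .D => 5
  | .X => 6
  | .Y => 7

def deco : ℕ → NT
  | 0 => .S
  | 1 => .M false
  | 2 => .M true
  | 3 => .A
  | 4 => .J
  | 5 => .D
  | 6 => .X
  | _ => .Y

theorem deco_code (A : NT) : deco (code A) = A := by
  rcases A with _ | (_ | _) | _ | _ | _ | _ | _ <;> rfl

theorem code_lt (A : NT) : code A < 8 := by
  rcases A with _ | (_ | _) | _ | _ | _ | _ | _ <;> decide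

instance : Finite NT :=
  Finite.of_injective (fun A => (⟨code A, code_lt A⟩ : Fin 8)) (by
    intro A B h
    have : code A = code B := by simpa using h
    rw [← deco_code A, ← deco_code B, this])

variable {S : Type} [Fintype S] (Φ : S → S → List S) (K : S)
  (t : Option ((S ⊕ S × S) ⊕ S) → ℕ)

def β : Bool → S ⊕ S × S → List S
  | true, .inl s => [s]
  | true, .inr p => Φ p.1 p.2
  | false, .inl _ => []
  | false, .inr p => [p.1, p.2]

def kk : Bool → List S
  | true => []
  | false => [K]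

def ql (q : S ⊕ S × S) : ℕ := t (some (.inl q))
def vl (s : S) : ℕ := t (some (.inr s))
def dl : ℕ := t none

/-- `y` reversed, as terminal letters -/
def rv (y : List S) : List ℕ := (y.map (vl t)).reverse

def enc (q : List (S ⊕ S × S)) (y : List S) : List ℕ := q.map (ql t) ++ dl t :: rv t y

noncomputable def pre : List ℕ := (Finset.univ : Finset (Option ((S ⊕ S × S) ⊕ S))).toList.map t

/-- the rules of the fixed grammar -/
inductive R2 : NT → List (NT ⊕ ℕ) → Prop
  | start (i : Bool) : R2 .S ((pre t).map Sum.inr ++ [Sum.inl (.M i)])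
  | m1 (i : Bool) (q : S ⊕ S × S) :
      R2 (.M i) (Sum.inr (ql t q) :: Sum.inl (.M i) :: (rv t (β Φ i q)).map Sum.inr)
  | m2 (i : Bool) (q : S ⊕ S × S) (u : List S) : u.length = (β Φ i q).length → u ≠ β Φ i q →
      R2 (.M i) (Sum.inr (ql t q) :: Sum.inl .A :: (rv t u).map Sum.inr)
  | m3 (i : Bool) (q : S ⊕ S × S) (u : List S) : u.length < (β Φ i q).length →
      R2 (.M i) (Sum.inr (ql t q) :: Sum.inl .J :: (rv t u).map Sum.inr)
  | m4 (i : Bool) (u : List S) : u.length ≤ (kk K i).length → u ≠ kk K i →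
      R2 (.M i) (Sum.inr (dl t) :: (rv t u).map Sum.inr)
  | m5 (i : Bool) (u : List S) : u.length = (kk K i).length + 1 →
      R2 (.M i) (Sum.inl .D :: (rv t u).map Sum.inr)
  | a1 (q : S ⊕ S × S) : R2 .A [Sum.inr (ql t q), Sum.inl .A]
  | a2 (s : S) : R2 .A [Sum.inl .A, Sum.inr (vl t s)]
  | a3 : R2 .A [Sum.inr (dl t)]
  | j1 (q : S ⊕ S × S) : R2 .J [Sum.inr (ql t q), Sum.inl .J]
  | j2 : R2 .J [Sum.inr (dl t)]
  | d1 (s : S) : R2 .D [Sum.inl .D, Sum.inr (vl t s)]
  | d2 : R2 .D [Sum.inr (dl t)]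

/-- the fixed right-linear rules -/
inductive RF : NT → List (NT ⊕ ℕ) → Prop
  | x1 (p : S × S) : RF .X [Sum.inr (ql t (.inr p)), Sum.inl .X]
  | x2 : RF .X [Sum.inr (dl t), Sum.inl .Y]
  | y1 (s : S) : RF .Y [Sum.inr (vl t s), Sum.inl .Y]
  | y2 (s : S) : RF .Y [Sum.inr (vl t s)]

noncomputable def sw (z : List S) : List ℕ := pre t ++ z.map (fun s => ql t (.inl s))

noncomputable def sr (z : List S) : NT × List (NT ⊕ ℕ) :=
  (.S, (sw t z).map Sum.inr ++ [Sum.inl .X])

def S2 : Set (NT × List (NT ⊕ ℕ)) := {r | R2 Φ K t r.1 r.2}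
def SF : Set (NT × List (NT ⊕ ℕ)) := {r | RF t r.1 r.2}
def SB (z : List S) : Set (NT × List (NT ⊕ ℕ)) := insert (sr t z) (SF t)
def S1 (z : List S) : Set (NT × List (NT ⊕ ℕ)) := S2 Φ K t ∪ SB t z

def Lang2 : NT → Set (List ℕ)
  | .S => {w | ∃ i q y, w = pre t ++ enc t q y ∧ y ≠ q.flatMap (β Φ i) ++ kk K i}
  | .M i => {w | ∃ q y, w = enc t q y ∧ y ≠ q.flatMap (β Φ i) ++ kk K i}
  | .A => {w | ∃ q y, w = enc t q y}
  | .J => {w | ∃ q, w = enc t q []}
  | .D => {w | ∃ y, w = enc t [] y}
  | .X => ∅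
  | .Y => ∅

theorem rv_append (y y' : List S) : rv t (y ++ y') = rv t y' ++ rv t y := by
  simp [rv]

theorem rv_cons (s : S) (y : List S) : rv t (s :: y) = rv t y ++ [vl t s] := by
  simp [rv]

theorem enc_cons (q : S ⊕ S × S) (q' : List (S ⊕ S × S)) (y y' : List S) :
    enc t (q :: q') (y ++ y') = ql t q :: (enc t q' y' ++ rv t y) := by
  simp [enc, rv_append]

theorem enc_snoc (q' : List (S ⊕ S × S)) (y y' : List S) :
    enc t q' (y ++ y') = enc t q' y' ++ rv t y := by
  simp [enc, rv_append]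

theorem lang2_sound : ∀ A α, (A, α) ∈ S2 Φ K t → ∀ w, Sat (Lang2 Φ K t) α w →
    w ∈ Lang2 Φ K t A := by
  intro A α h w hw
  cases h with
  | start i =>
    change Sat _ ((pre t).map Sum.inr ++ [Sum.inl (NT.M i)]) w at hw
    rw [sat_ters] at hw
    obtain ⟨w', rfl, h⟩ := hw
    rw [sat_one] at h
    obtain ⟨q, y, rfl, h⟩ := h
    exact ⟨i, q, y, rfl, h⟩
  | m1 i q =>
    obtain ⟨w', rfl, w1, w2, rfl, ⟨q', y, rfl, h⟩, h2⟩ := hw
    rw [sat_ters'] at h2
    subst h2
    refine ⟨q :: q', β Φ i q ++ y, (enc_cons t _ _ _ _).symm, ?_⟩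
    rw [List.flatMap_cons, List.append_assoc]
    intro h3
    exact h (List.append_cancel_left h3)
  | m2 i q u h3 h4 =>
    obtain ⟨w', rfl, w1, w2, rfl, ⟨q', y, rfl⟩, h2⟩ := hw
    rw [sat_ters'] at h2
    subst h2
    refine ⟨q :: q', u ++ y, (enc_cons t _ _ _ _).symm, ?_⟩
    rw [List.flatMap_cons, List.append_assoc]
    intro h5
    exact h4 (List.append_inj_left h5 h3)
  | m3 i q u h3 =>
    obtain ⟨w', rfl, w1, w2, rfl, ⟨q', rfl⟩, h2⟩ := hw
    rw [sat_ters'] at h2
    subst h2
    refine ⟨q :: q', u ++ [], (enc_cons t _ _ _ _).symm, ?_⟩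
    rw [List.flatMap_cons, List.append_assoc]
    intro h5
    have := congrArg List.length h5
    simp only [List.length_append, List.length_nil] at this
    omega
  | m4 i u h3 h4 =>
    obtain ⟨w', rfl, h2⟩ := hw
    rw [sat_ters'] at h2
    subst h2
    exact ⟨[], u, by simp [enc], by simpa using h4⟩
  | m5 i u h3 =>
    obtain ⟨w1, w2, rfl, ⟨y, rfl⟩, h2⟩ := hw
    rw [sat_ters'] at h2
    subst h2
    refine ⟨[], u ++ y, (enc_snoc t _ _ _).symm, ?_⟩
    intro h5
    have := congrArg List.length h5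
    simp only [List.length_append, List.flatMap_nil, List.nil_append] at this
    omega
  | a1 q =>
    obtain ⟨w', rfl, h⟩ := hw
    rw [sat_one] at h
    obtain ⟨q', y, rfl⟩ := h
    exact ⟨q :: q', y, by simp [enc]⟩
  | a2 s =>
    obtain ⟨w1, w2, rfl, ⟨q', y, rfl⟩, w3, rfl, rfl⟩ := hw
    exact ⟨q', s :: y, by simp [enc, rv_cons]⟩
  | a3 =>
    obtain ⟨w', rfl, rfl⟩ := hw
    exact ⟨[], [], by simp [enc, rv]⟩
  | j1 q =>
    obtain ⟨w', rfl, h⟩ := hw
    rw [sat_one] at h
    obtain ⟨q', rfl⟩ := h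
    exact ⟨q :: q', by simp [enc]⟩
  | j2 =>
    obtain ⟨w', rfl, rfl⟩ := hw
    exact ⟨[], by simp [enc, rv]⟩
  | d1 s =>
    obtain ⟨w1, w2, rfl, ⟨y, rfl⟩, w3, rfl, rfl⟩ := hw
    exact ⟨s :: y, by simp [enc, rv_cons]⟩
  | d2 =>
    obtain ⟨w', rfl, rfl⟩ := hw
    exact ⟨[], by simp [enc, rv]⟩

theorem der_A (q : List (S ⊕ S × S)) (y : List S) :
    Der (ExR (S2 Φ K t)) [Sum.inl .A] (enc t q y) := by
  induction q with
  | nil =>
    induction y with
    | nil => exact Der.single R2.a3 (Der.of_ters [dl t])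
    | cons s y ih =>
      have h : Der (ExR (S2 Φ K t)) [Sum.inl .A] (enc t [] y ++ [vl t s]) :=
        Der.single (R2.a2 s) (Der.append ih (Der.of_ters [vl t s]))
      simpa [enc, rv_cons] using h
  | cons q q' ih => exact Der.single (R2.a1 q) (Der.ter _ ih)

theorem der_J (q : List (S ⊕ S × S)) :
    Der (ExR (S2 Φ K t)) [Sum.inl .J] (enc t q []) := by
  induction q with
  | nil => exact Der.single R2.j2 (Der.of_ters [dl t])
  | cons q q' ih => exact Der.single (R2.j1 q) (Der.ter _ ih)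

theorem der_D (y : List S) : Der (ExR (S2 Φ K t)) [Sum.inl .D] (enc t [] y) := by
  induction y with
  | nil => exact Der.single R2.d2 (Der.of_ters [dl t])
  | cons s y ih =>
    have h : Der (ExR (S2 Φ K t)) [Sum.inl .D] (enc t [] y ++ [vl t s]) :=
      Der.single (R2.d1 s) (Der.append ih (Der.of_ters [vl t s]))
    simpa [enc, rv_cons] using h

theorem der_M (i : Bool) (q : List (S ⊕ S × S)) : ∀ (y : List S),
    y ≠ q.flatMap (β Φ i) ++ kk K i → Der (ExR (S2 Φ K t)) [Sum.inl (.M i)] (enc t q y) := by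
  induction q with
  | nil =>
    intro y hy
    rw [List.flatMap_nil, List.nil_append] at hy
    by_cases hlen : y.length ≤ (kk K i).length
    · exact Der.single (R2.m4 i y hlen hy) (Der.ter _ (Der.of_ters _))
    · have h1 : (y.take ((kk K i).length + 1)).length = (kk K i).length + 1 := by
        rw [List.length_take]; omega
      have h2 := Der.single (R2.m5 (Φ := Φ) (t := t) i _ h1)
        (Der.append (der_D Φ K t (y.drop ((kk K i).length + 1))) (Der.of_ters _))
      rw [← enc_snoc, List.take_append_drop] at h2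
      exact h2
  | cons q q' ih =>
    intro y hy
    rw [List.flatMap_cons, List.append_assoc] at hy
    by_cases hlen : y.length < (β Φ i q).length
    · have h2 := Der.single (R2.m3 (K := K) (t := t) i q y hlen)
        (Der.ter _ (Der.append (der_J Φ K t q') (Der.of_ters _)))
      rw [← enc_cons, List.append_nil] at h2
      exact h2
    · have h1 : (y.take (β Φ i q).length).length = (β Φ i q).length := by
        rw [List.length_take]; omega
      by_cases h3 : y.take (β Φ i q).length = β Φ i q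
      · have h4 : y = β Φ i q ++ y.drop (β Φ i q).length := by
          conv_lhs => rw [← List.take_append_drop (β Φ i q).length y, h3]
        have h5 : y.drop (β Φ i q).length ≠ q'.flatMap (β Φ i) ++ kk K i := by
          intro h6
          rw [h6] at h4
          exact hy h4
        have h2 := Der.single (R2.m1 (K := K) (t := t) i q)
          (Der.ter _ (Der.append (ih _ h5) (Der.of_ters _)))
        rw [← enc_cons, ← h4] at h2
        exact h2
      · have h2 := Der.single (R2.m2 (K := K) (t := t) i q _ h1 h3)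
          (Der.ter _ (Der.append (der_A Φ K t q' (y.drop (β Φ i q).length)) (Der.of_ters _)))
        rw [← enc_cons, List.take_append_drop] at h2
        exact h2

theorem der_S (i : Bool) (q : List (S ⊕ S × S)) (y : List S)
    (h : y ≠ q.flatMap (β Φ i) ++ kk K i) :
    Der (ExR (S2 Φ K t)) [Sum.inl .S] (pre t ++ enc t q y) :=
  Der.single (R2.start i) (Der.append (Der.of_ters _) (der_M Φ K t i q y h))

def LangB (z : List S) : NT → Set (List ℕ)
  | .S => {w | ∃ (p : List (S × S)) (y : List S), y ≠ [] ∧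
      w = pre t ++ enc t (z.map Sum.inl ++ p.map Sum.inr) y}
  | .X => {w | ∃ (p : List (S × S)) (y : List S), y ≠ [] ∧ w = enc t (p.map Sum.inr) y}
  | .Y => {w | ∃ (y : List S), y ≠ [] ∧ w = rv t y}
  | _ => ∅

theorem enc_append (q q' : List (S ⊕ S × S)) (y : List S) :
    enc t (q ++ q') y = q.map (ql t) ++ enc t q' y := by
  simp [enc]

theorem langB_sound (z : List S) : ∀ A α, (A, α) ∈ SB t z → ∀ w, Sat (LangB t z) α w →
    w ∈ LangB t z A := by
  intro A α h w hw
  rcases h with h | h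
  · have h1 : A = .S := congrArg Prod.fst h
    have h2 : α = (sw t z).map Sum.inr ++ [Sum.inl .X] := congrArg Prod.snd h
    subst h1 h2
    rw [sat_ters] at hw
    obtain ⟨w', rfl, h⟩ := hw
    rw [sat_one] at h
    obtain ⟨p, y, hy, rfl⟩ := h
    refine ⟨p, y, hy, ?_⟩
    rw [enc_append, sw, List.append_assoc, List.map_map]
    rfl
  · cases h with
    | x1 p =>
      obtain ⟨w', rfl, h⟩ := hw
      rw [sat_one] at h
      obtain ⟨p', y, hy, rfl⟩ := h
      exact ⟨p :: p', y, hy, by simp [enc]⟩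
    | x2 =>
      obtain ⟨w', rfl, h⟩ := hw
      rw [sat_one] at h
      obtain ⟨y, hy, rfl⟩ := h
      exact ⟨[], y, hy, by simp [enc]⟩
    | y1 s =>
      obtain ⟨w', rfl, h⟩ := hw
      rw [sat_one] at h
      obtain ⟨y, hy, rfl⟩ := h
      exact ⟨y ++ [s], by simp, by simp [rv]⟩
    | y2 s =>
      obtain ⟨w', rfl, rfl⟩ := hw
      exact ⟨[s], by simp, by simp [rv]⟩

theorem derB_Y (z : List S) (y : List S) (hy : y ≠ []) :
    Der (ExR (SB t z)) [Sum.inl .Y] (rv t y) := by
  induction y using List.reverseRecOn with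
  | nil => exact absurd rfl hy
  | append_singleton y s ih =>
    by_cases h : y = []
    · subst h
      exact Der.single (Or.inr (RF.y2 s)) (Der.of_ters [vl t s])
    · have h2 : Der (ExR (SB t z)) [Sum.inr (vl t s), Sum.inl .Y] (vl t s :: rv t y) :=
        Der.ter _ (ih h)
      have h1 : Der (ExR (SB t z)) [Sum.inl .Y] (vl t s :: rv t y) :=
        Der.single (Or.inr (RF.y1 s)) h2
      simpa [rv] using h1

theorem derB_X (z : List S) (p : List (S × S)) (y : List S) (hy : y ≠ []) :
    Der (ExR (SB t z)) [Sum.inl .X] (enc t (p.map Sum.inr) y) := by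
  induction p with
  | nil =>
    exact Der.single (Or.inr RF.x2) (Der.ter _ (derB_Y t z y hy))
  | cons a p ih =>
    exact Der.single (Or.inr (RF.x1 a)) (Der.ter _ ih)

theorem derB_S (z : List S) (p : List (S × S)) (y : List S) (hy : y ≠ []) :
    Der (ExR (SB t z)) [Sum.inl .S] (pre t ++ enc t (z.map Sum.inl ++ p.map Sum.inr) y) := by
  have h1 : Der (ExR (SB t z)) [Sum.inl .S] (sw t z ++ enc t (p.map Sum.inr) y) :=
    Der.single (Or.inl rfl) (Der.append (Der.of_ters _) (derB_X t z p y hy))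
  rw [enc_append, ← List.append_assoc]
  rw [sw] at h1
  simpa [Function.comp_def] using h1

theorem DerN.mono_set {Q : Type} {R R' : Set (Q × List (Q ⊕ ℕ))} (h : R ⊆ R') {n : ℕ}
    {u : List (Q ⊕ ℕ)} {w : List ℕ} (hd : DerN (ExR R) n u w) : DerN (ExR R') n u w := by
  induction hd with
  | nil n => exact DerN.nil n
  | ter a _ ih => exact DerN.ter a ih
  | nt hx _ _ ih1 ih2 => exact DerN.nt (h hx) ih1 ih2

section main
variable (ht : Function.Injective t)

include ht in
omit [Fintype S] in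
theorem enc_inj {q q' : List (S ⊕ S × S)} {y y' : List S} (h : enc t q y = enc t q' y') :
    q = q' ∧ y = y' := by
  have h1 : ∀ (q : List (S ⊕ S × S)) (y : List S), enc t q y =
      (q.map (fun a => some (Sum.inl a)) ++ none :: (y.map (fun s => some (Sum.inr s))).reverse).map
        t := by
    intro q y
    simp only [enc, rv, dl, List.map_append, List.map_cons, List.map_map, List.map_reverse]
    rfl
  rw [h1, h1] at h
  have h2 := (List.map_injective_iff.2 ht) h
  clear h h1
  induction q generalizing q' with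
  | nil =>
    cases q' with
    | nil =>
      simp only [List.map_nil, List.nil_append, List.cons.injEq, true_and, List.reverse_inj] at h2
      refine ⟨rfl, ?_⟩
      refine (List.map_injective_iff.2 ?_) h2
      intro a b hab
      simpa using hab
    | cons a q' => simp at h2
  | cons a q ih =>
    cases q' with
    | nil => simp at h2
    | cons b q' =>
      simp only [List.map_cons, List.cons_append, List.cons.injEq, Option.some.injEq,
        Sum.inl.injEq] at h2
      obtain ⟨rfl, h2⟩ := h2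
      obtain ⟨rfl, rfl⟩ := ih h2
      exact ⟨rfl, rfl⟩

def Sol (z : List S) : Prop := ∃ p, z ++ flatΦ Φ p = flat2 p ++ [K]

omit [Fintype S] in
theorem flat_true (z : List S) (p : List (S × S)) :
    (z.map Sum.inl ++ p.map Sum.inr : List (S ⊕ S × S)).flatMap (β Φ true) =
      z ++ flatΦ Φ p := by
  rw [List.flatMap_append]
  congr 1
  · rw [List.flatMap_map]
    simp [β]
  · rw [List.flatMap_map]
    rfl

omit [Fintype S] in
theorem flat_false (z : List S) (p : List (S × S)) :
    (z.map Sum.inl ++ p.map Sum.inr : List (S ⊕ S × S)).flatMap (β Φ false) =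
      flat2 p := by
  rw [List.flatMap_append, List.flatMap_map, List.flatMap_map]
  have : List.flatMap (fun a => β Φ false (Sum.inl a)) z = [] := by
    simp [β]
  rw [this]
  rfl

theorem sub_of_not_sol {z : List S} (h : ¬ Sol Φ K z) (w : List ℕ)
    (hw : w ∈ LangB t z .S) : Der (ExR (S2 Φ K t)) [Sum.inl .S] w := by
  obtain ⟨p, y, hy, rfl⟩ := hw
  by_cases h1 : y = z ++ flatΦ Φ p
  · apply der_S Φ K t false
    rw [flat_false]
    intro h2
    exact h ⟨p, by rw [← h1, h2]; rfl⟩
  · apply der_S Φ K t true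
    rw [flat_true]
    simpa [kk] using h1

include ht in
theorem not_sub_of_sol {z : List S} (h : Sol Φ K z) :
    ∃ w, Der (ExR (SB t z)) [Sum.inl .S] w ∧ ¬ Der (ExR (S2 Φ K t)) [Sum.inl .S] w := by
  obtain ⟨p, hp⟩ := h
  refine ⟨pre t ++ enc t (z.map Sum.inl ++ p.map Sum.inr) (flat2 p ++ [K]),
    derB_S t z p _ (by simp), ?_⟩
  rintro ⟨n, hn⟩
  have h1 := sat_sound (lang2_sound Φ K t) hn
  rw [sat_one] at h1
  obtain ⟨i, q, y, h2, h3⟩ := h1
  obtain ⟨rfl, rfl⟩ := enc_inj t ht (List.append_cancel_left h2)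
  apply h3
  cases i with
  | true => rw [flat_true, ← hp]; simp [kk]
  | false => rw [flat_false]; rfl

theorem lang2_pre {w : List ℕ} (h : Der (ExR (S2 Φ K t)) [Sum.inl .S] w) :
    pre t <+: w := by
  obtain ⟨n, hn⟩ := h
  have h1 := sat_sound (lang2_sound Φ K t) hn
  rw [sat_one] at h1
  obtain ⟨i, q, y, rfl, -⟩ := h1
  exact List.prefix_append _ _

theorem langB_pre {z : List S} {w : List ℕ} (h : Der (ExR (SB t z)) [Sum.inl .S] w) :
    pre t <+: w := by
  obtain ⟨n, hn⟩ := h
  have h1 := sat_sound (langB_sound t z) hn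
  rw [sat_one] at h1
  obtain ⟨p, y, -, rfl⟩ := h1
  exact List.prefix_append _ _

end main

end Pool.Agent.Helper230.FEq
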