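import Mathlib

/-! Combinatorial core: classes of languages closed under prefix maps, restriction of the
set of occurring letters, and finite unions. -/

namespace Pool.Agent.Helper230

structure Cls (F : Set (List ℕ) → Prop) : Prop where
  fin : ∀ L, F L → ∃ D : Finset ℕ, ∀ w ∈ L, ∀ x ∈ w, x ∈ D
  pm : ∀ L, F L → ∀ (a b : List ℕ) (f : ℕ → ℕ), a.length = b.length →
    F {w' | ∃ v, a ++ v ∈ L ∧ w' = b ++ v.map f}
  rs : ∀ L, F L → ∀ X : Finset ℕ, F {w | w ∈ L ∧ w.toFinset = X}
  un : ∀ (ι : Type) [Finite ι] (L : ι → Set (List ℕ)), (∀ i, F (L i)) → F (⋃ i, L i)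

namespace Cls
variable {F : Set (List ℕ) → Prop}

theorem empty (hF : Cls F) : F ∅ := by
  have := hF.un Empty (fun i => i.elim) (fun i => i.elim)
  simpa using this

theorem relabel (hF : Cls F) {L : Set (List ℕ)} (hL : F L) (f : ℕ → ℕ) :
    F ((fun w => w.map f) '' L) := by
  have := hF.pm L hL [] [] f rfl
  convert this using 1
  ext w
  simp only [Set.mem_image, List.nil_append, Set.mem_ofPred_eq]
  constructor
  · rintro ⟨v, hv, rfl⟩; exact ⟨v, hv, rfl⟩
  · rintro ⟨v, hv, rfl⟩; exact ⟨v, hv, rfl⟩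

/-- from a word of `L` every singleton of the same length -/
theorem single (hF : Cls F) {L : Set (List ℕ)} (hL : F L) {a : List ℕ} (ha : a ∈ L) (b : List ℕ)
    (hab : a.length = b.length) : F {b} := by
  have h1 := hF.pm L hL a (List.range a.length) (fun _ => a.length) (by simp)
  have h2 := hF.rs _ h1 (Finset.range a.length)
  have h3 : {w | w ∈ {w' | ∃ v, a ++ v ∈ L ∧ w' = List.range a.length ++ v.map (fun _ => a.length)}
      ∧ w.toFinset = Finset.range a.length} = {List.range a.length} := by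
    ext w
    simp only [Set.mem_ofPred_eq, Set.mem_singleton_iff]
    constructor
    · rintro ⟨⟨v, _, rfl⟩, h⟩
      cases v with
      | nil => simp
      | cons x v =>
        exfalso
        have : a.length ∈ Finset.range a.length := by
          rw [← h]; simp
        simp at this
    · rintro rfl
      refine ⟨⟨[], by simpa using ha, by simp⟩, ?_⟩
      ext x; simp
  rw [h3] at h2
  have h4 := hF.pm _ h2 (List.range a.length) b id (by simp [hab])
  convert h4 using 1
  ext w
  simp

theorem finite (hF : Cls F) {L : Set (List ℕ)} (hfin : L.Finite) (h : ∀ w ∈ L, F {w}) : F L := by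
  have : Finite L := hfin
  have h1 := hF.un L (fun w => {w.1}) (fun w => h w.1 w.2)
  convert h1 using 1
  ext w
  simp

end Cls

theorem finite_short (D : Finset ℕ) (r : ℕ) : {w : List ℕ | (∀ x ∈ w, x ∈ D) ∧ w.length < r}.Finite := by
  have h : {w : List ℕ | (∀ x ∈ w, x ∈ D) ∧ w.length < r} ⊆
      (fun w : List D => w.map Subtype.val) '' {w : List D | w.length < r} := by
    rintro w ⟨hw, hr⟩
    refine ⟨w.attach.map (fun x => ⟨x.1, hw x.1 x.2⟩), ?_, ?_⟩
    · simpa using hr
    · simp
  refine Set.Finite.subset (Set.Finite.image _ ?_) h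
  exact List.finite_length_lt D r

/-- normalisation: a separating language in which all words have the same letter set, of
prescribed size. -/
theorem normal {F H : Set (List ℕ) → Prop} (hF : Cls F) (hH : Cls H) {L : Set (List ℕ)}
    (hL : F L) (hnL : ¬ H L) {D : Finset ℕ} (hD : ∀ w ∈ L, ∀ x ∈ w, x ∈ D) (r : ℕ) :
    (∃ n, F {List.replicate n 0} ∧ ¬ H {List.replicate n 0}) ∨
    (∃ (Y : Finset ℕ) (M : Set (List ℕ)), r ≤ Y.card ∧ Y.card ≤ r + D.card ∧ F M ∧ ¬ H M ∧
      ∀ w ∈ M, w.toFinset = Y) := by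
  classical
  by_contra hcon
  rw [not_or] at hcon
  obtain ⟨hA, hB⟩ := hcon
  push Not at hA
  apply hnL
  -- an injection of ℕ into numbers ≥ r
  let f : ℕ → ℕ := fun x => x + r
  let g : ℕ → ℕ := fun x => x - r
  let L1 : List ℕ → Set (List ℕ) := fun u => {w' | ∃ v, u ++ v ∈ L ∧ w' = List.range r ++ v.map f}
  have hL1 : ∀ u : List ℕ, u.length = r → F (L1 u) := fun u hu => hF.pm L hL u (List.range r) f
    (by simp [hu])
  let E : Finset ℕ := Finset.range r ∪ D.image f
  have hE : ∀ u, u.length = r → ∀ w ∈ L1 u, w.toFinset ⊆ E ∧ Finset.range r ⊆ w.toFinset := by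
    rintro u hu w ⟨v, hv, rfl⟩
    constructor
    · intro x hx
      simp only [List.mem_toFinset, List.mem_append, List.mem_range, List.mem_map] at hx
      simp only [E, Finset.mem_union, Finset.mem_range, Finset.mem_image]
      rcases hx with hx | ⟨y, hy, rfl⟩
      · exact Or.inl hx
      · exact Or.inr ⟨y, hD _ hv y (List.mem_append_right _ hy), rfl⟩
    · intro x hx
      simp only [List.mem_toFinset, List.mem_append, List.mem_range]
      exact Or.inl (by simpa using hx)
  have hHL1 : ∀ u, u.length = r → H (L1 u) := by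
    intro u hu
    have hpiece : ∀ Y : {Y // Y ∈ E.powerset}, H {w | w ∈ L1 u ∧ w.toFinset = Y.1} := by
      rintro ⟨Y, hY⟩
      by_contra hneg
      have hne : ∃ w, w ∈ L1 u ∧ w.toFinset = Y := by
        by_contra hno
        apply hneg
        have : {w | w ∈ L1 u ∧ w.toFinset = Y} = ∅ := by
          ext w; simp only [Set.mem_ofPred_eq, Set.mem_empty_iff_false, iff_false]
          exact fun h => hno ⟨w, h⟩
        simp only [this]
        exact hH.empty
      obtain ⟨w, hw, hwY⟩ := hne
      refine hB ⟨Y, _, ?_, ?_, hF.rs _ (hL1 u hu) Y, hneg, fun w hw => hw.2⟩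
      · have := Finset.card_le_card (hE u hu w hw).2
        rw [hwY] at this
        simpa using this
      · have h1 := Finset.card_le_card (Finset.mem_powerset.1 hY)
        refine h1.trans ((Finset.card_union_le _ _).trans ?_)
        rw [Finset.card_range]
        exact Nat.add_le_add_left Finset.card_image_le _
    have := hH.un {Y // Y ∈ E.powerset} (fun Y => {w | w ∈ L1 u ∧ w.toFinset = Y.1}) hpiece
    convert this using 1
    ext w
    simp only [Set.mem_iUnion, Set.mem_ofPred_eq, Subtype.exists, Finset.mem_powerset, exists_and_left,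
      exists_prop, exists_eq_right']
    constructor
    · intro hw; exact ⟨hw, (hE u hu w hw).1⟩
    · rintro ⟨hw, _⟩; exact hw
  -- reconstruct
  have hback : ∀ u, u.length = r → H {w' | ∃ v, List.range r ++ v ∈ L1 u ∧ w' = u ++ v.map g} :=
    fun u hu => hH.pm _ (hHL1 u hu) (List.range r) u g (by simp [hu])
  have hback' : ∀ u, u.length = r →
      {w' | ∃ v, List.range r ++ v ∈ L1 u ∧ w' = u ++ v.map g} = {w | w ∈ L ∧ u <+: w} := by
    intro u hu
    ext w
    simp only [Set.mem_ofPred_eq]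
    constructor
    · rintro ⟨v, ⟨v', hv', he⟩, rfl⟩
      have h1 := List.append_cancel_left he
      subst h1
      have h2 : (v'.map f).map g = v' := by
        rw [List.map_map]
        have : g ∘ f = id := by funext x; simp [f, g]
        rw [this, List.map_id]
      rw [h2]
      exact ⟨hv', List.prefix_append _ _⟩
    · rintro ⟨hw, v, rfl⟩
      refine ⟨v.map f, ⟨v, hw, rfl⟩, ?_⟩
      have h2 : (v.map f).map g = v := by
        rw [List.map_map]
        have : g ∘ f = id := by funext x; simp [f, g]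
        rw [this, List.map_id]
      rw [h2]
  have hshort : H {w | w ∈ L ∧ w.length < r} := by
    apply hH.finite
    · refine (finite_short D r).subset ?_
      rintro w ⟨hw, hr⟩
      exact ⟨hD w hw, hr⟩
    · rintro w ⟨hw, _⟩
      have h1 : F {List.replicate w.length 0} := hF.single hL hw _ (by simp)
      exact hH.single (hA _ h1) rfl w (by simp)
  have hfinu : {u : List ℕ | (∀ x ∈ u, x ∈ D) ∧ u.length = r}.Finite :=
    (finite_short D (r + 1)).subset (fun u hu => ⟨hu.1, by have := hu.2; omega⟩)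
  have : Finite {u : List ℕ | (∀ x ∈ u, x ∈ D) ∧ u.length = r} := hfinu
  have hlong := hH.un {u : List ℕ | (∀ x ∈ u, x ∈ D) ∧ u.length = r}
    (fun u => {w | w ∈ L ∧ u.1 <+: w}) (fun u => by
      have := hback u.1 u.2.2
      rwa [hback' u.1 u.2.2] at this)
  have hfinal := hH.un Bool (fun b => if b then {w | w ∈ L ∧ w.length < r} else
    ⋃ u : {u : List ℕ | (∀ x ∈ u, x ∈ D) ∧ u.length = r}, {w | w ∈ L ∧ u.1 <+: w}) (by
      intro b; cases b
      · simpa using hlong
      · simpa using hshort)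
  convert hfinal using 1
  ext w
  simp only [Set.mem_iUnion, Bool.exists_bool]
  constructor
  · intro hw
    by_cases hr : w.length < r
    · right; simpa using ⟨hw, hr⟩
    · left
      push Not at hr
      simp only [Bool.false_eq_true, if_false, Set.mem_iUnion, Set.mem_ofPred_eq, Subtype.exists]
      refine ⟨w.take r, ⟨?_, ?_⟩, hw, List.take_prefix _ _⟩
      · intro x hx; exact hD w hw x (List.mem_of_mem_take hx)
      · simp [hr]
  · rintro (h | h)
    · simp only [Bool.false_eq_true, if_false, Set.mem_iUnion, Set.mem_ofPred_eq] at h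
      obtain ⟨_, hw, _⟩ := h
      exact hw
    · simp only [if_true, Set.mem_ofPred_eq] at h
      exact h.1

theorem exists_bij (Y X : Finset ℕ) (h : X.card = Y.card) :
    ∃ φ ψ : ℕ → ℕ, (∀ y ∈ Y, φ y ∈ X) ∧ (∀ x ∈ X, ∃ y ∈ Y, φ y = x) ∧ ∀ y ∈ Y, ψ (φ y) = y := by
  classical
  let e : Y ≃ X := Finset.equivOfCardEq h.symm
  refine ⟨fun y => if hy : y ∈ Y then (e ⟨y, hy⟩ : ℕ) else 0,
    fun x => if hx : x ∈ X then (e.symm ⟨x, hx⟩ : ℕ) else 0, ?_, ?_, ?_⟩
  · intro y hy
    simp only [dif_pos hy]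
    exact Subtype.coe_prop _
  · intro x hx
    refine ⟨(e.symm ⟨x, hx⟩ : ℕ), Subtype.coe_prop _, ?_⟩
    simp
  · intro y hy
    simp [dif_pos hy]

theorem piece {F H : Set (List ℕ) → Prop} (hF : Cls F) (hH : Cls H) {L : Set (List ℕ)}
    (hL : F L) (hnL : ¬ H L) {D : Finset ℕ} (hD : ∀ w ∈ L, ∀ x ∈ w, x ∈ D) (r N m : ℕ)
    (hm : r + D.card ≤ m) (hm1 : 1 ≤ m) :
    ∃ Kc : Set (List ℕ), F Kc ∧
      (∀ w ∈ Kc, w.toFinset.card ≤ 1 ∨
        (r ≤ w.toFinset.card ∧ w.toFinset.card ≤ r + D.card)) ∧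
      ∀ (K : Set (List ℕ)) (Γ : Finset ℕ), Γ ⊆ Finset.range N → m ≤ Γ.card → Kc ⊆ K →
        (∀ w ∈ K, w ∈ Kc ∨ ¬ (r ≤ w.toFinset.card ∧ w.toFinset.card ≤ r + D.card)) →
        ¬ H {w | w ∈ K ∧ ∀ x ∈ w, x ∈ Γ} := by
  classical
  rcases normal hF hH hL hnL hD r with ⟨n, h1, h2⟩ | ⟨Y, M, hY1, hY2, hM, hnM, hMY⟩
  · refine ⟨{w | ∃ x : Fin N, w = List.replicate n x.1}, ?_, ?_, ?_⟩
    · have h3 := hF.un (Fin N) (fun x => {List.replicate n x.1})
        (fun x => hF.single h1 rfl _ (by simp))
      convert h3 using 1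
      ext w
      simp only [Set.mem_ofPred_eq, Set.mem_iUnion, Set.mem_singleton_iff]
    · rintro w ⟨x, rfl⟩
      left
      have : (List.replicate n x.1).toFinset ⊆ {x.1} := by
        intro y hy
        rw [List.mem_toFinset] at hy
        simp [List.eq_of_mem_replicate hy]
      exact (Finset.card_le_card this).trans (by simp)
    · intro K Γ hΓ hΓm hsub _ hK
      have hne : Γ.Nonempty := by
        rw [← Finset.card_pos]; omega
      obtain ⟨x, hx⟩ := hne
      apply h2
      refine hH.single hK (a := List.replicate n x) ⟨?_, ?_⟩ _ (by simp)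
      · exact hsub ⟨⟨x, by simpa using hΓ hx⟩, rfl⟩
      · intro y hy
        rw [List.eq_of_mem_replicate hy]; exact hx
  · choose φ ψ hφ1 hφ2 hφ3 using fun X : {X // X ∈ (Finset.range N).powersetCard Y.card} =>
      exists_bij Y X.1 (Finset.mem_powersetCard.1 X.2).2
    have halph : ∀ X, ∀ w ∈ M, (w.map (φ X)).toFinset = X.1 := by
      intro X w hw
      have hwY := hMY w hw
      ext x
      simp only [List.mem_toFinset, List.mem_map]
      constructor
      · rintro ⟨y, hy, rfl⟩
        apply hφ1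
        rw [← hwY]; simpa using hy
      · intro hx
        obtain ⟨y, hy, rfl⟩ := hφ2 X x hx
        refine ⟨y, ?_, rfl⟩
        rw [← hwY] at hy; simpa using hy
    refine ⟨{w | ∃ X, ∃ w0 ∈ M, w = w0.map (φ X)}, ?_, ?_, ?_⟩
    · have h3 := hF.un _ (fun X => (fun w => w.map (φ X)) '' M) (fun X => hF.relabel hM (φ X))
      convert h3 using 1
      ext w
      simp only [Set.mem_ofPred_eq, Set.mem_iUnion, Set.mem_image]
      constructor
      · rintro ⟨X, w0, h, rfl⟩; exact ⟨X, w0, h, rfl⟩
      · rintro ⟨X, w0, h, rfl⟩; exact ⟨X, w0, h, rfl⟩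
    · rintro w ⟨X, w0, hw0, rfl⟩
      right
      rw [halph X w0 hw0, (Finset.mem_powersetCard.1 X.2).2]
      exact ⟨hY1, hY2⟩
    · intro K Γ hΓ hΓm hsub hsep hK
      obtain ⟨Γ1, hΓ1, hcard⟩ := Finset.exists_subset_card_eq (s := Γ) (n := Y.card) (by omega)
      let X : {X // X ∈ (Finset.range N).powersetCard Y.card} :=
        ⟨Γ1, Finset.mem_powersetCard.2 ⟨hΓ1.trans hΓ, hcard⟩⟩
      apply hnM
      have h4 := hH.relabel (hH.rs _ hK Γ1) (ψ X)
      convert h4 using 1
      ext w
      simp only [Set.mem_image, Set.mem_ofPred_eq]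
      have hinv : ∀ w0 ∈ M, (w0.map (φ X)).map (ψ X) = w0 := by
        intro w0 hw0
        rw [List.map_map]
        conv_rhs => rw [← List.map_id w0]
        apply List.map_congr_left
        intro y hy
        apply hφ3
        rw [← hMY w0 hw0]; simpa using hy
      constructor
      · intro hw
        refine ⟨w.map (φ X), ⟨⟨hsub ⟨X, w, hw, rfl⟩, ?_⟩, halph X w hw⟩, hinv w hw⟩
        intro x hx
        apply hΓ1
        have : x ∈ (w.map (φ X)).toFinset := by simpa using hx
        rw [halph X w hw] at this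
        exact this
      · rintro ⟨v, ⟨⟨hvK, hvΓ⟩, hv1⟩, rfl⟩
        rcases hsep v hvK with ⟨X', w0, hw0, rfl⟩ | hno
        · have hX : X' = X := by
            apply Subtype.ext
            rw [← halph X' w0 hw0, hv1]
          subst hX
          rw [hinv w0 hw0]; exact hw0
        · exfalso
          apply hno
          rw [hv1, hcard]
          exact ⟨hY1, hY2⟩

theorem core {F : Set (List ℕ) → Prop} (hF : Cls F) {ι : Type} [Fintype ι] [Nonempty ι]
    (H : ι → Set (List ℕ) → Prop) (hH : ∀ c, Cls (H c))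
    (hkey : ∀ K, F K → ∃ τ : ℕ → ι, ∀ (c : ι) (Γ : Finset ℕ), (∀ x ∈ Γ, τ x = c) →
      H c {w | w ∈ K ∧ ∀ x ∈ w, x ∈ Γ}) :
    ∃ c, ∀ L, F L → H c L := by
  classical
  by_contra hcon
  push Not at hcon
  choose L hL hnL using hcon
  choose D hD using fun c => hF.fin (L c) (hL c)
  let e : ι ≃ Fin (Fintype.card ι) := Fintype.equivFin ι
  let B : ℕ := 1 + ∑ c, (D c).card
  have hB : ∀ c, (D c).card ≤ B := fun c => by
    have := Finset.single_le_sum (f := fun c => (D c).card) (fun _ _ => Nat.zero_le _)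
      (Finset.mem_univ c)
    omega
  let r : ι → ℕ := fun c => ((e c : ℕ) + 1) * (B + 1)
  let m : ℕ := 1 + ∑ c, (r c + (D c).card)
  have hm : ∀ c, r c + (D c).card ≤ m := fun c => by
    have := Finset.single_le_sum (f := fun c => r c + (D c).card) (fun _ _ => Nat.zero_le _)
      (Finset.mem_univ c)
    omega
  let N : ℕ := Fintype.card ι * m
  choose Kc hKc1 hKc2 hKc3 using fun c => piece hF (hH c) (hL c) (hnL c) (hD c) (r c) N m (hm c)
    (by omega)
  have hr : ∀ c c', c ≠ c' → ∀ k, r c' ≤ k → k ≤ r c' + (D c').card →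
      ¬ (r c ≤ k ∧ k ≤ r c + (D c).card) := by
    intro c c' hcc k h1 h2 ⟨h3, h4⟩
    have hne : (e c : ℕ) ≠ (e c' : ℕ) := fun h => hcc (e.injective (Fin.ext h))
    have b1 := hB c
    have b2 := hB c'
    simp only [r] at h1 h2 h3 h4
    rcases Nat.lt_or_gt_of_ne hne with h | h
    · have : ((e c : ℕ) + 1 + 1) * (B + 1) ≤ ((e c' : ℕ) + 1) * (B + 1) :=
        Nat.mul_le_mul_right _ (by omega)
      have h5 : ((e c : ℕ) + 1 + 1) * (B + 1) = ((e c : ℕ) + 1) * (B + 1) + (B + 1) := by ring
      omega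
    · have : ((e c' : ℕ) + 1 + 1) * (B + 1) ≤ ((e c : ℕ) + 1) * (B + 1) :=
        Nat.mul_le_mul_right _ (by omega)
      have h5 : ((e c' : ℕ) + 1 + 1) * (B + 1) = ((e c' : ℕ) + 1) * (B + 1) + (B + 1) := by ring
      omega
  have hr2 : ∀ c, 2 ≤ r c := by
    intro c
    have : 1 * (B + 1) ≤ ((e c : ℕ) + 1) * (B + 1) := Nat.mul_le_mul_right _ (by omega)
    simp only [r]
    have hB1 : 1 ≤ B := by simp only [B]; omega
    omega
  obtain ⟨τ, hτ⟩ := hkey _ (hF.un ι Kc hKc1)
  have hpig : ∃ c ∈ (Finset.univ : Finset ι), m ≤ ((Finset.range N).filter (fun x => τ x = c)).card := by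
    apply Finset.exists_le_card_fiber_of_mul_le_card_of_maps_to
    · intro x _; exact Finset.mem_univ _
    · exact Finset.univ_nonempty
    · simp [N]
  obtain ⟨c, -, hc⟩ := hpig
  refine hKc3 c (⋃ c, Kc c) _ (Finset.filter_subset _ _) hc (Set.subset_iUnion Kc c) ?_
    (hτ c _ (fun x hx => (Finset.mem_filter.1 hx).2))
  intro w hw
  rw [Set.mem_iUnion] at hw
  obtain ⟨c', hw⟩ := hw
  by_cases hcc : c = c'
  · subst hcc; exact Or.inl hw
  · right
    rcases hKc2 c' w hw with h | ⟨h, h'⟩
    · have := hr2 c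
      omega
    · exact hr c c' hcc _ h h'

end Pool.Agent.Helper230
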