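import Pool.Agent.Helper230.IdxDer
import Pool.Agent.Helper230.GFCore

/-! Typed interpretations of grammars and their closure properties. -/

namespace Pool.Agent.Helper230

structure GDat where
  N : Set ℕ
  T : Set ℕ
  S : ℕ
  P : Set (ℕ × List ℕ)
  disj : ∀ x ∈ N, x ∉ T
  hS : S ∈ N
  wf : ∀ p ∈ P, p.1 ∈ N ∧ ∀ x ∈ p.2, x ∈ N ∨ x ∈ T

def ExR {Q : Type} (R : Set (Q × List (Q ⊕ ℕ))) (q : Q) (x : List (Q ⊕ ℕ)) : Prop := (q, x) ∈ R

def Gen (G : GDat) (τ : ℕ → ℕ) (L : Set (List ℕ)) : Prop :=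
  ∃ (Q : Type) (_ : Finite Q) (ν : Q → ℕ) (s : Q) (R : Set (Q × List (Q ⊕ ℕ))) (D : Finset ℕ),
    ν s = G.S ∧ (∀ q, ν q ∈ G.N) ∧ (∀ x ∈ D, τ x ∈ G.T) ∧
    (∀ r ∈ R, (ν r.1, r.2.map (Sum.elim ν τ)) ∈ G.P) ∧
    (∀ r ∈ R, ∀ x, Sum.inr x ∈ r.2 → x ∈ D) ∧ L = {w | Der (ExR R) [Sum.inl s] w}

section run
variable {Z : Type}

inductive Run (δ : Z → ℕ → ℕ → Z → Prop) : Z → List ℕ → List ℕ → Z → Prop
  | nil (z : Z) : Run δ z [] [] z
  | cons {z z' z'' : Z} {x x' : ℕ} {w w' : List ℕ} :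
      δ z x x' z' → Run δ z' w w' z'' → Run δ z (x :: w) (x' :: w') z''

inductive Dec {Q : Type} (δ : Z → ℕ → ℕ → Z → Prop) :
    Z → List (Q ⊕ ℕ) → List (Option (Z × Q × Z) ⊕ ℕ) → Z → Prop
  | nil (z : Z) : Dec δ z [] [] z
  | nt {z z' z'' : Z} {q : Q} {β : List (Q ⊕ ℕ)} {β' : List (Option (Z × Q × Z) ⊕ ℕ)} :
      Dec δ z' β β' z'' → Dec δ z (Sum.inl q :: β) (Sum.inl (some (z, q, z')) :: β') z''
  | ter {z z' z'' : Z} {x x' : ℕ} {β : List (Q ⊕ ℕ)} {β' : List (Option (Z × Q × Z) ⊕ ℕ)} :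
      δ z x x' z' → Dec δ z' β β' z'' → Dec δ z (Sum.inr x :: β) (Sum.inr x' :: β') z''

variable {δ : Z → ℕ → ℕ → Z → Prop}

theorem Run.append {z z' z'' : Z} {u u' v v' : List ℕ} (h1 : Run δ z u u' z')
    (h2 : Run δ z' v v' z'') : Run δ z (u ++ v) (u' ++ v') z'' := by
  induction h1 with
  | nil z => exact h2
  | cons hd _ ih => exact Run.cons hd (ih h2)

theorem Run.split {z z'' : Z} {u v w' : List ℕ} (h : Run δ z (u ++ v) w' z'') :
    ∃ (z' : Z) (u' v' : List ℕ), w' = u' ++ v' ∧ Run δ z u u' z' ∧ Run δ z' v v' z'' := by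
  induction u generalizing z w' with
  | nil => exact ⟨z, [], w', rfl, Run.nil z, h⟩
  | cons x u ih =>
    cases h with
    | cons hd h =>
      obtain ⟨z', u', v', rfl, h1, h2⟩ := ih h
      exact ⟨z', _ :: u', v', rfl, Run.cons hd h1, h2⟩

variable {Q : Type}

/-- rules of the product construction -/
def RT (R : Set (Q × List (Q ⊕ ℕ))) (s : Q) (δ : Z → ℕ → ℕ → Z → Prop) (z0 : Z) (Fi : Set Z) :
    Set (Option (Z × Q × Z) × List (Option (Z × Q × Z) ⊕ ℕ)) :=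
  {r | (∃ z q z' β, r.1 = some (z, q, z') ∧ (q, β) ∈ R ∧ Dec δ z β r.2 z') ∨
    (∃ z' ∈ Fi, ∃ β, r.1 = none ∧ (s, β) ∈ R ∧ Dec δ z0 β r.2 z')}

variable {R : Set (Q × List (Q ⊕ ℕ))} {s : Q} {z0 : Z} {Fi : Set Z}

theorem dec_sound {n : ℕ} {β' : List (Option (Z × Q × Z) ⊕ ℕ)} {w' : List ℕ}
    (h : DerN (ExR (RT R s δ z0 Fi)) n β' w') :
    ∀ (z : Z) (β : List (Q ⊕ ℕ)) (z' : Z), Dec δ z β β' z' →
      ∃ w, DerN (ExR R) n β w ∧ Run δ z w w' z' := by
  induction h with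
  | nil n =>
    intro z β z' hd
    cases hd
    exact ⟨[], DerN.nil n, Run.nil z⟩
  | ter a _ ih =>
    intro z β z' hd
    cases hd with
    | ter hx hd =>
      obtain ⟨w, h1, h2⟩ := ih _ _ _ hd
      exact ⟨_ :: w, DerN.ter _ h1, Run.cons hx h2⟩
  | @nt n q x u w1 w2 hx _ _ ih1 ih2 =>
    intro z β z' hd
    cases hd with
    | nt hd =>
      rcases hx with ⟨y, q1, y', β1, h1, h2, h3⟩ | ⟨y', _, β1, h1, _⟩
      · simp only [Option.some.injEq, Prod.mk.injEq] at h1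
        obtain ⟨rfl, rfl, rfl⟩ := h1
        obtain ⟨v1, hv1, hr1⟩ := ih1 _ _ _ h3
        obtain ⟨v2, hv2, hr2⟩ := ih2 _ _ _ hd
        exact ⟨v1 ++ v2, DerN.nt h2 hv1 hv2, hr1.append hr2⟩
      · simp at h1

theorem dec_complete {n : ℕ} {β : List (Q ⊕ ℕ)} {w : List ℕ} (h : DerN (ExR R) n β w) :
    ∀ (z : Z) (w' : List ℕ) (z' : Z), Run δ z w w' z' →
      ∃ β', Dec δ z β β' z' ∧ DerN (ExR (RT R s δ z0 Fi)) n β' w' := by
  induction h with
  | nil n =>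
    intro z w' z' hr
    cases hr
    exact ⟨[], Dec.nil z, DerN.nil n⟩
  | ter a _ ih =>
    intro z w' z' hr
    cases hr with
    | cons hx hr =>
      obtain ⟨β', h1, h2⟩ := ih _ _ _ hr
      exact ⟨_ :: β', Dec.ter hx h1, DerN.ter _ h2⟩
  | @nt n q x u w1 w2 hx _ _ ih1 ih2 =>
    intro z w' z' hr
    obtain ⟨y, u', v', rfl, h1, h2⟩ := hr.split
    obtain ⟨β1, hd1, hn1⟩ := ih1 _ _ _ h1
    obtain ⟨β2, hd2, hn2⟩ := ih2 _ _ _ h2
    exact ⟨_, Dec.nt hd2, DerN.nt (Or.inl ⟨z, q, y, x, rfl, hx, hd1⟩) hn1 hn2⟩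

end run

theorem Gen.trans {G : GDat} {τ : ℕ → ℕ} {L : Set (List ℕ)} (hL : Gen G τ L) {Z : Type}
    [Finite Z] (δ : Z → ℕ → ℕ → Z → Prop) (D' : Finset ℕ) (z0 : Z) (Fi : Set Z)
    (hT : ∀ x ∈ D', τ x ∈ G.T)
    (hδ : ∀ z x x' z', δ z x x' z' → x' ∈ D' ∧ (τ x = τ x' )) :
    Gen G τ {w' | ∃ w ∈ L, ∃ z ∈ Fi, Run δ z0 w w' z} := by
  obtain ⟨Q, hQ, ν, s, R, D, hs, hN, hD, hR, hRD, rfl⟩ := hL
  let ν' : Option (Z × Q × Z) → ℕ := fun o => o.elim G.S (fun p => ν p.2.1)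
  have hdec : ∀ z β β' z', Dec δ z β β' z' →
      β'.map (Sum.elim ν' τ) = β.map (Sum.elim ν τ) ∧ ∀ x, Sum.inr x ∈ β' → x ∈ D' := by
    intro z β β' z' h
    induction h with
    | nil z => exact ⟨rfl, by simp⟩
    | nt _ ih =>
      refine ⟨?_, ?_⟩
      · rw [List.map_cons, List.map_cons, ih.1]; rfl
      · intro x hx
        rcases List.mem_cons.1 hx with hx | hx
        · simp at hx
        · exact ih.2 x hx
    | ter hx _ ih =>
      refine ⟨?_, ?_⟩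
      · rw [List.map_cons, List.map_cons, ih.1, Sum.elim_inr, Sum.elim_inr, (hδ _ _ _ _ hx).2]
      · intro x h
        rcases List.mem_cons.1 h with h | h
        · simp only [Sum.inr.injEq] at h
          subst h
          exact (hδ _ _ _ _ hx).1
        · exact ih.2 x h
  refine ⟨Option (Z × Q × Z), inferInstance, ν', none, RT R s δ z0 Fi, D', rfl, ?_, hT, ?_, ?_, ?_⟩
  · rintro (_ | ⟨z, q, z'⟩)
    · exact G.hS
    · exact hN q
  · rintro ⟨q, β'⟩ (⟨z, q0, z', β, h1, h2, h3⟩ | ⟨z', _, β, h1, h2, h3⟩)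
    · dsimp only at h1 h3 ⊢
      subst h1
      rw [(hdec _ _ _ _ h3).1]
      exact hR _ h2
    · dsimp only at h1 h3 ⊢
      subst h1
      rw [(hdec _ _ _ _ h3).1]
      have := hR _ h2
      rw [hs] at this
      exact this
  · rintro ⟨q, β'⟩ (⟨z, q0, z', β, h1, h2, h3⟩ | ⟨z', _, β, h1, h2, h3⟩) x hx
    · exact (hdec _ _ _ _ h3).2 x hx
    · exact (hdec _ _ _ _ h3).2 x hx
  · ext w'
    constructor
    · rintro ⟨w, ⟨n, hw⟩, z, hz, hr⟩
      obtain ⟨m, β, rfl, hβ, hd⟩ := hw.single_inv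
      obtain ⟨β', h1, h2⟩ := dec_complete (s := s) (z0 := z0) (Fi := Fi) hd z0 w' z hr
      exact Der.single (Or.inr ⟨z, hz, β, rfl, hβ, h1⟩) ⟨m, h2⟩
    · rintro ⟨n, hw⟩
      obtain ⟨m, β', rfl, hβ, hd⟩ := hw.single_inv
      rcases hβ with ⟨z, q0, z', β, h1, h2, h3⟩ | ⟨z', hz', β, h1, h2, h3⟩
      · simp at h1
      · obtain ⟨w, h4, h5⟩ := dec_sound hd _ _ _ h3
        exact ⟨w, Der.single h2 ⟨m, h4⟩, z', hz', h5⟩

/-- derivations are transported along an embedding of nonterminals -/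
theorem DerN_map {Q1 Q2 : Type} {R1 : Set (Q1 × List (Q1 ⊕ ℕ))} {R2 : Set (Q2 × List (Q2 ⊕ ℕ))}
    (f : Q1 → Q2) (h : ∀ q β, (q, β) ∈ R1 → (f q, β.map (Sum.map f id)) ∈ R2) {n : ℕ}
    {u : List (Q1 ⊕ ℕ)} {w : List ℕ} (hd : DerN (ExR R1) n u w) :
    DerN (ExR R2) n (u.map (Sum.map f id)) w := by
  induction hd with
  | nil n => exact DerN.nil n
  | ter a _ ih => exact DerN.ter a ih
  | nt hx _ _ ih1 ih2 => exact DerN.nt (h _ _ hx) ih1 ih2

theorem DerN_map_inv {Q1 Q2 : Type} {R1 : Set (Q1 × List (Q1 ⊕ ℕ))}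
    {R2 : Set (Q2 × List (Q2 ⊕ ℕ))} (f : Q1 → Q2)
    (h : ∀ q γ, (f q, γ) ∈ R2 → ∃ β, (q, β) ∈ R1 ∧ γ = β.map (Sum.map f id)) {n : ℕ}
    {U : List (Q2 ⊕ ℕ)} {w : List ℕ} (hd : DerN (ExR R2) n U w) :
    ∀ u : List (Q1 ⊕ ℕ), U = u.map (Sum.map f id) → DerN (ExR R1) n u w := by
  induction hd with
  | nil n =>
    intro u hu
    cases u with
    | nil => exact DerN.nil n
    | cons a u => simp at hu
  | ter a _ ih =>
    intro u hu
    cases u with
    | nil => simp at hu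
    | cons b u =>
      rw [List.map_cons, List.cons.injEq] at hu
      cases b with
      | inl q => simp at hu
      | inr b =>
        have : a = b := by simpa using hu.1
        subst this
        exact DerN.ter a (ih u hu.2)
  | nt hx _ _ ih1 ih2 =>
    intro u hu
    cases u with
    | nil => simp at hu
    | cons b u =>
      rw [List.map_cons, List.cons.injEq] at hu
      cases b with
      | inr b => simp at hu
      | inl q =>
        simp only [Sum.map_inl, Sum.inl.injEq] at hu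
        obtain ⟨rfl, hu⟩ := hu
        obtain ⟨β, hβ, rfl⟩ := h _ _ hx
        exact DerN.nt hβ (ih1 β rfl) (ih2 u hu)

theorem Gen.iUnion {G : GDat} {τ : ℕ → ℕ} (ι : Type) [Finite ι] (L : ι → Set (List ℕ))
    (hL : ∀ i, Gen G τ (L i)) : Gen G τ (⋃ i, L i) := by
  classical
  have : Fintype ι := Fintype.ofFinite ι
  choose Q hQ ν s R D hs hN hD hR hRD hLe using hL
  let Q' := Option (Σ i, Q i)
  let inj : ∀ i, Q i → Q' := fun i q => some ⟨i, q⟩
  have hinj : ∀ i i' q q', inj i q = inj i' q' → (⟨i, q⟩ : Σ i, Q i) = ⟨i', q'⟩ := by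
    intro i i' q q' h
    exact Option.some.inj h
  let ν' : Q' → ℕ := fun o => o.elim G.S (fun p => ν p.1 p.2)
  have hν : ∀ i (β : List (Q i ⊕ ℕ)),
      (β.map (Sum.map (inj i) id)).map (Sum.elim ν' τ) = β.map (Sum.elim (ν i) τ) := by
    intro i β
    rw [List.map_map]
    apply List.map_congr_left
    rintro (q | x) _ <;> rfl
  let R' : Set (Q' × List (Q' ⊕ ℕ)) :=
    {r | (∃ i q β, (q, β) ∈ R i ∧ r = (inj i q, β.map (Sum.map (inj i) id))) ∨
      (∃ i β, (s i, β) ∈ R i ∧ r = (none, β.map (Sum.map (inj i) id)))}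
  refine ⟨Q', inferInstance, ν', none, R', Finset.univ.biUnion D, rfl, ?_, ?_, ?_, ?_, ?_⟩
  · rintro (_ | ⟨i, q⟩)
    · exact G.hS
    · exact hN i q
  · intro x hx
    rw [Finset.mem_biUnion] at hx
    obtain ⟨i, _, hx⟩ := hx
    exact hD i x hx
  · rintro _ (⟨i, q, β, hβ, rfl⟩ | ⟨i, β, hβ, rfl⟩)
    · dsimp only
      rw [hν]
      exact hR i _ hβ
    · dsimp only
      rw [hν]
      have := hR i _ hβ
      rw [hs] at this
      exact this
  · have hmem : ∀ i (β : List (Q i ⊕ ℕ)) x, (Sum.inr x : Q' ⊕ ℕ) ∈ β.map (Sum.map (inj i) id) →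
        Sum.inr x ∈ β := by
      intro i β x hx
      rw [List.mem_map] at hx
      obtain ⟨y, hy, he⟩ := hx
      cases y with
      | inl q => simp at he
      | inr y =>
        have : y = x := by simpa using he
        subst this; exact hy
    rintro _ (⟨i, q, β, hβ, rfl⟩ | ⟨i, β, hβ, rfl⟩) x hx
    · exact Finset.mem_biUnion.2 ⟨i, Finset.mem_univ _, hRD i _ hβ x (hmem i β x hx)⟩
    · exact Finset.mem_biUnion.2 ⟨i, Finset.mem_univ _, hRD i _ hβ x (hmem i β x hx)⟩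
  · ext w
    rw [Set.mem_iUnion]
    have hf : ∀ i q β, (q, β) ∈ R i → (inj i q, β.map (Sum.map (inj i) id)) ∈ R' :=
      fun i q β h => Or.inl ⟨i, q, β, h, rfl⟩
    have hb : ∀ i q γ, (inj i q, γ) ∈ R' → ∃ β, (q, β) ∈ R i ∧ γ = β.map (Sum.map (inj i) id) := by
      rintro i q γ (⟨i', q', β, hβ, he⟩ | ⟨i', β, hβ, he⟩)
      · rw [Prod.mk.injEq] at he
        have := hinj _ _ _ _ he.1
        cases this
        exact ⟨β, hβ, he.2⟩
      · rw [Prod.mk.injEq] at he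
        simp [inj] at he
    constructor
    · rintro ⟨i, hw⟩
      rw [hLe] at hw
      obtain ⟨n, hw⟩ := hw
      obtain ⟨m, β, rfl, hβ, hd⟩ := hw.single_inv
      exact Der.single (Or.inr ⟨i, β, hβ, rfl⟩) ⟨m, DerN_map (inj i) (hf i) hd⟩
    · rintro ⟨n, hw⟩
      obtain ⟨m, γ, rfl, hγ, hd⟩ := hw.single_inv
      rcases hγ with ⟨i, q, β, hβ, he⟩ | ⟨i, β, hβ, he⟩
      · rw [Prod.mk.injEq] at he
        simp [inj] at he
      · rw [Prod.mk.injEq] at he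
        obtain ⟨-, rfl⟩ := he
        refine ⟨i, ?_⟩
        rw [hLe]
        exact Der.single hβ ⟨m, DerN_map_inv (inj i) (hb i) hd β rfl⟩

theorem DerN_letters {Q : Type} {R : Set (Q × List (Q ⊕ ℕ))} {D : Finset ℕ}
    (hRD : ∀ r ∈ R, ∀ x, Sum.inr x ∈ r.2 → x ∈ D) {n : ℕ} {u : List (Q ⊕ ℕ)} {w : List ℕ}
    (h : DerN (ExR R) n u w) : (∀ x, Sum.inr x ∈ u → x ∈ D) → ∀ x ∈ w, x ∈ D := by
  induction h with
  | nil n => intro _ x hx; simp at hx
  | ter a _ ih =>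
    intro hu x hx
    rcases List.mem_cons.1 hx with rfl | hx
    · exact hu x List.mem_cons_self
    · exact ih (fun y hy => hu y (List.mem_cons_of_mem _ hy)) x hx
  | nt hx _ _ ih1 ih2 =>
    intro hu x h
    rcases List.mem_append.1 h with h | h
    · exact ih1 (hRD _ hx) x h
    · exact ih2 (fun y hy => hu y (List.mem_cons_of_mem _ hy)) x h

theorem run_pm {D : Finset ℕ} {a b : List ℕ} {f : ℕ → ℕ}
    (δ : {p // p ∈ a.tails} × {q // q ∈ b.tails} → ℕ → ℕ →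
      {p // p ∈ a.tails} × {q // q ∈ b.tails} → Prop)
    (hδ : ∀ z x x' z', δ z x x' z' ↔ (z.1.1 = x :: z'.1.1 ∧ z.2.1 = x' :: z'.2.1) ∨
      (z.1.1 = [] ∧ z.2.1 = [] ∧ z'.1.1 = [] ∧ z'.2.1 = [] ∧ x ∈ D ∧ x' = f x))
    (z z' : {p // p ∈ a.tails} × {q // q ∈ b.tails}) (hz' : z'.1.1 = [] ∧ z'.2.1 = [])
    (w w' : List ℕ) (hlen : z.1.1.length = z.2.1.length) :
    Run δ z w w' z' ↔ ∃ v, w = z.1.1 ++ v ∧ w' = z.2.1 ++ v.map f ∧ ∀ x ∈ v, x ∈ D := by
  constructor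
  · intro h
    induction h with
    | nil z => exact ⟨[], by simp [hz'.1], by simp [hz'.2], by simp⟩
    | @cons z y z'' x x' w w' hd _ ih =>
      rcases (hδ _ _ _ _).1 hd with ⟨h1, h2⟩ | ⟨h1, h2, h3, h4, h5, rfl⟩
      · obtain ⟨v, hv1, hv2, hv3⟩ := ih hz' (by
          rw [h1, h2] at hlen; simpa using hlen)
        exact ⟨v, by rw [h1, hv1]; rfl, by rw [h2, hv2]; rfl, hv3⟩
      · obtain ⟨v, hv1, hv2, hv3⟩ := ih hz' (by rw [h3, h4])
        rw [h3, List.nil_append] at hv1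
        rw [h4, List.nil_append] at hv2
        refine ⟨x :: v, by rw [h1, hv1]; rfl, by rw [h2, hv2]; rfl, ?_⟩
        intro y hy
        rcases List.mem_cons.1 hy with rfl | hy
        · exact h5
        · exact hv3 y hy
  · rintro ⟨v, rfl, rfl, hv⟩
    obtain ⟨⟨p, hp⟩, ⟨q, hq⟩⟩ := z
    dsimp only at hlen ⊢
    induction p generalizing q with
    | nil =>
      cases q with
      | cons y q => simp at hlen
      | nil =>
        simp only [List.nil_append]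
        induction v with
        | nil =>
          have : z' = (⟨[], hp⟩, ⟨[], hq⟩) := by
            apply Prod.ext
            · apply Subtype.ext; exact hz'.1
            · apply Subtype.ext; exact hz'.2
          rw [this]
          exact Run.nil _
        | cons x v ih =>
          refine Run.cons (z' := (⟨[], hp⟩, ⟨[], hq⟩)) ((hδ _ _ _ _).2 (Or.inr
            ⟨rfl, rfl, rfl, rfl, hv x List.mem_cons_self, rfl⟩)) ?_
          exact ih (fun y hy => hv y (List.mem_cons_of_mem _ hy))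
    | cons y p ih =>
      cases q with
      | nil => simp at hlen
      | cons y' q =>
        have hp' : p ∈ a.tails := by
          rw [List.mem_tails] at hp ⊢
          exact (List.suffix_cons y p).trans hp
        have hq' : q ∈ b.tails := by
          rw [List.mem_tails] at hq ⊢
          exact (List.suffix_cons y' q).trans hq
        refine Run.cons (z' := (⟨p, hp'⟩, ⟨q, hq'⟩)) ((hδ _ _ _ _).2 (Or.inl ⟨rfl, rfl⟩)) ?_
        exact ih hp' q hq' (by simpa using hlen)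

theorem run_rs {X : Finset ℕ} (δ : {A : Finset ℕ // A ⊆ X} → ℕ → ℕ → {A : Finset ℕ // A ⊆ X} → Prop)
    (hδ : ∀ z x x' z', δ z x x' z' ↔ x ∈ X ∧ x' = x ∧ z'.1 = insert x z.1)
    (z z' : {A : Finset ℕ // A ⊆ X}) (w w' : List ℕ) :
    Run δ z w w' z' ↔ w' = w ∧ (∀ x ∈ w, x ∈ X) ∧ z'.1 = z.1 ∪ w.toFinset := by
  constructor
  · intro h
    induction h with
    | nil z => exact ⟨rfl, by simp, by simp⟩
    | cons hd _ ih =>
      obtain ⟨h1, rfl, h3⟩ := (hδ _ _ _ _).1 hd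
      obtain ⟨rfl, h5, h6⟩ := ih
      refine ⟨rfl, ?_, ?_⟩
      · intro y hy
        rcases List.mem_cons.1 hy with rfl | hy
        · exact h1
        · exact h5 y hy
      · rw [h6, h3]
        ext y
        simp only [Finset.mem_union, Finset.mem_insert, List.mem_toFinset, List.mem_cons]
        tauto
  · rintro ⟨rfl, h1, h2⟩
    induction w' generalizing z with
    | nil =>
      have : z' = z := by apply Subtype.ext; simpa using h2
      rw [this]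
      exact Run.nil _
    | cons x w ih =>
      have hx := h1 x List.mem_cons_self
      refine Run.cons (z' := ⟨insert x z.1, Finset.insert_subset hx z.2⟩)
        ((hδ _ _ _ _).2 ⟨hx, rfl, rfl⟩) ?_
      refine ih _ (fun y hy => h1 y (List.mem_cons_of_mem _ hy)) ?_
      rw [h2]
      ext y
      simp only [Finset.mem_union, Finset.mem_insert, List.mem_toFinset, List.mem_cons]
      tauto

theorem Gen.cls {G : GDat} {t : ℕ} (ht : t ∈ G.T) : Cls (Gen G (fun _ => t)) := by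
  classical
  have hfin : ∀ L, Gen G (fun _ => t) L → ∃ D : Finset ℕ, ∀ w ∈ L, ∀ x ∈ w, x ∈ D := by
    rintro L ⟨Q, hQ, ν, s, R, D, hs, hN, hD, hR, hRD, rfl⟩
    refine ⟨D, ?_⟩
    rintro w ⟨n, hw⟩
    exact DerN_letters hRD hw (by simp)
  refine ⟨hfin, ?_, ?_, ?_⟩
  · intro L hL a b f hab
    obtain ⟨D, hD⟩ := hfin L hL
    let δ : {p // p ∈ a.tails} × {q // q ∈ b.tails} → ℕ → ℕ →
      {p // p ∈ a.tails} × {q // q ∈ b.tails} → Prop := fun z x x' z' =>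
        (z.1.1 = x :: z'.1.1 ∧ z.2.1 = x' :: z'.2.1) ∨
      (z.1.1 = [] ∧ z.2.1 = [] ∧ z'.1.1 = [] ∧ z'.2.1 = [] ∧ x ∈ D ∧ x' = f x)
    let z0 : {p // p ∈ a.tails} × {q // q ∈ b.tails} := (⟨a, by simp⟩, ⟨b, by simp⟩)
    have h1 := Gen.trans hL δ (b.toFinset ∪ D.image f) z0 {z | z.1.1 = [] ∧ z.2.1 = []}
      (fun _ _ => ht) (by
        rintro z x x' z' (⟨h1, h2⟩ | ⟨h1, h2, h3, h4, h5, rfl⟩)
        · refine ⟨?_, rfl⟩
          apply Finset.mem_union_left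
          rw [List.mem_toFinset]
          have h3 := z.2.2
          rw [List.mem_tails] at h3
          exact h3.subset (by rw [h2]; exact List.mem_cons_self)
        · exact ⟨Finset.mem_union_right _ (Finset.mem_image_of_mem _ h5), rfl⟩)
    convert h1 using 1
    ext w'
    simp only [Set.mem_ofPred_eq]
    constructor
    · rintro ⟨v, hv, rfl⟩
      refine ⟨a ++ v, hv, (⟨[], by simp⟩, ⟨[], by simp⟩), ⟨rfl, rfl⟩, ?_⟩
      exact (run_pm δ (fun _ _ _ _ => Iff.rfl) _ _ ⟨rfl, rfl⟩ _ _ hab).2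
        ⟨v, rfl, rfl, fun x hx => hD _ hv x (List.mem_append_right _ hx)⟩
    · rintro ⟨w, hw, z, hz, hr⟩
      obtain ⟨v, rfl, rfl, -⟩ := (run_pm δ (fun _ _ _ _ => Iff.rfl) _ _ hz _ _ hab).1 hr
      exact ⟨v, hw, rfl⟩
  · intro L hL X
    let δ : {A : Finset ℕ // A ⊆ X} → ℕ → ℕ → {A : Finset ℕ // A ⊆ X} → Prop :=
      fun z x x' z' => x ∈ X ∧ x' = x ∧ z'.1 = insert x z.1
    have hZ : Finite {A : Finset ℕ // A ⊆ X} := by
      have : {A : Finset ℕ | A ⊆ X} = ↑(X.powerset) := by ext A; simp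
      have h2 : ({A : Finset ℕ | A ⊆ X}).Finite := by rw [this]; exact Finset.finite_toSet _
      exact h2
    have h1 := Gen.trans hL δ X ⟨∅, by simp⟩ {z | z.1 = X} (fun _ _ => ht) (by
      rintro z x x' z' ⟨h1, rfl, h3⟩
      exact ⟨h1, rfl⟩)
    convert h1 using 1
    ext w'
    simp only [Set.mem_ofPred_eq]
    constructor
    · rintro ⟨hw, hX⟩
      refine ⟨w', hw, ⟨X, Finset.Subset.refl X⟩, rfl, ?_⟩
      refine (run_rs δ (fun _ _ _ _ => Iff.rfl) _ _ _ _).2 ⟨rfl, ?_, ?_⟩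
      · intro x hx; rw [← hX]; simpa using hx
      · simp [hX]
    · rintro ⟨w, hw, z, hz, hr⟩
      obtain ⟨rfl, -, h3⟩ := (run_rs δ (fun _ _ _ _ => Iff.rfl) _ _ _ _).1 hr
      exact ⟨hw, by rw [hz] at h3; simpa using h3.symm⟩
  · intro ι _ L hL
    exact Gen.iUnion ι L hL

end Pool.Agent.Helper230
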