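import Mathlib

/-! Words over letters evaluated as pairs of 2×2 matrices; symbolic entries as lists of monomials. -/

namespace Pool.Agent.Helper230

/-- letters: `inl (B,i)` is the `i`-th copy of a frozen nonterminal, `inr a` a terminal. -/
abbrev Lt := (ℕ × ℕ) ⊕ ℕ
/-- variables: letter with an entry index -/
abbrev Vr := Lt × ℕ
/-- polynomial with natural coefficients as a list of monomials -/
abbrev PL := List (List Vr)
abbrev M4 := PL × PL × PL × PL
abbrev A2 (k : Type) := Matrix (Fin 2) (Fin 2) k × Matrix (Fin 2) (Fin 2) k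

section eval
variable {k : Type} [CommRing k]

def mono (v : Vr → k) (m : List Vr) : k := (m.map v).prod
def pval (v : Vr → k) (P : PL) : k := (P.map (mono v)).sum

def mulx (a : PL) (x : Vr) : PL := a.map (fun m => x :: m)
def pmul (a b : PL) : PL := a.flatMap (fun m => b.map (fun m' => m ++ m'))

@[simp] theorem pval_nil (v : Vr → k) : pval v [] = 0 := rfl
@[simp] theorem pval_append (v : Vr → k) (a b : PL) : pval v (a ++ b) = pval v a + pval v b := by
  simp [pval]
@[simp] theorem pval_cons (v : Vr → k) (m : List Vr) (b : PL) :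
    pval v (m :: b) = mono v m + pval v b := by
  simp [pval]
@[simp] theorem mono_nil (v : Vr → k) : mono v [] = 1 := rfl
@[simp] theorem mono_cons (v : Vr → k) (x : Vr) (m : List Vr) :
    mono v (x :: m) = v x * mono v m := by simp [mono]
@[simp] theorem mono_append (v : Vr → k) (a b : List Vr) :
    mono v (a ++ b) = mono v a * mono v b := by simp [mono]
@[simp] theorem pval_mulx (v : Vr → k) (a : PL) (x : Vr) :
    pval v (mulx a x) = pval v a * v x := by
  induction a with
  | nil => simp [mulx]
  | cons m a ih =>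
    have : mulx (m :: a) x = (x :: m) :: mulx a x := rfl
    rw [this, pval_cons, ih, mono_cons, pval_cons]; ring
theorem pval_map_append (v : Vr → k) (m : List Vr) (b : PL) :
    pval v (b.map (fun m' => m ++ m')) = mono v m * pval v b := by
  induction b with
  | nil => simp
  | cons m' b ih => simp only [List.map_cons, pval_cons, ih, mono_append]; ring
@[simp] theorem pval_pmul (v : Vr → k) (a b : PL) :
    pval v (pmul a b) = pval v a * pval v b := by
  induction a with
  | nil => simp [pmul]
  | cons m a ih =>
    have : pmul (m :: a) b = b.map (fun m' => m ++ m') ++ pmul a b := rfl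
    rw [this, pval_append, ih, pval_map_append, pval_cons]; ring
theorem pval_flatMap {ι : Type} (v : Vr → k) (c : List ι) (f : ι → PL) :
    pval v (c.flatMap f) = (c.map (fun x => pval v (f x))).sum := by
  induction c with
  | nil => simp
  | cons x c ih => simp [ih]

/-- symbolic right multiplication by a generic letter -/
def stepM (o : ℕ) (M : M4) (z : Lt) : M4 :=
  (mulx M.1 (z, o) ++ mulx M.2.1 (z, o + 2),
   mulx M.1 (z, o + 1) ++ mulx M.2.1 (z, o + 3),
   mulx M.2.2.1 (z, o) ++ mulx M.2.2.2 (z, o + 2),
   mulx M.2.2.1 (z, o + 1) ++ mulx M.2.2.2 (z, o + 3))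

def ent (o : ℕ) (w : List Lt) : M4 := w.foldl (stepM o) ([[]], [], [], [[]])

def ents (w : List Lt) : List PL :=
  [(ent 0 w).1, (ent 0 w).2.1, (ent 0 w).2.2.1, (ent 0 w).2.2.2,
   (ent 4 w).1, (ent 4 w).2.1, (ent 4 w).2.2.1, (ent 4 w).2.2.2]

def gm (o : ℕ) (v : Vr → k) (z : Lt) : Matrix (Fin 2) (Fin 2) k :=
  !![v (z, o), v (z, o + 1); v (z, o + 2), v (z, o + 3)]

def gen (v : Vr → k) (z : Lt) : A2 k := (gm 0 v z, gm 4 v z)

def rho (v : Vr → k) (w : List Lt) : A2 k := (w.map (gen v)).prod

@[simp] theorem rho_nil (v : Vr → k) : rho v [] = 1 := rfl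
@[simp] theorem rho_cons (v : Vr → k) (z : Lt) (w : List Lt) :
    rho v (z :: w) = gen v z * rho v w := by simp [rho]
@[simp] theorem rho_append (v : Vr → k) (u w : List Lt) :
    rho v (u ++ w) = rho v u * rho v w := by simp [rho]

def mat4 (v : Vr → k) (M : M4) : Matrix (Fin 2) (Fin 2) k :=
  !![pval v M.1, pval v M.2.1; pval v M.2.2.1, pval v M.2.2.2]

theorem mat4_step (o : ℕ) (v : Vr → k) (M : M4) (z : Lt) :
    mat4 v (stepM o M z) = mat4 v M * gm o v z := by
  ext i j
  fin_cases i <;> fin_cases j <;> simp [mat4, stepM, gm, Matrix.mul_apply, Fin.sum_univ_two]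

theorem mat4_foldl (o : ℕ) (v : Vr → k) (w : List Lt) (M : M4) :
    mat4 v (w.foldl (stepM o) M) = mat4 v M * (w.map (gm o v)).prod := by
  induction w generalizing M with
  | nil => simp
  | cons z w ih => rw [List.foldl_cons, ih, mat4_step, List.map_cons, List.prod_cons, mul_assoc]

theorem mat4_ent (o : ℕ) (v : Vr → k) (w : List Lt) :
    mat4 v (ent o w) = (w.map (gm o v)).prod := by
  rw [ent, mat4_foldl]
  have : mat4 v (([[]], [], [], [[]]) : M4) = 1 := by
    ext i j
    fin_cases i <;> fin_cases j <;> simp [mat4]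
  rw [this, one_mul]

theorem rho_eq (v : Vr → k) (w : List Lt) :
    rho v w = ((w.map (gm 0 v)).prod, (w.map (gm 4 v)).prod) := by
  induction w with
  | nil => rfl
  | cons z w ih => rw [rho_cons, ih]; simp [gen]

theorem rho_eq_mat4 (v : Vr → k) (w : List Lt) :
    rho v w = (mat4 v (ent 0 w), mat4 v (ent 4 w)) := by
  rw [rho_eq, mat4_ent, mat4_ent]

/-- the eight entries -/
def ents' (M : A2 k) : List k :=
  [M.1 0 0, M.1 0 1, M.1 1 0, M.1 1 1, M.2 0 0, M.2 0 1, M.2 1 0, M.2 1 1]

theorem ents_val (v : Vr → k) (w : List Lt) :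
    (ents w).map (pval v) = ents' (rho v w) := by
  rw [rho_eq_mat4]; simp [ents, ents', mat4]

def entP (e : ℕ) (w : List Lt) : PL := (ents w).getD e []
def entV (e : ℕ) (M : A2 k) : k := (ents' M).getD e 0

theorem entP_val (e : ℕ) (v : Vr → k) (w : List Lt) :
    pval v (entP e w) = entV e (rho v w) := by
  rw [entV, ← ents_val, entP]
  simp only [List.getD_eq_getElem?_getD, List.getElem?_map]
  cases (ents w)[e]? <;> simp

theorem A2_ext {M N : A2 k} (h : ∀ e < 8, entV e M = entV e N) : M = N := by
  have h0 := h 0 (by norm_num)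
  have h1 := h 1 (by norm_num)
  have h2 := h 2 (by norm_num)
  have h3 := h 3 (by norm_num)
  have h4 := h 4 (by norm_num)
  have h5 := h 5 (by norm_num)
  have h6 := h 6 (by norm_num)
  have h7 := h 7 (by norm_num)
  simp only [entV, ents', List.getD_cons_zero, List.getD_cons_succ] at h0 h1 h2 h3 h4 h5 h6 h7
  apply Prod.ext
  · ext i j; fin_cases i <;> fin_cases j <;> assumption
  · ext i j; fin_cases i <;> fin_cases j <;> assumption

theorem entV_add (e : ℕ) (M N : A2 k) : entV e (M + N) = entV e M + entV e N := by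
  rcases e with _|_|_|_|_|_|_|_|e <;> simp [entV, ents']

theorem entV_smul (e : ℕ) (c : k) (N : A2 k) : entV e (c • N) = c * entV e N := by
  rcases e with _|_|_|_|_|_|_|_|e <;> simp [entV, ents']

@[simp] theorem entV_zero (e : ℕ) : entV e (0 : A2 k) = 0 := by
  rcases e with _|_|_|_|_|_|_|_|e <;> simp [entV, ents']

theorem entV_list_sum {ι : Type} (e : ℕ) (c : List ι) (f : ι → A2 k) :
    entV e (c.map f).sum = (c.map (fun x => entV e (f x))).sum := by
  induction c with
  | nil => simp
  | cons x c ih => simp only [List.map_cons, List.sum_cons, entV_add, ih]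

end eval

/-! equality of symbolic polynomials -/

def cnt (m : List Vr) (P : PL) : ℕ := (P.filter (fun m' => m'.Perm m)).length

def polyEq (P Q : PL) : Prop := ∀ m ∈ P ++ Q, cnt m P = cnt m Q

open MvPolynomial in
theorem mono_X (m : List Vr) :
    mono (fun x => (X x : MvPolynomial Vr ℤ)) m
      = monomial (Multiset.toFinsupp (m : Multiset Vr)) 1 := by
  induction m with
  | nil => simp
  | cons x m ih =>
    rw [mono_cons, ih, ← Multiset.cons_coe, ← Multiset.singleton_add, map_add,
      Multiset.toFinsupp_singleton, X, monomial_mul, one_mul]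

theorem toFinsupp_eq_iff (m m' : List Vr) :
    Multiset.toFinsupp (m' : Multiset Vr) = Multiset.toFinsupp (m : Multiset Vr) ↔ m'.Perm m := by
  rw [Multiset.toFinsupp.injective.eq_iff, Multiset.coe_eq_coe]

open MvPolynomial in
theorem coeff_pval_X (P : PL) (t : Vr →₀ ℕ) :
    coeff t (pval (fun x => (X x : MvPolynomial Vr ℤ)) P)
      = ((P.filter (fun m' : List Vr => Multiset.toFinsupp (m' : Multiset Vr) = t)).length : ℤ) := by
  classical
  induction P with
  | nil => simp
  | cons m P ih =>
    rw [pval_cons, coeff_add, ih, mono_X, coeff_monomial, List.filter_cons]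
    split_ifs with h h' h'
    · simp only [List.length_cons]; push_cast; ring
    · simp [h] at h'
    · simp [h] at h'
    · simp

open MvPolynomial in
theorem coeff_cnt (P : PL) (m : List Vr) :
    coeff (Multiset.toFinsupp (m : Multiset Vr)) (pval (fun x => (X x : MvPolynomial Vr ℤ)) P)
      = (cnt m P : ℤ) := by
  rw [coeff_pval_X, cnt]
  congr 2
  apply List.filter_congr
  intro m' _
  simp [toFinsupp_eq_iff]

open MvPolynomial in
theorem polyEq_iff (P Q : PL) : polyEq P Q ↔
    pval (fun x => (X x : MvPolynomial Vr ℤ)) P = pval (fun x => (X x : MvPolynomial Vr ℤ)) Q := by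
  classical
  constructor
  · intro h
    ext t
    by_cases ht : ∃ m : List Vr, m ∈ P ++ Q ∧ Multiset.toFinsupp (m : Multiset Vr) = t
    · obtain ⟨m, hm, rfl⟩ := ht
      rw [coeff_cnt, coeff_cnt, h m hm]
    · push Not at ht
      rw [coeff_pval_X, coeff_pval_X, List.filter_eq_nil_iff.2, List.filter_eq_nil_iff.2]
      · intro m hm; simpa using ht m (List.mem_append_right _ hm)
      · intro m hm; simpa using ht m (List.mem_append_left _ hm)
  · intro h m _
    have := coeff_cnt P m
    rw [h, coeff_cnt] at this
    exact_mod_cast this.symm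

open MvPolynomial in
theorem pval_hom {k : Type} [CommRing k] (v : Vr → k) (P : PL) :
    eval₂Hom (Int.castRingHom k) v (pval (fun x => (X x : MvPolynomial Vr ℤ)) P) = pval v P := by
  have h1 : ∀ m, eval₂Hom (Int.castRingHom k) v (mono (fun x => (X x : MvPolynomial Vr ℤ)) m)
      = mono v m := by
    intro m
    induction m with
    | nil => simp
    | cons x m ih => rw [mono_cons, map_mul, ih, mono_cons]; simp
  induction P with
  | nil => simp
  | cons m P ih => rw [pval_cons, map_add, ih, h1, pval_cons]

theorem polyEq.eval {k : Type} [CommRing k] {P Q : PL} (h : polyEq P Q) (v : Vr → k) :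
    pval v P = pval v Q := by
  rw [← pval_hom v P, ← pval_hom v Q, (polyEq_iff P Q).1 h]

/-! membership certificates -/

def Ident (w : List Lt) (c : List (List Lt × PL × PL)) : Prop :=
  ∀ e ∈ List.range 8,
    polyEq (entP e w ++ c.flatMap (fun x => pmul x.2.1 (entP e x.1)))
      (c.flatMap (fun x => pmul x.2.2 (entP e x.1)))

def InMod (K : List (List Lt)) (w : List Lt) : Prop :=
  ∃ c : List (List Lt × PL × PL), (∀ x ∈ c, x.1 ∈ K) ∧ Ident w c

theorem list_sum_mem_span {k : Type} [CommRing k] {ι : Type} (N : Submodule k (A2 k)) (c : List ι)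
    (f : ι → A2 k) (h : ∀ x ∈ c, f x ∈ N) : (c.map f).sum ∈ N := by
  induction c with
  | nil => simp
  | cons x c ih =>
    rw [List.map_cons, List.sum_cons]
    exact N.add_mem (h x List.mem_cons_self) (ih fun y hy => h y (List.mem_cons_of_mem _ hy))

theorem InMod.sound {k : Type} [CommRing k] {K : List (List Lt)} {w : List Lt} (h : InMod K w)
    (v : Vr → k) : rho v w ∈ Submodule.span k (rho v '' {x | x ∈ K}) := by
  obtain ⟨c, hc, hid⟩ := h
  have key : rho v w = (c.map (fun x => (pval v x.2.2 - pval v x.2.1) • rho v x.1)).sum := by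
    apply A2_ext
    intro e he
    have h1 := (hid e (List.mem_range.2 he)).eval v
    rw [pval_append, pval_flatMap, pval_flatMap, entP_val] at h1
    rw [entV_list_sum]
    have h2 : ∀ x : List Lt × PL × PL,
        entV e ((pval v x.2.2 - pval v x.2.1) • rho v x.1)
          = pval v (pmul x.2.2 (entP e x.1)) - pval v (pmul x.2.1 (entP e x.1)) := by
      intro x
      rw [entV_smul, pval_pmul, pval_pmul, entP_val]; ring
    simp only [h2]
    have h3 : ∀ c' : List (List Lt × PL × PL),
        (c'.map (fun x => pval v (pmul x.2.2 (entP e x.1)) - pval v (pmul x.2.1 (entP e x.1)))).sum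
        = (c'.map (fun x => pval v (pmul x.2.2 (entP e x.1)))).sum
          - (c'.map (fun x => pval v (pmul x.2.1 (entP e x.1)))).sum := by
      intro c'
      induction c' with
      | nil => simp
      | cons x c' ih => simp only [List.map_cons, List.sum_cons, ih]; ring
    rw [h3, ← h1]; ring
  rw [key]
  apply list_sum_mem_span
  intro x hx
  exact Submodule.smul_mem _ _ (Submodule.subset_span ⟨x.1, hc x hx, rfl⟩)

end Pool.Agent.Helper230
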