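import Pool.Agent.Helper230.IdxDer

namespace Pool.Agent.Helper230

/-- embed a sentential form into the generic ones -/
def emb (v : List ((ℕ × List ℕ) ⊕ ℕ)) : List ((ℕ × List ℕ) ⊕ Lt) := v.map (Sum.map id Sum.inr)

theorem ExG_of_Ex {G : IGr} {b : Bool} {q : ℕ × List ℕ} {v : List ((ℕ × List ℕ) ⊕ ℕ)}
    (h : Ex G q v) : ExG G b q (emb v) := Or.inl ⟨v, h, rfl⟩

theorem subst_append {κ : ℕ → List (List Lt)} {u v k : List Lt} (h : k ∈ subst κ (u ++ v)) :
    ∃ k1 ∈ subst κ u, ∃ k2 ∈ subst κ v, k = k1 ++ k2 := by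
  induction u generalizing k with
  | nil => exact ⟨[], by simp [subst], k, h, rfl⟩
  | cons z u ih =>
    rw [List.cons_append, mem_subst_cons] at h
    obtain ⟨x, hx, y, hy, rfl⟩ := h
    obtain ⟨k1, h1, k2, h2, rfl⟩ := ih hy
    exact ⟨x ++ k1, mem_subst_cons.2 ⟨x, hx, k1, h1, rfl⟩, k2, h2, by rw [List.append_assoc]⟩

theorem subst_derA {G : IGr} {b : Bool} {s : List ℕ} {κ : ℕ → List (List Lt)}
    (hκ : ∀ C, ∀ x ∈ κ C, Der (ExG G b) [Sum.inl (C, s)] x) (α : List (ℕ ⊕ ℕ)) {k : List Lt}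
    (hk : k ∈ subst κ (toLt α)) : Der (ExG G b) (emb (lift s α)) k := by
  induction α generalizing k with
  | nil =>
    have : k = [] := by simpa [subst, toLt] using hk
    subst this
    exact Der.nil
  | cons z α ih =>
    have hk' : k ∈ subst κ (Sum.map (fun B => (B, 0)) id z :: toLt α) := hk
    rw [mem_subst_cons] at hk'
    obtain ⟨x, hx, y, hy, rfl⟩ := hk'
    have h1 := ih hy
    cases z with
    | inl C =>
      exact (hκ C x hx).append h1
    | inr a =>
      have : x = [Sum.inr a] := by simpa [lets] using hx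
      subst this
      exact Der.ter (Sum.inr a) h1

/-- extend stacks by `s` and unfreeze -/
def ext1 (s : List ℕ) : (ℕ × List ℕ) ⊕ Lt → (ℕ × List ℕ) ⊕ Lt
  | Sum.inl (A, s0) => Sum.inl (A, s0 ++ s)
  | Sum.inr (Sum.inl (C, _)) => Sum.inl (C, s)
  | Sum.inr (Sum.inr a) => Sum.inr (Sum.inr a)

theorem ext_emb_lift (s s0 : List ℕ) (α : List (ℕ ⊕ ℕ)) :
    (emb (lift s0 α)).map (ext1 s) = emb (lift (s0 ++ s) α) := by
  induction α with
  | nil => rfl
  | cons z α ih =>
    cases z with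
    | inl B => simpa [emb, lift, ext1] using ih
    | inr a => simpa [emb, lift, ext1] using ih

theorem subst_derB {G : IGr} {b : Bool} {s : List ℕ} {κ : ℕ → List (List Lt)}
    (hκ : ∀ C, ∀ x ∈ κ C, Der (ExG G b) [Sum.inl (C, s)] x) {n : ℕ}
    {u : List ((ℕ × List ℕ) ⊕ Lt)} {k : List Lt} (h : DerN (ExG G true) n u k) :
    ∀ k' ∈ subst κ k, Der (ExG G b) (u.map (ext1 s)) k' := by
  induction h with
  | nil n =>
    intro k' hk'
    have : k' = [] := by simpa [subst] using hk'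
    subst this
    exact Der.nil
  | @ter n u w z _ ih =>
    intro k' hk'
    rw [mem_subst_cons] at hk'
    obtain ⟨x, hx, y, hy, rfl⟩ := hk'
    have h1 := ih y hy
    rcases z with ⟨C, i⟩ | a
    · exact (hκ C x hx).append h1
    · have : x = [Sum.inr a] := by simpa [lets] using hx
      subst this
      exact Der.ter (Sum.inr a) h1
  | @nt n q x u w1 w2 hx _ _ ih1 ih2 =>
    intro k' hk'
    obtain ⟨k1, h1, k2, h2, rfl⟩ := subst_append hk'
    have d1 := ih1 k1 h1
    have d2 := ih2 k2 h2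
    obtain ⟨A, s0⟩ := q
    have key : Der (ExG G b) [Sum.inl (A, s0 ++ s)] k1 := by
      rcases hx with ⟨v0, hv, rfl⟩ | ⟨_, hs, i, _, rfl⟩
      · have h3 : ∃ v1, Ex G (A, s0 ++ s) v1 ∧ (emb v0).map (ext1 s) = emb v1 := by
          rcases hv with ⟨α, hα, rfl⟩ | ⟨B, f, hB, rfl⟩ | ⟨f, s1, α, hs, hα, rfl⟩
          · exact ⟨_, Or.inl ⟨α, hα, rfl⟩, ext_emb_lift _ _ _⟩
          · exact ⟨_, Or.inr (Or.inl ⟨B, f, hB, rfl⟩), rfl⟩
          · refine ⟨lift (s1 ++ s) α, Or.inr (Or.inr ⟨f, s1 ++ s, α, ?_, hα, rfl⟩),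
              ext_emb_lift _ _ _⟩
            dsimp only at hs ⊢
            rw [hs]; rfl
        obtain ⟨v1, hv1, he⟩ := h3
        have d1' : Der (ExG G b) ((emb v0).map (ext1 s)) k1 := d1
        rw [he] at d1'
        exact Der.single (ExG_of_Ex hv1) d1'
      · dsimp only at hs
        subst hs
        exact d1
    exact key.append d2

/-- symbols on right-hand sides -/
def syms (G : IGr) : List (ℕ ⊕ ℕ) :=
  G.2.1.flatMap (fun r => r.2) ++ G.2.2.2.flatMap (fun r => r.2.2)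

def letSet (G : IGr) : Finset Lt :=
  ((syms G).flatMap (fun x => Sum.elim (fun B => (List.range 8).map (fun i => Sum.inl (B, i)))
    (fun a => [Sum.inr a]) x : ℕ ⊕ ℕ → List Lt)).toFinset

def good (G : IGr) (b : Bool) : (ℕ × List ℕ) ⊕ Lt → Prop
  | Sum.inl (A, s) => b = true → s = [] → Sum.inl A ∈ syms G
  | Sum.inr z => z ∈ letSet G

theorem inr_mem_letSet {G : IGr} {a : ℕ} (h : Sum.inr a ∈ syms G) :
    (Sum.inr a : Lt) ∈ letSet G := by
  rw [letSet, List.mem_toFinset, List.mem_flatMap]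
  exact ⟨_, h, by simp⟩

theorem inl_mem_letSet {G : IGr} {B i : ℕ} (h : Sum.inl B ∈ syms G) (hi : i < 8) :
    (Sum.inl (B, i) : Lt) ∈ letSet G := by
  rw [letSet, List.mem_toFinset, List.mem_flatMap]
  exact ⟨_, h, by simpa using hi⟩

theorem good_emb_lift {G : IGr} {b : Bool} {s : List ℕ} {α : List (ℕ ⊕ ℕ)}
    (hα : ∀ z ∈ α, z ∈ syms G) : ∀ x ∈ emb (lift s α), good G b x := by
  intro x hx
  simp only [emb, lift, List.map_map, List.mem_map] at hx
  obtain ⟨z, hz, rfl⟩ := hx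
  cases z with
  | inl B => intro _ _; exact hα _ hz
  | inr a => exact inr_mem_letSet (hα _ hz)

theorem good_letters {G : IGr} {b : Bool} {n : ℕ} {u : List ((ℕ × List ℕ) ⊕ Lt)} {k : List Lt}
    (h : DerN (ExG G b) n u k) : (∀ x ∈ u, good G b x) → ∀ z ∈ k, z ∈ letSet G := by
  induction h with
  | nil n => intro _ z hz; simp at hz
  | ter a _ ih =>
    intro hu z hz
    rcases List.mem_cons.1 hz with rfl | hz
    · exact hu (Sum.inr z) List.mem_cons_self
    · exact ih (fun x hx => hu x (List.mem_cons_of_mem _ hx)) z hz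
  | @nt n q x u w1 w2 hx _ _ ih1 ih2 =>
    intro hu z hz
    rcases List.mem_append.1 hz with hz | hz
    · refine ih1 ?_ z hz
      rcases hx with ⟨v0, hv, rfl⟩ | ⟨hb, hs, i, hi, rfl⟩
      · rcases hv with ⟨α, hα, rfl⟩ | ⟨B, f, hB, rfl⟩ | ⟨f, s1, α, hs, hα, rfl⟩
        · apply good_emb_lift
          intro z hz
          exact List.mem_append_left _ (List.mem_flatMap.2 ⟨_, hα, hz⟩)
        · intro y hy
          simp only [List.map_cons, List.map_nil, List.mem_singleton] at hy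
          subst hy
          intro _ hs
          simp at hs
        · apply good_emb_lift
          intro z hz
          exact List.mem_append_right _ (List.mem_flatMap.2 ⟨_, hα, hz⟩)
      · intro y hy
        rw [List.mem_singleton] at hy
        subst hy
        exact inl_mem_letSet (hu (Sum.inl q) List.mem_cons_self hb hs) hi
    · exact ih2 (fun x hx => hu x (List.mem_cons_of_mem _ hx)) z hz

theorem KG_letters {G : IGr} {A : ℕ} {t : Option ℕ} : ∀ k ∈ KG G A t, ∀ z ∈ k, z ∈ letSet G := by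
  rintro k ⟨n, h⟩
  refine good_letters h ?_
  intro x hx
  rw [List.mem_singleton] at hx
  subst hx
  intro hb hs
  cases t with
  | none => simp at hb
  | some f => simp at hs

def lhs (G : IGr) : List ℕ :=
  G.2.1.map (fun r => r.1) ++ G.2.2.1.map (fun r => r.1) ++ G.2.2.2.map (fun r => r.1)

theorem KG_empty {G : IGr} {A : ℕ} {t : Option ℕ} (hA : A ∉ lhs G) : KG G A t = ∅ := by
  rw [Set.eq_empty_iff_forall_notMem]
  rintro k ⟨n, h⟩
  obtain ⟨m, x, -, hx, -⟩ := h.single_inv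
  simp only [lhs, List.mem_append, List.mem_map, not_or] at hA
  obtain ⟨⟨h1, h2⟩, h3⟩ := hA
  rcases hx with ⟨v0, hv, rfl⟩ | ⟨hb, hs, _⟩
  · rcases hv with ⟨α, hα, rfl⟩ | ⟨B, f, hB, rfl⟩ | ⟨f, s1, α, hs, hα, rfl⟩
    · exact h1 ⟨_, hα, rfl⟩
    · exact h2 ⟨_, hB, rfl⟩
    · exact h3 ⟨_, hα, rfl⟩
  · cases t with
    | none => simp at hb
    | some f => simp at hs

theorem exists_cert (G : IGr) : ∃ K : ℕ → Option ℕ → List (List Lt),
    Valid G K ∧ (∀ A t, ∀ k ∈ K A t, k ∈ KG G A t) ∧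
    (∀ A t, (A ∈ lhs G ∧ t ∈ tops G) ∨ K A t = []) := by
  classical
  choose K0 h1 h2 using fun (A : ℕ) (t : Option ℕ) =>
    exists_finite_basis (letSet G) (KG G A t) KG_letters
  let K : ℕ → Option ℕ → List (List Lt) := fun A t =>
    if A ∈ lhs G ∧ t ∈ tops G then K0 A t else []
  have hK1 : ∀ A t, ∀ k ∈ K A t, k ∈ KG G A t := by
    intro A t k hk
    simp only [K] at hk
    split_ifs at hk with h
    · exact h1 A t k hk
    · simp at hk
  have hK2 : ∀ A t, t ∈ tops G → ∀ k ∈ KG G A t, InMod (K A t) k := by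
    intro A t ht k hk
    by_cases hA : A ∈ lhs G
    · have : K A t = K0 A t := by simp only [K, if_pos (And.intro hA ht)]
      rw [this]
      exact h2 A t k hk
    · rw [KG_empty hA] at hk
      exact absurd hk (Set.notMem_empty k)
  refine ⟨K, ⟨?_, ?_, ?_⟩, hK1, ?_⟩
  · rintro ⟨A, α⟩ hr t ht k hk
    apply hK2 _ _ ht
    have := subst_derA (G := G) (b := t.isSome) (s := t.toList) (fun C x hx => hK1 C t x hx) α hk
    exact Der.single (ExG_of_Ex (Or.inl ⟨α, hr, rfl⟩)) this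
  · rintro ⟨A, B, f⟩ hr t ht k hk k' hk'
    apply hK2 _ _ ht
    obtain ⟨n, hn⟩ := hK1 _ _ _ hk
    have := subst_derB (G := G) (b := t.isSome) (s := t.toList) (fun C x hx => hK1 C t x hx) hn
      k' hk'
    exact Der.single (ExG_of_Ex (Or.inr (Or.inl ⟨B, f, hr, rfl⟩))) this
  · rintro ⟨A, f, α⟩ hr k hk
    have hf : some f ∈ tops G := by
      simp only [tops, List.mem_cons, List.mem_append, List.mem_map]
      right; right
      exact ⟨_, hr, rfl⟩
    apply hK2 _ _ hf
    have := subst_derA (G := G) (b := true) (s := []) (κ := fro) (fun C x hx => by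
      simp only [fro, List.mem_map, List.mem_range] at hx
      obtain ⟨i, hi, rfl⟩ := hx
      exact Der.single (Or.inr ⟨rfl, rfl, i, hi, rfl⟩) (Der.of_ters [Sum.inl (C, i)])) α hk
    exact Der.single (ExG_of_Ex (Or.inr (Or.inr ⟨f, [], α, rfl, hr, rfl⟩))) this
  · intro A t
    by_cases h : A ∈ lhs G ∧ t ∈ tops G
    · exact Or.inl h
    · right; simp only [K, if_neg h]

end Pool.Agent.Helper230
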