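import Pool.Agent.Helper230.IdxMain

namespace Pool.Agent.Helper230

abbrev Sf := List ((ℕ × List ℕ) ⊕ ℕ)

theorem prim_lift : Primrec₂ lift := by
  refine Primrec.list_map (f := fun p : List ℕ × List (ℕ ⊕ ℕ) => p.2)
    (g := fun p z => Sum.map (fun B => (B, p.1)) id z) Primrec.snd ?_
  refine (Primrec.sumCasesOn (f := fun p : (List ℕ × List (ℕ ⊕ ℕ)) × (ℕ ⊕ ℕ) => p.2)
    (g := fun p B => (Sum.inl (B, p.1.1) : (ℕ × List ℕ) ⊕ ℕ))
    (h := fun _ a => (Sum.inr a : (ℕ × List ℕ) ⊕ ℕ)) Primrec.snd ?_ ?_).of_eq ?_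
  · exact Primrec.sumInl.comp (Primrec.pair Primrec.snd
      (Primrec.fst.comp (Primrec.fst.comp Primrec.fst)))
  · exact Primrec.sumInr.comp Primrec.snd
  · rintro ⟨p, z⟩
    cases z <;> rfl

section irr
attribute [local irreducible] S1 Primrec lift

theorem s1_Ex1 : S1 fun p : IGr × (ℕ × List ℕ) × Sf =>
    ∃ α, (p.2.1.1, α) ∈ p.1.2.1 ∧ p.2.2 = lift p.2.1.2 α := by
  refine S1.exists (q := fun (p : IGr × (ℕ × List ℕ) × Sf) (α : List (ℕ ⊕ ℕ)) =>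
    (p.2.1.1, α) ∈ p.1.2.1 ∧ p.2.2 = lift p.2.1.2 α) ?_
  refine S1.and (S1.of_prim ?_) (S1.of_prim ?_)
  · exact prim_mem.comp (f := fun x : (IGr × (ℕ × List ℕ) × Sf) × List (ℕ ⊕ ℕ) =>
      (x.1.2.1.1, x.2)) (g := fun x => x.1.1.2.1)
      (Primrec.pair (Primrec.fst.comp (Primrec.fst.comp (Primrec.snd.comp Primrec.fst)))
        Primrec.snd)
      (Primrec.fst.comp (Primrec.snd.comp (Primrec.fst.comp Primrec.fst)))
  · exact PrimrecRel.comp Primrec.eq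
      (f := fun x : (IGr × (ℕ × List ℕ) × Sf) × List (ℕ ⊕ ℕ) => x.1.2.2)
      (g := fun x => lift x.1.2.1.2 x.2)
      (Primrec.snd.comp (Primrec.snd.comp Primrec.fst))
      (prim_lift.comp (Primrec.snd.comp (Primrec.fst.comp (Primrec.snd.comp Primrec.fst)))
        Primrec.snd)

theorem s1_Ex2 : S1 fun p : IGr × (ℕ × List ℕ) × Sf =>
    ∃ B f, (p.2.1.1, B, f) ∈ p.1.2.2.1 ∧ p.2.2 = [Sum.inl (B, f :: p.2.1.2)] := by
  have h : S1 fun p : IGr × (ℕ × List ℕ) × Sf => ∃ y : ℕ × ℕ,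
      (p.2.1.1, y.1, y.2) ∈ p.1.2.2.1 ∧ p.2.2 = [Sum.inl (y.1, y.2 :: p.2.1.2)] := by
    refine S1.exists (q := fun (p : IGr × (ℕ × List ℕ) × Sf) (y : ℕ × ℕ) =>
      (p.2.1.1, y.1, y.2) ∈ p.1.2.2.1 ∧ p.2.2 = [Sum.inl (y.1, y.2 :: p.2.1.2)]) ?_
    refine S1.and (S1.of_prim ?_) (S1.of_prim ?_)
    · exact prim_mem.comp (f := fun x : (IGr × (ℕ × List ℕ) × Sf) × (ℕ × ℕ) =>
        (x.1.2.1.1, x.2.1, x.2.2)) (g := fun x => x.1.1.2.2.1)
        (Primrec.pair (Primrec.fst.comp (Primrec.fst.comp (Primrec.snd.comp Primrec.fst)))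
          (Primrec.pair (Primrec.fst.comp Primrec.snd) (Primrec.snd.comp Primrec.snd)))
        (Primrec.fst.comp (Primrec.snd.comp (Primrec.snd.comp (Primrec.fst.comp Primrec.fst))))
    · exact PrimrecRel.comp Primrec.eq
        (f := fun x : (IGr × (ℕ × List ℕ) × Sf) × (ℕ × ℕ) => x.1.2.2)
        (g := fun x => [Sum.inl (x.2.1, x.2.2 :: x.1.2.1.2)])
        (Primrec.snd.comp (Primrec.snd.comp Primrec.fst))
        (Primrec.list_cons.comp (Primrec.sumInl.comp (Primrec.pair (Primrec.fst.comp Primrec.snd)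
          (Primrec.list_cons.comp (Primrec.snd.comp Primrec.snd)
            (Primrec.snd.comp (Primrec.fst.comp (Primrec.snd.comp Primrec.fst))))))
          (Primrec.const []))
  refine h.of_eq ?_
  intro p
  constructor
  · rintro ⟨y, h1, h2⟩; exact ⟨y.1, y.2, h1, h2⟩
  · rintro ⟨B, f, h1, h2⟩; exact ⟨(B, f), h1, h2⟩

theorem s1_Ex3 : S1 fun p : IGr × (ℕ × List ℕ) × Sf =>
    ∃ f s α, p.2.1.2 = f :: s ∧ (p.2.1.1, f, α) ∈ p.1.2.2.2 ∧ p.2.2 = lift s α := by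
  have h : S1 fun p : IGr × (ℕ × List ℕ) × Sf => ∃ y : ℕ × List ℕ × List (ℕ ⊕ ℕ),
      p.2.1.2 = y.1 :: y.2.1 ∧
      ((p.2.1.1, y.1, y.2.2) ∈ p.1.2.2.2 ∧ p.2.2 = lift y.2.1 y.2.2) := by
    refine S1.exists (q := fun (p : IGr × (ℕ × List ℕ) × Sf)
      (y : ℕ × List ℕ × List (ℕ ⊕ ℕ)) => p.2.1.2 = y.1 :: y.2.1 ∧
      ((p.2.1.1, y.1, y.2.2) ∈ p.1.2.2.2 ∧ p.2.2 = lift y.2.1 y.2.2)) ?_
    refine S1.and (S1.of_prim ?_) (S1.and (S1.of_prim ?_) (S1.of_prim ?_))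
    · exact PrimrecRel.comp Primrec.eq
        (f := fun x : (IGr × (ℕ × List ℕ) × Sf) × (ℕ × List ℕ × List (ℕ ⊕ ℕ)) => x.1.2.1.2)
        (g := fun x => x.2.1 :: x.2.2.1)
        (Primrec.snd.comp (Primrec.fst.comp (Primrec.snd.comp Primrec.fst)))
        (Primrec.list_cons.comp (Primrec.fst.comp Primrec.snd)
          (Primrec.fst.comp (Primrec.snd.comp Primrec.snd)))
    · exact prim_mem.comp
        (f := fun x : (IGr × (ℕ × List ℕ) × Sf) × (ℕ × List ℕ × List (ℕ ⊕ ℕ)) =>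
        (x.1.2.1.1, x.2.1, x.2.2.2)) (g := fun x => x.1.1.2.2.2)
        (Primrec.pair (Primrec.fst.comp (Primrec.fst.comp (Primrec.snd.comp Primrec.fst)))
          (Primrec.pair (Primrec.fst.comp Primrec.snd)
            (Primrec.snd.comp (Primrec.snd.comp Primrec.snd))))
        (Primrec.snd.comp (Primrec.snd.comp (Primrec.snd.comp (Primrec.fst.comp Primrec.fst))))
    · exact PrimrecRel.comp Primrec.eq
        (f := fun x : (IGr × (ℕ × List ℕ) × Sf) × (ℕ × List ℕ × List (ℕ ⊕ ℕ)) => x.1.2.2)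
        (g := fun x => lift x.2.2.1 x.2.2.2)
        (Primrec.snd.comp (Primrec.snd.comp Primrec.fst))
        (prim_lift.comp (Primrec.fst.comp (Primrec.snd.comp Primrec.snd))
          (Primrec.snd.comp (Primrec.snd.comp Primrec.snd)))
  refine h.of_eq ?_
  intro p
  constructor
  · rintro ⟨y, h1, h2, h3⟩; exact ⟨y.1, y.2.1, y.2.2, h1, h2, h3⟩
  · rintro ⟨f, s, α, h1, h2, h3⟩; exact ⟨(f, s, α), h1, h2, h3⟩

theorem s1_Ex : S1 fun p : IGr × (ℕ × List ℕ) × Sf => Ex p.1 p.2.1 p.2.2 :=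
  S1.or s1_Ex1 (S1.or s1_Ex2 s1_Ex3)

theorem s1_Step : S1 fun p : IGr × Sf × Sf => Step (Ex p.1) p.2.1 p.2.2 := by
  have h : S1 fun p : IGr × Sf × Sf => ∃ y : (Sf × Sf) × (ℕ × List ℕ) × Sf,
      p.2.1 = y.1.1 ++ Sum.inl y.2.1 :: y.1.2 ∧
      (Ex p.1 y.2.1 y.2.2 ∧ p.2.2 = y.1.1 ++ y.2.2 ++ y.1.2) := by
    refine S1.exists (q := fun (p : IGr × Sf × Sf) (y : (Sf × Sf) × (ℕ × List ℕ) × Sf) =>
      p.2.1 = y.1.1 ++ Sum.inl y.2.1 :: y.1.2 ∧
      (Ex p.1 y.2.1 y.2.2 ∧ p.2.2 = y.1.1 ++ y.2.2 ++ y.1.2)) ?_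
    have y11 : Primrec fun x : (IGr × Sf × Sf) × ((Sf × Sf) × (ℕ × List ℕ) × Sf) => x.2.1.1 :=
      Primrec.fst.comp (Primrec.fst.comp Primrec.snd)
    have y12 : Primrec fun x : (IGr × Sf × Sf) × ((Sf × Sf) × (ℕ × List ℕ) × Sf) => x.2.1.2 :=
      Primrec.snd.comp (Primrec.fst.comp Primrec.snd)
    have y21 : Primrec fun x : (IGr × Sf × Sf) × ((Sf × Sf) × (ℕ × List ℕ) × Sf) => x.2.2.1 :=
      Primrec.fst.comp (Primrec.snd.comp Primrec.snd)
    have y22 : Primrec fun x : (IGr × Sf × Sf) × ((Sf × Sf) × (ℕ × List ℕ) × Sf) => x.2.2.2 :=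
      Primrec.snd.comp (Primrec.snd.comp Primrec.snd)
    refine S1.and (S1.of_prim ?_) (S1.and ?_ (S1.of_prim ?_))
    · exact PrimrecRel.comp Primrec.eq
        (f := fun x : (IGr × Sf × Sf) × ((Sf × Sf) × (ℕ × List ℕ) × Sf) => x.1.2.1)
        (g := fun x => x.2.1.1 ++ Sum.inl x.2.2.1 :: x.2.1.2)
        (Primrec.fst.comp (Primrec.snd.comp Primrec.fst))
        (Primrec.list_append.comp y11 (Primrec.list_cons.comp (Primrec.sumInl.comp y21) y12))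
    · exact s1_Ex.comp
        (f := fun x : (IGr × Sf × Sf) × ((Sf × Sf) × (ℕ × List ℕ) × Sf) =>
          (x.1.1, x.2.2.1, x.2.2.2))
        (Primrec.pair (Primrec.fst.comp Primrec.fst) (Primrec.pair y21 y22))
    · exact PrimrecRel.comp Primrec.eq
        (f := fun x : (IGr × Sf × Sf) × ((Sf × Sf) × (ℕ × List ℕ) × Sf) => x.1.2.2)
        (g := fun x => x.2.1.1 ++ x.2.2.2 ++ x.2.1.2)
        (Primrec.snd.comp (Primrec.snd.comp Primrec.fst))
        (Primrec.list_append.comp (Primrec.list_append.comp y11 y22) y12)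
  refine h.of_eq ?_
  intro p
  constructor
  · rintro ⟨y, h1, h2, h3⟩; exact ⟨y.1.1, y.1.2, y.2.1, y.2.2, h1, h2, h3⟩
  · rintro ⟨pre, suf, q, x, h1, h2, h3⟩; exact ⟨((pre, suf), q, x), h1, h2, h3⟩

theorem s1_Lang : S1 fun p : IGr × List ℕ => p.2 ∈ Lang p.1 := by
  have h := S1.reflTransGen (R := fun G : IGr => Step (Ex G)) s1_Step
  have h2 : S1 fun p : IGr × List ℕ => Relation.ReflTransGen (Step (Ex p.1))
      ([Sum.inl (p.1.1, [])] : Sf) (p.2.map Sum.inr) := by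
    refine h.comp (f := fun p : IGr × List ℕ =>
      (p.1, ([Sum.inl (p.1.1, [])] : Sf), (p.2.map Sum.inr : Sf))) ?_
    refine Primrec.pair Primrec.fst (Primrec.pair ?_ ?_)
    · exact Primrec.list_cons.comp (Primrec.sumInl.comp (Primrec.pair
        (Primrec.fst.comp Primrec.fst) (Primrec.const []))) (Primrec.const [])
    · exact Primrec.list_map (f := fun p : IGr × List ℕ => p.2)
        (g := fun _ a => (Sum.inr a : (ℕ × List ℕ) ⊕ ℕ)) Primrec.snd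
        (Primrec.sumInr.comp Primrec.snd)
  refine h2.of_eq ?_
  intro p
  exact rtg_iff_Der _ _

end irr

end Pool.Agent.Helper230
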