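import Pool.Agent.Helper230.IdxPrim

namespace Pool.Agent.Helper230

/-- the language of an indexed grammar (big-step form) -/
def Lang (G : IGr) : Set (List ℕ) := {w | Der (Ex G) [Sum.inl (G.1, [])] w}

theorem DerG_false {G : IGr} {n : ℕ} {U : List ((ℕ × List ℕ) ⊕ Lt)} {k : List Lt}
    (h : DerN (ExG G false) n U k) :
    ∀ u, U = emb u → ∃ w : List ℕ, k = w.map Sum.inr ∧ DerN (Ex G) n u w := by
  induction h with
  | nil n =>
    intro u hu
    cases u with
    | nil => exact ⟨[], rfl, DerN.nil _⟩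
    | cons a u => simp [emb] at hu
  | @ter n U k z _ ih =>
    intro u hu
    cases u with
    | nil => simp [emb] at hu
    | cons a u =>
      simp only [emb, List.map_cons, List.cons.injEq] at hu
      obtain ⟨h1, h2⟩ := hu
      obtain ⟨w, rfl, hw⟩ := ih u h2
      cases a with
      | inl q => simp at h1
      | inr a =>
        simp only [Sum.map_inr, Sum.inr.injEq] at h1
        subst h1
        exact ⟨a :: w, rfl, DerN.ter a hw⟩
  | @nt n q x U w1 w2 hx _ _ ih1 ih2 =>
    intro u hu
    cases u with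
    | nil => simp [emb] at hu
    | cons a u =>
      simp only [emb, List.map_cons, List.cons.injEq] at hu
      obtain ⟨h1, h2⟩ := hu
      cases a with
      | inr a => simp at h1
      | inl q' =>
        simp only [Sum.map_inl, id_eq, Sum.inl.injEq] at h1
        subst h1
        rcases hx with ⟨v0, hv, rfl⟩ | ⟨hb, _⟩
        · obtain ⟨w1', rfl, hw1⟩ := ih1 v0 rfl
          obtain ⟨w2', rfl, hw2⟩ := ih2 u h2
          exact ⟨w1' ++ w2', by simp, DerN.nt hv hw1 hw2⟩
        · simp at hb

theorem KG_none {G : IGr} {A : ℕ} {k : List Lt} (h : k ∈ KG G A none) :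
    ∃ w : List ℕ, k = w.map Sum.inr ∧ Der (Ex G) [Sum.inl (A, [])] w := by
  obtain ⟨n, h⟩ := h
  obtain ⟨w, hk, hw⟩ := DerG_false h [Sum.inl (A, [])] rfl
  exact ⟨w, hk, n, hw⟩

/-! a faithful representation of words -/

def MB {Δ : Type} (B : ℕ) (c : Δ → ℕ) (x : List Δ) : Matrix (Fin 2) (Fin 2) ℚ :=
  (x.map (fun d => !![(B : ℚ), (c d : ℚ); 0, 1])).prod

theorem MB_append {Δ : Type} (B : ℕ) (c : Δ → ℕ) (x y : List Δ) :
    MB B c (x ++ y) = MB B c x * MB B c y := by
  simp [MB]

theorem MB_eq {Δ : Type} (B : ℕ) (c : Δ → ℕ) (x : List Δ) :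
    MB B c x = !![((B ^ x.length : ℕ) : ℚ), ((Nat.ofDigits B (x.map c) : ℕ) : ℚ); 0, 1] := by
  induction x with
  | nil => simp [MB, Matrix.one_fin_two]
  | cons d x ih =>
    have : MB B c (d :: x) = !![(B : ℚ), (c d : ℚ); 0, 1] * MB B c x := by simp [MB]
    rw [this, ih, List.map_cons, Nat.ofDigits_cons]
    ext i j
    fin_cases i <;> fin_cases j <;> simp [Matrix.mul_apply, Fin.sum_univ_two, pow_succ] <;> ring

theorem map_inj_of_mem {Δ : Type} (W : List Δ) (c : Δ → ℕ)
    (hc : ∀ d ∈ W, ∀ d' ∈ W, c d = c d' → d = d') :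
    ∀ x y : List Δ, (∀ d ∈ x, d ∈ W) → (∀ d ∈ y, d ∈ W) → x.map c = y.map c → x = y := by
  intro x
  induction x with
  | nil =>
    intro y _ _ h
    cases y with
    | nil => rfl
    | cons d y => simp at h
  | cons a x ih =>
    intro y hx hy h
    cases y with
    | nil => simp at h
    | cons d y =>
      simp only [List.map_cons, List.cons.injEq] at h
      rw [hc a (hx a List.mem_cons_self) d (hy d List.mem_cons_self) h.1,
        ih y (fun e he => hx e (List.mem_cons_of_mem _ he))
          (fun e he => hy e (List.mem_cons_of_mem _ he)) h.2]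

theorem MB_inj {Δ : Type} (B : ℕ) (c : Δ → ℕ) (x y : List Δ) (hB : 1 < B)
    (hc : ∀ d ∈ x ++ y, ∀ d' ∈ x ++ y, c d = c d' → d = d')
    (hlt : ∀ d ∈ x ++ y, c d < B) (h : MB B c x = MB B c y) : x = y := by
  rw [MB_eq, MB_eq] at h
  have h1 := congrFun (congrFun h 0) 0
  have h2 := congrFun (congrFun h 0) 1
  simp only [Matrix.of_apply, Matrix.cons_val', Matrix.cons_val_zero, Matrix.cons_val_one] at h1 h2
  have h1' : B ^ x.length = B ^ y.length := by exact_mod_cast h1
  have hlen : x.length = y.length := Nat.pow_right_injective hB h1'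
  have h2' : Nat.ofDigits B (x.map c) = Nat.ofDigits B (y.map c) := by exact_mod_cast h2
  have h3 : x.map c = y.map c := by
    refine Nat.ofDigits_inj_of_len_eq hB (by simp [hlen]) ?_ ?_ h2'
    · intro d hd
      rw [List.mem_map] at hd
      obtain ⟨e, he, rfl⟩ := hd
      exact hlt e (List.mem_append_left _ he)
    · intro d hd
      rw [List.mem_map] at hd
      obtain ⟨e, he, rfl⟩ := hd
      exact hlt e (List.mem_append_right _ he)
  exact map_inj_of_mem (x ++ y) c hc x y (fun d hd => List.mem_append_left _ hd)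
    (fun d hd => List.mem_append_right _ hd) h3

/-- soundness of certificates: the words of the certificate at the start symbol form a test set -/
theorem test_sound {G : IGr} {K : ℕ → Option ℕ → List (List Lt)} (hV : Valid G K)
    {F : List (List ℕ)} (hF : K G.1 none = F.map (fun w => w.map Sum.inr)) {Δ : Type}
    (h g : ℕ → List Δ) (hfg : ∀ w ∈ F, w.flatMap h = w.flatMap g) :
    ∀ w ∈ Lang G, w.flatMap h = w.flatMap g := by
  classical
  rintro w ⟨n, hw⟩
  let W : List Δ := w.flatMap h ++ w.flatMap g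
  let c : Δ → ℕ := fun d => W.idxOf d
  let B : ℕ := W.length + 2
  let M : List Δ → Matrix (Fin 2) (Fin 2) ℚ := MB B c
  let v : Vr → ℚ := fun x => Sum.elim (fun _ => 0) (fun a => entV x.2 (M (h a), M (g a))) x.1
  have hgen : ∀ a : ℕ, gen v (Sum.inr a) = (M (h a), M (g a)) := fun a =>
    gm_of_ents _ _ _ (fun e _ => rfl)
  have hrho : ∀ u : List ℕ, rho v (u.map Sum.inr) = (M (u.flatMap h), M (u.flatMap g)) := by
    intro u
    induction u with
    | nil => simp [M, MB]; rfl
    | cons a u ih =>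
      rw [List.map_cons, rho_cons, ih, hgen, List.flatMap_cons, List.flatMap_cons]
      simp only [M, MB_append, Prod.mk_mul_mk]
  let D : Submodule ℚ (A2 ℚ) := LinearMap.ker
    (LinearMap.fst ℚ (Matrix (Fin 2) (Fin 2) ℚ) (Matrix (Fin 2) (Fin 2) ℚ)
      - LinearMap.snd ℚ (Matrix (Fin 2) (Fin 2) ℚ) (Matrix (Fin 2) (Fin 2) ℚ))
  have hD : ∀ p : A2 ℚ, p ∈ D ↔ p.1 = p.2 := by
    intro p
    simp only [D, LinearMap.mem_ker, LinearMap.sub_apply, LinearMap.fst_apply,
      LinearMap.snd_apply, sub_eq_zero]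
  have hle : Sp v (K G.1 none) ≤ D := by
    rw [Sp, Submodule.span_le]
    rintro _ ⟨x, hx, rfl⟩
    rw [Set.mem_ofPred_eq, hF, List.mem_map] at hx
    obtain ⟨u, hu, rfl⟩ := hx
    rw [SetLike.mem_coe, hD, hrho, hfg u hu]
  have hmem := sound hV n none [] v (by simp [tops]) (fun _ => rfl) (fun hne => absurd rfl hne)
    G.1 w hw
  have h2 := (hD _).1 (hle hmem)
  rw [hrho] at h2
  dsimp only at h2
  refine MB_inj B c _ _ (by simp [B]) ?_ ?_ h2
  · intro d hd d' _ hdd
    exact (List.idxOf_inj hd).1 hdd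
  · intro d hd
    have : W.idxOf d < W.length := List.idxOf_lt_length_iff.2 hd
    simp only [c, B]; omega

theorem exists_test {G : IGr} : ∃ (C : Cert) (F : List (List ℕ)), ValidC G C ∧
    KC C G.1 none = F.map (fun w => w.map Sum.inr) ∧ ∀ w ∈ F, w ∈ Lang G := by
  classical
  obtain ⟨C, hC, hK⟩ := exists_certC G
  have h1 : ∀ k ∈ KC C G.1 none, ∃ w : List ℕ, k = w.map Sum.inr ∧ w ∈ Lang G := by
    intro k hk
    exact KG_none (hK _ _ k hk)
  have h2 : ∀ L : List (List Lt), (∀ k ∈ L, ∃ w : List ℕ, k = w.map Sum.inr ∧ w ∈ Lang G) →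
      ∃ F : List (List ℕ), L = F.map (fun w => w.map Sum.inr) ∧ ∀ w ∈ F, w ∈ Lang G := by
    intro L
    induction L with
    | nil => intro _; exact ⟨[], rfl, by simp⟩
    | cons k L ih =>
      intro h
      obtain ⟨w, hw, hwL⟩ := h k List.mem_cons_self
      obtain ⟨F, hF, hFL⟩ := ih (fun k hk => h k (List.mem_cons_of_mem _ hk))
      refine ⟨w :: F, by rw [List.map_cons, hF, hw], ?_⟩
      intro w' hw'
      rcases List.mem_cons.1 hw' with rfl | hw'
      · exact hwL
      · exact hFL w' hw'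
  obtain ⟨F, hF, hFL⟩ := h2 _ h1
  exact ⟨C, F, hC, hF, hFL⟩

/-- the certificate relation is semi-decidable -/
theorem s1_certF : S1 fun p : IGr × Cert × List (List ℕ) => ValidC p.1 p.2.1 ∧
    KC p.2.1 p.1.1 none = p.2.2.map (fun w => w.map Sum.inr) := by
  refine S1.and ?_ (S1.of_prim ?_)
  · exact s1_ValidC.comp (f := fun p : IGr × Cert × List (List ℕ) => (p.1, p.2.1))
      (Primrec.pair Primrec.fst (Primrec.fst.comp Primrec.snd))
  · refine PrimrecRel.comp Primrec.eq ?_ ?_
    · exact prim_KC.comp (Primrec.pair (Primrec.fst.comp Primrec.snd)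
        (Primrec.pair (Primrec.fst.comp Primrec.fst) (Primrec.const none)))
    · refine Primrec.list_map (Primrec.snd.comp Primrec.snd) ?_
      refine Primrec.list_map (f := fun q : (IGr × Cert × List (List ℕ)) × List ℕ => q.2)
        (g := fun _ a => (Sum.inr a : Lt)) Primrec.snd ?_
      exact Primrec.sumInr.comp Primrec.snd

end Pool.Agent.Helper230
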