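import Pool.Agent.Helper230.IdxAlg

namespace Pool.Agent.Helper230

open MvPolynomial

theorem pval_map {k l : Type} [CommRing k] [CommRing l] (φ : k →+* l) (v : Vr → k) (P : PL) :
    pval (fun x => φ (v x)) P = φ (pval v P) := by
  have h1 : ∀ m, mono (fun x => φ (v x)) m = φ (mono v m) := by
    intro m
    induction m with
    | nil => simp
    | cons x m ih => rw [mono_cons, ih, mono_cons, map_mul]
  induction P with
  | nil => simp
  | cons m P ih => rw [pval_cons, ih, h1, pval_cons, map_add]

theorem entV_rho_map {k l : Type} [CommRing k] [CommRing l] (φ : k →+* l) (v : Vr → k) (e : ℕ)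
    (u : List Lt) : entV e (rho (fun x => φ (v x)) u) = φ (entV e (rho v u)) := by
  rw [← entP_val, ← entP_val, pval_map]

theorem rho_congr {k : Type} [CommRing k] (v v' : Vr → k) (u : List Lt)
    (h : ∀ z ∈ u, ∀ i < 8, v (z, i) = v' (z, i)) : rho v u = rho v' u := by
  unfold rho
  congr 1
  apply List.map_congr_left
  intro z hz
  have h0 := h z hz
  simp only [gen, gm, Nat.zero_add]
  rw [h0 0 (by norm_num), h0 1 (by norm_num), h0 2 (by norm_num), h0 3 (by norm_num),
    h0 4 (by norm_num), h0 (4+1) (by norm_num), h0 (4+2) (by norm_num), h0 (4+3) (by norm_num)]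

theorem exists_PL (p : MvPolynomial Vr ℤ) :
    ∃ a b : PL, p = pval (fun x => (X x : MvPolynomial Vr ℤ)) b - pval (fun x => X x) a := by
  induction p using MvPolynomial.induction_on with
  | C n =>
    refine ⟨List.replicate (-n).toNat [], List.replicate n.toNat [], ?_⟩
    have h : ∀ m : ℕ, pval (fun x => (X x : MvPolynomial Vr ℤ)) (List.replicate m []) = (m : MvPolynomial Vr ℤ) := by
      intro m
      induction m with
      | zero => simp
      | succ m ih => rw [List.replicate_succ, pval_cons, ih]; simp; ring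
    rw [h, h]
    have h2 : n = (n.toNat : ℤ) - ((-n).toNat : ℤ) := by omega
    have h3 : (C n : MvPolynomial Vr ℤ) = C ((n.toNat : ℤ) - ((-n).toNat : ℤ)) := by rw [← h2]
    rw [h3, map_sub, map_natCast, map_natCast]
  | add p q hp hq =>
    obtain ⟨a, b, rfl⟩ := hp
    obtain ⟨a', b', rfl⟩ := hq
    exact ⟨a ++ a', b ++ b', by rw [pval_append, pval_append]; ring⟩
  | mul_X p x hp =>
    obtain ⟨a, b, rfl⟩ := hp
    exact ⟨mulx a x, mulx b x, by rw [pval_mulx, pval_mulx]; ring⟩

theorem entV_sum {k : Type} [CommRing k] {ι : Type} (e : ℕ) (s : Finset ι) (f : ι → A2 k) :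
    entV e (∑ i ∈ s, f i) = ∑ i ∈ s, entV e (f i) := by
  classical
  induction s using Finset.induction_on with
  | empty => simp
  | insert i s hi ih => rw [Finset.sum_insert hi, Finset.sum_insert hi, entV_add, ih]

theorem exists_finite_basis (S : Finset Lt) (Kg : Set (List Lt))
    (hS : ∀ w ∈ Kg, ∀ z ∈ w, z ∈ S) :
    ∃ K0 : List (List Lt), (∀ w ∈ K0, w ∈ Kg) ∧ ∀ w ∈ Kg, InMod K0 w := by
  classical
  let V : Finset Vr := S ×ˢ Finset.range 8
  let R := MvPolynomial V ℤ
  let vS : Vr → R := fun x => if h : x ∈ V then X ⟨x, h⟩ else 0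
  have hfg : (Submodule.span R (rho vS '' Kg)).FG := by
    have : IsNoetherian R (A2 R) := inferInstance
    exact IsNoetherian.noetherian _
  rw [Submodule.fg_span_iff_fg_span_finset_subset] at hfg
  obtain ⟨s', hs', hspan⟩ := hfg
  rw [Finset.subset_set_image_iff] at hs'
  obtain ⟨t', ht', rfl⟩ := hs'
  refine ⟨t'.toList, fun w hw => ht' (by simpa using hw), ?_⟩
  intro w hw
  have h1 : rho vS w ∈ Submodule.span R (rho vS '' (t' : Set (List Lt))) := by
    have : rho vS w ∈ Submodule.span R (rho vS '' Kg) := Submodule.subset_span ⟨w, hw, rfl⟩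
    rw [hspan, Finset.coe_image] at this
    exact this
  rw [Submodule.mem_span_image_finset_iff_exists_fun'] at h1
  obtain ⟨c, hc⟩ := h1
  let φ : R →+* MvPolynomial Vr ℤ := (rename (Subtype.val : V → Vr)).toRingHom
  have hφ : ∀ u : List Lt, (∀ z ∈ u, z ∈ S) →
      ∀ e, φ (entV e (rho vS u)) = entV e (rho (fun x => (X x : MvPolynomial Vr ℤ)) u) := by
    intro u hu e
    rw [← entV_rho_map]
    congr 1
    apply rho_congr
    intro z hz i hi
    have hm : ((z, i) : Vr) ∈ V := by
      simp only [V, Finset.mem_product, Finset.mem_range]; exact ⟨hu z hz, hi⟩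
    simp only [vS, dif_pos hm, φ]
    exact rename_X _ _
  have hch : ∀ i : List Lt, ∃ ab : PL × PL, φ (c i)
      = pval (fun x => (X x : MvPolynomial Vr ℤ)) ab.2 - pval (fun x => X x) ab.1 := by
    intro i
    obtain ⟨a, b, h⟩ := exists_PL (φ (c i))
    exact ⟨(a, b), h⟩
  choose ab hab using hch
  refine ⟨t'.toList.map (fun i => (i, (ab i).1, (ab i).2)), ?_, ?_⟩
  · intro x hx
    rw [List.mem_map] at hx
    obtain ⟨i, hi, rfl⟩ := hx
    exact hi
  · intro e _
    rw [polyEq_iff, pval_append, pval_flatMap, pval_flatMap, List.map_map, List.map_map]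
    have h2 := congrArg (fun M => φ (entV e M)) hc
    simp only [entV_sum, map_sum] at h2
    rw [hφ w (hS w hw)] at h2
    have h3 : ∀ i ∈ t', φ (entV e (c i • rho vS i))
        = pval (fun x => (X x : MvPolynomial Vr ℤ)) (pmul (ab i).2 (entP e i))
          - pval (fun x => (X x : MvPolynomial Vr ℤ)) (pmul (ab i).1 (entP e i)) := by
      intro i hi
      rw [entV_smul, map_mul, hφ i (hS i (ht' hi)), hab, pval_pmul, pval_pmul, entP_val]; ring
    rw [Finset.sum_congr rfl h3, Finset.sum_sub_distrib] at h2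
    rw [entP_val, ← h2]
    have h4 : ∀ f : List Lt → MvPolynomial Vr ℤ, (t'.toList.map f).sum = ∑ i ∈ t', f i :=
      fun f => by rw [Finset.sum_map_toList]
    simp only [Function.comp_def]
    rw [h4, h4]; ring

end Pool.Agent.Helper230
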