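import Pool.Agent.Helper230.IdxCert
import Pool.Agent.Helper230.S1

namespace Pool.Agent.Helper230

theorem prim_mulx : Primrec₂ mulx :=
  Primrec.list_map (f := fun p : PL × Vr => p.1) (g := fun p m => p.2 :: m) Primrec.fst
    (Primrec.list_cons.comp (Primrec.snd.comp Primrec.fst) Primrec.snd)

theorem prim_pmul : Primrec₂ pmul :=
  Primrec.list_flatMap (f := fun p : PL × PL => p.1)
    (g := fun p m => p.2.map (fun m' => m ++ m')) Primrec.fst
    (Primrec.list_map (f := fun q : (PL × PL) × List Vr => q.1.2)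
      (g := fun q m' => q.2 ++ m') (Primrec.snd.comp Primrec.fst)
      (Primrec.list_append.comp (Primrec.snd.comp Primrec.fst) Primrec.snd))

theorem prim_stepM (o : ℕ) : Primrec₂ (stepM o) := by
  have hz : ∀ i : ℕ, Primrec fun p : M4 × Lt => ((p.2, i) : Vr) := fun i =>
    Primrec.pair Primrec.snd (Primrec.const i)
  have c1 : Primrec fun p : M4 × Lt => p.1.1 := Primrec.fst.comp Primrec.fst
  have c2 : Primrec fun p : M4 × Lt => p.1.2.1 := Primrec.fst.comp (Primrec.snd.comp Primrec.fst)
  have c3 : Primrec fun p : M4 × Lt => p.1.2.2.1 :=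
    Primrec.fst.comp (Primrec.snd.comp (Primrec.snd.comp Primrec.fst))
  have c4 : Primrec fun p : M4 × Lt => p.1.2.2.2 :=
    Primrec.snd.comp (Primrec.snd.comp (Primrec.snd.comp Primrec.fst))
  have e : ∀ (f g : M4 × Lt → PL) (i j : ℕ), Primrec f → Primrec g →
      Primrec fun p : M4 × Lt => mulx (f p) (p.2, i) ++ mulx (g p) (p.2, j) := by
    intro f g i j hf hg
    exact Primrec.list_append.comp (prim_mulx.comp hf (hz i)) (prim_mulx.comp hg (hz j))
  exact Primrec.pair (e _ _ o (o + 2) c1 c2) (Primrec.pair (e _ _ (o + 1) (o + 3) c1 c2)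
    (Primrec.pair (e _ _ o (o + 2) c3 c4) (e _ _ (o + 1) (o + 3) c3 c4)))

theorem prim_ent (o : ℕ) : Primrec (ent o) :=
  Primrec.list_foldl (f := fun w : List Lt => w) (g := fun _ => (([[]], [], [], [[]]) : M4))
    (h := fun _ y => stepM o y.1 y.2) Primrec.id (Primrec.const _)
    ((prim_stepM o).comp (Primrec.fst.comp Primrec.snd) (Primrec.snd.comp Primrec.snd))

theorem prim_ents : Primrec ents := by
  have a1 : ∀ o, Primrec fun w => (ent o w).1 := fun o => Primrec.fst.comp (prim_ent o)
  have a2 : ∀ o, Primrec fun w => (ent o w).2.1 := fun o =>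
    Primrec.fst.comp (Primrec.snd.comp (prim_ent o))
  have a3 : ∀ o, Primrec fun w => (ent o w).2.2.1 := fun o =>
    Primrec.fst.comp (Primrec.snd.comp (Primrec.snd.comp (prim_ent o)))
  have a4 : ∀ o, Primrec fun w => (ent o w).2.2.2 := fun o =>
    Primrec.snd.comp (Primrec.snd.comp (Primrec.snd.comp (prim_ent o)))
  exact Primrec.list_cons.comp (a1 0) (Primrec.list_cons.comp (a2 0)
    (Primrec.list_cons.comp (a3 0) (Primrec.list_cons.comp (a4 0)
    (Primrec.list_cons.comp (a1 4) (Primrec.list_cons.comp (a2 4)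
    (Primrec.list_cons.comp (a3 4) (Primrec.list_cons.comp (a4 4)
      (Primrec.const []))))))))

theorem prim_entP : Primrec₂ entP :=
  (Primrec.list_getD ([] : PL)).comp (prim_ents.comp Primrec.snd) Primrec.fst

theorem prim_count {α : Type} [Primcodable α] [DecidableEq α] :
    Primrec₂ fun (x : α) (l : List α) => l.count x := by
  have h : Primrec₂ fun (l : List α) (x : α) => l.filter (fun a => decide (a = x)) :=
    PrimrecRel.listFilter (R := fun a x : α => a = x) Primrec.eq
  have h2 : Primrec₂ fun (x : α) (l : List α) => (l.filter (fun a => decide (a = x))).length :=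
    Primrec.list_length.comp (h.comp Primrec.snd Primrec.fst)
  refine h2.of_eq ?_
  intro x l
  rw [List.count_eq_length_filter]
  congr 1

theorem prim_perm {α : Type} [Primcodable α] [DecidableEq α] :
    PrimrecRel fun (m' m : List α) => m'.Perm m := by
  have hR : PrimrecRel fun (x : α) (y : List α × List α) => y.1.count x = y.2.count x :=
    PrimrecRel.comp Primrec.eq
      (prim_count.comp Primrec.fst (Primrec.fst.comp Primrec.snd))
      (prim_count.comp Primrec.fst (Primrec.snd.comp Primrec.snd))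
  have h1 : PrimrecRel fun (m' m : List α) => ∀ x ∈ m' ++ m, m'.count x = m.count x :=
    hR.forall_mem_list.comp (f := fun p : List α × List α => p.1 ++ p.2) (g := fun p => p)
      (Primrec.list_append.comp Primrec.fst Primrec.snd) Primrec.id
  refine h1.of_eq ?_
  intro m' m
  rw [List.perm_iff_count]
  constructor
  · intro h x
    by_cases hx : x ∈ m' ++ m
    · exact h x hx
    · rw [List.mem_append, not_or] at hx
      rw [List.count_eq_zero_of_not_mem hx.1, List.count_eq_zero_of_not_mem hx.2]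
  · intro h x _
    exact h x

theorem prim_cnt : Primrec₂ cnt := by
  have h : Primrec₂ fun (P : PL) (m : List Vr) => P.filter (fun m' => decide (m'.Perm m)) :=
    PrimrecRel.listFilter (R := fun m' m : List Vr => m'.Perm m) prim_perm
  exact Primrec.list_length.comp (h.comp Primrec.snd Primrec.fst)

theorem prim_polyEq : PrimrecRel polyEq := by
  have hR : PrimrecRel fun (m : List Vr) (y : PL × PL) => cnt m y.1 = cnt m y.2 :=
    PrimrecRel.comp Primrec.eq
      (prim_cnt.comp Primrec.fst (Primrec.fst.comp Primrec.snd))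
      (prim_cnt.comp Primrec.fst (Primrec.snd.comp Primrec.snd))
  exact hR.forall_mem_list.comp (f := fun p : PL × PL => p.1 ++ p.2) (g := fun p => p)
      (Primrec.list_append.comp Primrec.fst Primrec.snd) Primrec.id

abbrev CT := List (List Lt × PL × PL)

theorem prim_Ident : PrimrecRel Ident := by
  have hf : ∀ sel : List Lt × PL × PL → PL, Primrec sel →
      Primrec fun p : ℕ × (List Lt × CT) => p.2.2.flatMap (fun x => pmul (sel x) (entP p.1 x.1)) := by
    intro sel hsel
    exact Primrec.list_flatMap (f := fun p : ℕ × (List Lt × CT) => p.2.2)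
      (g := fun p x => pmul (sel x) (entP p.1 x.1)) (Primrec.snd.comp Primrec.snd)
      (prim_pmul.comp (hsel.comp Primrec.snd)
        (prim_entP.comp (Primrec.fst.comp Primrec.fst) (Primrec.fst.comp Primrec.snd)))
  have hR : PrimrecRel fun (e : ℕ) (y : List Lt × CT) =>
      polyEq (entP e y.1 ++ y.2.flatMap (fun x => pmul x.2.1 (entP e x.1)))
        (y.2.flatMap (fun x => pmul x.2.2 (entP e x.1))) := by
    refine PrimrecRel.comp prim_polyEq ?_ ?_
    · exact Primrec.list_append.comp (prim_entP.comp Primrec.fst (Primrec.fst.comp Primrec.snd))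
        (hf (fun x => x.2.1) (Primrec.fst.comp Primrec.snd))
    · exact hf (fun x => x.2.2) (Primrec.snd.comp Primrec.snd)
  exact hR.forall_mem_list.comp (f := fun _ : List Lt × CT => List.range 8) (g := fun p => p)
    (Primrec.const _) Primrec.id

theorem prim_mem {α : Type} [Primcodable α] : PrimrecRel fun (x : α) (l : List α) => x ∈ l := by
  have h : PrimrecRel fun (l : List α) (b : α) => ∃ c ∈ l, c = b :=
    (Primrec.eq (α := α)).exists_mem_list
  exact (h.comp Primrec.snd Primrec.fst).of_eq (fun p => by simp)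

theorem s1_InMod : S1 fun p : List (List Lt) × List Lt => InMod p.1 p.2 := by
  refine S1.exists (q := fun (p : List (List Lt) × List Lt) (c : CT) =>
    (∀ x ∈ c, x.1 ∈ p.1) ∧ Ident p.2 c) ?_
  refine S1.and ?_ (S1.of_prim ?_)
  · refine S1.forall_mem' (q := fun (y : (List (List Lt) × List Lt) × CT)
      (x : List Lt × PL × PL) => x.1 ∈ y.1.1) Primrec.snd (S1.of_prim ?_)
    exact prim_mem.comp (Primrec.fst.comp Primrec.snd)
      (Primrec.fst.comp (Primrec.fst.comp Primrec.fst))
  · exact prim_Ident.comp (Primrec.snd.comp Primrec.fst) Primrec.snd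

abbrev Cert := List ((ℕ × Option ℕ) × List (List Lt))

def KC (C : Cert) (A : ℕ) (t : Option ℕ) : List (List Lt) :=
  (@List.lookup _ _ instBEqOfDecidableEq (A, t) C).getD []

theorem prim_KC : Primrec fun p : Cert × ℕ × Option ℕ => KC p.1 p.2.1 p.2.2 :=
  Primrec.option_getD.comp (Primrec.listLookup.comp Primrec.snd Primrec.fst) (Primrec.const [])

theorem prim_lets {β : Type} [Primcodable β] {κ : β → ℕ → List (List Lt)} (hκ : Primrec₂ κ) :
    Primrec₂ fun (b : β) (z : Lt) => lets (κ b) z := by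
  refine Primrec.sumCasesOn (f := fun p : β × Lt => p.2) (g := fun p q => κ p.1 q.1)
    (h := fun _ a => [[Sum.inr a]]) Primrec.snd ?_ ?_ |>.of_eq ?_
  · exact hκ.comp (Primrec.fst.comp Primrec.fst) (Primrec.fst.comp Primrec.snd)
  · exact Primrec.list_cons.comp (Primrec.list_cons.comp (Primrec.sumInr.comp Primrec.snd)
      (Primrec.const [])) (Primrec.const [])
  · rintro ⟨b, z⟩
    cases z <;> rfl

theorem prim_subst {β : Type} [Primcodable β] {κ : β → ℕ → List (List Lt)} (hκ : Primrec₂ κ) :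
    Primrec₂ fun (b : β) (u : List Lt) => subst (κ b) u := by
  refine Primrec.list_foldr (α := β × List Lt) (f := fun p => p.2) (g := fun _ => [[]])
    (h := fun p y => (lets (κ p.1) y.1).flatMap (fun x => y.2.map (fun z => x ++ z)))
    Primrec.snd (Primrec.const _) ?_
  refine Primrec.list_flatMap (α := (β × List Lt) × (Lt × List (List Lt)))
    (f := fun q => lets (κ q.1.1) q.2.1) (g := fun q x => q.2.2.map (fun z => x ++ z)) ?_ ?_
  · exact (prim_lets hκ).comp (Primrec.fst.comp Primrec.fst) (Primrec.fst.comp Primrec.snd)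
  · refine Primrec.list_map (f := fun q : ((β × List Lt) × (Lt × List (List Lt))) × List Lt =>
      q.1.2.2) (g := fun q z => q.2 ++ z) ?_ ?_
    · exact Primrec.snd.comp (Primrec.snd.comp Primrec.fst)
    · exact Primrec.list_append.comp (Primrec.snd.comp Primrec.fst) Primrec.snd

theorem prim_toLt : Primrec toLt := by
  refine Primrec.list_map (f := fun α : List (ℕ ⊕ ℕ) => α)
    (g := fun _ z => Sum.map (fun B => (B, 0)) id z) Primrec.id ?_
  refine (Primrec.sumCasesOn (f := fun p : List (ℕ ⊕ ℕ) × (ℕ ⊕ ℕ) => p.2)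
    (g := fun _ B => (Sum.inl (B, 0) : Lt)) (h := fun _ a => (Sum.inr a : Lt)) Primrec.snd
    ?_ ?_).of_eq ?_
  · exact Primrec.sumInl.comp (Primrec.pair Primrec.snd (Primrec.const 0))
  · exact Primrec.sumInr.comp Primrec.snd
  · rintro ⟨α, z⟩
    cases z <;> rfl

theorem prim_fro : Primrec fro := by
  refine Primrec.list_map (f := fun _ : ℕ => List.range 8)
    (g := fun C i => ([Sum.inl (C, i)] : List Lt)) (Primrec.const _) ?_
  exact Primrec.list_cons.comp (Primrec.sumInl.comp (Primrec.pair Primrec.fst Primrec.snd))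
    (Primrec.const [])

theorem prim_tops : Primrec tops := by
  refine Primrec.list_cons.comp (Primrec.const none) (Primrec.list_append.comp ?_ ?_)
  · refine Primrec.list_map (f := fun G : IGr => G.2.2.1) (g := fun _ r => some r.2.2)
      (Primrec.fst.comp (Primrec.snd.comp Primrec.snd)) ?_
    exact Primrec.option_some.comp (Primrec.snd.comp (Primrec.snd.comp Primrec.snd))
  · refine Primrec.list_map (f := fun G : IGr => G.2.2.2) (g := fun _ r => some r.2.1)
      (Primrec.snd.comp (Primrec.snd.comp Primrec.snd)) ?_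
    exact Primrec.option_some.comp (Primrec.fst.comp (Primrec.snd.comp Primrec.snd))

def ValidC (G : IGr) (C : Cert) : Prop := Valid G (KC C)

theorem prim_substKC : Primrec fun x : (Cert × Option ℕ) × List Lt =>
    subst (fun A => KC x.1.1 A x.1.2) x.2 := by
  have h : Primrec₂ fun (b : Cert × Option ℕ) (A : ℕ) => KC b.1 A b.2 :=
    prim_KC.comp (Primrec.pair (Primrec.fst.comp Primrec.fst)
      (Primrec.pair Primrec.snd (Primrec.snd.comp Primrec.fst)))
  exact prim_subst h

theorem prim_substFro : Primrec fun x : List Lt => subst fro x := by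
  have h : Primrec₂ fun (b : Unit) (A : ℕ) => fro A := prim_fro.comp Primrec.snd
  exact (prim_subst h).comp (Primrec.const ()) Primrec.id

section irr
attribute [local irreducible] subst KC toLt InMod tops fro S1 Primrec

theorem s1_copy : S1 fun p : IGr × Cert => ∀ r ∈ p.1.2.1, ∀ t ∈ tops p.1,
      ∀ k ∈ subst (fun C => KC p.2 C t) (toLt r.2), InMod (KC p.2 r.1 t) k := by
  refine S1.forall_mem' (Primrec.fst.comp (Primrec.snd.comp Primrec.fst)) ?_
  refine S1.forall_mem' (prim_tops.comp (Primrec.fst.comp Primrec.fst)) ?_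
  refine S1.forall_mem' (α := ((IGr × Cert) × (ℕ × List (ℕ ⊕ ℕ))) × Option ℕ)
    (f := fun x => subst (fun C => KC x.1.1.2 C x.2) (toLt x.1.2.2)) ?_ ?_
  · exact prim_substKC.comp (g := fun x : ((IGr × Cert) × (ℕ × List (ℕ ⊕ ℕ))) × Option ℕ =>
      ((x.1.1.2, x.2), toLt x.1.2.2))
      (Primrec.pair
        (Primrec.pair (Primrec.snd.comp (Primrec.fst.comp Primrec.fst)) Primrec.snd)
        (prim_toLt.comp (Primrec.snd.comp (Primrec.snd.comp Primrec.fst))))
  · have h1 : Primrec fun y : (((IGr × Cert) × (ℕ × List (ℕ ⊕ ℕ))) × Option ℕ) ×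
        List Lt => y.1.1.1.2 := Primrec.snd.comp (Primrec.fst.comp (Primrec.fst.comp Primrec.fst))
    have h2 : Primrec fun y : (((IGr × Cert) × (ℕ × List (ℕ ⊕ ℕ))) × Option ℕ) ×
        List Lt => y.1.1.2.1 := Primrec.fst.comp (Primrec.snd.comp (Primrec.fst.comp Primrec.fst))
    have h3 : Primrec fun y : (((IGr × Cert) × (ℕ × List (ℕ ⊕ ℕ))) × Option ℕ) ×
        List Lt => y.1.2 := Primrec.snd.comp Primrec.fst
    exact s1_InMod.comp (f := fun y : (((IGr × Cert) × (ℕ × List (ℕ ⊕ ℕ))) × Option ℕ) ×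
      List Lt => (KC y.1.1.1.2 y.1.1.2.1 y.1.2, y.2))
      (Primrec.pair (prim_KC.comp (Primrec.pair h1 (Primrec.pair h2 h3))) Primrec.snd)

theorem s1_push : S1 fun p : IGr × Cert => ∀ r ∈ p.1.2.2.1, ∀ t ∈ tops p.1,
      ∀ k ∈ KC p.2 r.2.1 (some r.2.2),
        ∀ k' ∈ subst (fun C => KC p.2 C t) k, InMod (KC p.2 r.1 t) k' := by
  refine S1.forall_mem' (Primrec.fst.comp (Primrec.snd.comp (Primrec.snd.comp Primrec.fst))) ?_
  refine S1.forall_mem' (prim_tops.comp (Primrec.fst.comp Primrec.fst)) ?_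
  refine S1.forall_mem' (α := ((IGr × Cert) × (ℕ × ℕ × ℕ)) × Option ℕ)
    (f := fun x => KC x.1.1.2 x.1.2.2.1 (some x.1.2.2.2)) ?_ ?_
  · have h1 : Primrec fun x : ((IGr × Cert) × (ℕ × ℕ × ℕ)) × Option ℕ => x.1.1.2 :=
      Primrec.snd.comp (Primrec.fst.comp Primrec.fst)
    have h2 : Primrec fun x : ((IGr × Cert) × (ℕ × ℕ × ℕ)) × Option ℕ => x.1.2.2.1 :=
      Primrec.fst.comp (Primrec.snd.comp (Primrec.snd.comp Primrec.fst))
    have h3 : Primrec fun x : ((IGr × Cert) × (ℕ × ℕ × ℕ)) × Option ℕ => some x.1.2.2.2 :=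
      Primrec.option_some.comp (Primrec.snd.comp (Primrec.snd.comp
        (Primrec.snd.comp Primrec.fst)))
    exact prim_KC.comp (Primrec.pair h1 (Primrec.pair h2 h3))
  · refine S1.forall_mem' (α := (((IGr × Cert) × (ℕ × ℕ × ℕ)) × Option ℕ) × List Lt)
      (f := fun x => subst (fun C => KC x.1.1.1.2 C x.1.2) x.2) ?_ ?_
    · exact prim_substKC.comp
        (g := fun x : (((IGr × Cert) × (ℕ × ℕ × ℕ)) × Option ℕ) × List Lt =>
          ((x.1.1.1.2, x.1.2), x.2)) (Primrec.pair
        (Primrec.pair (Primrec.snd.comp (Primrec.fst.comp (Primrec.fst.comp Primrec.fst)))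
          (Primrec.snd.comp Primrec.fst)) Primrec.snd)
    · have h1 : Primrec fun y : ((((IGr × Cert) × (ℕ × ℕ × ℕ)) × Option ℕ) × List Lt) ×
          List Lt => y.1.1.1.1.2 := Primrec.snd.comp (Primrec.fst.comp (Primrec.fst.comp
          (Primrec.fst.comp Primrec.fst)))
      have h2 : Primrec fun y : ((((IGr × Cert) × (ℕ × ℕ × ℕ)) × Option ℕ) × List Lt) ×
          List Lt => y.1.1.1.2.1 := Primrec.fst.comp (Primrec.snd.comp (Primrec.fst.comp
          (Primrec.fst.comp Primrec.fst)))
      have h3 : Primrec fun y : ((((IGr × Cert) × (ℕ × ℕ × ℕ)) × Option ℕ) × List Lt) ×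
          List Lt => y.1.1.2 := Primrec.snd.comp (Primrec.fst.comp Primrec.fst)
      exact s1_InMod.comp (f := fun y : ((((IGr × Cert) × (ℕ × ℕ × ℕ)) × Option ℕ) × List Lt) ×
        List Lt => (KC y.1.1.1.1.2 y.1.1.1.2.1 y.1.1.2, y.2))
        (Primrec.pair (prim_KC.comp (Primrec.pair h1 (Primrec.pair h2 h3))) Primrec.snd)

theorem s1_pop : S1 fun p : IGr × Cert => ∀ r ∈ p.1.2.2.2, ∀ k ∈ subst fro (toLt r.2.2),
      InMod (KC p.2 r.1 (some r.2.1)) k := by
  refine S1.forall_mem' (Primrec.snd.comp (Primrec.snd.comp (Primrec.snd.comp Primrec.fst))) ?_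
  refine S1.forall_mem' (α := (IGr × Cert) × (ℕ × ℕ × List (ℕ ⊕ ℕ)))
    (f := fun x => subst fro (toLt x.2.2.2)) ?_ ?_
  · exact prim_substFro.comp (g := fun x : (IGr × Cert) × (ℕ × ℕ × List (ℕ ⊕ ℕ)) =>
      toLt x.2.2.2) (prim_toLt.comp (Primrec.snd.comp (Primrec.snd.comp Primrec.snd)))
  · have h1 : Primrec fun y : ((IGr × Cert) × (ℕ × ℕ × List (ℕ ⊕ ℕ))) ×
        List Lt => y.1.1.2 := Primrec.snd.comp (Primrec.fst.comp Primrec.fst)
    have h2 : Primrec fun y : ((IGr × Cert) × (ℕ × ℕ × List (ℕ ⊕ ℕ))) ×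
        List Lt => y.1.2.1 := Primrec.fst.comp (Primrec.snd.comp Primrec.fst)
    have h3 : Primrec fun y : ((IGr × Cert) × (ℕ × ℕ × List (ℕ ⊕ ℕ))) ×
        List Lt => some y.1.2.2.1 := Primrec.option_some.comp (Primrec.fst.comp
        (Primrec.snd.comp (Primrec.snd.comp Primrec.fst)))
    exact s1_InMod.comp (f := fun y : ((IGr × Cert) × (ℕ × ℕ × List (ℕ ⊕ ℕ))) ×
        List Lt => (KC y.1.1.2 y.1.2.1 (some y.1.2.2.1), y.2))
      (Primrec.pair (prim_KC.comp (Primrec.pair h1 (Primrec.pair h2 h3))) Primrec.snd)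

theorem s1_ValidC : S1 fun p : IGr × Cert => ValidC p.1 p.2 := by
  refine (s1_copy.and (s1_push.and s1_pop)).of_eq ?_
  intro p
  exact ⟨fun ⟨a, b, c⟩ => ⟨a, b, c⟩, fun ⟨a, b, c⟩ => ⟨a, b, c⟩⟩

end irr

theorem lookup_map_getD {α β : Type} [DecidableEq α] (f : α → List β) (a : α) (l : List α) :
    ((l.map (fun x => (x, f x))).lookup a).getD [] = if a ∈ l then f a else [] := by
  induction l with
  | nil => simp
  | cons x l ih =>
    rw [List.map_cons, List.lookup_cons]
    by_cases hx : a = x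
    · subst hx; simp
    · have hb : (a == x) = false := decide_eq_false hx
      rw [hb]
      refine ih.trans ?_
      simp [hx]

/-- a certificate as a list -/
theorem exists_certC (G : IGr) : ∃ C : Cert, ValidC G C ∧ ∀ A t, ∀ k ∈ KC C A t, k ∈ KG G A t := by
  obtain ⟨K, hV, hK, hfin⟩ := exists_cert G
  let C : Cert := ((lhs G).product (tops G)).map (fun x => (x, K x.1 x.2))
  have hC : ∀ A t, KC C A t = K A t := by
    intro A t
    have h := lookup_map_getD (fun x : ℕ × Option ℕ => K x.1 x.2) (A, t)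
      ((lhs G).product (tops G))
    rw [KC, h]
    rcases hfin A t with h1 | h1
    · rw [if_pos]
      exact List.mem_product.2 h1
    · rw [h1]; simp
  have hCK : KC C = K := by
    funext A t; exact hC A t
  refine ⟨C, ?_, ?_⟩
  · rw [ValidC, hCK]; exact hV
  · rw [hCK]; exact hK

end Pool.Agent.Helper230
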